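import Pool.Agent.Helper242.RK.Harnack

set_option autoImplicit false

/-!
# Carleman's formula and the main theorem
-/

namespace Pool.Agent.Helper242.RK

open Complex Filter Topology MeasureTheory

/-- lower bound on the whole line `Im z = 1` -/
lemma line_lower {α : ℝ} (hα : 0 < α) (hs : Real.sin (Real.pi * α) ≠ 0)
    (hF : ∀ z : ℂ, z.im ≠ 0 → F α z ≠ 0) :
    ∃ y' : ℝ, 0 < y' ∧ y' < Real.pi / 8 ∧ ∃ C : ℝ, 0 < C ∧ ∀ x : ℝ,
      -C - y' * |x| ≤ Real.log ‖F α (x + I)‖ := by
  obtain ⟨y', hy0, hy', c, hc, X0, hX0, hlow⟩ := F_lower hα hs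
  have hne : ∀ x : ℝ, F α ((x : ℂ) + I) ≠ 0 := fun x => hF _ (by simp)
  have hcont : ContinuousOn (fun x : ℝ => Real.log ‖F α ((x : ℂ) + I)‖) (Set.Icc 0 X0) := by
    refine ContinuousOn.log ?_ fun x _ => norm_ne_zero_iff.2 (hne x)
    have := (differentiable_F hα).continuous
    fun_prop
  obtain ⟨x1, hx1, hmin⟩ := isCompact_Icc.exists_isMinOn (Set.nonempty_Icc.2 hX0.le) hcont
  set B := Real.log ‖F α ((x1 : ℂ) + I)‖ with hB
  have key : ∀ x : ℝ, 0 ≤ x → -(|B| + |Real.log c| + 1) - y' * x ≤ Real.log ‖F α (x + I)‖ := by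
    intro x hx
    rcases le_total x X0 with h | h
    · have h1 : B ≤ Real.log ‖F α ((x : ℂ) + I)‖ := hmin ⟨hx, h⟩
      have h2 := neg_abs_le B
      have h3 := abs_nonneg (Real.log c)
      have h4 : 0 ≤ y' * x := by positivity
      linarith
    · have h1 := hlow x h
      have h2 := Real.log_le_log (by positivity) h1
      rw [Real.log_mul hc.ne' (Real.exp_ne_zero _), Real.log_exp] at h2
      have h3 := neg_abs_le (Real.log c)
      have h4 := abs_nonneg B
      linarith
  refine ⟨y', hy0, hy', |B| + |Real.log c| + 1, by positivity, fun x => ?_⟩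
  rcases le_total 0 x with h | h
  · rw [abs_of_nonneg h]; exact key x h
  · have h1 := key (-x) (by linarith)
    rw [abs_of_nonpos h]
    have h2 := norm_symm α (x : ℂ)
    rw [conj_ofReal] at h2
    push_cast at h1
    rwa [h2] at h1

/-- the zero-free case of Carleman's formula, as an inequality -/
lemma carleman {f : ℂ → ℂ} (hf : DifferentiableOn ℂ f {z | -1 < z.im})
    (h0 : ∀ z : ℂ, -1 < z.im → f z ≠ 0) :
    ∃ C : ℝ, ∀ R : ℝ, 1 ≤ R →
      (∫ x in (0 : ℝ)..Real.log R, (Real.log ‖f (Real.exp x)‖ + Real.log ‖f (-Real.exp x)‖) *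
        (Real.exp (-x) - Real.exp x / R ^ 2)) +
      (∫ y in (0 : ℝ)..Real.pi, 2 / R * (Real.log ‖f (R * cexp (y * I))‖ * Real.sin y)) ≤ C := by
  have hconv : Convex ℝ {z : ℂ | -1 < z.im} := convex_halfSpace_im_gt _
  have hopen : IsOpen {z : ℂ | -1 < z.im} := isOpen_lt continuous_const continuous_im
  obtain ⟨L, hLd, hL⟩ := exists_log hconv hopen ⟨0, by simp⟩ hf h0
  have hre : ∀ z : ℂ, -1 < z.im → Real.log ‖f z‖ = (L z).re := by
    intro z hz
    rw [← hL z hz, norm_exp, Real.log_exp]
  have hLdiff : ∀ z : ℂ, -1 < z.im → DifferentiableAt ℂ L z := fun z hz =>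
    (hLd z hz).differentiableAt (hopen.mem_nhds hz)
  -- bound on the unit half circle
  have hcontL : ContinuousOn (fun y : ℝ => ‖L (cexp (y * I))‖) (Set.Icc 0 Real.pi) := by
    intro y hy
    have him : -1 < (cexp (y * I)).im := by
      rw [exp_ofReal_mul_I_im]
      linarith [Real.sin_nonneg_of_nonneg_of_le_pi hy.1 hy.2]
    have h1 : ContinuousAt L (cexp (y * I)) := (hLdiff _ him).continuousAt
    have h2 : ContinuousAt (fun y : ℝ => cexp (y * I)) y := by fun_prop
    exact (continuous_norm.continuousAt.comp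
      (ContinuousAt.comp (f := fun y : ℝ => cexp (y * I)) h1 h2)).continuousWithinAt
  obtain ⟨yM, -, hmax⟩ := isCompact_Icc.exists_isMaxOn (Set.nonempty_Icc.2 Real.pi_pos.le) hcontL
  set B := ‖L (cexp (yM * I))‖ with hB
  have hB0 : 0 ≤ B := norm_nonneg _
  refine ⟨2 * B * Real.pi, fun R hR => ?_⟩
  have hR0 : 0 < R := by linarith
  have hlR : 0 ≤ Real.log R := Real.log_nonneg hR
  set Q : ℂ → ℂ := fun ζ => L (cexp ζ) * (cexp ζ / R ^ 2 - cexp (-ζ)) with hQ
  have hQd : ∀ ζ : ℂ, 0 ≤ ζ.im → ζ.im ≤ Real.pi → DifferentiableAt ℂ Q ζ := by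
    intro ζ h1 h2
    have him : -1 < (cexp ζ).im := by
      rw [exp_im]
      have := mul_nonneg (Real.exp_pos ζ.re).le (Real.sin_nonneg_of_nonneg_of_le_pi h1 h2)
      linarith
    have h3 : DifferentiableAt ℂ (fun ζ => L (cexp ζ)) ζ :=
      DifferentiableAt.comp (g := L) ζ (hLdiff _ him) (differentiableAt_exp)
    rw [hQ]
    exact h3.mul (by fun_prop)
  have hrect := integral_boundary_rect_eq_zero_of_differentiableOn Q 0
    ((Real.log R : ℝ) + (Real.pi : ℝ) * I) (by
      intro ζ hζ
      rw [mem_reProdIm] at hζ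
      have h1 := hζ.2
      simp only [zero_im, add_im, ofReal_im, mul_im, ofReal_re, I_im, mul_one, I_re, mul_zero,
        add_zero, zero_add, Set.uIcc_of_le Real.pi_pos.le] at h1
      exact (hQd ζ h1.1 h1.2).differentiableWithinAt)
  simp only [zero_re, zero_im, add_re, ofReal_re, mul_re, I_re, mul_zero, ofReal_im, I_im, mul_one,
    sub_self, add_zero, add_im, mul_im, zero_add, ofReal_zero, zero_mul, smul_eq_mul] at hrect
  -- continuity of the four integrands
  have hQc : ∀ ζ : ℂ, 0 ≤ ζ.im → ζ.im ≤ Real.pi → ContinuousAt Q ζ :=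
    fun ζ h1 h2 => (hQd ζ h1 h2).continuousAt
  have i1 : IntervalIntegrable (fun x : ℝ => Q x) volume 0 (Real.log R) := by
    refine ContinuousOn.intervalIntegrable fun x _ => ?_
    exact (ContinuousAt.comp (f := fun x : ℝ => (x : ℂ)) (hQc x (by simp)
      (by simpa using Real.pi_pos.le)) (by fun_prop)).continuousWithinAt
  have i2 : IntervalIntegrable (fun x : ℝ => Q (x + Real.pi * I)) volume 0 (Real.log R) := by
    refine ContinuousOn.intervalIntegrable fun x _ => ?_
    exact (ContinuousAt.comp (f := fun x : ℝ => (x : ℂ) + Real.pi * I) (hQc _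
      (by simpa using Real.pi_pos.le) (by simp)) (by fun_prop)).continuousWithinAt
  have i3 : IntervalIntegrable (fun y : ℝ => Q (Real.log R + y * I)) volume 0 Real.pi := by
    refine ContinuousOn.intervalIntegrable fun y hy => ?_
    rw [Set.uIcc_of_le Real.pi_pos.le] at hy
    exact (ContinuousAt.comp (f := fun y : ℝ => ((Real.log R : ℝ) : ℂ) + y * I) (hQc _
      (by simpa using hy.1) (by simpa using hy.2)) (by fun_prop)).continuousWithinAt
  -- real parts
  have r1 : (∫ x in (0 : ℝ)..Real.log R, Q x).re =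
      -∫ x in (0 : ℝ)..Real.log R, Real.log ‖f (Real.exp x)‖ *
        (Real.exp (-x) - Real.exp x / R ^ 2) := by
    have h := reCLM.intervalIntegral_comp_comm i1
    simp only [reCLM_apply] at h
    rw [← h, ← intervalIntegral.integral_neg]
    refine intervalIntegral.integral_congr fun x _ => ?_
    have e1 : cexp (x : ℂ) / (R : ℂ) ^ 2 - cexp (-(x : ℂ)) =
        ((Real.exp x / R ^ 2 - Real.exp (-x) : ℝ) : ℂ) := by push_cast; ring
    simp only [hQ]
    rw [e1, re_mul_ofReal, hre _ (by rw [ofReal_im]; norm_num), ← ofReal_exp]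
    ring
  have r2 : (∫ x in (0 : ℝ)..Real.log R, Q (x + Real.pi * I)).re =
      ∫ x in (0 : ℝ)..Real.log R, Real.log ‖f (-Real.exp x)‖ *
        (Real.exp (-x) - Real.exp x / R ^ 2) := by
    have h := reCLM.intervalIntegral_comp_comm i2
    simp only [reCLM_apply] at h
    rw [← h]
    refine intervalIntegral.integral_congr fun x _ => ?_
    have e0 : cexp ((x : ℂ) + Real.pi * I) = -((Real.exp x : ℝ) : ℂ) := by
      rw [exp_add, exp_pi_mul_I, ofReal_exp]; ring
    have e0' : cexp (-((x : ℂ) + Real.pi * I)) = -((Real.exp (-x) : ℝ) : ℂ) := by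
      rw [neg_add, exp_add, exp_neg (Real.pi * I), exp_pi_mul_I]
      push_cast; norm_num
    simp only [hQ]
    rw [e0, e0']
    have e1 : -((Real.exp x : ℝ) : ℂ) / (R : ℂ) ^ 2 - -((Real.exp (-x) : ℝ) : ℂ) =
        ((Real.exp (-x) - Real.exp x / R ^ 2 : ℝ) : ℂ) := by push_cast; ring
    rw [e1, re_mul_ofReal, hre _ (by rw [neg_im, ofReal_im]; norm_num)]
  have r3 : (I * ∫ y in (0 : ℝ)..Real.pi, Q (Real.log R + y * I)).re =
      -∫ y in (0 : ℝ)..Real.pi, 2 / R * (Real.log ‖f (R * cexp (y * I))‖ * Real.sin y) := by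
    rw [I_mul_re]
    have h := imCLM.intervalIntegral_comp_comm i3
    simp only [imCLM_apply] at h
    rw [← h]
    congr 1
    refine intervalIntegral.integral_congr fun y hy => ?_
    rw [Set.uIcc_of_le Real.pi_pos.le] at hy
    have e0 : cexp (((Real.log R : ℝ) : ℂ) + y * I) = R * cexp (y * I) := by
      rw [exp_add, ← ofReal_exp, Real.exp_log hR0]
    have e0' : cexp (-(((Real.log R : ℝ) : ℂ) + y * I)) = (1 / R) * cexp (-(y * I)) := by
      rw [neg_add, exp_add, exp_neg ((Real.log R : ℝ) : ℂ), ← ofReal_exp, Real.exp_log hR0]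
      ring
    simp only [hQ]
    rw [e0, e0']
    have hRc : (R : ℂ) ≠ 0 := by exact_mod_cast hR0.ne'
    have e1 : (R : ℂ) * cexp (y * I) / (R : ℂ) ^ 2 - (1 / R) * cexp (-(y * I)) =
        ((2 / R * Real.sin y : ℝ) : ℂ) * I := by
      have h1 : (R : ℂ) * cexp (y * I) / (R : ℂ) ^ 2 = (1 / R) * cexp (y * I) := by
        field_simp
      rw [h1, exp_mul_I, show -((y : ℂ) * I) = (-(y : ℂ)) * I by ring, exp_mul_I, Complex.cos_neg,
        Complex.sin_neg]
      push_cast
      ring
    have him : -1 < ((R : ℂ) * cexp (y * I)).im := by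
      rw [im_ofReal_mul, exp_ofReal_mul_I_im]
      have := mul_nonneg hR0.le (Real.sin_nonneg_of_nonneg_of_le_pi hy.1 hy.2)
      linarith
    rw [e1, hre _ him, ← mul_assoc, mul_I_im, re_mul_ofReal]
    ring
  have r4 : |(I * ∫ y in (0 : ℝ)..Real.pi, Q (y * I)).re| ≤ 2 * B * Real.pi := by
    refine (abs_re_le_norm _).trans ?_
    rw [norm_mul, norm_I, one_mul]
    have h : ‖∫ y in (0 : ℝ)..Real.pi, Q (y * I)‖ ≤ 2 * B * |Real.pi - 0| := by
      refine intervalIntegral.norm_integral_le_of_norm_le_const fun y hy => ?_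
      rw [Set.uIoc_of_le Real.pi_pos.le] at hy
      simp only [hQ]
      rw [norm_mul]
      have h1 : ‖L (cexp (y * I))‖ ≤ B := hmax ⟨hy.1.le, hy.2⟩
      have h2 : ‖cexp (y * I) / (R : ℂ) ^ 2 - cexp (-(y * I))‖ ≤ 2 := by
        refine (norm_sub_le _ _).trans ?_
        have e1 : ‖cexp (y * I) / (R : ℂ) ^ 2‖ ≤ 1 := by
          rw [norm_div, norm_exp_ofReal_mul_I, norm_pow, norm_real, Real.norm_of_nonneg hR0.le]
          rw [div_le_one (by positivity)]
          nlinarith
        have e2 : ‖cexp (-(y * I))‖ = 1 := by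
          rw [show -((y : ℂ) * I) = ((-y : ℝ) : ℂ) * I by push_cast; ring, norm_exp_ofReal_mul_I]
        linarith
      calc _ ≤ B * 2 := mul_le_mul h1 h2 (norm_nonneg _) hB0
        _ = 2 * B := by ring
    rwa [sub_zero, abs_of_pos Real.pi_pos] at h
  have hsum : (∫ x in (0 : ℝ)..Real.log R, (Real.log ‖f (Real.exp x)‖ +
      Real.log ‖f (-Real.exp x)‖) * (Real.exp (-x) - Real.exp x / R ^ 2)) =
      (∫ x in (0 : ℝ)..Real.log R, Real.log ‖f (Real.exp x)‖ *
        (Real.exp (-x) - Real.exp x / R ^ 2)) +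
      ∫ x in (0 : ℝ)..Real.log R, Real.log ‖f (-Real.exp x)‖ *
        (Real.exp (-x) - Real.exp x / R ^ 2) := by
    rw [← intervalIntegral.integral_add]
    · refine intervalIntegral.integral_congr fun x _ => ?_
      ring
    · refine ContinuousOn.intervalIntegrable fun x _ => ?_
      have h1 : ContinuousAt (fun x : ℝ => Real.log ‖f (Real.exp x)‖) x := by
        have h2 : ContinuousAt (fun x : ℝ => (L ((Real.exp x : ℝ) : ℂ)).re) x := by
          refine continuous_re.continuousAt.comp ?_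
          exact ContinuousAt.comp (f := fun x : ℝ => ((Real.exp x : ℝ) : ℂ))
            (hLdiff _ (by rw [ofReal_im]; norm_num)).continuousAt (by fun_prop)
        refine h2.congr (Eventually.of_forall fun x => ?_)
        exact (hre _ (by rw [ofReal_im]; norm_num)).symm
      exact (h1.mul (by fun_prop)).continuousWithinAt
    · refine ContinuousOn.intervalIntegrable fun x _ => ?_
      have h1 : ContinuousAt (fun x : ℝ => Real.log ‖f (-Real.exp x)‖) x := by
        have h2 : ContinuousAt (fun x : ℝ => (L (-((Real.exp x : ℝ) : ℂ))).re) x := by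
          refine continuous_re.continuousAt.comp ?_
          exact ContinuousAt.comp (f := fun x : ℝ => -((Real.exp x : ℝ) : ℂ))
            (hLdiff _ (by rw [neg_im, ofReal_im]; norm_num)).continuousAt (by fun_prop)
        refine h2.congr (Eventually.of_forall fun x => ?_)
        exact (hre _ (by rw [neg_im, ofReal_im]; norm_num)).symm
      exact (h1.mul (by fun_prop)).continuousWithinAt
  have hfin := congrArg Complex.re hrect
  rw [sub_re, add_re, sub_re, r1, r2, r3, zero_re] at hfin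
  rw [hsum]
  have := (abs_le.1 r4).1
  linarith

end Pool.Agent.Helper242.RK
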