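import Pool.Agent.Helper242.RK.Lower

set_option autoImplicit false

/-!
# Basic growth properties of `F`
-/

namespace Pool.Agent.Helper242.RK

open Complex Filter Topology MeasureTheory

lemma Phi_rpow_bound {α : ℝ} (hα : 0 < α) (M : ℝ) :
    ∃ C : ℝ, 0 < C ∧ ∀ t : ℝ, 0 ≤ t → Phi t ^ α ≤ C * Real.exp (-M * t) := by
  obtain ⟨C, hC, h⟩ := PhiC_rpow_bound hα le_rfl (by positivity : (0 : ℝ) < Real.pi / 8) M
  refine ⟨C, hC, fun t ht => ?_⟩
  have := h t (by simp)
  rw [PhiC_ofReal, norm_real, Real.norm_of_nonneg (Phi_pos t).le, ofReal_re, abs_of_nonneg ht] at this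
  exact this

lemma continuous_Phi_rpow {α : ℝ} (hα : 0 < α) : Continuous fun t : ℝ => Phi t ^ α :=
  continuous_Phi.rpow_const fun _ => Or.inr hα.le

lemma norm_cos_le (w : ℂ) : ‖Complex.cos w‖ ≤ Real.cosh w.im := by
  rw [Complex.cos, norm_div, Real.cosh_eq]
  have h1 : ‖cexp (w * I)‖ = Real.exp (-w.im) := by rw [norm_exp]; simp
  have h2 : ‖cexp (-w * I)‖ = Real.exp w.im := by rw [norm_exp]; simp
  have h3 : ‖(2 : ℂ)‖ = 2 := by simp
  rw [h3]
  have := norm_add_le (cexp (w * I)) (cexp (-w * I))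
  rw [h1, h2] at this
  linarith

lemma cosh_le_exp_abs (x : ℝ) : Real.cosh x ≤ Real.exp |x| := by
  rw [Real.cosh_eq]
  have h1 : Real.exp x ≤ Real.exp |x| := Real.exp_le_exp.2 (le_abs_self x)
  have h2 : Real.exp (-x) ≤ Real.exp |x| := Real.exp_le_exp.2 (neg_le_abs x)
  linarith

lemma integrable_cosh {α : ℝ} (hα : 0 < α) (y : ℝ) :
    IntegrableOn (fun t : ℝ => Phi t ^ α * Real.cosh (y * t)) (Set.Ioi 0) := by
  obtain ⟨C, hC, hb⟩ := Phi_rpow_bound hα (|y| + 1)
  refine Integrable.mono' ((integrableOn_exp_neg_Ioi 0).const_mul C) ?_ ?_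
  · exact ((continuous_Phi_rpow hα).mul (by fun_prop)).aestronglyMeasurable
  · refine (ae_restrict_iff' measurableSet_Ioi).2 (Eventually.of_forall fun t ht => ?_)
    have ht' : (0 : ℝ) < t := ht
    have h1 := hb t ht'.le
    have h2 := cosh_le_exp_abs (y * t)
    rw [abs_mul, abs_of_pos ht'] at h2
    rw [Real.norm_of_nonneg (mul_nonneg (Real.rpow_nonneg (Phi_pos t).le α) (Real.cosh_pos _).le)]
    calc Phi t ^ α * Real.cosh (y * t) ≤ (C * Real.exp (-(|y| + 1) * t)) * Real.exp (|y| * t) :=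
          mul_le_mul h1 h2 (Real.cosh_pos _).le (by positivity)
      _ = C * Real.exp (-t) := by rw [mul_assoc, ← Real.exp_add]; congr 2; ring

/-- `m α y = ∫ Φ^α cosh (y t)`. -/
noncomputable def m (α y : ℝ) : ℝ := ∫ t in Set.Ioi (0 : ℝ), Phi t ^ α * Real.cosh (y * t)

lemma F_I (α y : ℝ) : F α ((y : ℂ) * I) = ((m α y : ℝ) : ℂ) := by
  rw [F, m, ← integral_complex_ofReal]
  refine setIntegral_congr_fun measurableSet_Ioi fun t _ => ?_
  rw [show (y : ℂ) * I * t = ((y * t : ℝ) : ℂ) * I by push_cast; ring, cos_mul_I, ← ofReal_cosh]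
  push_cast
  ring

lemma norm_F_le {α : ℝ} (hα : 0 < α) (z : ℂ) : ‖F α z‖ ≤ m α z.im := by
  refine norm_integral_le_of_norm_le (integrable_cosh hα z.im) ?_
  refine (ae_restrict_iff' measurableSet_Ioi).2 (Eventually.of_forall fun t ht => ?_)
  rw [norm_mul, norm_real, Real.norm_of_nonneg (Real.rpow_nonneg (Phi_pos t).le α)]
  refine mul_le_mul_of_nonneg_left ?_ (Real.rpow_nonneg (Phi_pos t).le α)
  have := norm_cos_le (z * t)
  rwa [im_mul_ofReal] at this

lemma F_neg (α : ℝ) (z : ℂ) : F α (-z) = F α z := by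
  unfold F
  refine setIntegral_congr_fun measurableSet_Ioi fun t _ => ?_
  rw [neg_mul, Complex.cos_neg]

lemma F_conj (α : ℝ) (z : ℂ) : F α ((starRingEnd ℂ) z) = (starRingEnd ℂ) (F α z) := by
  unfold F
  rw [← integral_conj]
  refine setIntegral_congr_fun measurableSet_Ioi fun t _ => ?_
  rw [map_mul, conj_ofReal, ← cos_conj, map_mul, conj_ofReal]

lemma differentiable_F {α : ℝ} (hα : 0 < α) : Differentiable ℂ (F α) := by
  intro z0
  obtain ⟨C, hC, hb⟩ := Phi_rpow_bound hα (‖z0‖ + 3)
  have hmeas : ∀ z : ℂ, AEStronglyMeasurable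
      (fun t : ℝ => ((Phi t ^ α : ℝ) : ℂ) * Complex.cos (z * t)) (volume.restrict (Set.Ioi 0)) := by
    intro z
    exact ((continuous_ofReal.comp (continuous_Phi_rpow hα)).mul
      (by fun_prop)).aestronglyMeasurable
  have hint : Integrable (fun t : ℝ => ((Phi t ^ α : ℝ) : ℂ) * Complex.cos (z0 * t))
      (volume.restrict (Set.Ioi 0)) := by
    refine Integrable.mono' (integrable_cosh hα z0.im) (hmeas z0) ?_
    refine (ae_restrict_iff' measurableSet_Ioi).2 (Eventually.of_forall fun t ht => ?_)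
    rw [norm_mul, norm_real, Real.norm_of_nonneg (Real.rpow_nonneg (Phi_pos t).le α)]
    refine mul_le_mul_of_nonneg_left ?_ (Real.rpow_nonneg (Phi_pos t).le α)
    have := norm_cos_le (z0 * t)
    rwa [im_mul_ofReal] at this
  have h := hasDerivAt_integral_of_dominated_loc_of_deriv_le (μ := volume.restrict (Set.Ioi 0))
    (F := fun (z : ℂ) (t : ℝ) => ((Phi t ^ α : ℝ) : ℂ) * Complex.cos (z * t))
    (F' := fun (z : ℂ) (t : ℝ) => ((Phi t ^ α : ℝ) : ℂ) * (-Complex.sin (z * t) * t))
    (x₀ := z0) (bound := fun t => C * Real.exp (-t)) (Metric.ball_mem_nhds z0 one_pos)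
    (Eventually.of_forall hmeas) hint ?_ ?_ ((integrableOn_exp_neg_Ioi 0).const_mul C) ?_
  · exact h.2.differentiableAt
  · exact ((continuous_ofReal.comp (continuous_Phi_rpow hα)).mul
      (by fun_prop)).aestronglyMeasurable
  · refine (ae_restrict_iff' measurableSet_Ioi).2 (Eventually.of_forall fun t ht z hz => ?_)
    have ht' : (0 : ℝ) < t := ht
    have h1 := hb t ht'.le
    have hzn : ‖z‖ ≤ ‖z0‖ + 1 := by
      have : ‖z - z0‖ < 1 := by simpa [dist_eq_norm] using hz
      calc ‖z‖ = ‖z0 + (z - z0)‖ := by congr 1; ring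
        _ ≤ ‖z0‖ + ‖z - z0‖ := norm_add_le _ _
        _ ≤ ‖z0‖ + 1 := by linarith
    have hsin : ‖Complex.sin (z * t)‖ ≤ Real.exp ((‖z0‖ + 1) * t) := by
      rw [Complex.sin, norm_div, norm_mul, norm_I, mul_one]
      have e1 : ‖cexp (-(z * t) * I)‖ ≤ Real.exp ((‖z0‖ + 1) * t) := by
        rw [norm_exp]
        refine Real.exp_le_exp.2 ((re_le_norm _).trans ?_)
        rw [norm_mul, norm_neg, norm_mul, norm_I, mul_one, norm_real, Real.norm_of_nonneg ht'.le]
        gcongr
      have e2 : ‖cexp ((z * t) * I)‖ ≤ Real.exp ((‖z0‖ + 1) * t) := by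
        rw [norm_exp]
        refine Real.exp_le_exp.2 ((re_le_norm _).trans ?_)
        rw [norm_mul, norm_mul, norm_I, mul_one, norm_real, Real.norm_of_nonneg ht'.le]
        gcongr
      have e3 := norm_sub_le (cexp (-(z * t) * I)) (cexp ((z * t) * I))
      have e4 : ‖(2 : ℂ)‖ = 2 := by simp
      rw [e4]
      linarith
    have ht2 : t ≤ Real.exp t := by linarith [Real.add_one_le_exp t]
    rw [norm_mul, norm_real, Real.norm_of_nonneg (Real.rpow_nonneg (Phi_pos t).le α), norm_mul,
      norm_neg, norm_real, Real.norm_of_nonneg ht'.le]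
    calc Phi t ^ α * (‖Complex.sin (z * t)‖ * t)
        ≤ (C * Real.exp (-(‖z0‖ + 3) * t)) * (Real.exp ((‖z0‖ + 1) * t) * Real.exp t) := by
          gcongr
      _ = C * Real.exp (-t) := by
          rw [mul_assoc, ← Real.exp_add, ← Real.exp_add]; congr 2; ring
  · refine Eventually.of_forall fun t z _ => ?_
    have h1 : HasDerivAt (fun z : ℂ => z * t) t z := by
      simpa using (hasDerivAt_id z).mul_const (t : ℂ)
    have h2 := (HasDerivAt.ccos h1).const_mul ((Phi t ^ α : ℝ) : ℂ)
    exact h2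

/-- Upper bound. -/
lemma m_upper {α : ℝ} (hα : 0 < α) :
    ∃ C : ℝ, 0 < C ∧ ∀ y : ℝ, 1 ≤ y → m α y ≤ Real.exp (y / 4 * Real.log y + C * y) := by
  obtain ⟨A, hA, hb⟩ := PhiC_bound le_rfl (by positivity : (0 : ℝ) < Real.pi / 8)
  set b := α * Real.pi with hbdef
  have hb0 : 0 < b := by positivity
  set κ := 9 * α + 1 with hκ
  have hκ0 : 0 < κ := by positivity
  set c0 := |Real.log ((1 + κ) / (4 * b))| with hc0
  refine ⟨|Real.log (A ^ α)| + c0 / 4 + κ / 4 * (1 + c0) + 1, by positivity, fun y hy => ?_⟩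
  have hy0 : 0 < y := by linarith
  -- pointwise bound
  set a := y + κ with ha
  have ha0 : 0 < a := by positivity
  have hpt : ∀ t : ℝ, a * t - b * Real.exp (4 * t) ≤ a / 4 * Real.log (a / (4 * b)) := by
    intro t
    have h1 : b * Real.exp (4 * t) = a / 4 * Real.exp (4 * t - Real.log (a / (4 * b))) := by
      rw [Real.exp_sub, Real.exp_log (by positivity)]
      field_simp
    have h2 := Real.add_one_le_exp (4 * t - Real.log (a / (4 * b)))
    rw [h1]
    nlinarith
  have hlog : Real.log (a / (4 * b)) ≤ Real.log y + c0 := by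
    have h1 : a / (4 * b) ≤ y * ((1 + κ) / (4 * b)) := by
      rw [← mul_div_assoc]
      gcongr
      nlinarith
    calc Real.log (a / (4 * b)) ≤ Real.log (y * ((1 + κ) / (4 * b))) :=
          Real.log_le_log (by positivity) h1
      _ = Real.log y + Real.log ((1 + κ) / (4 * b)) := Real.log_mul hy0.ne' (by positivity)
      _ ≤ Real.log y + c0 := by gcongr; exact le_abs_self _
  have hly : Real.log y ≤ y := by linarith [Real.log_le_sub_one_of_pos hy0]
  have hly0 : 0 ≤ Real.log y := Real.log_nonneg hy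
  have hexp : a / 4 * Real.log (a / (4 * b)) ≤ y / 4 * Real.log y +
      (c0 / 4 + κ / 4 * (1 + c0)) * y := by
    have h1 : a / 4 * Real.log (a / (4 * b)) ≤ a / 4 * (Real.log y + c0) := by gcongr
    have h2 : a / 4 * (Real.log y + c0) = y / 4 * Real.log y + c0 / 4 * y +
      κ / 4 * (Real.log y + c0) := by rw [ha]; ring
    have h3 : κ / 4 * (Real.log y + c0) ≤ κ / 4 * (1 + c0) * y := by
      have h4 : Real.log y + c0 ≤ (1 + c0) * y := by
        have : 0 ≤ c0 := abs_nonneg _
        nlinarith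
      nlinarith
    rw [h2] at h1
    linarith
  have hmain : m α y ≤ A ^ α * Real.exp (a / 4 * Real.log (a / (4 * b))) := by
    have h1 : ∀ t ∈ Set.Ioi (0 : ℝ), Phi t ^ α * Real.cosh (y * t) ≤
        (A ^ α * Real.exp (a / 4 * Real.log (a / (4 * b)))) * Real.exp (-t) := by
      intro t ht
      have ht' : (0 : ℝ) < t := ht
      have h2 := hb t (by simp)
      rw [PhiC_ofReal, norm_real, Real.norm_of_nonneg (Phi_pos t).le, ofReal_re,
        abs_of_pos ht', mul_zero, Real.cos_zero, mul_one] at h2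
      have h3 : Phi t ^ α ≤ A ^ α * Real.exp ((9 * t - Real.pi * Real.exp (4 * t)) * α) := by
        calc Phi t ^ α ≤ (A * Real.exp (9 * t - Real.pi * Real.exp (4 * t))) ^ α := by
              have := (Phi_pos t).le
              gcongr
          _ = _ := by rw [Real.mul_rpow hA.le (Real.exp_pos _).le, ← Real.exp_mul]
      have h4 := cosh_le_exp_abs (y * t)
      rw [abs_of_pos (by positivity)] at h4
      calc Phi t ^ α * Real.cosh (y * t)
          ≤ (A ^ α * Real.exp ((9 * t - Real.pi * Real.exp (4 * t)) * α)) * Real.exp (y * t) :=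
            mul_le_mul h3 h4 (Real.cosh_pos _).le (by positivity)
        _ = A ^ α * Real.exp ((a * t - b * Real.exp (4 * t)) + -t) := by
            rw [mul_assoc, ← Real.exp_add]
            congr 2
            rw [ha, hκ, hbdef]; ring
        _ ≤ A ^ α * Real.exp (a / 4 * Real.log (a / (4 * b)) + -t) := by
            gcongr; exact hpt t
        _ = _ := by rw [Real.exp_add]; ring
    calc m α y ≤ ∫ t in Set.Ioi (0 : ℝ),
          (A ^ α * Real.exp (a / 4 * Real.log (a / (4 * b)))) * Real.exp (-t) :=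
          setIntegral_mono_on (integrable_cosh hα y) ((integrableOn_exp_neg_Ioi 0).const_mul _)
            measurableSet_Ioi h1
      _ = A ^ α * Real.exp (a / 4 * Real.log (a / (4 * b))) := by
          rw [integral_const_mul, integral_exp_neg_Ioi_zero, mul_one]
  have hA' : A ^ α ≤ Real.exp (|Real.log (A ^ α)| * y) := by
    have h1 : A ^ α = Real.exp (Real.log (A ^ α)) := (Real.exp_log (by positivity)).symm
    rw [h1, Real.log_exp]
    refine Real.exp_le_exp.2 ?_
    calc Real.log (A ^ α) ≤ |Real.log (A ^ α)| * 1 := by rw [mul_one]; exact le_abs_self _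
      _ ≤ |Real.log (A ^ α)| * y := by gcongr
  calc m α y ≤ A ^ α * Real.exp (a / 4 * Real.log (a / (4 * b))) := hmain
    _ ≤ Real.exp (|Real.log (A ^ α)| * y) * Real.exp (y / 4 * Real.log y +
      (c0 / 4 + κ / 4 * (1 + c0)) * y) := by gcongr
    _ ≤ _ := by
      rw [← Real.exp_add]
      refine Real.exp_le_exp.2 ?_
      nlinarith

/-- Lower bound. -/
lemma m_lower {α : ℝ} (hα : 0 < α) :
    ∃ C : ℝ, 0 < C ∧ ∀ y : ℝ, 1 ≤ y → Real.exp (y / 4 * Real.log y - C * y) ≤ m α y := by
  refine ⟨α * Real.pi * Real.exp 4 + 1, by positivity, fun y hy => ?_⟩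
  have hy0 : 0 < y := by linarith
  set T := Real.log y / 4 with hT
  have hT0 : 0 ≤ T := div_nonneg (Real.log_nonneg hy) (by norm_num)
  have hpt : ∀ t ∈ Set.Ioc T (T + 1), Real.exp (y / 4 * Real.log y - α * Real.pi * Real.exp 4 * y)
      / 2 ≤ Phi t ^ α * Real.cosh (y * t) := by
    intro t ht
    have ht0 : 0 ≤ t := by linarith [ht.1]
    have h1 : Real.exp (4 * t) ≤ Real.exp 4 * y := by
      calc Real.exp (4 * t) ≤ Real.exp (4 + Real.log y) := by
            refine Real.exp_le_exp.2 ?_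
            have := ht.2
            rw [hT] at this
            linarith
        _ = Real.exp 4 * y := by rw [Real.exp_add, Real.exp_log hy0]
    have h2 : Real.exp (-(α * Real.pi * Real.exp 4 * y)) ≤ Phi t ^ α := by
      calc Real.exp (-(α * Real.pi * Real.exp 4 * y))
          ≤ Real.exp (-(Real.pi * Real.exp (4 * t)) * α) := by
            refine Real.exp_le_exp.2 ?_
            have : Real.pi * α * Real.exp (4 * t) ≤ Real.pi * α * (Real.exp 4 * y) := by gcongr
            linarith
        _ = Real.exp (-(Real.pi * Real.exp (4 * t))) ^ α := by rw [Real.exp_mul]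
        _ ≤ Phi t ^ α := by
            gcongr
            exact Phi_lower ht0
    have h3 : Real.exp (y / 4 * Real.log y) / 2 ≤ Real.cosh (y * t) := by
      rw [Real.cosh_eq]
      have h4 : Real.exp (y / 4 * Real.log y) ≤ Real.exp (y * t) := by
        refine Real.exp_le_exp.2 ?_
        have := ht.1
        rw [hT] at this
        nlinarith
      have := Real.exp_pos (-(y * t))
      linarith
    calc Real.exp (y / 4 * Real.log y - α * Real.pi * Real.exp 4 * y) / 2
        = Real.exp (-(α * Real.pi * Real.exp 4 * y)) * (Real.exp (y / 4 * Real.log y) / 2) := by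
          rw [sub_eq_neg_add, Real.exp_add]; ring
      _ ≤ _ := mul_le_mul h2 h3 (by positivity) (Real.rpow_nonneg (Phi_pos t).le α)
  have hsub : Set.Ioc T (T + 1) ⊆ Set.Ioi (0 : ℝ) := fun t ht => lt_of_le_of_lt hT0 ht.1
  have h1 : ∫ t in Set.Ioc T (T + 1), Real.exp (y / 4 * Real.log y - α * Real.pi * Real.exp 4 * y)
      / 2 ≤ ∫ t in Set.Ioc T (T + 1), Phi t ^ α * Real.cosh (y * t) := by
    refine setIntegral_mono_on ?_ ((integrable_cosh hα y).mono_set hsub) measurableSet_Ioc hpt
    exact integrableOn_const (by simp)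
  have h2 : ∫ t in Set.Ioc T (T + 1), Phi t ^ α * Real.cosh (y * t) ≤ m α y := by
    refine setIntegral_mono_set (integrable_cosh hα y) ?_ hsub.eventuallyLE
    refine (ae_restrict_iff' measurableSet_Ioi).2 (Eventually.of_forall fun t _ => ?_)
    exact mul_nonneg (Real.rpow_nonneg (Phi_pos t).le α) (Real.cosh_pos _).le
  have h3 : ∫ t in Set.Ioc T (T + 1), Real.exp (y / 4 * Real.log y - α * Real.pi * Real.exp 4 * y)
      / 2 = Real.exp (y / 4 * Real.log y - α * Real.pi * Real.exp 4 * y) / 2 := by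
    rw [setIntegral_const]
    simp
  rw [h3] at h1
  refine le_trans ?_ (h1.trans h2)
  have h4 : Real.exp (y / 4 * Real.log y - (α * Real.pi * Real.exp 4 + 1) * y) =
      Real.exp (y / 4 * Real.log y - α * Real.pi * Real.exp 4 * y) * Real.exp (-y) := by
    rw [← Real.exp_add]; congr 1; ring
  rw [h4]
  have h5 : Real.exp (-y) ≤ 1 / 2 := by
    calc Real.exp (-y) ≤ Real.exp (-(1 : ℕ)) := Real.exp_le_exp.2 (by push_cast; linarith)
      _ ≤ (1 / 2) ^ 1 := exp_neg_nat_le 1
      _ = 1 / 2 := by norm_num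
  calc _ ≤ Real.exp (y / 4 * Real.log y - α * Real.pi * Real.exp 4 * y) * (1 / 2) := by gcongr
    _ = _ := by ring

end Pool.Agent.Helper242.RK
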