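import Pool.Agent.Helper242.RK.Growth

set_option autoImplicit false

/-!
# A Harnack type lower bound in the zero-free half plane
-/

namespace Pool.Agent.Helper242.RK

open Complex Filter Topology Metric

lemma harnack {f : ℂ → ℂ} {c : ℂ} {r M1 M2 : ℝ} (hr : 0 < r) (hf : DifferentiableOn ℂ f (ball c r))
    (h0 : ∀ z ∈ ball c r, f z ≠ 0) (hM1 : ∀ z ∈ ball c r, ‖f z‖ ≤ Real.exp M1)
    (hM2 : Real.exp (-M2) ≤ ‖f c‖) (hM : 0 < M1 + M2) {z : ℂ} (hz : z ∈ ball c r) :
    Real.exp (-M2 - 2 * (M1 + M2) * r / (r - ‖z - c‖)) ≤ ‖f z‖ := by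
  obtain ⟨L, hLd, hL⟩ := exists_log (convex_ball c r) isOpen_ball ⟨c, mem_ball_self hr⟩ hf h0
  have hmem : ∀ w ∈ ball (0 : ℂ) r, c + w ∈ ball c r := by
    intro w hw
    simpa [mem_ball, dist_eq_norm] using hw
  have hre : ∀ w ∈ ball c r, (L w).re = Real.log ‖f w‖ := by
    intro w hw
    rw [← hL w hw, norm_exp, Real.log_exp]
  have hcm : c ∈ ball c r := mem_ball_self hr
  have hLc : -M2 ≤ (L c).re := by
    rw [hre c hcm]
    rw [← Real.log_exp (-M2)]
    exact Real.log_le_log (Real.exp_pos _) hM2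
  have hd : DifferentiableOn ℂ (fun w => L (c + w) - L c) (ball 0 r) := by
    refine DifferentiableOn.sub_const ?_ _
    refine DifferentiableOn.comp hLd (by fun_prop) hmem
  have hmaps : Set.MapsTo (fun w => L (c + w) - L c) (ball 0 r) {z | z.re ≤ M1 + M2} := by
    intro w hw
    simp only [Set.mem_ofPred_eq, sub_re]
    have h1 : (L (c + w)).re ≤ M1 := by
      rw [hre _ (hmem w hw), ← Real.log_exp M1]
      exact Real.log_le_log (norm_pos_iff.2 (h0 _ (hmem w hw))) (hM1 _ (hmem w hw))
    linarith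
  have hzm : z - c ∈ ball (0 : ℂ) r := by
    simpa [mem_ball, dist_eq_norm] using hz
  have h := borelCaratheodory_zero hM hd hmaps hr hzm (by simp)
  simp only [add_sub_cancel] at h
  have hzr : ‖z - c‖ < r := by simpa using hzm
  have h2 : -(2 * (M1 + M2) * r / (r - ‖z - c‖)) ≤ (L z - L c).re := by
    have h3 : |(L z - L c).re| ≤ 2 * (M1 + M2) * ‖z - c‖ / (r - ‖z - c‖) :=
      (abs_re_le_norm _).trans h
    have h4 : 2 * (M1 + M2) * ‖z - c‖ / (r - ‖z - c‖) ≤ 2 * (M1 + M2) * r / (r - ‖z - c‖) := by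
      have : 0 < r - ‖z - c‖ := by linarith
      gcongr
    linarith [(abs_le.1 h3).1]
  rw [← hL z hz, norm_exp]
  refine Real.exp_le_exp.2 ?_
  rw [sub_re] at h2
  linarith

/-- the shifted function -/
lemma norm_symm (α : ℝ) (z : ℂ) : ‖F α (-(starRingEnd ℂ) z + I)‖ = ‖F α (z + I)‖ := by
  have e : -(starRingEnd ℂ) z + I = -(starRingEnd ℂ) (z + I) := by
    simp; ring
  rw [e, F_neg, F_conj, norm_conj]

/-- Lower bound on the half circle. -/
lemma arc_lower {α : ℝ} (hα : 0 < α) (hF : ∀ z : ℂ, z.im ≠ 0 → F α z ≠ 0) :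
    ∃ C : ℝ, 0 < C ∧ ∀ R : ℝ, 1 ≤ R → ∀ z : ℂ, ‖z‖ = R → 0 < z.im →
      Real.exp (z.im / 4 * Real.log R - C * R ^ 2 / z.im) ≤ ‖F α (z + I)‖ := by
  obtain ⟨C, hC, hup⟩ := m_upper hα
  obtain ⟨C', hC', hlo⟩ := m_lower hα
  set C1 := 3 + 5 * C with hC1
  set C2 := 3 * C' + 4 * (C1 + 3 * C') with hC2
  have hC1p : 0 < C1 := by positivity
  have hC2p : 0 < C2 := by positivity
  have key : ∀ R : ℝ, 1 ≤ R → ∀ z : ℂ, ‖z‖ = R → 0 < z.im → 0 ≤ z.re →
      Real.exp (z.im / 4 * Real.log R - (C2 + 8 * (C1 + C2)) * R ^ 2 / z.im) ≤ ‖F α (z + I)‖ := by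
    intro R hR z hz him hre
    have hR0 : 0 < R := by linarith
    have hlR : 0 ≤ Real.log R := Real.log_nonneg hR
    have hlR2 : Real.log R ≤ R := by linarith [Real.log_le_sub_one_of_pos hR0]
    have hl5 : Real.log 5 ≤ 2 := by
      have h1 : Real.log 5 ≤ Real.log (Real.exp 2) := by
        refine Real.log_le_log (by norm_num) ?_
        have h2 : Real.exp 2 = Real.exp 1 ^ 2 := by rw [← Real.exp_nat_mul]; norm_num
        have h3 := Real.exp_one_gt_d9
        rw [h2]; nlinarith
      rwa [Real.log_exp] at h1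
    -- the auxiliary function
    set φ : ℂ → ℂ := fun w => F α (w + I) * cexp (I * w * (Real.log R / 4)) with hφ
    have hnφ : ∀ w : ℂ, ‖φ w‖ = ‖F α (w + I)‖ * Real.exp (-(w.im / 4 * Real.log R)) := by
      intro w
      rw [hφ, norm_mul, norm_exp]
      congr 2
      have : I * w * (Real.log R / 4) = ((Real.log R / 4 : ℝ) : ℂ) * (I * w) := by push_cast; ring
      rw [this, re_ofReal_mul]
      simp; ring
    have hdφ : Differentiable ℂ φ := by
      have := differentiable_F hα
      rw [hφ]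
      fun_prop
    have hφup : ∀ w : ℂ, 0 ≤ w.im → w.im ≤ 4 * R → ‖φ w‖ ≤ Real.exp (C1 * R) := by
      intro w hw0 hw1
      rw [hnφ]
      have h1 : ‖F α (w + I)‖ ≤ Real.exp ((w.im + 1) / 4 * Real.log (w.im + 1) + C * (w.im + 1)) := by
        refine (norm_F_le hα _).trans ?_
        have : (w + I).im = w.im + 1 := by simp
        rw [this]
        exact hup _ (by linarith)
      calc ‖F α (w + I)‖ * Real.exp (-(w.im / 4 * Real.log R))
          ≤ Real.exp ((w.im + 1) / 4 * Real.log (w.im + 1) + C * (w.im + 1)) *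
            Real.exp (-(w.im / 4 * Real.log R)) := by gcongr
        _ ≤ Real.exp (C1 * R) := by
            rw [← Real.exp_add]
            refine Real.exp_le_exp.2 ?_
            have h2 : Real.log (w.im + 1) ≤ Real.log 5 + Real.log R := by
              rw [← Real.log_mul (by norm_num) hR0.ne']
              exact Real.log_le_log (by linarith) (by linarith)
            have h3 : (w.im + 1) / 4 * Real.log (w.im + 1) ≤
                (w.im + 1) / 4 * (2 + Real.log R) := by
              refine mul_le_mul_of_nonneg_left (by linarith) (by linarith)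
            have h4 : C * (w.im + 1) ≤ C * (5 * R) := by
              refine mul_le_mul_of_nonneg_left (by linarith) hC.le
            rw [hC1]
            nlinarith
    have hφ0 : ∀ w : ℂ, 0 < w.im → φ w ≠ 0 := by
      intro w hw
      rw [hφ]
      refine mul_ne_zero (hF _ ?_) (exp_ne_zero _)
      have : (w + I).im = w.im + 1 := by simp
      rw [this]; linarith
    -- first disc
    have hball : ∀ (c : ℂ), c.im = 2 * R → ∀ w ∈ ball c (2 * R), 0 < w.im ∧ w.im < 4 * R := by
      intro c hc w hw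
      have h1 : |(w - c).im| < 2 * R := lt_of_le_of_lt (abs_im_le_norm _) (by
        simpa [dist_eq_norm] using hw)
      rw [sub_im, hc, abs_lt] at h1
      constructor <;> linarith [h1.1, h1.2]
    set c1 : ℂ := ((2 * R : ℝ) : ℂ) * I with hc1
    have hc1im : c1.im = 2 * R := by rw [hc1]; simp
    have hφc1 : Real.exp (-(3 * C' * R)) ≤ ‖φ c1‖ := by
      rw [hnφ, hc1im]
      have h1 : c1 + I = ((2 * R + 1 : ℝ) : ℂ) * I := by rw [hc1]; push_cast; ring
      rw [h1, F_I, norm_real]
      have h2 := hlo (2 * R + 1) (by linarith)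
      have h3 : 0 ≤ m α (2 * R + 1) := (Real.exp_pos _).le.trans h2
      rw [Real.norm_of_nonneg h3]
      calc Real.exp (-(3 * C' * R))
          ≤ Real.exp ((2 * R + 1) / 4 * Real.log (2 * R + 1) - C' * (2 * R + 1)) *
            Real.exp (-(2 * R / 4 * Real.log R)) := by
            rw [← Real.exp_add]
            refine Real.exp_le_exp.2 ?_
            have h4 : Real.log R ≤ Real.log (2 * R + 1) := Real.log_le_log hR0 (by linarith)
            have h5 : (2 * R) / 4 * Real.log R ≤ (2 * R + 1) / 4 * Real.log (2 * R + 1) := by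
              gcongr
              linarith
            nlinarith
        _ ≤ _ := by gcongr
    set c2 : ℂ := (R : ℂ) + ((2 * R : ℝ) : ℂ) * I with hc2
    have hc2im : c2.im = 2 * R := by rw [hc2]; simp
    have hc2c1 : ‖c2 - c1‖ = R := by
      have : c2 - c1 = (R : ℂ) := by rw [hc1, hc2]; ring
      rw [this, norm_real, Real.norm_of_nonneg hR0.le]
    have hφc2 : Real.exp (-(C2 * R)) ≤ ‖φ c2‖ := by
      have h1 := harnack (f := φ) (c := c1) (r := 2 * R) (M1 := C1 * R) (M2 := 3 * C' * R)
        (by linarith) hdφ.differentiableOn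
        (fun w hw => hφ0 w (hball c1 hc1im w hw).1)
        (fun w hw => hφup w (hball c1 hc1im w hw).1.le (hball c1 hc1im w hw).2.le)
        hφc1 (by positivity) (z := c2) (by
          rw [mem_ball, dist_eq_norm, hc2c1]; linarith)
      refine le_trans (Real.exp_le_exp.2 ?_) h1
      rw [hc2c1]
      have : 2 * (C1 * R + 3 * C' * R) * (2 * R) / (2 * R - R) = 4 * (C1 + 3 * C') * R := by
        have : 2 * R - R = R := by ring
        rw [this]; field_simp; ring
      rw [this, hC2]
      linarith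
    -- second disc
    have hρ2 : ‖z - c2‖ ^ 2 = 6 * R ^ 2 - 2 * z.re * R - 4 * z.im * R := by
      have h1 := sq_norm_eq z
      rw [hz] at h1
      rw [sq_norm_eq, sub_re, sub_im, hc2im]
      have : c2.re = R := by rw [hc2]; simp
      rw [this]
      nlinarith
    have hsum : R ≤ z.re + z.im := by
      have h1 := norm_le_abs_re_add_abs_im z
      rw [hz, abs_of_nonneg hre, abs_of_pos him] at h1
      exact h1
    set ρ := ‖z - c2‖ with hρ
    have hρ0 : 0 ≤ ρ := norm_nonneg _
    have h4 : 2 * R * z.im ≤ (2 * R) ^ 2 - ρ ^ 2 := by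
      rw [hρ2]; nlinarith
    have hρlt : ρ < 2 * R := by
      have h5 : 0 < (2 * R) ^ 2 - ρ ^ 2 := lt_of_lt_of_le (by positivity) h4
      nlinarith
    have hgap : z.im / 2 ≤ 2 * R - ρ := by
      have h5 : (2 * R) ^ 2 - ρ ^ 2 = (2 * R - ρ) * (2 * R + ρ) := by ring
      rw [h5] at h4
      have h6 : (2 * R - ρ) * (2 * R + ρ) ≤ (2 * R - ρ) * (4 * R) := by
        refine mul_le_mul_of_nonneg_left (by linarith) (by linarith)
      have h7 : R * (z.im / 2) ≤ R * (2 * R - ρ) := by nlinarith
      exact le_of_mul_le_mul_left h7 hR0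
    have h1 := harnack (f := φ) (c := c2) (r := 2 * R) (M1 := C1 * R) (M2 := C2 * R)
        (by linarith) hdφ.differentiableOn
        (fun w hw => hφ0 w (hball c2 hc2im w hw).1)
        (fun w hw => hφup w (hball c2 hc2im w hw).1.le (hball c2 hc2im w hw).2.le)
        hφc2 (by positivity) (z := z) (by
          rw [mem_ball, dist_eq_norm]; exact hρlt)
    rw [← hρ, hnφ] at h1
    have h5 : -((C2 + 8 * (C1 + C2)) * R ^ 2 / z.im) ≤
        -(C2 * R) - 2 * (C1 * R + C2 * R) * (2 * R) / (2 * R - ρ) := by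
      have h6 : 2 * (C1 * R + C2 * R) * (2 * R) / (2 * R - ρ) ≤
          2 * (C1 * R + C2 * R) * (2 * R) / (z.im / 2) := by gcongr
      have h7 : 2 * (C1 * R + C2 * R) * (2 * R) / (z.im / 2) = 8 * (C1 + C2) * R ^ 2 / z.im := by
        field_simp; ring
      have h8 : C2 * R ≤ C2 * R ^ 2 / z.im := by
        rw [le_div_iff₀ him]
        have h9 : z.im ≤ R := by
          have := abs_im_le_norm z
          rw [hz, abs_of_pos him] at this
          exact this
        have : C2 * R * z.im ≤ C2 * R * R := by gcongr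
        calc C2 * R * z.im ≤ C2 * R * R := this
          _ = C2 * R ^ 2 := by ring
      have h10 : (C2 + 8 * (C1 + C2)) * R ^ 2 / z.im =
          C2 * R ^ 2 / z.im + 8 * (C1 + C2) * R ^ 2 / z.im := by ring
      rw [h10]
      linarith
    have h6 := (Real.exp_le_exp.2 h5).trans h1
    calc Real.exp (z.im / 4 * Real.log R - (C2 + 8 * (C1 + C2)) * R ^ 2 / z.im)
        = Real.exp (z.im / 4 * Real.log R) *
          Real.exp (-((C2 + 8 * (C1 + C2)) * R ^ 2 / z.im)) := by
          rw [← Real.exp_add]; congr 1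
      _ ≤ Real.exp (z.im / 4 * Real.log R) *
          (‖F α (z + I)‖ * Real.exp (-(z.im / 4 * Real.log R))) := by gcongr
      _ = ‖F α (z + I)‖ := by
          rw [mul_comm, mul_assoc, ← Real.exp_add, neg_add_cancel, Real.exp_zero, mul_one]
  refine ⟨C2 + 8 * (C1 + C2), by positivity, fun R hR z hz him => ?_⟩
  rcases le_total 0 z.re with h | h
  · exact key R hR z hz him h
  · have h1 := key R hR (-(starRingEnd ℂ) z) (by simpa using hz) (by simpa using him)
      (by simpa using h)
    rw [norm_symm] at h1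
    simpa using h1

end Pool.Agent.Helper242.RK
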