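import Pool.Agent.Helper242.RK.Harnack

set_option autoImplicit false

/-!
# Integer powers: uniform bound near the boundary of the strip and full line contour shift
-/

namespace Pool.Agent.Helper242.RK

open Complex Filter Topology MeasureTheory

/-- `exp (-u) ≤ j! / u^j`. -/
lemma exp_neg_le_pow {u : ℝ} (hu : 0 < u) (j : ℕ) : Real.exp (-u) ≤ (j.factorial : ℝ) / u ^ j := by
  have h := Real.pow_div_factorial_le_exp u hu.le j
  rw [Real.exp_neg, ← one_div, div_le_div_iff₀ (Real.exp_pos u) (by positivity), one_mul]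
  rw [div_le_iff₀ (by positivity)] at h
  linarith

lemma summable_inv_sq : Summable fun n : ℕ => (1 : ℝ) / ((n : ℝ) + 1) ^ 2 := by
  have h := (summable_nat_add_iff 1).2 (Real.summable_one_div_nat_pow.2 (by norm_num : 1 < 2))
  refine h.congr fun n => ?_
  push_cast; ring

/-- power type bound of `P` in the right half plane. -/
lemma norm_P_le_pow (j : ℕ) : ∃ C : ℝ, 0 < C ∧ ∀ k : ℕ, k + 1 ≤ j → ∀ s : ℂ, 0 < s.re →
    ‖P k s‖ ≤ C / s.re ^ j := by
  set B := ∑' n : ℕ, (1 : ℝ) / ((n : ℝ) + 1) ^ 2 with hB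
  have hBpos : 0 < B := summable_inv_sq.tsum_pos (fun n => by positivity) 0 (by positivity)
  refine ⟨j.factorial * B, by positivity, fun k hk s hs => ?_⟩
  have h1 : ∀ n : ℕ, ‖((n : ℂ) + 1) ^ (2 * k) * cexp (-(((n : ℂ) + 1) ^ 2) * s)‖
      ≤ (1 / ((n : ℝ) + 1) ^ 2) * (j.factorial / s.re ^ j) := by
    intro n
    rw [norm_term]
    have hn : (1 : ℝ) ≤ (n : ℝ) + 1 := by linarith [Nat.cast_nonneg (α := ℝ) n]
    have h2 := exp_neg_le_pow (u := ((n : ℝ) + 1) ^ 2 * s.re) (by positivity) j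
    have h3 : ((n : ℝ) + 1) ^ (2 * k) ≤ ((n : ℝ) + 1) ^ (2 * j) / ((n : ℝ) + 1) ^ 2 := by
      rw [le_div_iff₀ (by positivity), ← pow_add]
      exact pow_le_pow_right₀ hn (by omega)
    calc ((n : ℝ) + 1) ^ (2 * k) * Real.exp (-((n : ℝ) + 1) ^ 2 * s.re)
        = ((n : ℝ) + 1) ^ (2 * k) * Real.exp (-(((n : ℝ) + 1) ^ 2 * s.re)) := by
          rw [neg_mul]
      _ ≤ (((n : ℝ) + 1) ^ (2 * j) / ((n : ℝ) + 1) ^ 2) *
          (j.factorial / (((n : ℝ) + 1) ^ 2 * s.re) ^ j) := by gcongr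
      _ = (1 / ((n : ℝ) + 1) ^ 2) * (j.factorial / s.re ^ j) := by
          rw [mul_pow, ← pow_mul]
          field_simp
  have h2 := summable_inv_sq.mul_right ((j.factorial : ℝ) / s.re ^ j)
  calc ‖P k s‖ ≤ ∑' n : ℕ, (1 / ((n : ℝ) + 1) ^ 2) * (j.factorial / s.re ^ j) :=
        tsum_of_norm_bounded h2.hasSum h1
    _ = j.factorial * B / s.re ^ j := by rw [tsum_mul_right, hB]; ring

/-- uniform bound of the kernel in the strip. -/
lemma PhiC_unif {j : ℕ} (hj : 3 ≤ j) :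
    ∃ C : ℝ, 0 < C ∧ ∀ δ : ℝ, 0 < δ → δ ≤ Real.pi / 8 → ∀ t : ℂ, |t.im| ≤ Real.pi / 8 - δ →
      ‖PhiC t‖ ≤ C / δ ^ j * Real.exp (-(4 * j - 9) * |t.re|) := by
  obtain ⟨C, hC, hP⟩ := norm_P_le_pow j
  refine ⟨5 * Real.pi ^ 2 * C, by positivity, fun δ hδ hδ8 => ?_⟩
  have key : ∀ t : ℂ, |t.im| ≤ Real.pi / 8 - δ → 0 ≤ t.re →
      ‖PhiC t‖ ≤ 5 * Real.pi ^ 2 * C / δ ^ j * Real.exp (-(4 * j - 9) * |t.re|) := by
    intro t ht ht0
    set s : ℂ := (Real.pi : ℂ) * cexp (4 * t) with hs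
    have hns : ‖s‖ = Real.pi * Real.exp (4 * t.re) := by
      rw [hs, norm_mul, norm_real, Real.norm_of_nonneg Real.pi_pos.le, norm_exp]; simp
    have hcos : 8 / Real.pi * δ ≤ Real.cos (4 * t.im) := by
      have h1 : Real.cos (Real.pi / 2 - 4 * δ) ≤ Real.cos (4 * t.im) := by
        rw [← Real.cos_abs (4 * t.im)]
        apply Real.cos_le_cos_of_nonneg_of_le_pi (abs_nonneg _)
        · linarith [Real.pi_pos]
        · rw [abs_mul]; simp; linarith
      rw [Real.cos_pi_div_two_sub] at h1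
      have h2 := Real.mul_le_sin (x := 4 * δ) (by positivity) (by linarith)
      calc 8 / Real.pi * δ = 2 / Real.pi * (4 * δ) := by ring
        _ ≤ _ := h2.trans h1
    have hsre : δ * Real.exp (4 * t.re) ≤ s.re := by
      rw [hs, re_exp4]
      have h1 : δ ≤ Real.pi * Real.cos (4 * t.im) := by
        have h2 : Real.pi * (8 / Real.pi * δ) ≤ Real.pi * Real.cos (4 * t.im) := by gcongr
        have h3 : Real.pi * (8 / Real.pi * δ) = 8 * δ := by field_simp
        rw [h3] at h2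
        linarith
      have h4 := Real.exp_pos (4 * t.re)
      nlinarith
    have hspos : 0 < s.re := lt_of_lt_of_le (by positivity) hsre
    have hns1 : 1 ≤ ‖s‖ := by
      rw [hns]
      have h1 : 1 ≤ Real.exp (4 * t.re) := Real.one_le_exp (by linarith)
      nlinarith [Real.pi_gt_three]
    have e1 : ‖g s‖ ≤ 5 * ‖s‖ ^ 2 * (C / s.re ^ j) := by
      have a1 := hP 2 hj s hspos
      have a2 := hP 1 (by omega) s hspos
      calc ‖g s‖ ≤ ‖2 * s ^ 2 * P 2 s‖ + ‖3 * s * P 1 s‖ := norm_sub_le _ _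
        _ = 2 * ‖s‖ ^ 2 * ‖P 2 s‖ + 3 * ‖s‖ * ‖P 1 s‖ := by
            simp only [norm_mul, norm_pow, norm_ofNat]
        _ ≤ 2 * ‖s‖ ^ 2 * (C / s.re ^ j) + 3 * ‖s‖ ^ 2 * (C / s.re ^ j) := by
            gcongr
            nlinarith
        _ = 5 * ‖s‖ ^ 2 * (C / s.re ^ j) := by ring
    rw [PhiC, norm_mul, norm_exp, ← hs, abs_of_nonneg ht0]
    calc Real.exp t.re * ‖g s‖ ≤ Real.exp t.re * (5 * ‖s‖ ^ 2 * (C / s.re ^ j)) := by gcongr
      _ ≤ Real.exp t.re * (5 * ‖s‖ ^ 2 * (C / (δ * Real.exp (4 * t.re)) ^ j)) := by gcongr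
      _ = 5 * Real.pi ^ 2 * C / δ ^ j * Real.exp (-(4 * j - 9) * t.re) := by
          rw [hns, mul_pow, mul_pow]
          have h1 : Real.exp (-(4 * j - 9) * t.re) =
              Real.exp t.re * Real.exp (4 * t.re) ^ 2 / Real.exp (4 * t.re) ^ j := by
            rw [← Real.exp_nat_mul, ← Real.exp_nat_mul, ← Real.exp_add, ← Real.exp_sub]
            congr 1
            push_cast
            ring
          rw [h1]
          field_simp
  intro t ht
  rcases le_total 0 t.re with h0 | h0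
  · exact key t ht h0
  · have h1 := key (-t) (by simpa using ht) (by simpa using h0)
    have hS : t ∈ S := by
      simp only [S, Set.mem_ofPred_eq]
      exact lt_of_le_of_lt ht (by linarith)
    rw [PhiC_even hS] at h1
    simpa using h1

/-- integrand on the line -/
noncomputable def fN (N : ℕ) (z t : ℂ) : ℂ := PhiC t ^ N * cexp (I * z * t)

lemma norm_exp_line (z : ℂ) (u y : ℝ) :
    ‖cexp (I * z * ((u : ℂ) + y * I))‖ = Real.exp (-(z.re * y) - z.im * u) := by
  rw [norm_exp]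
  congr 1
  simp
  ring

/-- a bound for the integrand, uniform in substrips -/
lemma norm_fN_le {N : ℕ} (hN : 1 ≤ N) {H : ℝ} (hH : 0 ≤ H) :
    ∃ C : ℝ, ∃ B : ℕ, 0 < C ∧ ∀ δ : ℝ, 0 < δ → δ ≤ Real.pi / 8 → ∀ z : ℂ, |z.im| ≤ H →
      ∀ u y : ℝ, |y| ≤ Real.pi / 8 - δ →
        ‖fN N z ((u : ℂ) + y * I)‖ ≤ C / δ ^ B * Real.exp (-(z.re * y)) * Real.exp (-|u|) := by
  obtain ⟨j, hj⟩ := exists_nat_ge (3 + (H + 1 + 9) / 4)
  have hj3 : 3 ≤ j := by
    have : (3 : ℝ) ≤ j := by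
      have : 0 ≤ (H + 1 + 9) / 4 := by positivity
      linarith
    exact_mod_cast this
  have hj4 : H + 1 ≤ 4 * (j : ℝ) - 9 := by linarith
  obtain ⟨C, hC, hb⟩ := PhiC_unif hj3
  refine ⟨C ^ N, j * N, by positivity, fun δ hδ hδ8 z hz u y hy => ?_⟩
  have h1 := hb δ hδ hδ8 ((u : ℂ) + y * I) (by simpa using hy)
  have h2 : ((u : ℂ) + y * I).re = u := by simp
  rw [h2] at h1
  have h3 : ‖PhiC ((u : ℂ) + y * I)‖ ^ N ≤ C ^ N / δ ^ (j * N) * Real.exp (-(H + 1) * |u|) := by
    calc ‖PhiC ((u : ℂ) + y * I)‖ ^ N ≤ (C / δ ^ j * Real.exp (-(4 * j - 9) * |u|)) ^ N := by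
          gcongr
      _ = C ^ N / δ ^ (j * N) * Real.exp (N * (-(4 * j - 9) * |u|)) := by
          rw [mul_pow, div_pow, ← pow_mul, ← Real.exp_nat_mul]
      _ ≤ C ^ N / δ ^ (j * N) * Real.exp (-(H + 1) * |u|) := by
          refine mul_le_mul_of_nonneg_left (Real.exp_le_exp.2 ?_) (by positivity)
          have hN' : (1 : ℝ) ≤ N := by exact_mod_cast hN
          have h4 : 0 ≤ |u| := abs_nonneg u
          have h5 : (H + 1) * |u| ≤ (4 * (j : ℝ) - 9) * |u| := by gcongr
          have h6 : 0 ≤ (4 * (j : ℝ) - 9) * |u| := by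
            have : 0 ≤ 4 * (j : ℝ) - 9 := by linarith
            positivity
          nlinarith
  rw [fN, norm_mul, norm_pow, norm_exp_line]
  have h7 : Real.exp (-(z.re * y) - z.im * u) ≤ Real.exp (-(z.re * y)) * Real.exp (H * |u|) := by
    rw [← Real.exp_add]
    refine Real.exp_le_exp.2 ?_
    have : -(z.im * u) ≤ |z.im| * |u| := by rw [← abs_mul]; exact neg_le_abs _
    have h8 : |z.im| * |u| ≤ H * |u| := by gcongr
    linarith
  calc ‖PhiC ((u : ℂ) + y * I)‖ ^ N * Real.exp (-(z.re * y) - z.im * u)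
      ≤ (C ^ N / δ ^ (j * N) * Real.exp (-(H + 1) * |u|)) *
        (Real.exp (-(z.re * y)) * Real.exp (H * |u|)) := by gcongr
    _ = C ^ N / δ ^ (j * N) * Real.exp (-(z.re * y)) * Real.exp (-|u|) := by
        have : Real.exp (-|u|) = Real.exp (-(H + 1) * |u|) * Real.exp (H * |u|) := by
          rw [← Real.exp_add]; congr 1; ring
        rw [this]; ring

lemma differentiableAt_fN (N : ℕ) (z : ℂ) {t : ℂ} (ht : t ∈ S) : DifferentiableAt ℂ (fN N z) t := by
  unfold fN
  exact ((differentiableAt_PhiC ht).pow N).mul (by fun_prop)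

lemma integrable_exp_neg_abs : Integrable fun u : ℝ => Real.exp (-|u|) := by
  have h1 : IntegrableOn (fun u : ℝ => Real.exp (-|u|)) (Set.Ioi 0) := by
    refine (integrableOn_exp_neg_Ioi 0).congr_fun (fun u hu => ?_) measurableSet_Ioi
    have hu' : (0 : ℝ) < u := hu
    rw [abs_of_pos hu']
  have h2 : IntegrableOn (fun u : ℝ => Real.exp (-|u|)) (Set.Iic 0) := by
    refine (integrableOn_exp_Iic 0).congr_fun (fun u hu => ?_) measurableSet_Iic
    have hu' : u ≤ 0 := hu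
    rw [abs_of_nonpos hu', neg_neg]
  rw [← integrableOn_univ, ← Set.Iic_union_Ioi (a := (0 : ℝ))]
  exact h2.union h1

lemma continuous_fN_line (N : ℕ) (z : ℂ) {y : ℝ} (hy : |y| < Real.pi / 8) :
    Continuous fun u : ℝ => fN N z ((u : ℂ) + y * I) := by
  rw [continuous_iff_continuousAt]
  intro u
  have h1 : ContinuousAt (fN N z) ((u : ℂ) + y * I) := by
    refine (differentiableAt_fN N z ?_).continuousAt
    simp only [S, Set.mem_ofPred_eq]
    simpa using hy
  exact ContinuousAt.comp (f := fun u : ℝ => (u : ℂ) + y * I) h1 (by fun_prop)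

lemma integrable_fN {N : ℕ} (hN : 1 ≤ N) (z : ℂ) {y : ℝ} (hy : |y| < Real.pi / 8) :
    Integrable fun u : ℝ => fN N z ((u : ℂ) + y * I) := by
  obtain ⟨C, B, hC, hb⟩ := norm_fN_le hN (abs_nonneg z.im)
  have h := hb (Real.pi / 8 - |y|) (by linarith) (by linarith [abs_nonneg y]) z le_rfl
  refine Integrable.mono' (integrable_exp_neg_abs.const_mul
    (C / (Real.pi / 8 - |y|) ^ B * Real.exp (-(z.re * y))))
    (continuous_fN_line N z hy).aestronglyMeasurable (Eventually.of_forall fun u => ?_)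
  exact h u y (by linarith)

/-- full line contour shift -/
lemma line_shift {N : ℕ} (hN : 1 ≤ N) (z : ℂ) {Y : ℝ} (hY0 : 0 ≤ Y) (hY : Y < Real.pi / 8) :
    ∫ u : ℝ, fN N z u = ∫ u : ℝ, fN N z ((u : ℂ) + Y * I) := by
  obtain ⟨C, B, hC, hb⟩ := norm_fN_le hN (abs_nonneg z.im)
  set δ := Real.pi / 8 - Y with hδ
  have hδ0 : 0 < δ := by rw [hδ]; linarith
  have hb' := hb δ hδ0 (by rw [hδ]; linarith) z le_rfl
  set K := C / δ ^ B * Real.exp (|z.re| * Y) with hK
  have hK0 : 0 < K := by positivity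
  have hbound : ∀ u y : ℝ, 0 ≤ y → y ≤ Y → ‖fN N z ((u : ℂ) + y * I)‖ ≤ K * Real.exp (-|u|) := by
    intro u y hy0 hyY
    refine (hb' u y (by rw [abs_of_nonneg hy0, hδ]; linarith)).trans ?_
    rw [hK]
    gcongr
    calc -(z.re * y) ≤ |z.re| * |y| := by rw [← abs_mul]; exact neg_le_abs _
      _ ≤ |z.re| * Y := by rw [abs_of_nonneg hy0]; gcongr
  have hrect : ∀ R : ℝ, 0 ≤ R →
      (∫ x : ℝ in (-R)..R, fN N z x) - (∫ x : ℝ in (-R)..R, fN N z (x + Y * I)) +
      I * (∫ y : ℝ in (0 : ℝ)..Y, fN N z (R + y * I)) -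
      I * (∫ y : ℝ in (0 : ℝ)..Y, fN N z (-R + y * I)) = 0 := by
    intro R hR
    have h := integral_boundary_rect_eq_zero_of_differentiableOn (fN N z) ((-R : ℝ) : ℂ)
      (R + Y * I) ?_
    · simpa using h
    · intro t ht
      rw [mem_reProdIm] at ht
      have h1 := ht.2
      simp only [ofReal_im, add_im, mul_im, ofReal_re, I_im, mul_one, I_re, mul_zero,
        add_zero, zero_add, Set.uIcc_of_le hY0] at h1
      refine (differentiableAt_fN N z ?_).differentiableWithinAt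
      simp only [S, Set.mem_ofPred_eq, abs_of_nonneg h1.1]
      exact h1.2.trans_lt hY
  have i1 : Integrable fun u : ℝ => fN N z u := by
    simpa using integrable_fN hN z (y := 0) (by simpa using Real.pi_pos)
  have i2 := integrable_fN hN z (y := Y) (by rwa [abs_of_nonneg hY0])
  have t1 : Tendsto (fun R : ℝ => ∫ x : ℝ in (-R)..R, fN N z x) atTop (𝓝 (∫ u : ℝ, fN N z u)) :=
    intervalIntegral_tendsto_integral i1 tendsto_neg_atTop_atBot tendsto_id
  have t2 : Tendsto (fun R : ℝ => ∫ x : ℝ in (-R)..R, fN N z (x + Y * I)) atTop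
      (𝓝 (∫ u : ℝ, fN N z (u + Y * I))) :=
    intervalIntegral_tendsto_integral i2 tendsto_neg_atTop_atBot tendsto_id
  have tK : Tendsto (fun R : ℝ => K * Real.exp (-R) * |Y - 0|) atTop (𝓝 0) := by
    have : Tendsto (fun R : ℝ => K * Real.exp (-R) * |Y - 0|) atTop (𝓝 (K * 0 * |Y - 0|)) :=
      (Real.tendsto_exp_neg_atTop_nhds_zero.const_mul K).mul_const _
    simpa using this
  have t3 : Tendsto (fun R : ℝ => ∫ y : ℝ in (0 : ℝ)..Y, fN N z (R + y * I)) atTop (𝓝 0) := by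
    refine squeeze_zero_norm' ?_ tK
    filter_upwards [eventually_ge_atTop 0] with R hR
    refine intervalIntegral.norm_integral_le_of_norm_le_const fun y hy => ?_
    rw [Set.uIoc_of_le hY0] at hy
    have := hbound R y hy.1.le hy.2
    rwa [abs_of_nonneg hR] at this
  have t4 : Tendsto (fun R : ℝ => ∫ y : ℝ in (0 : ℝ)..Y, fN N z (-R + y * I)) atTop (𝓝 0) := by
    refine squeeze_zero_norm' ?_ tK
    filter_upwards [eventually_ge_atTop 0] with R hR
    refine intervalIntegral.norm_integral_le_of_norm_le_const fun y hy => ?_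
    rw [Set.uIoc_of_le hY0] at hy
    have := hbound (-R) y hy.1.le hy.2
    rw [abs_neg, abs_of_nonneg hR] at this
    push_cast at this
    exact this
  have h4 := (((t1.sub t2).add (t3.const_mul I)).sub (t4.const_mul I))
  have h5 : Tendsto (fun R : ℝ => (∫ x : ℝ in (-R)..R, fN N z x) -
      (∫ x : ℝ in (-R)..R, fN N z (x + Y * I)) +
      I * (∫ y : ℝ in (0 : ℝ)..Y, fN N z (R + y * I)) -
      I * (∫ y : ℝ in (0 : ℝ)..Y, fN N z (-R + y * I))) atTop (𝓝 0) := by
    refine tendsto_const_nhds.congr' ?_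
    filter_upwards [eventually_ge_atTop 0] with R hR
    exact (hrect R hR).symm
  have h6 := tendsto_nhds_unique h4 h5
  linear_combination h6

lemma fN_ofReal (N : ℕ) (z : ℂ) (u : ℝ) :
    fN N z u = ((Phi u ^ N : ℝ) : ℂ) * cexp (I * z * u) := by
  rw [fN, PhiC_ofReal]; push_cast; rfl

/-- `2 F = ∫ Φ^N e^{izt}` over the real line -/
lemma two_F_line {N : ℕ} (hN : 1 ≤ N) (z : ℂ) : 2 * F N z = ∫ u : ℝ, fN N z u := by
  have i1 : Integrable fun u : ℝ => fN N z u := by
    simpa using integrable_fN hN z (y := 0) (by simpa using Real.pi_pos)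
  have i1' : Integrable fun u : ℝ => fN N z (-u) := by
    have := i1.comp_neg
    simpa using this
  rw [← integral_add_compl (s := Set.Ioi (0 : ℝ)) measurableSet_Ioi i1, Set.compl_Ioi]
  have h2 : ∫ u in Set.Iic (0 : ℝ), fN N z u = ∫ u in Set.Ioi (0 : ℝ), fN N z (-u) := by
    have := integral_comp_neg_Iic (0 : ℝ) (fun u : ℝ => fN N z (-(u : ℂ)))
    simp only [ofReal_neg, neg_neg, neg_zero] at this
    exact this
  rw [h2, ← integral_add i1.integrableOn i1'.integrableOn, F, ← integral_const_mul]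
  refine setIntegral_congr_fun measurableSet_Ioi fun x _ => ?_
  have e1 : fN N z (-(x : ℂ)) = ((Phi x ^ N : ℝ) : ℂ) * cexp (-(I * z * x)) := by
    rw [← ofReal_neg, fN_ofReal, Phi_even]
    congr 2
    push_cast; ring
  rw [e1, fN_ofReal, Complex.cos, Real.rpow_natCast]
  rw [show z * x * I = I * z * x by ring, show -(z * x) * I = -(I * z * x) by ring]
  ring

/-- crude upper bound near the critical line -/
lemma F_crude {N : ℕ} (hN : 1 ≤ N) {H : ℝ} (hH : 0 ≤ H) :
    ∃ C : ℝ, ∃ B : ℕ, 0 < C ∧ ∀ z : ℂ, |z.im| ≤ H → 8 ≤ z.re →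
      ‖F N z‖ ≤ C * z.re ^ B * Real.exp (-(Real.pi / 8 * z.re)) := by
  obtain ⟨C, B, hC, hb⟩ := norm_fN_le hN hH
  refine ⟨C * Real.exp 1 * ∫ u : ℝ, Real.exp (-|u|), B, ?_, fun z hz hx => ?_⟩
  · have : 0 < ∫ u : ℝ, Real.exp (-|u|) := by
      rw [integral_pos_iff_support_of_nonneg (fun u => (Real.exp_pos _).le) integrable_exp_neg_abs]
      have : Function.support (fun u : ℝ => Real.exp (-|u|)) = Set.univ := by
        ext u; simp [Real.exp_ne_zero]
      rw [this]; simp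
    positivity
  · have hx0 : 0 < z.re := by linarith
    set δ := 1 / z.re with hδ
    have hδ0 : 0 < δ := by positivity
    have hδ8 : δ ≤ 1 / 8 := by
      rw [hδ]
      exact one_div_le_one_div_of_le (by norm_num) hx
    have hpi := Real.pi_gt_three
    set Y := Real.pi / 8 - δ with hY
    have hY0 : 0 ≤ Y := by rw [hY]; linarith
    have hY8 : Y < Real.pi / 8 := by rw [hY]; linarith
    have h1 := hb δ hδ0 (by linarith) z hz
    have h2 : ‖2 * F N z‖ ≤ ∫ u : ℝ, C / δ ^ B * Real.exp (-(z.re * Y)) * Real.exp (-|u|) := by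
      rw [two_F_line hN z, line_shift hN z hY0 hY8]
      refine norm_integral_le_of_norm_le (integrable_exp_neg_abs.const_mul _)
        (Eventually.of_forall fun u => ?_)
      exact h1 u Y (by rw [abs_of_nonneg hY0])
    rw [integral_const_mul] at h2
    have h3 : Real.exp (-(z.re * Y)) = Real.exp 1 * Real.exp (-(Real.pi / 8 * z.re)) := by
      rw [← Real.exp_add]
      congr 1
      rw [hY, hδ]
      field_simp
      ring
    have h4 : C / δ ^ B = C * z.re ^ B := by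
      rw [hδ, one_div, inv_pow, div_inv_eq_mul]
    have h5 : ‖F N z‖ ≤ ‖2 * F N z‖ := by
      rw [norm_mul]
      have : ‖(2 : ℂ)‖ = 2 := by simp
      rw [this]
      linarith [norm_nonneg (F N z)]
    calc ‖F N z‖ ≤ ‖2 * F N z‖ := h5
      _ ≤ C / δ ^ B * Real.exp (-(z.re * Y)) * ∫ u : ℝ, Real.exp (-|u|) := h2
      _ = _ := by rw [h3, h4]; ring

end Pool.Agent.Helper242.RK
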