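import Pool.Agent.Helper242.RK.Int1

set_option autoImplicit false

/-!
# Sums over tuples and the Dirichlet series of products of theta type functions
-/

namespace Pool.Agent.Helper242.RK

open Complex Filter Topology MeasureTheory

lemma mulnorm {ι κ : Type*} (f : ι → ℂ) (g : κ → ℂ) (hf : Summable fun n => ‖f n‖)
    (hg : Summable fun n => ‖g n‖) : Summable fun x : ι × κ => ‖f x.1 * g x.2‖ :=
  Summable.mul_norm hf hg

lemma mulsum {ι κ : Type*} (f : ι → ℂ) (g : κ → ℂ) (a b : ℂ) (hf : Summable fun n => ‖f n‖)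
    (hg : Summable fun n => ‖g n‖) (h1 : HasSum f a) (h2 : HasSum g b) :
    HasSum (fun x : ι × κ => f x.1 * g x.2) (a * b) :=
  h1.mul h2 (mulnorm f g hf hg).of_norm

lemma hasSum_pi (N : ℕ) : ∀ (f : Fin N → ℕ → ℂ) (_ : ∀ i, Summable fun n => ‖f i n‖),
    HasSum (fun x : Fin N → ℕ => ∏ i : Fin N, f i (x i)) (∏ i : Fin N, ∑' n : ℕ, f i n) ∧
      Summable (fun x : Fin N → ℕ => ‖∏ i : Fin N, f i (x i)‖) := by
  induction N with
  | zero =>
    intro f hf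
    constructor
    · simp only [Finset.univ_eq_empty, Finset.prod_empty]
      exact hasSum_unique (fun _ : Fin 0 → ℕ => (1 : ℂ))
    · exact (hasSum_unique _).summable
  | succ N ih =>
    intro f hf
    have hih := ih (fun i : Fin N => f i.succ) (fun i => hf i.succ)
    have h1 := hih.1
    have h2 := hih.2
    have h3 : HasSum (f 0) (∑' n : ℕ, f 0 n) := (hf 0).of_norm.hasSum
    have h4 := mulnorm (f 0) (fun y : Fin N → ℕ => ∏ i : Fin N, f (Fin.succ i) (y i)) (hf 0) h2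
    have h5 := mulsum (f 0) (fun y : Fin N → ℕ => ∏ i : Fin N, f (Fin.succ i) (y i)) _ _ (hf 0) h2 h3 h1
    have he : ∀ x : ℕ × (Fin N → ℕ), ∏ i : Fin (N + 1), f i (Fin.consEquiv (fun _ => ℕ) x i) =
        f 0 x.1 * ∏ i : Fin N, f (Fin.succ i) (x.2 i) := by
      intro x
      simp [Fin.prod_univ_succ, Fin.consEquiv]
    have he2 : (fun x : Fin (N + 1) → ℕ => ∏ i : Fin (N + 1), f i (x i)) ∘
        (Fin.consEquiv (fun _ => ℕ)) =
        fun x : ℕ × (Fin N → ℕ) => f 0 x.1 * ∏ i : Fin N, f (Fin.succ i) (x.2 i) := funext he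
    constructor
    · rw [← (Fin.consEquiv (fun _ => ℕ)).hasSum_iff, he2, Fin.prod_univ_succ]
      exact h5
    · rw [← (Fin.consEquiv (fun _ => ℕ)).summable_iff]
      refine h4.congr fun x => ?_
      simp only [Function.comp_apply]
      rw [he x]

/-- the quadratic form -/
noncomputable def q {N : ℕ} (x : Fin N → ℕ) : ℝ := ∑ i, ((x i : ℝ) + 1) ^ 2

/-- the coefficients; `k i` is `1` or `2` -/
noncomputable def a {N : ℕ} (k : Fin N → ℕ) (x : Fin N → ℕ) : ℝ :=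
  ∏ i, ((x i : ℝ) + 1) ^ (2 * k i)

lemma q_pos {N : ℕ} (hN : 1 ≤ N) (x : Fin N → ℕ) : 0 < q x := by
  unfold q
  have : Nonempty (Fin N) := ⟨⟨0, hN⟩⟩
  exact Finset.sum_pos (fun i _ => by positivity) Finset.univ_nonempty

lemma a_nonneg {N : ℕ} (k : Fin N → ℕ) (x : Fin N → ℕ) : 0 ≤ a k x :=
  Finset.prod_nonneg fun i _ => by positivity

lemma hasSum_H {N : ℕ} (k : Fin N → ℕ) {v : ℝ} (hv : 0 < v) :
    HasSum (fun x : Fin N → ℕ => ((a k x : ℝ) : ℂ) * Real.exp (-Real.pi * q x * v))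
      (∏ i, P (k i) (Real.pi * v)) := by
  have hs : 0 < ((Real.pi : ℂ) * v).re := by
    rw [← ofReal_mul, ofReal_re]; positivity
  have h := (hasSum_pi N (fun i n => ((n : ℂ) + 1) ^ (2 * k i) *
    cexp (-(((n : ℂ) + 1) ^ 2) * (Real.pi * v))) (fun i => (summable_term (k i) hs).norm)).1
  have e : (fun x : Fin N → ℕ => ∏ i, (((x i : ℕ) : ℂ) + 1) ^ (2 * k i) *
      cexp (-((((x i : ℕ) : ℂ) + 1) ^ 2) * (Real.pi * v))) =
      fun x : Fin N → ℕ => ((a k x : ℝ) : ℂ) * Real.exp (-Real.pi * q x * v) := by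
    funext x
    rw [Finset.prod_mul_distrib, ← Complex.exp_sum]
    unfold a q
    push_cast
    congr 2
    rw [Finset.mul_sum, Finset.sum_mul]
    refine Finset.sum_congr rfl fun i _ => ?_
    ring
  rw [e] at h
  exact h

/-- AM-GM bound -/
lemma q_rpow_le {N : ℕ} (hN : 1 ≤ N) (x : Fin N → ℕ) {σ : ℝ} (hσ : 0 ≤ σ) :
    (q x / N) ^ (-σ) ≤ ∏ i, ((x i : ℝ) + 1) ^ (-(2 * σ / N)) := by
  have hN' : (0 : ℝ) < N := by exact_mod_cast hN
  have h := Real.geom_mean_le_arith_mean_weighted (Finset.univ : Finset (Fin N))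
    (fun _ => (1 : ℝ) / N) (fun i => ((x i : ℝ) + 1) ^ 2) (fun _ _ => by positivity)
    (by simp [hN'.ne']) (fun _ _ => by positivity)
  have h1 : ∑ i : Fin N, (1 : ℝ) / N * ((x i : ℝ) + 1) ^ 2 = q x / N := by
    rw [← Finset.mul_sum, q]; ring
  rw [h1] at h
  have hpos : 0 < ∏ i : Fin N, (((x i : ℝ) + 1) ^ 2) ^ ((1 : ℝ) / N) :=
    Finset.prod_pos fun i _ => by positivity
  have h2 := Real.rpow_le_rpow_of_nonpos hpos h (neg_nonpos.2 hσ)
  refine h2.trans (le_of_eq ?_)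
  rw [← Real.finsetProd_rpow _ _ (fun i _ => by positivity)]
  refine Finset.prod_congr rfl fun i _ => ?_
  rw [← Real.rpow_natCast, ← Real.rpow_mul (by positivity), ← Real.rpow_mul (by positivity)]
  congr 1
  push_cast
  field_simp

/-- the zeta type sum -/
noncomputable def Z (p : ℝ) : ℝ := ∑' n : ℕ, ((n : ℝ) + 1) ^ (-p)

lemma summable_Z {p : ℝ} (hp : 1 < p) : Summable fun n : ℕ => ((n : ℝ) + 1) ^ (-p) := by
  have h := (summable_nat_add_iff 1).2 (Real.summable_nat_rpow.2 (by linarith : -p < -1))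
  refine h.congr fun n => ?_
  push_cast; rfl

lemma one_le_Z {p : ℝ} (hp : 1 < p) : 1 ≤ Z p := by
  have h := (summable_Z hp).le_tsum 0 (fun n _ => by positivity)
  rw [Z]
  simpa using h

lemma Z_le {p : ℝ} (hp : 2 ≤ p) : Z p ≤ 1 + 2 ^ (-(p - 2)) * Z 2 := by
  have h0 := summable_Z (p := p) (by linarith)
  have h2 := summable_Z (p := 2) (by norm_num)
  have h1 : Z p = 1 + ∑' n : ℕ, (((n + 1 : ℕ) : ℝ) + 1) ^ (-p) := by
    rw [Z, h0.tsum_eq_zero_add]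
    simp
  rw [h1]
  gcongr
  have h3 : Summable fun n : ℕ => (((n + 1 : ℕ) : ℝ) + 1) ^ (-p) :=
    (summable_nat_add_iff 1).2 h0
  have h4 : Summable fun n : ℕ => (((n + 1 : ℕ) : ℝ) + 1) ^ (-(2 : ℝ)) :=
    (summable_nat_add_iff 1).2 h2
  calc ∑' n : ℕ, (((n + 1 : ℕ) : ℝ) + 1) ^ (-p)
      ≤ ∑' n : ℕ, 2 ^ (-(p - 2)) * (((n + 1 : ℕ) : ℝ) + 1) ^ (-(2 : ℝ)) := by
        refine Summable.tsum_le_tsum (fun n => ?_) h3 (h4.mul_left _)
        have hn : (2 : ℝ) ≤ ((n + 1 : ℕ) : ℝ) + 1 := by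
          push_cast; linarith [Nat.cast_nonneg (α := ℝ) n]
        have hn0 : (0 : ℝ) < ((n + 1 : ℕ) : ℝ) + 1 := by linarith
        have e : (((n + 1 : ℕ) : ℝ) + 1) ^ (-p) =
            (((n + 1 : ℕ) : ℝ) + 1) ^ (-(p - 2)) * (((n + 1 : ℕ) : ℝ) + 1) ^ (-(2 : ℝ)) := by
          rw [← Real.rpow_add hn0]; congr 1; ring
        rw [e]
        have e2 : (((n + 1 : ℕ) : ℝ) + 1) ^ (-(p - 2)) ≤ 2 ^ (-(p - 2)) :=
          Real.rpow_le_rpow_of_nonpos (by norm_num : (0 : ℝ) < 2) hn (by linarith)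
        exact mul_le_mul_of_nonneg_right e2 (by positivity)
    _ = 2 ^ (-(p - 2)) * ∑' n : ℕ, (((n + 1 : ℕ) : ℝ) + 1) ^ (-(2 : ℝ)) := tsum_mul_left
    _ ≤ 2 ^ (-(p - 2)) * Z 2 := by
        gcongr
        rw [Z, h2.tsum_eq_zero_add]
        simp

/-- bound of the terms of the Dirichlet series -/
lemma term_bound {N : ℕ} (hN : 1 ≤ N) (k : Fin N → ℕ) (hk : ∀ i, k i ≤ 2) (x : Fin N → ℕ) {σ : ℝ}
    (hσ : 0 ≤ σ) :
    a k x / q x ^ σ ≤ (N : ℝ) ^ (-σ) * ∏ i, ((x i : ℝ) + 1) ^ (-(2 * σ / N - 4)) := by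
  have hN' : (0 : ℝ) < N := by exact_mod_cast hN
  have hq := q_pos hN x
  have h1 := q_rpow_le hN x hσ
  have h2 : q x ^ (-σ) = (N : ℝ) ^ (-σ) * (q x / N) ^ (-σ) := by
    rw [← Real.mul_rpow hN'.le (by positivity)]
    congr 1; field_simp
  have h3 : a k x ≤ ∏ i, ((x i : ℝ) + 1) ^ (4 : ℝ) := by
    unfold a
    refine Finset.prod_le_prod (fun i _ => by positivity) fun i _ => ?_
    have hn : (1 : ℝ) ≤ (x i : ℝ) + 1 := by linarith [Nat.cast_nonneg (α := ℝ) (x i)]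
    calc ((x i : ℝ) + 1) ^ (2 * k i) ≤ ((x i : ℝ) + 1) ^ 4 :=
          pow_le_pow_right₀ hn (by have := hk i; omega)
      _ = ((x i : ℝ) + 1) ^ (4 : ℝ) := by
          rw [← Real.rpow_natCast]; norm_num
  calc a k x / q x ^ σ = a k x * q x ^ (-σ) := by rw [Real.rpow_neg hq.le]; rfl
    _ = a k x * ((N : ℝ) ^ (-σ) * (q x / N) ^ (-σ)) := by rw [h2]
    _ ≤ (∏ i, ((x i : ℝ) + 1) ^ (4 : ℝ)) *
        ((N : ℝ) ^ (-σ) * ∏ i, ((x i : ℝ) + 1) ^ (-(2 * σ / N))) := by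
        gcongr
    _ = (N : ℝ) ^ (-σ) * ∏ i, ((x i : ℝ) + 1) ^ (-(2 * σ / N - 4)) := by
        rw [mul_left_comm, ← Finset.prod_mul_distrib]
        congr 1
        refine Finset.prod_congr rfl fun i _ => ?_
        rw [← Real.rpow_add (by positivity)]
        congr 1; ring

/-- sum of the majorant -/
lemma hasSum_majorant (N : ℕ) {p : ℝ} (hp : 1 < p) :
    HasSum (fun x : Fin N → ℕ => ∏ i, ((x i : ℝ) + 1) ^ (-p)) (Z p ^ N) := by
  have h := (hasSum_pi N (fun _ n => (((((n : ℝ) + 1) ^ (-p)) : ℝ) : ℂ)) (fun i => by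
    refine (summable_Z hp).congr fun n => ?_
    rw [norm_real, Real.norm_of_nonneg (by positivity)])).1
  have h1 : (∑' n : ℕ, (((((n : ℝ) + 1) ^ (-p)) : ℝ) : ℂ)) = ((Z p : ℝ) : ℂ) := by
    rw [Z, ofReal_tsum]
  rw [h1, Finset.prod_const, Finset.card_univ, Fintype.card_fin] at h
  rw [← ofReal_pow] at h
  have h3 : (fun x : Fin N → ℕ => ∏ i, (((((x i : ℕ) : ℝ) + 1) ^ (-p) : ℝ) : ℂ)) =
      fun x : Fin N → ℕ => ((∏ i, ((x i : ℝ) + 1) ^ (-p) : ℝ) : ℂ) := by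
    funext x
    rw [ofReal_prod]
  rw [h3] at h
  exact hasSum_ofReal.1 h

end Pool.Agent.Helper242.RK
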