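import Pool.Agent.Helper242.RK.Int2

set_option autoImplicit false

/-!
# The Mellin transform of the N-th power and the leading term
-/

namespace Pool.Agent.Helper242.RK

open Complex Filter Topology MeasureTheory

/-- product of the theta type functions along the real axis -/
noncomputable def Hf {N : ℕ} (k : Fin N → ℕ) (v : ℝ) : ℂ := ∏ i, P (k i) (Real.pi * v)

lemma maj_ne {p : ℝ} (hp : 1 < p) : 0 ≤ Z p := zero_le_one.trans (one_le_Z hp)

lemma summable_coeff {N : ℕ} (hN : 1 ≤ N) (k : Fin N → ℕ) (hk : ∀ i, k i ≤ 2) {σ : ℝ}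
    (hσ : 0 ≤ σ) (hp : 1 < 2 * σ / N - 4) : Summable fun x : Fin N → ℕ => a k x / q x ^ σ := by
  refine Summable.of_nonneg_of_le (fun x => ?_) (fun x => term_bound hN k hk x hσ)
    ((hasSum_majorant N hp).summable.mul_left _)
  exact div_nonneg (a_nonneg k x) (Real.rpow_nonneg (q_pos hN x).le _)

lemma hasSum_mellin_H {N : ℕ} (hN : 1 ≤ N) (k : Fin N → ℕ) (hk : ∀ i, k i ≤ 2) {s : ℂ}
    (hs : 0 < s.re) (hp : 1 < 2 * s.re / N - 4) :
    HasSum (fun x : Fin N → ℕ => (Real.pi : ℂ) ^ (-s) * Gamma s * ((a k x : ℝ) : ℂ) / (q x : ℂ) ^ s)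
      (mellin (Hf k) s) := by
  refine hasSum_mellin_pi_mul (fun x => Or.inr (q_pos hN x)) hs (fun t ht => ?_) ?_
  · exact hasSum_H k ht
  · refine (summable_coeff hN k hk hs.le hp).congr fun x => ?_
    rw [norm_real, Real.norm_of_nonneg (a_nonneg k x)]

lemma norm_coeff {N : ℕ} (hN : 1 ≤ N) (k : Fin N → ℕ) (x : Fin N → ℕ) (s : ℂ) :
    ‖(Real.pi : ℂ) ^ (-s) * Gamma s * ((a k x : ℝ) : ℂ) / (q x : ℂ) ^ s‖ =
      ‖(Real.pi : ℂ) ^ (-s) * Gamma s‖ * (a k x / q x ^ s.re) := by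
  rw [norm_div, norm_mul _ ((a k x : ℝ) : ℂ), norm_real, Real.norm_of_nonneg (a_nonneg k x),
    norm_cpow_eq_rpow_re_of_pos (q_pos hN x)]
  ring

lemma mellin_H_bound {N : ℕ} (hN : 1 ≤ N) (k : Fin N → ℕ) (hk : ∀ i, k i ≤ 2) {s : ℂ}
    (hs : 0 < s.re) (hp : 1 < 2 * s.re / N - 4) :
    ‖mellin (Hf k) s‖ ≤ ‖(Real.pi : ℂ) ^ (-s) * Gamma s‖ *
      ((N : ℝ) ^ (-s.re) * Z (2 * s.re / N - 4) ^ N) := by
  have h := hasSum_mellin_H hN k hk hs hp
  have hm := ((hasSum_majorant N hp).mul_left ((N : ℝ) ^ (-s.re))).mul_left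
    ‖(Real.pi : ℂ) ^ (-s) * Gamma s‖
  rw [← h.tsum_eq]
  refine tsum_of_norm_bounded hm fun x => ?_
  rw [norm_coeff hN]
  exact mul_le_mul_of_nonneg_left (term_bound hN k hk x hs.le) (norm_nonneg _)

lemma mellin_H_lead {N : ℕ} (hN : 1 ≤ N) (k : Fin N → ℕ) (hk : ∀ i, k i ≤ 2) {s : ℂ}
    (hs : 0 < s.re) (hp : 1 < 2 * s.re / N - 4) :
    ‖mellin (Hf k) s - (Real.pi : ℂ) ^ (-s) * Gamma s * (N : ℂ) ^ (-s)‖ ≤
      ‖(Real.pi : ℂ) ^ (-s) * Gamma s‖ *
      ((N : ℝ) ^ (-s.re) * (Z (2 * s.re / N - 4) ^ N - 1)) := by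
  have hN' : (0 : ℝ) < N := by exact_mod_cast hN
  set c := (Real.pi : ℂ) ^ (-s) * Gamma s with hc
  set f : (Fin N → ℕ) → ℂ := fun x => c * ((a k x : ℝ) : ℂ) / (q x : ℂ) ^ s with hf
  have h : HasSum f (mellin (Hf k) s) := hasSum_mellin_H hN k hk hs hp
  have hq0 : q (0 : Fin N → ℕ) = N := by simp [q]
  have ha0 : a k (0 : Fin N → ℕ) = 1 := by simp [a]
  have hf0 : f 0 = c * (N : ℂ) ^ (-s) := by
    simp only [hf]
    rw [hq0, ha0, cpow_neg]
    push_cast
    ring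
  have h1 := h.sub (hasSum_ite_eq (0 : Fin N → ℕ) (f 0))
  rw [hf0] at h1
  have hm0 := (hasSum_majorant N hp).sub (hasSum_ite_eq (0 : Fin N → ℕ) (1 : ℝ))
  have hm := (hm0.mul_left ((N : ℝ) ^ (-s.re))).mul_left ‖c‖
  rw [← h1.tsum_eq]
  refine tsum_of_norm_bounded hm fun x => ?_
  by_cases hx : x = 0
  · subst hx
    simp only [if_true, hf0, sub_self, norm_zero]
    simp
  · simp only [if_neg hx, sub_zero]
    simp only [hf, hc]
    rw [norm_coeff hN]
    exact mul_le_mul_of_nonneg_left (term_bound hN k hk x hs.le) (norm_nonneg _)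

/-- `γ v = g (π v)` -/
noncomputable def gam (v : ℝ) : ℂ := g (Real.pi * v)

lemma continuousAt_P (k : ℕ) {v : ℝ} (hv : 0 < v) :
    ContinuousAt (fun v : ℝ => P k ((Real.pi : ℂ) * v)) v := by
  have hs : 0 < ((Real.pi : ℂ) * v).re := by rw [← ofReal_mul, ofReal_re]; positivity
  exact ContinuousAt.comp (f := fun v : ℝ => (Real.pi : ℂ) * v)
    (hasDerivAt_P k hs).continuousAt (by fun_prop)

lemma mellinConvergent_H {N : ℕ} (hN : 1 ≤ N) (k : Fin N → ℕ) (hk : ∀ i, k i ≤ 2) {s : ℂ}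
    (hs : 3 * (N : ℝ) < s.re) : MellinConvergent (Hf k) s := by
  obtain ⟨C, hC, hb⟩ := norm_P_le_pow 3
  have hcont : ContinuousOn (Hf k) (Set.Ioi 0) := by
    intro v hv
    unfold Hf
    exact (tendsto_finset_prod _ fun i _ => (continuousAt_P (k i) hv).tendsto).mono_left
      nhdsWithin_le_nhds
  have hA : ∀ i : Fin N, ∃ A : ℝ, 0 < A ∧ ∀ s : ℂ, Real.pi ≤ s.re → ‖P (k i) s‖ ≤ A * Real.exp (-s.re) :=
    fun i => norm_P_le (k i) Real.pi_pos
  choose A hApos hA using hA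
  refine mellinConvergent_of_isBigO_rpow_exp (a := 1) (b := 3 * N) one_pos
    (hcont.locallyIntegrableOn measurableSet_Ioi) ?_ ?_ hs
  · refine Asymptotics.IsBigO.of_bound (∏ i, A i) ?_
    filter_upwards [eventually_ge_atTop (1 : ℝ)] with v hv
    have hre : ((Real.pi : ℂ) * v).re = Real.pi * v := by rw [← ofReal_mul, ofReal_re]
    have hpi := Real.pi_gt_three
    unfold Hf
    rw [norm_prod, Real.norm_of_nonneg (Real.exp_pos _).le]
    calc ∏ i, ‖P (k i) (Real.pi * v)‖ ≤ ∏ i, (A i * Real.exp (-v)) := by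
          refine Finset.prod_le_prod (fun i _ => norm_nonneg _) fun i _ => ?_
          refine (hA i _ (by rw [hre]; nlinarith)).trans ?_
          refine mul_le_mul_of_nonneg_left (Real.exp_le_exp.2 ?_) (hApos i).le
          rw [hre]; nlinarith
      _ = (∏ i, A i) * Real.exp (-v) ^ N := by
          rw [Finset.prod_mul_distrib]; simp
      _ ≤ (∏ i, A i) * Real.exp (-1 * v) := by
          have h1 : 0 ≤ ∏ i, A i := Finset.prod_nonneg fun i _ => (hApos i).le
          refine mul_le_mul_of_nonneg_left ?_ h1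
          rw [← Real.exp_nat_mul]
          refine Real.exp_le_exp.2 ?_
          have : (1 : ℝ) ≤ N := by exact_mod_cast hN
          nlinarith
  · refine Asymptotics.IsBigO.of_bound (C ^ N) ?_
    filter_upwards [self_mem_nhdsWithin] with v hv
    have hv' : (0 : ℝ) < v := hv
    have hre : ((Real.pi : ℂ) * v).re = Real.pi * v := by rw [← ofReal_mul, ofReal_re]
    have hpi := Real.pi_gt_three
    unfold Hf
    rw [norm_prod, Real.norm_of_nonneg (Real.rpow_nonneg hv'.le _)]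
    calc ∏ i, ‖P (k i) (Real.pi * v)‖ ≤ ∏ _i : Fin N, (C / v ^ 3) := by
          refine Finset.prod_le_prod (fun i _ => norm_nonneg _) fun i _ => ?_
          refine (hb (k i) (by have := hk i; omega) _ (by rw [hre]; positivity)).trans ?_
          rw [hre]
          gcongr
          nlinarith
      _ = C ^ N * v ^ (-(3 * (N : ℝ))) := by
          rw [Finset.prod_const, Finset.card_univ, Fintype.card_fin, div_pow, ← pow_mul,
            Real.rpow_neg hv'.le, ← Real.rpow_natCast v (3 * N)]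
          push_cast
          rfl

lemma prod_ite_lt {N m : ℕ} (hm : m ≤ N) (A B : ℂ) :
    ∏ i : Fin N, (if i.1 < m then A else B) = A ^ m * B ^ (N - m) := by
  rw [Fin.prod_univ_eq_prod_range (fun i => if i < m then A else B) N]
  obtain ⟨r, rfl⟩ := Nat.exists_eq_add_of_le hm
  rw [Finset.prod_range_add]
  congr 1
  · rw [Finset.prod_congr rfl (g := fun _ => A)]
    · simp
    · intro x hx
      rw [if_pos (Finset.mem_range.1 hx)]
  · rw [Finset.prod_congr rfl (g := fun _ => B)]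
    · simp
    · intro x _
      rw [if_neg (by omega)]

/-- exponents -/
def km (N m : ℕ) : Fin N → ℕ := fun i => if i.1 < m then 2 else 1

lemma km_le (N m : ℕ) (i : Fin N) : km N m i ≤ 2 := by
  unfold km; split_ifs <;> omega

lemma Hf_km {N m : ℕ} (hm : m ≤ N) (v : ℝ) :
    Hf (km N m) v = P 2 (Real.pi * v) ^ m * P 1 (Real.pi * v) ^ (N - m) := by
  unfold Hf km
  rw [← prod_ite_lt hm]
  refine Finset.prod_congr rfl fun i _ => ?_
  split_ifs <;> rfl

/-- coefficients of the expansion -/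
noncomputable def cf (N m : ℕ) : ℂ :=
  (N.choose m : ℂ) * (2 * (Real.pi : ℂ) ^ 2) ^ m * (-(3 * (Real.pi : ℂ))) ^ (N - m)

lemma gam_pow (N : ℕ) {v : ℝ} (hv : 0 < v) :
    gam v ^ N = ∑ m ∈ Finset.range (N + 1), cf N m • ((v : ℂ) ^ ((N : ℂ) + m) • Hf (km N m) v) := by
  have hg : gam v = (2 * (Real.pi : ℂ) ^ 2 * v ^ 2 * P 2 (Real.pi * v)) +
      (-(3 * (Real.pi : ℂ)) * v * P 1 (Real.pi * v)) := by
    unfold gam g; ring
  rw [hg, add_pow]
  refine Finset.sum_congr rfl fun m hm => ?_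
  have hm' : m ≤ N := Nat.lt_succ_iff.1 (Finset.mem_range.1 hm)
  have hv0 : (v : ℂ) ≠ 0 := by exact_mod_cast hv.ne'
  have hpow : (v : ℂ) ^ ((N : ℂ) + m) = (v ^ 2) ^ m * v ^ (N - m) := by
    rw [← Nat.cast_add, cpow_natCast, ← pow_mul, ← pow_add]
    congr 1; omega
  rw [hpow, Hf_km hm', cf]
  simp only [smul_eq_mul, mul_pow]
  ring

lemma mellin_finset_sum {ι : Type*} (T : Finset ι) (f : ι → ℝ → ℂ) (s : ℂ)
    (h : ∀ i ∈ T, MellinConvergent (f i) s) :
    mellin (fun t => ∑ i ∈ T, f i t) s = ∑ i ∈ T, mellin (f i) s := by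
  unfold mellin
  rw [← integral_finset_sum T h]
  refine integral_congr_ae (Eventually.of_forall fun t => ?_)
  simp only [Finset.smul_sum]

lemma mellin_gam {N : ℕ} (hN : 1 ≤ N) {s : ℂ} (hs : 3 * (N : ℝ) < s.re) :
    mellin (fun v => gam v ^ N) s =
      ∑ m ∈ Finset.range (N + 1), cf N m * mellin (Hf (km N m)) (s + ((N : ℂ) + m)) := by
  have h1 : mellin (fun v => gam v ^ N) s = mellin (fun v => ∑ m ∈ Finset.range (N + 1),
      cf N m • ((v : ℂ) ^ ((N : ℂ) + m) • Hf (km N m) v)) s := by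
    refine setIntegral_congr_fun measurableSet_Ioi fun v hv => ?_
    simp only
    rw [gam_pow N hv]
  rw [h1, mellin_finset_sum]
  · refine Finset.sum_congr rfl fun m _ => ?_
    rw [mellin_const_smul, mellin_cpow_smul, smul_eq_mul]
  · intro m _
    refine MellinConvergent.const_smul ?_ _
    rw [MellinConvergent.cpow_smul]
    refine mellinConvergent_H hN _ (km_le N m) ?_
    have : (s + ((N : ℂ) + m)).re = s.re + (N + m) := by simp
    rw [this]
    have h2 : (0 : ℝ) ≤ N := Nat.cast_nonneg N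
    have h3 : (0 : ℝ) ≤ m := Nat.cast_nonneg m
    linarith

/-- `8 F` as a Mellin transform -/
lemma eight_F {N : ℕ} (hN : 1 ≤ N) (z : ℂ) :
    8 * F N z = mellin (fun v => gam v ^ N) (((N : ℂ) - I * z) / 4) := by
  set s : ℂ := ((N : ℂ) - I * z) / 4 with hs
  rw [mellin_eq_fourier, Real.fourier_real_eq_integral_exp_smul]
  have h1 : ∀ u : ℝ, cexp ((((-2 * Real.pi * u * (s.im / (2 * Real.pi)) : ℝ)) : ℂ) * I) •
      (Real.exp (-s.re * u) • gam (Real.exp (-u)) ^ N) = cexp (-s * u) * gam (Real.exp (-u)) ^ N := by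
    intro u
    rw [smul_eq_mul, real_smul, ← mul_assoc, ofReal_exp, ← exp_add]
    congr 2
    have h2 : s = (s.re : ℂ) + (s.im : ℂ) * I := (re_add_im s).symm
    have h3 : (-2 * Real.pi * u * (s.im / (2 * Real.pi)) : ℝ) = -(u * s.im) := by
      field_simp
    rw [h3]
    nth_rewrite 3 [h2]
    push_cast
    ring
  simp_rw [h1]
  have h2 : ∫ u : ℝ, cexp (-s * u) * gam (Real.exp (-u)) ^ N =
      4 * ∫ t : ℝ, cexp (-s * ((-4 * t : ℝ) : ℂ)) * gam (Real.exp (-(-4 * t))) ^ N := by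
    have h3 := Measure.integral_comp_mul_left
      (fun u : ℝ => cexp (-s * u) * gam (Real.exp (-u)) ^ N) (-4)
    rw [h3]
    have h4 : |(-4 : ℝ)⁻¹| = 1 / 4 := by norm_num
    rw [h4, real_smul]
    push_cast
    ring
  rw [h2]
  have h3 : ∀ t : ℝ, cexp (-s * ((-4 * t : ℝ) : ℂ)) * gam (Real.exp (-(-4 * t))) ^ N =
      fN N (-z) t := by
    intro t
    rw [fN, PhiC, mul_pow, ← exp_nat_mul]
    have h4 : gam (Real.exp (-(-4 * t))) = g (Real.pi * cexp (4 * t)) := by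
      unfold gam; congr 1; push_cast; congr 2; ring
    rw [h4]
    have h5 : cexp (-s * ((-4 * t : ℝ) : ℂ)) = cexp (N * t) * cexp (I * (-z) * t) := by
      rw [← exp_add]; congr 1; rw [hs]; push_cast; ring
    rw [h5]; ring
  simp_rw [h3]
  rw [← two_F_line hN (-z), F_neg]
  ring

end Pool.Agent.Helper242.RK
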