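import Pool.Agent.Helper242.RK.Int3

set_option autoImplicit false

/-!
# The leading term of `8 F` in a half plane
-/

namespace Pool.Agent.Helper242.RK

open Complex Filter Topology MeasureTheory

noncomputable def s0 (N : ℕ) (z : ℂ) : ℂ := (9 * (N : ℂ) - I * z) / 4

lemma s0_re (N : ℕ) (z : ℂ) : (s0 N z).re = (9 * N + z.im) / 4 := by
  simp [s0]

lemma s0_im (N : ℕ) (z : ℂ) : (s0 N z).im = -z.re / 4 := by
  simp [s0]

/-- the model function -/
noncomputable def E (N : ℕ) (z : ℂ) : ℂ :=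
  (Real.pi : ℂ) ^ (-(s0 N z)) * Gamma (s0 N z) * (N : ℂ) ^ (-(s0 N z))

lemma norm_E {N : ℕ} (hN : 1 ≤ N) (z : ℂ) : ‖E N z‖ =
    ‖(Real.pi : ℂ) ^ (-(s0 N z)) * Gamma (s0 N z)‖ * (N : ℝ) ^ (-(s0 N z).re) := by
  have hN' : (0 : ℝ) < N := by exact_mod_cast hN
  rw [E, norm_mul _ ((N : ℂ) ^ (-(s0 N z))), ← ofReal_natCast,
    norm_cpow_eq_rpow_re_of_pos hN', neg_re]

lemma norm_pi_cpow (s : ℂ) : ‖(Real.pi : ℂ) ^ (-s)‖ = Real.pi ^ (-s.re) := by
  rw [norm_cpow_eq_rpow_re_of_pos Real.pi_pos, neg_re]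

lemma Gamma_sub_nat (j : ℕ) : ∀ s : ℂ, (j : ℝ) < s.re →
    ‖Gamma (s - j)‖ * |s.im| ^ j ≤ ‖Gamma s‖ := by
  induction j with
  | zero => intro s _; simp
  | succ j ih =>
    intro s hs
    push_cast at hs
    have h1 := ih s (by linarith)
    have h2 : Gamma (s - j) = (s - ((j + 1 : ℕ) : ℂ)) * Gamma (s - ((j + 1 : ℕ) : ℂ)) := by
      have h3 : s - ((j + 1 : ℕ) : ℂ) ≠ 0 := by
        intro h
        have := congrArg Complex.re h
        simp at this
        linarith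
      rw [← Gamma_add_one _ h3]
      congr 1; push_cast; ring
    have h4 : |s.im| ≤ ‖s - ((j + 1 : ℕ) : ℂ)‖ := by
      have := abs_im_le_norm (s - ((j + 1 : ℕ) : ℂ))
      simpa using this
    rw [h2, norm_mul] at h1
    calc ‖Gamma (s - ((j + 1 : ℕ) : ℂ))‖ * |s.im| ^ (j + 1)
        = |s.im| * ‖Gamma (s - ((j + 1 : ℕ) : ℂ))‖ * |s.im| ^ j := by ring
      _ ≤ ‖s - ((j + 1 : ℕ) : ℂ)‖ * ‖Gamma (s - ((j + 1 : ℕ) : ℂ))‖ * |s.im| ^ j := by gcongr
      _ ≤ ‖Gamma s‖ := h1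

lemma tendsto_Z_pow (N : ℕ) : Tendsto (fun p : ℝ => (1 + 2 ^ (-(p - 2)) * Z 2) ^ N) atTop (𝓝 1) := by
  have h1 : Tendsto (fun p : ℝ => (2 : ℝ) ^ (-(p - 2))) atTop (𝓝 0) := by
    have h2 : Tendsto (fun p : ℝ => -(p - 2)) atTop atBot :=
      tendsto_neg_atTop_atBot.comp (tendsto_atTop_add_const_right _ (-2) tendsto_id)
    exact (tendsto_rpow_atBot_of_base_gt_one 2 (by norm_num)).comp h2
  have h3 := ((h1.mul_const (Z 2)).const_add 1).pow N
  simpa using h3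

lemma D_lead {N : ℕ} (hN : 1 ≤ N) : ∃ H X0 : ℝ, 0 < H ∧ 0 < X0 ∧ ∀ z : ℂ, H ≤ z.im →
    X0 ≤ |z.re| → ‖8 * F N z - (2 * (Real.pi : ℂ) ^ 2) ^ N * E N z‖ ≤
      1 / 2 * (2 * Real.pi ^ 2) ^ N * ‖E N z‖ := by
  have hN' : (1 : ℝ) ≤ N := by exact_mod_cast hN
  have hNpos : (0 : ℝ) < N := by linarith
  have hev := (tendsto_Z_pow N).eventually (ge_mem_nhds (by norm_num : (1 : ℝ) < 5 / 4))
  obtain ⟨p0, hp0⟩ := eventually_atTop.1 hev
  set K : ℝ := ∑ m ∈ Finset.range N, ‖cf N m‖ * ((Real.pi * N) ^ (N - m) * (1 + Z 2) ^ N) with hK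
  have hZ2 : 0 ≤ Z 2 := maj_ne (by norm_num)
  have hK0 : 0 ≤ K := Finset.sum_nonneg fun m _ => by positivity
  set c : ℝ := (2 * Real.pi ^ 2) ^ N with hc
  have hcpos : 0 < c := by positivity
  refine ⟨max (12 * N + 1) (2 * N * |p0| + 1), max 4 (16 * K / c), by positivity, by positivity,
    fun z hz hx => ?_⟩
  have hz1 : 12 * (N : ℝ) + 1 ≤ z.im := (le_max_left _ _).trans hz
  have hz2 : 2 * (N : ℝ) * |p0| + 1 ≤ z.im := (le_max_right _ _).trans hz
  have hx1 : 4 ≤ |z.re| := (le_max_left _ _).trans hx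
  have hx2 : 16 * K / c ≤ |z.re| := (le_max_right _ _).trans hx
  set s : ℂ := ((N : ℂ) - I * z) / 4 with hs
  have hsre : s.re = (N + z.im) / 4 := by simp [hs]
  have h3N : 3 * (N : ℝ) < s.re := by rw [hsre]; linarith
  have hss : ∀ m ≤ N, s + ((N : ℂ) + m) = s0 N z - ((N - m : ℕ) : ℂ) := by
    intro m hm
    rw [hs, s0]
    push_cast [Nat.cast_sub hm]
    ring
  have hre0 : (s0 N z).re = (9 * N + z.im) / 4 := s0_re N z
  have him0 : |(s0 N z).im| = |z.re| / 4 := by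
    rw [s0_im, abs_div, abs_neg]; norm_num
  have e8 := eight_F hN z
  rw [← hs, mellin_gam hN h3N, Finset.sum_range_succ, hss N le_rfl, Nat.sub_self, Nat.cast_zero,
    sub_zero] at e8
  have hcf : cf N N = (2 * (Real.pi : ℂ) ^ 2) ^ N := by simp [cf]
  rw [hcf] at e8
  have hncf : ‖(2 * (Real.pi : ℂ) ^ 2) ^ N‖ = c := by
    rw [norm_pow, norm_mul, norm_pow, norm_real, Real.norm_of_nonneg Real.pi_pos.le]
    simp [hc]
  have e9 : 8 * F N z - (2 * (Real.pi : ℂ) ^ 2) ^ N * E N z =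
      (∑ m ∈ Finset.range N, cf N m * mellin (Hf (km N m)) (s + ((N : ℂ) + m))) +
      (2 * (Real.pi : ℂ) ^ 2) ^ N * (mellin (Hf (km N N)) (s0 N z) - E N z) := by
    rw [e8]; ring
  rw [e9]
  -- main term
  have hmain : ‖mellin (Hf (km N N)) (s0 N z) - E N z‖ ≤ 1 / 4 * ‖E N z‖ := by
    have hp : 1 < 2 * (s0 N z).re / N - 4 := by
      rw [hre0, lt_sub_iff_add_lt, lt_div_iff₀ hNpos]; linarith
    have h1 := mellin_H_lead hN (km N N) (km_le N N) (s := s0 N z) (by rw [hre0]; linarith) hp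
    refine h1.trans ?_
    rw [← mul_assoc, ← norm_E hN, mul_comm]
    refine mul_le_mul_of_nonneg_right ?_ (norm_nonneg _)
    have hp2 : 2 ≤ 2 * (s0 N z).re / N - 4 := by
      rw [hre0, le_sub_iff_add_le, le_div_iff₀ hNpos]; linarith
    have hpp : p0 ≤ 2 * (s0 N z).re / N - 4 := by
      rw [hre0, le_sub_iff_add_le, le_div_iff₀ hNpos]
      have : p0 * N ≤ N * |p0| := by
        rw [mul_comm]; exact mul_le_mul_of_nonneg_left (le_abs_self _) hNpos.le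
      nlinarith
    have h2 := Z_le hp2
    have h3 := hp0 _ hpp
    have h4 : Z (2 * (s0 N z).re / N - 4) ^ N ≤ 5 / 4 :=
      (pow_le_pow_left₀ (maj_ne hp) h2 N).trans h3
    linarith
  have hsum : ‖∑ m ∈ Finset.range N, cf N m * mellin (Hf (km N m)) (s + ((N : ℂ) + m))‖ ≤
      1 / 4 * c * ‖E N z‖ := by
    have h1 : ∀ m ∈ Finset.range N, ‖cf N m * mellin (Hf (km N m)) (s + ((N : ℂ) + m))‖ ≤
        ‖cf N m‖ * ((Real.pi * N) ^ (N - m) * (1 + Z 2) ^ N) * (‖E N z‖ * (4 / |z.re|)) := by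
      intro m hm
      have hm' : m < N := Finset.mem_range.1 hm
      rw [hss m hm'.le, norm_mul, mul_assoc]
      refine mul_le_mul_of_nonneg_left ?_ (norm_nonneg _)
      obtain ⟨j, hj⟩ : ∃ j : ℕ, N - m = j := ⟨_, rfl⟩
      rw [hj]
      have hjN : (j : ℝ) ≤ N := by
        have : j ≤ N := by omega
        exact_mod_cast this
      have hj1 : 1 ≤ j := by omega
      have hre : (s0 N z - (j : ℂ)).re = (s0 N z).re - j := by simp
      have hp2 : 2 ≤ 2 * (s0 N z - (j : ℂ)).re / N - 4 := by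
        rw [hre, hre0, le_sub_iff_add_le, le_div_iff₀ hNpos]; linarith
      have h2 := mellin_H_bound hN (km N m) (km_le N m) (s := s0 N z - (j : ℂ))
        (by rw [hre, hre0]; linarith) (by linarith)
      refine h2.trans ?_
      have h3 : Z (2 * (s0 N z - (j : ℂ)).re / N - 4) ≤ 1 + Z 2 := by
        refine (Z_le hp2).trans ?_
        have : (2 : ℝ) ^ (-(2 * (s0 N z - (j : ℂ)).re / N - 4 - 2)) ≤ 1 :=
          Real.rpow_le_one_of_one_le_of_nonpos (by norm_num) (by linarith)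
        nlinarith
      have h4 := Gamma_sub_nat j (s0 N z) (by rw [hre0]; linarith)
      rw [him0] at h4
      have h5 : ‖Gamma (s0 N z - (j : ℂ))‖ ≤ ‖Gamma (s0 N z)‖ * (4 / |z.re|) := by
        have hx4 : 1 ≤ |z.re| / 4 := by linarith
        have h6 : |z.re| / 4 ≤ (|z.re| / 4) ^ j := le_self_pow₀ hx4 (by omega)
        have h7 : ‖Gamma (s0 N z - (j : ℂ))‖ * (|z.re| / 4) ≤ ‖Gamma (s0 N z)‖ :=
          (mul_le_mul_of_nonneg_left h6 (norm_nonneg _)).trans h4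
        have hx0 : 0 < |z.re| := by linarith
        rw [mul_div_assoc', le_div_iff₀ hx0]
        linarith
      rw [norm_mul, norm_pi_cpow, norm_E hN, norm_mul, norm_pi_cpow, hre]
      have h8 : (Real.pi : ℝ) ^ (-((s0 N z).re - j)) = Real.pi ^ (-(s0 N z).re) * Real.pi ^ j := by
        rw [← Real.rpow_natCast, ← Real.rpow_add Real.pi_pos]; congr 1; ring
      have h9 : (N : ℝ) ^ (-((s0 N z).re - j)) = (N : ℝ) ^ (-(s0 N z).re) * (N : ℝ) ^ j := by
        rw [← Real.rpow_natCast, ← Real.rpow_add hNpos]; congr 1; ring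
      rw [h8, h9]
      have h10 : Z (2 * ((s0 N z).re - j) / N - 4) ^ N ≤ (1 + Z 2) ^ N := by
        rw [← hre]
        exact pow_le_pow_left₀ (maj_ne (by linarith)) h3 N
      have hZ0 : 0 ≤ Z (2 * ((s0 N z).re - j) / N - 4) := by
        rw [← hre]; exact maj_ne (by linarith)
      calc Real.pi ^ (-(s0 N z).re) * Real.pi ^ j * ‖Gamma (s0 N z - (j : ℂ))‖ *
            ((N : ℝ) ^ (-(s0 N z).re) * (N : ℝ) ^ j * Z (2 * ((s0 N z).re - j) / N - 4) ^ N)
          ≤ Real.pi ^ (-(s0 N z).re) * Real.pi ^ j * (‖Gamma (s0 N z)‖ * (4 / |z.re|)) *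
            ((N : ℝ) ^ (-(s0 N z).re) * (N : ℝ) ^ j * (1 + Z 2) ^ N) := by
            gcongr
        _ = _ := by rw [mul_pow]; ring
    refine (norm_sum_le _ _).trans ((Finset.sum_le_sum h1).trans ?_)
    rw [← Finset.sum_mul, ← hK]
    have hx0 : 0 < |z.re| := by linarith
    have h2 : K * (4 / |z.re|) ≤ 1 / 4 * c := by
      rw [div_le_iff₀ hcpos] at hx2
      rw [mul_div_assoc', div_le_iff₀ hx0]
      linarith
    calc K * (‖E N z‖ * (4 / |z.re|)) = K * (4 / |z.re|) * ‖E N z‖ := by ring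
      _ ≤ 1 / 4 * c * ‖E N z‖ := by gcongr
  calc _ ≤ _ := norm_add_le _ _
    _ ≤ 1 / 4 * c * ‖E N z‖ + c * (1 / 4 * ‖E N z‖) := by
        rw [norm_mul, hncf]
        gcongr
    _ = _ := by ring

end Pool.Agent.Helper242.RK
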