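import Pool.Agent.Helper242.RK.Int4

set_option autoImplicit false

/-!
# Bounds of the Gamma function on vertical lines
-/

namespace Pool.Agent.Helper242.RK

open Complex Filter Topology MeasureTheory

lemma norm_Gamma_half_sq (τ : ℝ) :
    ‖Gamma (1 / 2 + τ * I)‖ ^ 2 = Real.pi / Real.cosh (Real.pi * τ) := by
  have h1 := Complex.Gamma_mul_Gamma_one_sub (1 / 2 + τ * I)
  have h2 : (1 : ℂ) - (1 / 2 + τ * I) = (starRingEnd ℂ) (1 / 2 + τ * I) := by
    apply Complex.ext <;> simp <;> norm_num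
  rw [h2, Gamma_conj, mul_conj, normSq_eq_norm_sq] at h1
  have h3 : Complex.sin (Real.pi * (1 / 2 + τ * I)) = ((Real.cosh (Real.pi * τ) : ℝ) : ℂ) := by
    have : (Real.pi : ℂ) * (1 / 2 + τ * I) = (Real.pi : ℂ) * τ * I + Real.pi / 2 := by ring
    rw [this, Complex.sin_add_pi_div_two, Complex.cos_mul_I]
    push_cast; rfl
  rw [h3] at h1
  exact_mod_cast h1

lemma Gamma_half_lower (τ : ℝ) :
    Real.sqrt Real.pi * Real.exp (-(Real.pi / 2 * |τ|)) ≤ ‖Gamma (1 / 2 + τ * I)‖ := by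
  have h := norm_Gamma_half_sq τ
  have h1 : Real.cosh (Real.pi * τ) ≤ Real.exp (Real.pi * |τ|) := by
    rw [← Real.cosh_abs, abs_mul, abs_of_pos Real.pi_pos, Real.cosh_eq]
    have : Real.exp (-(Real.pi * |τ|)) ≤ Real.exp (Real.pi * |τ|) :=
      Real.exp_le_exp.2 (by have := abs_nonneg τ; have := Real.pi_pos; nlinarith)
    linarith
  refine le_of_sq_le_sq ?_ (norm_nonneg _)
  rw [h, mul_pow, Real.sq_sqrt Real.pi_pos.le, ← Real.exp_nat_mul]
  have h2 : Real.exp (((2 : ℕ) : ℝ) * -(Real.pi / 2 * |τ|)) = (Real.exp (Real.pi * |τ|))⁻¹ := by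
    rw [← Real.exp_neg]; congr 1; push_cast; ring
  rw [h2, div_eq_mul_inv]
  gcongr

lemma Gamma_half_upper (τ : ℝ) :
    ‖Gamma (1 / 2 + τ * I)‖ ≤ 3 * Real.exp (-(Real.pi / 2 * |τ|)) := by
  have h := norm_Gamma_half_sq τ
  have h1 : Real.exp (Real.pi * |τ|) / 2 ≤ Real.cosh (Real.pi * τ) := by
    rw [← Real.cosh_abs, abs_mul, abs_of_pos Real.pi_pos, Real.cosh_eq]
    have := Real.exp_pos (-(Real.pi * |τ|))
    linarith
  refine le_of_sq_le_sq ?_ (by positivity)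
  rw [h, mul_pow, ← Real.exp_nat_mul]
  have h2 : Real.exp (((2 : ℕ) : ℝ) * -(Real.pi / 2 * |τ|)) = (Real.exp (Real.pi * |τ|))⁻¹ := by
    rw [← Real.exp_neg]; congr 1; push_cast; ring
  rw [h2]
  have hpi := Real.pi_lt_four
  calc Real.pi / Real.cosh (Real.pi * τ) ≤ Real.pi / (Real.exp (Real.pi * |τ|) / 2) := by
        have := Real.pi_pos
        gcongr
    _ = 2 * Real.pi * (Real.exp (Real.pi * |τ|))⁻¹ := by field_simp
    _ ≤ 3 ^ 2 * (Real.exp (Real.pi * |τ|))⁻¹ := by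
        gcongr
        linarith

lemma Gamma_half_nat_upper (k : ℕ) : ∃ C : ℝ, 0 < C ∧ ∀ τ : ℝ,
    ‖Gamma ((k : ℂ) + 1 / 2 + τ * I)‖ ≤ C * (1 + |τ|) ^ k * Real.exp (-(Real.pi / 2 * |τ|)) := by
  induction k with
  | zero =>
    refine ⟨3, by norm_num, fun τ => ?_⟩
    have := Gamma_half_upper τ
    simpa using this
  | succ k ih =>
    obtain ⟨C, hC, h⟩ := ih
    refine ⟨C * (k + 1), by positivity, fun τ => ?_⟩
    have hne : (k : ℂ) + 1 / 2 + τ * I ≠ 0 := by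
      intro h0
      have := congrArg Complex.re h0
      simp at this
      have : (0 : ℝ) ≤ k := Nat.cast_nonneg k
      linarith
    have e : ((k + 1 : ℕ) : ℂ) + 1 / 2 + τ * I = ((k : ℂ) + 1 / 2 + τ * I) + 1 := by
      push_cast; ring
    rw [e, Gamma_add_one _ hne, norm_mul]
    have h1 : ‖(k : ℂ) + 1 / 2 + τ * I‖ ≤ (k + 1) * (1 + |τ|) := by
      have h2 : ‖(k : ℂ) + 1 / 2 + τ * I‖ ≤ ‖(k : ℂ)‖ + ‖(1 / 2 : ℂ)‖ + ‖τ * I‖ :=
        norm_add₃_le
      have h3 : ‖(τ : ℂ) * I‖ = |τ| := by simp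
      have h4 : ‖(k : ℂ)‖ = k := by simp
      have h5 : ‖(1 / 2 : ℂ)‖ = 1 / 2 := by simp
      rw [h3, h4, h5] at h2
      have h6 : (0 : ℝ) ≤ k := Nat.cast_nonneg k
      have h7 := abs_nonneg τ
      nlinarith
    calc ‖(k : ℂ) + 1 / 2 + τ * I‖ * ‖Gamma ((k : ℂ) + 1 / 2 + τ * I)‖
        ≤ ((k + 1) * (1 + |τ|)) * (C * (1 + |τ|) ^ k * Real.exp (-(Real.pi / 2 * |τ|))) := by
          gcongr
          exact h τ
      _ = _ := by ring

lemma norm_beta_le {s : ℂ} (hs : 0 < s.re) {u : ℝ} (hu : 0 < u) :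
    ‖betaIntegral s u‖ ≤ ‖betaIntegral (s.re : ℂ) u‖ := by
  have hn : ∀ w : ℂ, w.re = s.re → ∀ x ∈ Set.Ioo (0 : ℝ) 1,
      ‖(x : ℂ) ^ (w - 1) * (1 - (x : ℂ)) ^ ((u : ℂ) - 1)‖ = x ^ (s.re - 1) * (1 - x) ^ (u - 1) := by
    intro w hw x hx
    rw [norm_mul, norm_cpow_eq_rpow_re_of_pos hx.1]
    have : (1 : ℂ) - x = ((1 - x : ℝ) : ℂ) := by push_cast; rfl
    rw [this, norm_cpow_eq_rpow_re_of_pos (by linarith [hx.2])]
    simp [hw]
  have hr : betaIntegral (s.re : ℂ) u =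
      ((∫ x in (0 : ℝ)..1, x ^ (s.re - 1) * (1 - x) ^ (u - 1) : ℝ) : ℂ) := by
    rw [betaIntegral, ← intervalIntegral.integral_ofReal]
    rw [intervalIntegral.integral_of_le zero_le_one, intervalIntegral.integral_of_le zero_le_one,
      integral_Ioc_eq_integral_Ioo, integral_Ioc_eq_integral_Ioo]
    refine setIntegral_congr_fun measurableSet_Ioo fun x hx => ?_
    push_cast
    rw [ofReal_cpow hx.1.le, ofReal_cpow (by linarith [hx.2] : 0 ≤ 1 - x)]
    push_cast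
    rfl
  have hnn : 0 ≤ ∫ x in (0 : ℝ)..1, x ^ (s.re - 1) * (1 - x) ^ (u - 1) := by
    refine intervalIntegral.integral_nonneg zero_le_one fun x hx => ?_
    have h1 := hx.1
    have h2 : 0 ≤ 1 - x := by linarith [hx.2]
    positivity
  rw [hr, norm_real, Real.norm_of_nonneg hnn, betaIntegral]
  refine (intervalIntegral.norm_integral_le_integral_norm zero_le_one).trans (le_of_eq ?_)
  rw [intervalIntegral.integral_of_le zero_le_one, intervalIntegral.integral_of_le zero_le_one,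
    integral_Ioc_eq_integral_Ioo, integral_Ioc_eq_integral_Ioo]
  exact setIntegral_congr_fun measurableSet_Ioo fun x hx => hn s rfl x hx

lemma Gamma_ratio {s : ℂ} (hs : 0 < s.re) {u : ℝ} (hu : 0 < u) :
    ‖Gamma s‖ * Real.Gamma (s.re + u) ≤ ‖Gamma (s + u)‖ * Real.Gamma s.re := by
  have h1 := Complex.Gamma_mul_Gamma_eq_betaIntegral (s := s) (t := (u : ℂ)) hs (by simpa using hu)
  have h2 := Complex.Gamma_mul_Gamma_eq_betaIntegral (s := (s.re : ℂ)) (t := (u : ℂ))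
    (by simpa using hs) (by simpa using hu)
  have h3 := norm_beta_le hs hu
  have e1 := congrArg norm h1
  have e2 := congrArg norm h2
  have hGu : 0 < Real.Gamma u := Real.Gamma_pos_of_pos hu
  have hGs : 0 < Real.Gamma s.re := Real.Gamma_pos_of_pos hs
  have hGsu : 0 < Real.Gamma (s.re + u) := Real.Gamma_pos_of_pos (by linarith)
  rw [norm_mul, norm_mul, Complex.Gamma_ofReal, norm_real, Real.norm_of_nonneg hGu.le] at e1
  rw [norm_mul, norm_mul, ← ofReal_add, Complex.Gamma_ofReal, Complex.Gamma_ofReal,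
    Complex.Gamma_ofReal, norm_real, norm_real,
    norm_real, Real.norm_of_nonneg hGu.le, Real.norm_of_nonneg hGs.le,
    Real.norm_of_nonneg hGsu.le] at e2
  have h4 : ‖Gamma s‖ * Real.Gamma u * Real.Gamma (s.re + u) ≤
      ‖Gamma (s + u)‖ * (Real.Gamma s.re * Real.Gamma u) := by
    rw [e1, e2]
    calc ‖Gamma (s + u)‖ * ‖betaIntegral s u‖ * Real.Gamma (s.re + u)
        ≤ ‖Gamma (s + u)‖ * ‖betaIntegral (s.re : ℂ) u‖ * Real.Gamma (s.re + u) := by gcongr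
      _ = _ := by ring
  have h5 : (‖Gamma s‖ * Real.Gamma (s.re + u)) * Real.Gamma u ≤
      (‖Gamma (s + u)‖ * Real.Gamma s.re) * Real.Gamma u := by
    calc _ = ‖Gamma s‖ * Real.Gamma u * Real.Gamma (s.re + u) := by ring
      _ ≤ _ := h4
      _ = _ := by ring
  exact le_of_mul_le_mul_right h5 hGu

lemma Gamma_lower {s : ℂ} (hs : 2 ≤ s.re) :
    Real.exp (-(Real.pi / 2 * |s.im|)) ≤ ‖Gamma s‖ := by
  have h1 := Gamma_ratio (s := 1 / 2 + s.im * I) (by simp) (u := s.re - 1 / 2) (by linarith)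
  have h2 : ((1 : ℂ) / 2 + s.im * I).re = 1 / 2 := by simp
  rw [h2, Real.Gamma_one_half_eq] at h1
  have h3 : (1 : ℂ) / 2 + s.im * I + ((s.re - 1 / 2 : ℝ) : ℂ) = s := by
    apply Complex.ext <;> simp
  have h4 : (1 : ℝ) / 2 + (s.re - 1 / 2) = s.re := by ring
  rw [h3, h4] at h1
  have h5 : 1 ≤ Real.Gamma s.re := by
    have h6 := Real.Gamma_strictMonoOn_Ici.monotoneOn (Set.self_mem_Ici (a := (2 : ℝ)))
      (Set.mem_Ici.2 hs) hs
    rwa [Real.Gamma_two] at h6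
  have h7 := Gamma_half_lower s.im
  have hsq : 0 < Real.sqrt Real.pi := Real.sqrt_pos.2 Real.pi_pos
  have h8 : Real.sqrt Real.pi * Real.exp (-(Real.pi / 2 * |s.im|)) ≤
      Real.sqrt Real.pi * ‖Gamma s‖ := by
    calc Real.sqrt Real.pi * Real.exp (-(Real.pi / 2 * |s.im|))
        ≤ ‖Gamma (1 / 2 + s.im * I)‖ := h7
      _ ≤ ‖Gamma (1 / 2 + s.im * I)‖ * Real.Gamma s.re :=
          le_mul_of_one_le_right (norm_nonneg _) h5
      _ ≤ ‖Gamma s‖ * Real.sqrt Real.pi := h1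
      _ = _ := mul_comm _ _
  exact le_of_mul_le_mul_left h8 hsq

lemma norm_Gamma_le {s : ℂ} (hs : 0 < s.re) : ‖Gamma s‖ ≤ Real.Gamma s.re := by
  rw [Complex.Gamma_eq_integral hs, Real.Gamma_eq_integral hs, GammaIntegral]
  refine (norm_integral_le_integral_norm _).trans (le_of_eq ?_)
  refine setIntegral_congr_fun measurableSet_Ioi fun x hx => ?_
  have hx' : (0 : ℝ) < x := hx
  rw [norm_mul, norm_cpow_eq_rpow_re_of_pos hx', norm_real, Real.norm_of_nonneg (Real.exp_pos _).le]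
  simp

lemma one_add_pow_exp (k : ℕ) (v : ℝ) :
    (1 + |v|) ^ k * Real.exp (-v ^ 2) ≤ k.factorial * Real.exp 2 := by
  have hv := abs_nonneg v
  have h := Real.pow_div_factorial_le_exp (1 + |v|) (by linarith) k
  rw [div_le_iff₀ (by positivity)] at h
  calc (1 + |v|) ^ k * Real.exp (-v ^ 2) ≤
      (Real.exp (1 + |v|) * k.factorial) * Real.exp (-v ^ 2) := by gcongr
    _ = k.factorial * Real.exp (1 + |v| - v ^ 2) := by
        rw [sub_eq_add_neg, Real.exp_add (1 + |v|)]; ring_nf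
    _ ≤ k.factorial * Real.exp 2 := by
        gcongr
        rw [← sq_abs v]
        nlinarith [sq_nonneg (|v| - 1 / 2)]

lemma Gamma_upper_pos {σ : ℝ} (hσ : 1 / 2 ≤ σ) : ∃ C : ℝ, 0 < C ∧ ∀ τ : ℝ, 0 ≤ τ →
    ‖Gamma ((σ : ℂ) + τ * I)‖ ≤ C * (1 + |τ|) ^ (σ - 1 / 2) * Real.exp (-(Real.pi / 2 * |τ|)) := by
  obtain ⟨k, hk⟩ : ∃ k : ℕ, ⌊σ - 1 / 2⌋₊ = k := ⟨_, rfl⟩
  have hk1 : (k : ℝ) + 1 / 2 ≤ σ := by
    have := Nat.floor_le (by linarith : 0 ≤ σ - 1 / 2)
    rw [hk] at this; linarith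
  have hk2 : σ < (k : ℝ) + 1 / 2 + 1 := by
    have := Nat.lt_floor_add_one (σ - 1 / 2)
    rw [hk] at this; linarith
  obtain ⟨C1, hC1, h1⟩ := Gamma_half_nat_upper k
  obtain ⟨C2, hC2, h2⟩ := Gamma_half_nat_upper (k + 1)
  set l : ℝ := (k : ℝ) + 1 / 2 with hl
  have hl0 : 0 < l := by positivity
  set M : ℝ := (C1 + C2) * ((k + 1).factorial * Real.exp 3) with hM
  have hMpos : 0 < M := by positivity
  refine ⟨M, hMpos, fun τ0 hτ0 => ?_⟩
  set s1 : ℂ := (σ : ℂ) + τ0 * I with hs1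
  set f : ℂ → ℂ := fun s => Gamma s * cexp (-(I * Real.pi * s / 2)) * cexp ((s - s1) ^ 2) with hf
  have hnorm : ∀ s : ℂ, ‖f s‖ = ‖Gamma s‖ * Real.exp (Real.pi * s.im / 2) *
      Real.exp ((s.re - σ) ^ 2 - (s.im - τ0) ^ 2) := by
    intro s
    simp only [hf]
    rw [norm_mul, norm_mul, norm_exp, norm_exp]
    congr 2
    · congr 1
      simp
      ring
    · have : (s - s1) ^ 2 = (s - s1) * (s - s1) := sq _
      rw [this, mul_re]
      simp [hs1]
      ring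
  have hdiff : ∀ s : ℂ, 0 < s.re → DifferentiableAt ℂ f s := by
    intro s hs
    simp only [hf]
    have : DifferentiableAt ℂ Gamma s := by
      refine differentiableAt_Gamma s fun m hm => ?_
      have := congrArg Complex.re hm
      simp at this
      have h0 : (0 : ℝ) ≤ m := Nat.cast_nonneg m
      linarith
    fun_prop
  have hd : DiffContOnCl ℂ f (HadamardThreeLines.verticalStrip l (l + 1)) := by
    refine DifferentiableOn.diffContOnCl fun s hs => ?_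
    refine (hdiff s ?_).differentiableWithinAt
    have : s ∈ HadamardThreeLines.verticalClosedStrip l (l + 1) := by
      have hcl : IsClosed (HadamardThreeLines.verticalClosedStrip l (l + 1)) :=
        isClosed_Icc.preimage continuous_re
      exact closure_minimal (Set.preimage_mono Set.Ioo_subset_Icc_self) hcl hs
    exact hl0.trans_le this.1
  have hB : BddAbove ((norm ∘ f) '' HadamardThreeLines.verticalClosedStrip l (l + 1)) := by
    obtain ⟨G, hG⟩ := isCompact_Icc.exists_bound_of_continuousOn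
      (f := fun x : ℝ => Real.Gamma x) (s := Set.Icc l (l + 1)) (fun x hx =>
        (Real.differentiableAt_Gamma (fun m hm => by
          have h0 : (0 : ℝ) ≤ m := Nat.cast_nonneg m
          have := hx.1
          linarith)).continuousAt.continuousWithinAt)
    refine ⟨G * Real.exp (Real.pi * τ0 / 2 + 2), ?_⟩
    rintro _ ⟨s, hs, rfl⟩
    simp only [Function.comp_apply]
    rw [hnorm, mul_assoc, ← Real.exp_add]
    have hs1 := hs.1
    have hs2 := hs.2
    have h3 : ‖Gamma s‖ ≤ G := (norm_Gamma_le (hl0.trans_le hs1)).trans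
      ((le_abs_self _).trans (hG s.re ⟨hs1, hs2⟩))
    have h4 : Real.pi * s.im / 2 + ((s.re - σ) ^ 2 - (s.im - τ0) ^ 2) ≤
        Real.pi * τ0 / 2 + 2 := by
      have h5 : (s.re - σ) ^ 2 ≤ 1 := by
        rw [sq_le_one_iff_abs_le_one, abs_le]; constructor <;> linarith
      have h6 : Real.pi * (s.im - τ0) / 2 ≤ (s.im - τ0) ^ 2 + 1 := by
        have := Real.pi_pos
        have := Real.pi_lt_four
        nlinarith [sq_nonneg (s.im - τ0 - Real.pi / 4)]
      linarith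
    have hG0 : 0 ≤ G := (norm_nonneg _).trans h3
    exact mul_le_mul h3 (Real.exp_le_exp.2 h4) (Real.exp_pos _).le hG0
  have hline : ∀ (j : ℕ) (C : ℝ), 0 < C → C ≤ C1 + C2 → j ≤ k + 1 → k ≤ j → (∀ τ : ℝ,
      ‖Gamma ((j : ℂ) + 1 / 2 + τ * I)‖ ≤ C * (1 + |τ|) ^ j * Real.exp (-(Real.pi / 2 * |τ|))) →
      ∀ s ∈ re ⁻¹' {(j : ℝ) + 1 / 2}, ‖f s‖ ≤ M * (1 + |τ0|) ^ (j : ℝ) := by
    intro j C hC hCC hjk hkj hb s hs
    have hs' : s.re = (j : ℝ) + 1 / 2 := hs
    have hs2 : s = (j : ℂ) + 1 / 2 + s.im * I := by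
      apply Complex.ext <;> simp [hs']
    have h3 := hb s.im
    rw [← hs2] at h3
    rw [hnorm, Real.rpow_natCast]
    set v := s.im - τ0 with hv
    have h4 : 1 + |s.im| ≤ (1 + |τ0|) * (1 + |v|) := by
      have : |s.im| ≤ |τ0| + |v| := by
        have : s.im = τ0 + v := by rw [hv]; ring
        rw [this]; exact abs_add_le _ _
      have h5 := abs_nonneg τ0
      have h6 := abs_nonneg v
      nlinarith
    have h5 : Real.exp (Real.pi * s.im / 2) ≤ Real.exp (Real.pi / 2 * |s.im|) := by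
      refine Real.exp_le_exp.2 ?_
      have := le_abs_self s.im
      have := Real.pi_pos
      nlinarith
    have h6 : (s.re - σ) ^ 2 ≤ 1 := by
      have hkj' : (k : ℝ) ≤ j := by exact_mod_cast hkj
      have hjk' : (j : ℝ) ≤ k + 1 := by exact_mod_cast hjk
      rw [sq_le_one_iff_abs_le_one, abs_le, hs']; constructor <;> linarith
    have h7 : Real.exp ((s.re - σ) ^ 2 - v ^ 2) ≤ Real.exp 1 * Real.exp (-v ^ 2) := by
      rw [← Real.exp_add]
      exact Real.exp_le_exp.2 (by linarith)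
    have h8 := one_add_pow_exp j v
    have h9 : (j.factorial : ℝ) ≤ (k + 1).factorial := by
      exact_mod_cast Nat.factorial_le hjk
    calc ‖Gamma s‖ * Real.exp (Real.pi * s.im / 2) * Real.exp ((s.re - σ) ^ 2 - v ^ 2)
        ≤ (C * (1 + |s.im|) ^ j * Real.exp (-(Real.pi / 2 * |s.im|))) *
          Real.exp (Real.pi / 2 * |s.im|) * (Real.exp 1 * Real.exp (-v ^ 2)) := by gcongr
      _ = C * (1 + |s.im|) ^ j * (Real.exp 1 * Real.exp (-v ^ 2)) := by
          rw [mul_assoc (C * (1 + |s.im|) ^ j), ← Real.exp_add]; simp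
      _ ≤ C * ((1 + |τ0|) * (1 + |v|)) ^ j * (Real.exp 1 * Real.exp (-v ^ 2)) := by gcongr
      _ = C * (1 + |τ0|) ^ j * Real.exp 1 * ((1 + |v|) ^ j * Real.exp (-v ^ 2)) := by
          rw [mul_pow]; ring
      _ ≤ C * (1 + |τ0|) ^ j * Real.exp 1 * (j.factorial * Real.exp 2) := by gcongr
      _ ≤ (C1 + C2) * (1 + |τ0|) ^ j * Real.exp 1 * ((k + 1).factorial * Real.exp 2) := by gcongr
      _ = M * (1 + |τ0|) ^ j := by
          have : Real.exp 3 = Real.exp 1 * Real.exp 2 := by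
            rw [← Real.exp_add]; norm_num
          rw [hM, this]; ring
  have ha := hline k C1 hC1 (by linarith) (by omega) le_rfl h1
  have hb := hline (k + 1) C2 hC2 (by linarith) le_rfl (by omega) h2
  have hu : ((k + 1 : ℕ) : ℝ) + 1 / 2 = l + 1 := by rw [hl]; push_cast; ring
  rw [hu] at hb
  rw [← hl] at ha
  have hz : s1 ∈ HadamardThreeLines.verticalClosedStrip l (l + 1) := by
    constructor <;> simp [hs1] <;> linarith
  have h3 := HadamardThreeLines.norm_le_interp_of_mem_verticalClosedStrip' (by linarith) hz hd hB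
    ha hb
  have hs1re : s1.re = σ := by simp [hs1]
  have hs1im : s1.im = τ0 := by simp [hs1]
  rw [hnorm, hs1re, hs1im] at h3
  have hp : 0 < 1 + |τ0| := by positivity
  have h4 : (M * (1 + |τ0|) ^ (k : ℝ)) ^ (1 - (σ - l) / (l + 1 - l)) *
      (M * (1 + |τ0|) ^ (((k + 1 : ℕ) : ℕ) : ℝ)) ^ ((σ - l) / (l + 1 - l)) =
      M * (1 + |τ0|) ^ (σ - 1 / 2) := by
    have h5 : (σ - l) / (l + 1 - l) = σ - l := by
      rw [add_sub_cancel_left, div_one]
    rw [h5, Real.mul_rpow hMpos.le (by positivity), Real.mul_rpow hMpos.le (by positivity),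
      ← Real.rpow_mul hp.le, ← Real.rpow_mul hp.le]
    have h6 : M ^ (1 - (σ - l)) * (1 + |τ0|) ^ ((k : ℝ) * (1 - (σ - l))) *
        (M ^ (σ - l) * (1 + |τ0|) ^ ((((k + 1 : ℕ) : ℕ) : ℝ) * (σ - l))) =
        (M ^ (1 - (σ - l)) * M ^ (σ - l)) *
        ((1 + |τ0|) ^ ((k : ℝ) * (1 - (σ - l))) * (1 + |τ0|) ^ ((((k + 1 : ℕ) : ℕ) : ℝ) * (σ - l))) := by
      ring
    rw [h6, ← Real.rpow_add hMpos, ← Real.rpow_add hp]
    congr 1
    · rw [sub_add_cancel, Real.rpow_one]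
    · congr 1
      rw [hl]; push_cast; ring
  rw [h4] at h3
  have h5 : Real.exp (Real.pi * τ0 / 2) * Real.exp (-(Real.pi / 2 * |τ0|)) = 1 := by
    rw [← Real.exp_add, abs_of_nonneg hτ0]
    rw [show Real.pi * τ0 / 2 + -(Real.pi / 2 * τ0) = 0 by ring, Real.exp_zero]
  have h6 : ‖Gamma s1‖ * Real.exp (Real.pi * τ0 / 2) ≤ M * (1 + |τ0|) ^ (σ - 1 / 2) := by
    have : Real.exp ((σ - σ) ^ 2 - (τ0 - τ0) ^ 2) = 1 := by simp
    rw [this, mul_one] at h3
    exact h3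
  calc ‖Gamma s1‖ = ‖Gamma s1‖ * (Real.exp (Real.pi * τ0 / 2) *
        Real.exp (-(Real.pi / 2 * |τ0|))) := by rw [h5, mul_one]
    _ = ‖Gamma s1‖ * Real.exp (Real.pi * τ0 / 2) * Real.exp (-(Real.pi / 2 * |τ0|)) := by ring
    _ ≤ M * (1 + |τ0|) ^ (σ - 1 / 2) * Real.exp (-(Real.pi / 2 * |τ0|)) := by gcongr

lemma Gamma_upper {σ : ℝ} (hσ : 1 / 2 ≤ σ) : ∃ C : ℝ, 0 < C ∧ ∀ τ : ℝ,
    ‖Gamma ((σ : ℂ) + τ * I)‖ ≤ C * (1 + |τ|) ^ (σ - 1 / 2) * Real.exp (-(Real.pi / 2 * |τ|)) := by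
  obtain ⟨C, hC, h⟩ := Gamma_upper_pos hσ
  refine ⟨C, hC, fun τ => ?_⟩
  rcases le_total 0 τ with h0 | h0
  · exact h τ h0
  · have h1 := h (-τ) (by linarith)
    have h2 : (σ : ℂ) + ((-τ : ℝ) : ℂ) * I = (starRingEnd ℂ) ((σ : ℂ) + τ * I) := by
      apply Complex.ext <;> simp
    rw [h2, Gamma_conj, RCLike.norm_conj, abs_neg] at h1
    exact h1

end Pool.Agent.Helper242.RK
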