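import Pool.Agent.Helper242.RK.Int5

set_option autoImplicit false

/-!
# Three circles and a Lindelöf type bound
-/

namespace Pool.Agent.Helper242.RK

open Complex Filter Topology MeasureTheory

lemma bc_bound {f : ℂ → ℂ} {r R M : ℝ} (hM : 0 < M) (hf : DifferentiableOn ℂ f (Metric.ball 0 R))
    (hre : ∀ z ∈ Metric.ball (0 : ℂ) R, (f z).re ≤ M) (hf0 : f 0 = 0) (hr : 0 ≤ r) (hrR : r < R)
    {z : ℂ} (hz : ‖z‖ ≤ r) : ‖f z‖ ≤ 2 * M * r / (R - r) := by
  have hzR : z ∈ Metric.ball (0 : ℂ) R := by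
    rw [mem_ball_zero_iff]; linarith
  have h := borelCaratheodory_zero hM hf (fun z hz => hre z hz) (by linarith) hzR hf0
  refine h.trans ?_
  have h1 : 0 < R - r := by linarith
  have h2 := norm_nonneg z
  gcongr

lemma three_circles {f : ℂ → ℂ} {r1 r3 R M1 M3 : ℝ} (hr1 : 0 < r1) (hr13 : r1 < r3) (hr3 : r3 < R)
    (hf : DifferentiableOn ℂ f (Metric.ball 0 R)) (h1 : ∀ z : ℂ, ‖z‖ = r1 → ‖f z‖ ≤ M1)
    (h3 : ∀ z : ℂ, ‖z‖ = r3 → ‖f z‖ ≤ M3) {z : ℂ} (hz1 : r1 ≤ ‖z‖) (hz3 : ‖z‖ ≤ r3) :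
    ‖f z‖ ≤ M1 ^ (1 - (Real.log ‖z‖ - Real.log r1) / (Real.log r3 - Real.log r1)) *
      M3 ^ ((Real.log ‖z‖ - Real.log r1) / (Real.log r3 - Real.log r1)) := by
  have hr3pos : 0 < r3 := hr1.trans hr13
  have hlog : Real.log r1 < Real.log r3 := Real.log_lt_log hr1 hr13
  have hzpos : 0 < ‖z‖ := hr1.trans_le hz1
  have hz0 : z ≠ 0 := norm_pos_iff.1 hzpos
  have hmem : ∀ w : ℂ, w.re ≤ Real.log r3 → cexp w ∈ Metric.ball (0 : ℂ) R := by
    intro w hw
    rw [mem_ball_zero_iff, norm_exp]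
    calc Real.exp w.re ≤ Real.exp (Real.log r3) := Real.exp_le_exp.2 hw
      _ = r3 := Real.exp_log hr3pos
      _ < R := hr3
  have hd : DiffContOnCl ℂ (fun w => f (cexp w))
      (HadamardThreeLines.verticalStrip (Real.log r1) (Real.log r3)) := by
    refine DifferentiableOn.diffContOnCl fun w hw => ?_
    have hw' : w ∈ HadamardThreeLines.verticalClosedStrip (Real.log r1) (Real.log r3) := by
      have hcl : IsClosed (HadamardThreeLines.verticalClosedStrip (Real.log r1) (Real.log r3)) :=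
        isClosed_Icc.preimage continuous_re
      exact closure_minimal (Set.preimage_mono Set.Ioo_subset_Icc_self) hcl hw
    have h4 := (hf.differentiableAt (Metric.isOpen_ball.mem_nhds (hmem w hw'.2)))
    exact (DifferentiableAt.comp w h4 differentiableAt_exp).differentiableWithinAt
  have hB : BddAbove ((norm ∘ fun w => f (cexp w)) ''
      HadamardThreeLines.verticalClosedStrip (Real.log r1) (Real.log r3)) := by
    obtain ⟨G, hG⟩ := (isCompact_closedBall (0 : ℂ) r3).exists_bound_of_continuousOn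
      (hf.continuousOn.mono (Metric.closedBall_subset_ball hr3))
    refine ⟨G, ?_⟩
    rintro _ ⟨w, hw, rfl⟩
    simp only [Function.comp_apply]
    refine hG _ ?_
    rw [mem_closedBall_zero_iff, norm_exp]
    calc Real.exp w.re ≤ Real.exp (Real.log r3) := Real.exp_le_exp.2 hw.2
      _ = r3 := Real.exp_log hr3pos
  have hz : log z ∈ HadamardThreeLines.verticalClosedStrip (Real.log r1) (Real.log r3) := by
    constructor
    · rw [log_re]; exact Real.log_le_log hr1 hz1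
    · rw [log_re]; exact Real.log_le_log hzpos hz3
  have h := HadamardThreeLines.norm_le_interp_of_mem_verticalClosedStrip' hlog hz hd hB
    (a := M1) (b := M3) ?_ ?_
  · rw [exp_log hz0, log_re] at h
    exact h
  · intro w hw
    have hw' : w.re = Real.log r1 := hw
    refine h1 _ ?_
    rw [norm_exp, hw', Real.exp_log hr1]
  · intro w hw
    have hw' : w.re = Real.log r3 := hw
    refine h3 _ ?_
    rw [norm_exp, hw', Real.exp_log hr3pos]

lemma log_small {R η : ℝ} (hR : 2 < R) (hη : 0 < η) (hη1 : η < 1) :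
    ∃ K θ : ℝ, 0 < K ∧ 0 < θ ∧ θ < 1 ∧ ∀ (f : ℂ → ℂ) (M : ℝ), 0 < M →
      DifferentiableOn ℂ f (Metric.ball 0 R) → f 0 = 0 →
      (∀ z ∈ Metric.ball (0 : ℂ) R, (f z).re ≤ M) → (∀ z ∈ Metric.ball (0 : ℂ) 1, (f z).re ≤ 2) →
      ∀ z : ℂ, ‖z‖ = R - η → ‖f z‖ ≤ K * M ^ θ := by
  set K3 : ℝ := 2 * (R - η / 2) / (η / 2) with hK3
  have hK3pos : 0 < K3 := by
    have : 0 < R - η / 2 := by linarith
    positivity
  set θ := (Real.log (R - η) - Real.log (1 / 2)) / (Real.log (R - η / 2) - Real.log (1 / 2)) with hθ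
  have hl1 : Real.log (1 / 2) < Real.log (R - η) := Real.log_lt_log (by norm_num) (by linarith)
  have hl2 : Real.log (R - η) < Real.log (R - η / 2) := Real.log_lt_log (by linarith) (by linarith)
  have hθ0 : 0 < θ := div_pos (by linarith) (by linarith)
  have hθ1 : θ < 1 := by rw [hθ, div_lt_one (by linarith)]; linarith
  refine ⟨4 ^ (1 - θ) * K3 ^ θ, θ, by positivity, hθ0, hθ1, fun f M hM hf hf0 hre hin z hz => ?_⟩
  have h1 : ∀ w : ℂ, ‖w‖ = 1 / 2 → ‖f w‖ ≤ 4 := by
    intro w hw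
    have h := bc_bound (by norm_num : (0 : ℝ) < 2) (hf.mono (Metric.ball_subset_ball (by linarith)))
      hin hf0 (by norm_num : (0 : ℝ) ≤ 1 / 2) (by norm_num) hw.le
    refine h.trans (by norm_num)
  have h3 : ∀ w : ℂ, ‖w‖ = R - η / 2 → ‖f w‖ ≤ K3 * M := by
    intro w hw
    have h := bc_bound hM hf hre hf0 (by linarith : (0 : ℝ) ≤ R - η / 2) (by linarith) hw.le
    refine h.trans (le_of_eq ?_)
    rw [hK3]
    have : R - (R - η / 2) = η / 2 := by ring
    rw [this]
    ring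
  have h := three_circles (by norm_num) (by linarith) (by linarith) hf h1 h3 (z := z)
    (by rw [hz]; linarith) (by rw [hz]; linarith)
  rw [hz, ← hθ] at h
  refine h.trans (le_of_eq ?_)
  rw [Real.mul_rpow hK3pos.le hM.le]
  ring

lemma rpow_small {K θ a c ε : ℝ} (hθ : θ < 1) (ha : 0 < a) (hε : 0 < ε) :
    ∀ᶠ u : ℝ in atTop, K * (a * u) ^ θ + c ≤ ε * u := by
  have h1 : Tendsto (fun u : ℝ => u ^ (-(1 - θ))) atTop (𝓝 0) :=
    tendsto_rpow_neg_atTop (by linarith)
  have h2 : Tendsto (fun u : ℝ => K * a ^ θ * u ^ (-(1 - θ)) + c * u⁻¹) atTop (𝓝 0) := by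
    have := (h1.const_mul (K * a ^ θ)).add (tendsto_inv_atTop_zero.const_mul c)
    simpa using this
  filter_upwards [h2.eventually (ge_mem_nhds hε), eventually_gt_atTop 0] with u hu hu0
  have h3 : K * (a * u) ^ θ + c = (K * a ^ θ * u ^ (-(1 - θ)) + c * u⁻¹) * u := by
    rw [Real.mul_rpow ha.le hu0.le, add_mul]
    have h4 : u ^ θ = u ^ (-(1 - θ)) * u := by
      nth_rewrite 3 [← Real.rpow_one u]
      rw [← Real.rpow_add hu0]; congr 1; ring
    rw [h4]
    field_simp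
  rw [h3]
  exact mul_le_mul_of_nonneg_right hu hu0.le

lemma lindelof {D : ℂ → ℂ} {c0 H X0 : ℝ} (hD : ∀ z : ℂ, 0 < z.im → DifferentiableAt ℂ D z)
    (h0 : ∀ z : ℂ, 0 < z.im → D z ≠ 0) (hc0 : 0 < c0) (hH : 1 < H)
    (hlead : ∀ z : ℂ, H ≤ z.im → X0 ≤ z.re → ‖D z - c0‖ ≤ 1 / 2 * c0)
    (hcrude : ∀ H' : ℝ, 0 ≤ H' → ∃ C : ℝ, ∃ B : ℕ, 0 < C ∧ ∀ z : ℂ, 0 < z.im → z.im ≤ H' → 8 ≤ z.re →
      ‖D z‖ ≤ C * z.re ^ B) {η ε : ℝ} (hη : 0 < η) (hη1 : η < 1) (hε : 0 < ε) :
    ∃ X : ℝ, ∀ x : ℝ, X ≤ x → ‖D ((x : ℂ) + η * I)‖ ≤ x ^ ε := by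
  set R := H + 1 with hR
  obtain ⟨K, θ, hK, hθ0, hθ1, hmain⟩ := log_small (R := R) (by linarith) hη hη1
  obtain ⟨C, B, hC, hcr⟩ := hcrude (2 * R) (by linarith)
  have hev1 := (Real.tendsto_log_atTop).eventually
    (rpow_small (K := K) (θ := θ) (a := (B : ℝ) + 1) (c := Real.log (3 / 2 * c0)) (ε := ε) hθ1
      (by positivity) hε)
  have hev2 := (Real.tendsto_log_atTop).eventually
    (eventually_ge_atTop (Real.log C + B * Real.log 2 - Real.log (1 / 2 * c0)))
  obtain ⟨X1, hX1⟩ := eventually_atTop.1 (hev1.and hev2)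
  refine ⟨max (max X1 (|X0| + R)) (R + 8), fun x hx => ?_⟩
  have hx1 : X1 ≤ x := (le_max_left _ _).trans ((le_max_left _ _).trans hx)
  have hx2 : |X0| + R ≤ x := (le_max_right _ _).trans ((le_max_left _ _).trans hx)
  have hx3 : R + 8 ≤ x := (le_max_right _ _).trans hx
  obtain ⟨he1, he2⟩ := hX1 x hx1
  have hxpos : 0 < x := by linarith
  set c : ℂ := (x : ℂ) + R * I with hc
  have hcre : c.re = x := by simp [hc]
  have hcim : c.im = R := by simp [hc]
  have hball : ∀ w ∈ Metric.ball (0 : ℂ) R, 0 < (c + w).im ∧ (c + w).im ≤ 2 * R ∧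
      x - R ≤ (c + w).re ∧ (c + w).re ≤ x + R := by
    intro w hw
    rw [mem_ball_zero_iff] at hw
    have h1 := (abs_re_le_norm w).trans_lt hw
    have h2 := (abs_im_le_norm w).trans_lt hw
    rw [abs_lt] at h1 h2
    rw [add_re, add_im, hcre, hcim]
    refine ⟨by linarith, by linarith, by linarith, by linarith⟩
  have hconv : Convex ℝ ((fun w : ℂ => c + w) ⁻¹' {z | 0 < z.im}) := by
    have : (fun w : ℂ => c + w) ⁻¹' {z | 0 < z.im} = {w : ℂ | -R < w.im} := by
      ext w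
      simp only [Set.mem_preimage, Set.mem_ofPred_eq, add_im, hcim]
      constructor <;> intro h <;> linarith
    rw [this]
    exact convex_halfSpace_im_gt _
  obtain ⟨L, hLd, hL⟩ := exists_log (U := Metric.ball (0 : ℂ) R) (convex_ball _ _) Metric.isOpen_ball
    ⟨0, by simp; linarith⟩ (f := fun w => D (c + w))
    (fun w hw => (DifferentiableAt.comp w (hD _ (hball w hw).1)
      (by fun_prop)).differentiableWithinAt)
    (fun w hw => h0 _ (hball w hw).1)
  have hLre : ∀ w ∈ Metric.ball (0 : ℂ) R, (L w).re = Real.log ‖D (c + w)‖ := by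
    intro w hw
    rw [← hL w hw, norm_exp, Real.log_exp]
  have h0R : (0 : ℂ) ∈ Metric.ball (0 : ℂ) R := by simp; linarith
  have hin : ∀ w ∈ Metric.ball (0 : ℂ) 1, 1 / 2 * c0 ≤ ‖D (c + w)‖ ∧ ‖D (c + w)‖ ≤ 3 / 2 * c0 := by
    intro w hw
    rw [mem_ball_zero_iff] at hw
    have h1 := (abs_re_le_norm w).trans_lt hw
    have h2 := (abs_im_le_norm w).trans_lt hw
    rw [abs_lt] at h1 h2
    have h3 := hlead (c + w) (by rw [add_im, hcim]; linarith)
      (by rw [add_re, hcre]; linarith [le_abs_self X0])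
    have h4 : ‖(c0 : ℂ)‖ = c0 := by rw [norm_real, Real.norm_of_nonneg hc0.le]
    have h5 : ‖(c0 : ℂ)‖ - ‖D (c + w)‖ ≤ ‖D (c + w) - c0‖ := by
      rw [norm_sub_rev]; exact norm_sub_norm_le _ _
    have h6 : ‖D (c + w)‖ - ‖(c0 : ℂ)‖ ≤ ‖D (c + w) - c0‖ := norm_sub_norm_le _ _
    rw [h4] at h5 h6
    constructor <;> linarith
  have hc1 := hin 0 (by simp)
  rw [add_zero] at hc1
  have hL0 : Real.log (1 / 2 * c0) ≤ (L 0).re := by
    rw [hLre 0 h0R, add_zero]
    exact Real.log_le_log (by positivity) hc1.1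
  have hL0' : (L 0).re ≤ Real.log (3 / 2 * c0) := by
    rw [hLre 0 h0R, add_zero]
    exact Real.log_le_log (by linarith [hc1.1]) hc1.2
  have hlogx : 0 < Real.log x := Real.log_pos (by linarith)
  have hb := hmain (fun w => L w - L 0) ((B + 1) * Real.log x) (by positivity)
    (hLd.sub_const _) (by simp) ?_ ?_ (-((R - η : ℝ) : ℂ) * I) ?_
  · have hz : c + (-((R - η : ℝ) : ℂ) * I) = (x : ℂ) + η * I := by
      rw [hc]; push_cast; ring
    have hmemz : (-((R - η : ℝ) : ℂ) * I) ∈ Metric.ball (0 : ℂ) R := by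
      rw [mem_ball_zero_iff, norm_mul, norm_neg, norm_real, norm_I, mul_one,
        Real.norm_of_nonneg (by linarith)]
      linarith
    have h1 := hLre _ hmemz
    rw [hz] at h1
    have h2 : (L (-((R - η : ℝ) : ℂ) * I)).re ≤ ε * Real.log x := by
      have h3 := (re_le_norm (L (-((R - η : ℝ) : ℂ) * I) - L 0)).trans hb
      rw [sub_re] at h3
      linarith
    have hDpos : 0 < ‖D ((x : ℂ) + η * I)‖ := norm_pos_iff.2 (h0 _ (by simpa using hη))
    rw [← Real.exp_log hDpos, ← h1, Real.rpow_def_of_pos hxpos]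
    exact Real.exp_le_exp.2 (by linarith)
  · intro w hw
    simp only [sub_re]
    obtain ⟨k1, k2, k3, k4⟩ := hball w hw
    have h1 := hcr (c + w) k1 k2 (by linarith)
    have h2 : ‖D (c + w)‖ ≤ C * (2 * x) ^ B := by
      refine h1.trans ?_
      have : 0 ≤ (c + w).re := by linarith
      gcongr
      linarith
    have h3 : (L w).re ≤ Real.log C + B * Real.log 2 + B * Real.log x := by
      rw [hLre w hw]
      have h4 := Real.log_le_log (norm_pos_iff.2 (h0 _ k1)) h2
      rw [Real.log_mul hC.ne' (by positivity), Real.log_pow, Real.log_mul (by norm_num) hxpos.ne']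
        at h4
      linarith
    linarith
  · intro w hw
    simp only [sub_re]
    have hwR : w ∈ Metric.ball (0 : ℂ) R := Metric.ball_subset_ball (by linarith) hw
    have h1 : (L w).re ≤ Real.log (3 / 2 * c0) := by
      rw [hLre w hwR]
      exact Real.log_le_log (norm_pos_iff.2 (h0 _ (hball w hwR).1)) (hin w hw).2
    have h2 : Real.log (3 / 2 * c0) - Real.log (1 / 2 * c0) ≤ 2 := by
      rw [← Real.log_div (by positivity) (by positivity)]
      have : 3 / 2 * c0 / (1 / 2 * c0) = 3 := by field_simp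
      rw [this]
      have := Real.log_le_sub_one_of_pos (by norm_num : (0 : ℝ) < 3)
      linarith
    linarith
  · rw [norm_mul, norm_neg, norm_real, norm_I, mul_one, Real.norm_of_nonneg (by linarith)]

end Pool.Agent.Helper242.RK
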