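import Pool.Agent.Helper242.RK.Int6

set_option autoImplicit false

/-!
# The growth of `F` near the real axis if all zeros are real
-/

namespace Pool.Agent.Helper242.RK

open Complex Filter Topology MeasureTheory

lemma s0_re_ge {N : ℕ} (hN : 1 ≤ N) {z : ℂ} (hz : 0 < z.im) : 2 ≤ (s0 N z).re := by
  have hN' : (1 : ℝ) ≤ N := by exact_mod_cast hN
  rw [s0_re]; linarith

lemma E_ne {N : ℕ} (hN : 1 ≤ N) {z : ℂ} (hz : 0 < z.im) : E N z ≠ 0 := by
  have h2 := s0_re_ge hN hz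
  have hN' : (N : ℂ) ≠ 0 := by
    have : N ≠ 0 := by omega
    exact_mod_cast this
  unfold E
  refine mul_ne_zero (mul_ne_zero ?_ (Gamma_ne_zero_of_re_pos (by linarith))) ?_
  · rw [Ne, cpow_eq_zero_iff]
    intro h
    exact Real.pi_ne_zero (by exact_mod_cast h.1)
  · rw [Ne, cpow_eq_zero_iff]
    intro h
    exact hN' h.1

lemma differentiableAt_E {N : ℕ} (hN : 1 ≤ N) {z : ℂ} (hz : 0 < z.im) :
    DifferentiableAt ℂ (E N) z := by
  have h2 := s0_re_ge hN hz
  have hN' : (N : ℂ) ≠ 0 := by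
    have : N ≠ 0 := by omega
    exact_mod_cast this
  have hs : DifferentiableAt ℂ (s0 N) z := by
    unfold s0; fun_prop
  have hG : DifferentiableAt ℂ Gamma (s0 N z) := by
    refine differentiableAt_Gamma _ fun m hm => ?_
    rw [hm] at h2
    have h0 : (0 : ℝ) ≤ m := Nat.cast_nonneg m
    simp at h2
    linarith
  have hpi : (Real.pi : ℂ) ≠ 0 := by exact_mod_cast Real.pi_ne_zero
  unfold E
  refine ((DifferentiableAt.const_cpow hs.neg (Or.inl hpi)).mul (hG.comp z hs)).mul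
    (DifferentiableAt.const_cpow hs.neg (Or.inl hN'))

lemma EN_lower {N : ℕ} (hN : 1 ≤ N) (H : ℝ) : ∃ c : ℝ, 0 < c ∧ ∀ z : ℂ, 0 < z.im →
    z.im ≤ H → c * Real.exp (-(Real.pi / 8 * |z.re|)) ≤ ‖E N z‖ := by
  have hN' : (1 : ℝ) ≤ N := by exact_mod_cast hN
  set b := (9 * N + H) / 4 with hb
  refine ⟨Real.pi ^ (-b) * (N : ℝ) ^ (-b), by positivity, fun z hz hzH => ?_⟩
  have h2 := s0_re_ge hN hz
  have h3 : (s0 N z).re ≤ b := by rw [s0_re, hb]; linarith
  rw [norm_E hN, norm_mul, norm_pi_cpow]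
  have h4 : Real.pi ^ (-b) ≤ Real.pi ^ (-(s0 N z).re) :=
    Real.rpow_le_rpow_of_exponent_le (by linarith [Real.pi_gt_three]) (by linarith)
  have h5 : (N : ℝ) ^ (-b) ≤ (N : ℝ) ^ (-(s0 N z).re) :=
    Real.rpow_le_rpow_of_exponent_le hN' (by linarith)
  have h6 := Gamma_lower h2
  have h7 : Real.pi / 2 * |(s0 N z).im| = Real.pi / 8 * |z.re| := by
    rw [s0_im, abs_div, abs_neg, abs_of_pos (by norm_num : (0 : ℝ) < 4)]; ring
  rw [h7] at h6
  calc Real.pi ^ (-b) * (N : ℝ) ^ (-b) * Real.exp (-(Real.pi / 8 * |z.re|))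
      ≤ Real.pi ^ (-(s0 N z).re) * (N : ℝ) ^ (-(s0 N z).re) * ‖Gamma (s0 N z)‖ := by gcongr
    _ = _ := by ring

lemma EN_upper {N : ℕ} (hN : 1 ≤ N) {η : ℝ} (hη : 0 < η) : ∃ C : ℝ, 0 < C ∧ ∀ x : ℝ,
    ‖E N ((x : ℂ) + η * I)‖ ≤ C * (1 + |x|) ^ ((9 * N + η) / 4 - 1 / 2) *
      Real.exp (-(Real.pi / 8 * |x|)) := by
  have hN' : (1 : ℝ) ≤ N := by exact_mod_cast hN
  obtain ⟨C, hC, h⟩ := Gamma_upper (σ := (9 * N + η) / 4) (by linarith)
  refine ⟨Real.pi ^ (-((9 * N + η) / 4)) * (N : ℝ) ^ (-((9 * N + η) / 4)) * C, by positivity,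
    fun x => ?_⟩
  set z : ℂ := (x : ℂ) + η * I with hz
  have hre : z.re = x := by simp [hz]
  have him : z.im = η := by simp [hz]
  have h1 : (s0 N z).re = (9 * N + η) / 4 := by rw [s0_re, him]
  have h2 : (s0 N z).im = -x / 4 := by rw [s0_im, hre]
  have h3 := h ((s0 N z).im)
  have h4 : (((9 * N + η) / 4 : ℝ) : ℂ) + (((s0 N z).im : ℝ) : ℂ) * I = s0 N z := by
    rw [← h1]; exact re_add_im _
  rw [h4] at h3
  rw [norm_E hN, norm_mul, norm_pi_cpow, h1]
  have h5 : |(s0 N z).im| = |x| / 4 := by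
    rw [h2, abs_div, abs_neg, abs_of_pos (by norm_num : (0 : ℝ) < 4)]
  rw [h5] at h3
  have h6 : (1 + |x| / 4) ^ ((9 * N + η) / 4 - 1 / 2) ≤ (1 + |x|) ^ ((9 * N + η) / 4 - 1 / 2) := by
    refine Real.rpow_le_rpow (by positivity) ?_ (by linarith)
    have := abs_nonneg x
    linarith
  have h7 : Real.pi / 2 * (|x| / 4) = Real.pi / 8 * |x| := by ring
  rw [h7] at h3
  calc Real.pi ^ (-((9 * N + η) / 4)) * ‖Gamma (s0 N z)‖ * (N : ℝ) ^ (-((9 * N + η) / 4))
      ≤ Real.pi ^ (-((9 * N + η) / 4)) * (C * (1 + |x|) ^ ((9 * N + η) / 4 - 1 / 2) *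
        Real.exp (-(Real.pi / 8 * |x|))) * (N : ℝ) ^ (-((9 * N + η) / 4)) := by
        gcongr
        exact h3.trans (by gcongr)
    _ = _ := by ring

/-- the quotient -/
noncomputable def Dq (N : ℕ) (z : ℂ) : ℂ := 8 * F N z / E N z

lemma norm_symm' (α : ℝ) (x η : ℝ) :
    ‖F α (((-x : ℝ) : ℂ) + η * I)‖ = ‖F α ((x : ℂ) + η * I)‖ := by
  have e : ((-x : ℝ) : ℂ) + η * I = -(starRingEnd ℂ) ((x : ℂ) + η * I) := by
    simp; ring
  rw [e, F_neg, F_conj, RCLike.norm_conj]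

lemma F_line_bound {N : ℕ} (hN : 1 ≤ N) (hreal : ∀ z : ℂ, F N z = 0 → z.im = 0) {η ε : ℝ}
    (hη : 0 < η) (hη1 : η < 1) (hε : 0 < ε) : ∃ C : ℝ, 0 < C ∧ ∀ x : ℝ,
    ‖F N ((x : ℂ) + η * I)‖ ≤ C * (1 + |x|) ^ ((9 * N + η) / 4 - 1 / 2 + ε) *
      Real.exp (-(Real.pi / 8 * |x|)) := by
  have hN' : (1 : ℝ) ≤ N := by exact_mod_cast hN
  have hFd : Differentiable ℂ (F N) := differentiable_F (by linarith)
  obtain ⟨H, X0, hH, hX0, hlead⟩ := D_lead hN
  set c0 : ℝ := (2 * Real.pi ^ 2) ^ N with hc0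
  have hc0pos : 0 < c0 := by positivity
  have hcast : ((c0 : ℝ) : ℂ) = (2 * (Real.pi : ℂ) ^ 2) ^ N := by rw [hc0]; push_cast; rfl
  have key := lindelof (D := Dq N) (c0 := c0) (H := H + 1) (X0 := X0)
    (fun z hz => ((differentiableAt_const _).mul (hFd z)).div (differentiableAt_E hN hz)
      (E_ne hN hz))
    (fun z hz => by
      unfold Dq
      refine div_ne_zero (mul_ne_zero (by norm_num) ?_) (E_ne hN hz)
      intro h
      exact hz.ne' (hreal z h))
    hc0pos (by linarith) ?_ ?_ hη hη1 hε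
  · obtain ⟨X, hX⟩ := key
    obtain ⟨C1, hC1, hE⟩ := EN_upper hN hη
    -- compactness
    set X' := max X 1 with hX'
    have hcont : Continuous fun x : ℝ => F N ((x : ℂ) + η * I) := by
      have := hFd.continuous
      fun_prop
    obtain ⟨M, hM⟩ := (isCompact_Icc (a := (0 : ℝ)) (b := X')).exists_bound_of_continuousOn
      hcont.continuousOn
    have hM0 : 0 ≤ M := (norm_nonneg _).trans (hM 0 ⟨le_rfl, by positivity⟩)
    set C := C1 / 8 + M * Real.exp (Real.pi / 8 * X') with hC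
    have hμ : 0 ≤ (9 * N + η) / 4 - 1 / 2 + ε := by linarith
    have key2 : ∀ x : ℝ, 0 ≤ x → ‖F N ((x : ℂ) + η * I)‖ ≤
        C * (1 + |x|) ^ ((9 * N + η) / 4 - 1 / 2 + ε) * Real.exp (-(Real.pi / 8 * |x|)) := by
      intro x hx0
      have hx1 : 0 < 1 + |x| := by positivity
      have hx2 : 1 ≤ 1 + |x| := by linarith [abs_nonneg x]
      rcases le_total x X' with hx | hx
      · have h1 := hM x ⟨hx0, hx⟩
        have h2 : (1 : ℝ) ≤ (1 + |x|) ^ ((9 * N + η) / 4 - 1 / 2 + ε) :=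
          Real.one_le_rpow hx2 hμ
        have h3 : Real.exp (-(Real.pi / 8 * X')) ≤ Real.exp (-(Real.pi / 8 * |x|)) := by
          refine Real.exp_le_exp.2 ?_
          rw [abs_of_nonneg hx0]
          have := Real.pi_pos
          nlinarith
        have h4 : M = M * Real.exp (Real.pi / 8 * X') * 1 * Real.exp (-(Real.pi / 8 * X')) := by
          rw [mul_one, mul_assoc, ← Real.exp_add]; simp
        calc ‖F N ((x : ℂ) + η * I)‖ ≤ M := h1
          _ = M * Real.exp (Real.pi / 8 * X') * 1 * Real.exp (-(Real.pi / 8 * X')) := h4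
          _ ≤ C * (1 + |x|) ^ ((9 * N + η) / 4 - 1 / 2 + ε) *
              Real.exp (-(Real.pi / 8 * |x|)) := by
              have h5 : M * Real.exp (Real.pi / 8 * X') ≤ C := by
                rw [hC]; linarith [div_pos hC1 (by norm_num : (0 : ℝ) < 8)]
              have : 0 ≤ C := le_trans (by positivity) h5
              gcongr
      · have h1 := hX x ((le_max_left _ _).trans hx)
        have hxpos : 0 < x := lt_of_lt_of_le one_pos ((le_max_right _ _).trans hx)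
        have hEpos : 0 < ‖E N ((x : ℂ) + η * I)‖ := norm_pos_iff.2 (E_ne hN (by simpa using hη))
        rw [Dq, norm_div, norm_mul, div_le_iff₀ hEpos] at h1
        have h8 : ‖(8 : ℂ)‖ = 8 := by simp
        rw [h8] at h1
        have h2 := hE x
        have h3 : x ^ ε ≤ (1 + |x|) ^ ε :=
          Real.rpow_le_rpow hxpos.le (by linarith [le_abs_self x]) hε.le
        calc ‖F N ((x : ℂ) + η * I)‖ ≤ 1 / 8 * (x ^ ε * ‖E N ((x : ℂ) + η * I)‖) := by linarith
          _ ≤ 1 / 8 * ((1 + |x|) ^ ε * (C1 * (1 + |x|) ^ ((9 * N + η) / 4 - 1 / 2) *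
              Real.exp (-(Real.pi / 8 * |x|)))) := by gcongr
          _ = C1 / 8 * ((1 + |x|) ^ ((9 * N + η) / 4 - 1 / 2) * (1 + |x|) ^ ε) *
              Real.exp (-(Real.pi / 8 * |x|)) := by ring
          _ = C1 / 8 * (1 + |x|) ^ ((9 * N + η) / 4 - 1 / 2 + ε) *
              Real.exp (-(Real.pi / 8 * |x|)) := by rw [← Real.rpow_add hx1]
          _ ≤ _ := by
              have h5 : C1 / 8 ≤ C := by rw [hC]; linarith [mul_nonneg hM0 (Real.exp_pos (Real.pi / 8 * X')).le]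
              gcongr
    refine ⟨C, by positivity, fun x => ?_⟩
    rcases le_total 0 x with h0 | h0
    · exact key2 x h0
    · have := key2 (-x) (by linarith)
      rw [norm_symm', abs_neg] at this
      exact this
  · intro z hz hx
    have hz0 : 0 < z.im := by linarith
    have h1 := hlead z (by linarith) (hx.trans (le_abs_self _))
    have hE0 := E_ne hN hz0
    have hEpos : 0 < ‖E N z‖ := norm_pos_iff.2 hE0
    have h2 : Dq N z - c0 = (8 * F N z - (2 * (Real.pi : ℂ) ^ 2) ^ N * E N z) / E N z := by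
      rw [Dq, hcast]; field_simp
    rw [h2, norm_div, div_le_iff₀ hEpos]
    exact h1
  · intro H' hH'
    obtain ⟨C, B, hC, hF⟩ := F_crude hN hH'
    obtain ⟨c, hc, hE⟩ := EN_lower hN H'
    refine ⟨8 * C / c, B, by positivity, fun z hz hzH hx => ?_⟩
    have hxpos : 0 < z.re := by linarith
    have h1 := hF z (by rw [abs_of_pos hz]; exact hzH) hx
    have h2 := hE z hz hzH
    rw [abs_of_pos hxpos] at h2
    have hexp := Real.exp_pos (-(Real.pi / 8 * z.re))
    have hEpos : 0 < ‖E N z‖ := norm_pos_iff.2 (E_ne hN hz)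
    rw [Dq, norm_div, norm_mul, div_le_iff₀ hEpos]
    have h8 : ‖(8 : ℂ)‖ = 8 := by simp
    rw [h8]
    calc 8 * ‖F N z‖ ≤ 8 * (C * z.re ^ B * Real.exp (-(Real.pi / 8 * z.re))) := by gcongr
      _ = 8 * C / c * z.re ^ B * (c * Real.exp (-(Real.pi / 8 * z.re))) := by field_simp
      _ ≤ 8 * C / c * z.re ^ B * ‖E N z‖ := by gcongr

end Pool.Agent.Helper242.RK
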