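import Pool.Agent.Helper242.RK.Int7

set_option autoImplicit false

/-!
# Fourier inversion near the boundary of the strip
-/

namespace Pool.Agent.Helper242.RK

open Complex Filter Topology MeasureTheory FourierTransform

/-- auxiliary weight -/
noncomputable def J (μ v : ℝ) : ℝ := (1 + 2 * Real.pi * |v|) ^ μ * Real.exp (-(2 * Real.pi * |v|))

lemma J_nonneg (μ v : ℝ) : 0 ≤ J μ v := by
  have := Real.pi_pos
  unfold J; positivity

lemma continuous_J (μ : ℝ) : Continuous (J μ) := by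
  unfold J
  refine Continuous.mul ?_ (by fun_prop)
  refine Continuous.rpow_const (by fun_prop) fun v => Or.inl ?_
  have := Real.pi_pos
  positivity

lemma integrable_J (μ : ℝ) : Integrable (J μ) := by
  obtain ⟨n, hn⟩ := exists_nat_ge μ
  refine Integrable.mono' (integrable_exp_neg_abs.const_mul (n.factorial * 2 ^ n * Real.exp (1 / 2)))
    (continuous_J μ).aestronglyMeasurable (Eventually.of_forall fun v => ?_)
  rw [Real.norm_of_nonneg (J_nonneg μ v), J]
  have hv := abs_nonneg v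
  have hpi := Real.pi_gt_three
  set y := 1 + 2 * Real.pi * |v| with hy
  have hy1 : 1 ≤ y := by rw [hy]; nlinarith
  have h1 : y ^ μ ≤ y ^ n := by
    rw [← Real.rpow_natCast]
    exact Real.rpow_le_rpow_of_exponent_le hy1 hn
  have h2 := Real.pow_div_factorial_le_exp (y / 2) (by linarith) n
  rw [div_le_iff₀ (by positivity)] at h2
  have h3 : y ^ n ≤ n.factorial * 2 ^ n * Real.exp (y / 2) := by
    have : y ^ n = 2 ^ n * (y / 2) ^ n := by rw [← mul_pow]; congr 1; ring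
    rw [this]
    calc 2 ^ n * (y / 2) ^ n ≤ 2 ^ n * (Real.exp (y / 2) * n.factorial) := by gcongr
      _ = _ := by ring
  calc y ^ μ * Real.exp (-(2 * Real.pi * |v|))
      ≤ (n.factorial * 2 ^ n * Real.exp (y / 2)) * Real.exp (-(2 * Real.pi * |v|)) := by
        gcongr; exact h1.trans h3
    _ = n.factorial * 2 ^ n * Real.exp (y / 2 + -(2 * Real.pi * |v|)) := by
        rw [Real.exp_add]; ring
    _ ≤ n.factorial * 2 ^ n * Real.exp (1 / 2 + -|v|) := by
        refine mul_le_mul_of_nonneg_left (Real.exp_le_exp.2 ?_) (by positivity)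
        rw [hy]; nlinarith
    _ = _ := by rw [Real.exp_add]; ring

/-- the function on the horizontal line -/
noncomputable def hY (N : ℕ) (Y η u : ℝ) : ℂ :=
  PhiC ((u : ℂ) + Y * I) ^ N * ((Real.exp (-(η * u)) : ℝ) : ℂ)

lemma fN_hY (N : ℕ) (Y η u x : ℝ) :
    fN N ((x : ℂ) + η * I) ((u : ℂ) + Y * I) =
      cexp (-(x * Y) - η * Y * I) * (cexp (I * x * u) * hY N Y η u) := by
  rw [fN, hY, ofReal_exp]
  have : cexp (I * ((x : ℂ) + η * I) * ((u : ℂ) + Y * I)) =
      cexp (-(x * Y) - η * Y * I) * cexp (I * x * u) * cexp ((-(η * u) : ℝ) : ℂ) := by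
    rw [← exp_add, ← exp_add]
    congr 1
    push_cast
    linear_combination (x * Y + η * u + η * Y * I) * I_sq
  rw [this]; ring

lemma integrable_hY {N : ℕ} (hN : 1 ≤ N) {Y : ℝ} (hY0 : 0 ≤ Y) (hY8 : Y < Real.pi / 8) (η : ℝ) :
    Integrable (hY N Y η) := by
  have h := integrable_fN hN ((0 : ℝ) + η * I : ℂ) (y := Y) (by rwa [abs_of_nonneg hY0])
  have h2 : ∀ u : ℝ, hY N Y η u = cexp (η * Y * I) * fN N (((0 : ℝ) : ℂ) + η * I) ((u : ℂ) + Y * I) := by
    intro u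
    rw [fN_hY, ← mul_assoc, ← exp_add]
    simp
  rw [show hY N Y η = fun u => hY N Y η u from rfl]
  simp_rw [h2]
  exact h.const_mul _

lemma continuous_hY {N : ℕ} {Y : ℝ} (hY0 : 0 ≤ Y) (hY8 : Y < Real.pi / 8) (η : ℝ) :
    Continuous (hY N Y η) := by
  have h := continuous_fN_line N ((0 : ℝ) + η * I : ℂ) (y := Y) (by rwa [abs_of_nonneg hY0])
  have h2 : ∀ u : ℝ, hY N Y η u = cexp (η * Y * I) * fN N (((0 : ℝ) : ℂ) + η * I) ((u : ℂ) + Y * I) := by
    intro u
    rw [fN_hY, ← mul_assoc, ← exp_add]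
    simp
  rw [show hY N Y η = fun u => hY N Y η u from rfl]
  simp_rw [h2]
  exact continuous_const.mul h

lemma fourier_hY {N : ℕ} (hN : 1 ≤ N) {Y : ℝ} (hY0 : 0 ≤ Y) (hY8 : Y < Real.pi / 8) (η w : ℝ) :
    𝓕 (hY N Y η) w = cexp (-(2 * Real.pi * w * Y) + η * Y * I) *
      (2 * F N (((-(2 * Real.pi * w) : ℝ) : ℂ) + η * I)) := by
  rw [two_F_line hN, line_shift hN _ hY0 hY8]
  simp_rw [fN_hY]
  rw [integral_const_mul, ← mul_assoc, ← exp_add, Real.fourier_real_eq_integral_exp_smul]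
  have h1 : cexp (-(2 * Real.pi * w * Y) + η * Y * I +
      (-(((-(2 * Real.pi * w) : ℝ) : ℂ) * Y) - η * Y * I)) = 1 := by
    rw [← Complex.exp_zero]; congr 1; push_cast; ring
  rw [h1, one_mul]
  refine integral_congr_ae (Eventually.of_forall fun u => ?_)
  simp only [smul_eq_mul]
  congr 2
  push_cast
  ring

lemma norm_fourier_hY {N : ℕ} (hN : 1 ≤ N) {Y : ℝ} (hY0 : 0 ≤ Y) (hY8 : Y < Real.pi / 8) (η w : ℝ) :
    ‖𝓕 (hY N Y η) w‖ = Real.exp (-(2 * Real.pi * w * Y)) *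
      (2 * ‖F N (((-(2 * Real.pi * w) : ℝ) : ℂ) + η * I)‖) := by
  rw [fourier_hY hN hY0 hY8, norm_mul, norm_mul, norm_exp]
  congr 2
  · simp
  · simp

lemma hY_le {N : ℕ} (hN : 1 ≤ N) {η μ C : ℝ} (hμ : 0 ≤ μ) (hC : 0 < C)
    (hF : ∀ x : ℝ, ‖F N ((x : ℂ) + η * I)‖ ≤ C * (1 + |x|) ^ μ * Real.exp (-(Real.pi / 8 * |x|)))
    {Y : ℝ} (hY0 : 0 ≤ Y) (hY8 : Y < Real.pi / 8) (u : ℝ) :
    ‖hY N Y η u‖ ≤ 2 * C * (Real.pi / 8 - Y) ^ (-(μ + 1)) * ∫ v, J μ v := by
  set δ := Real.pi / 8 - Y with hδ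
  have hδ0 : 0 < δ := by rw [hδ]; linarith
  have hδ1 : δ ≤ 1 := by rw [hδ]; linarith [Real.pi_lt_four]
  have hpi := Real.pi_pos
  have hint := integrable_hY hN hY0 hY8 η
  have hcont := continuous_hY (N := N) hY0 hY8 η
  have hbound : ∀ w : ℝ, ‖𝓕 (hY N Y η) w‖ ≤ 2 * C * δ ^ (-μ) * J μ (δ * w) := by
    intro w
    rw [norm_fourier_hY hN hY0 hY8]
    have h1 := hF (-(2 * Real.pi * w))
    have habs : |-(2 * Real.pi * w)| = 2 * Real.pi * |w| := by
      rw [abs_neg, abs_mul, abs_of_pos (by positivity : 0 < 2 * Real.pi)]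
    rw [habs] at h1
    have h2 : Real.exp (-(2 * Real.pi * w * Y)) ≤ Real.exp (2 * Real.pi * |w| * Y) := by
      refine Real.exp_le_exp.2 ?_
      have h3 : -w ≤ |w| := neg_le_abs w
      have h4 : 2 * Real.pi * (-w) * Y ≤ 2 * Real.pi * |w| * Y := by gcongr
      linarith
    have h3 : (1 + 2 * Real.pi * |w|) ^ μ ≤ δ ^ (-μ) * (1 + 2 * Real.pi * |δ * w|) ^ μ := by
      rw [Real.rpow_neg hδ0.le, ← Real.inv_rpow hδ0.le,
        ← Real.mul_rpow (by positivity) (by positivity)]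
      refine Real.rpow_le_rpow (by positivity) ?_ hμ
      rw [abs_mul, abs_of_pos hδ0]
      have h5 : δ⁻¹ * (1 + 2 * Real.pi * (δ * |w|)) = δ⁻¹ + 2 * Real.pi * |w| := by field_simp
      rw [h5]
      have : 1 ≤ δ⁻¹ := (one_le_inv₀ hδ0).2 hδ1
      linarith
    have h4 : Real.exp (2 * Real.pi * |w| * Y) * Real.exp (-(Real.pi / 8 * (2 * Real.pi * |w|))) =
        Real.exp (-(2 * Real.pi * |δ * w|)) := by
      rw [← Real.exp_add, abs_mul, abs_of_pos hδ0]
      congr 1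
      rw [hδ]; ring
    calc Real.exp (-(2 * Real.pi * w * Y)) * (2 * ‖F N (((-(2 * Real.pi * w) : ℝ) : ℂ) + η * I)‖)
        ≤ Real.exp (2 * Real.pi * |w| * Y) * (2 * (C * (1 + 2 * Real.pi * |w|) ^ μ *
          Real.exp (-(Real.pi / 8 * (2 * Real.pi * |w|))))) := by gcongr
      _ = 2 * C * (1 + 2 * Real.pi * |w|) ^ μ * (Real.exp (2 * Real.pi * |w| * Y) *
          Real.exp (-(Real.pi / 8 * (2 * Real.pi * |w|)))) := by ring
      _ ≤ 2 * C * (δ ^ (-μ) * (1 + 2 * Real.pi * |δ * w|) ^ μ) *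
          Real.exp (-(2 * Real.pi * |δ * w|)) := by
          rw [h4]; gcongr
      _ = 2 * C * δ ^ (-μ) * J μ (δ * w) := by rw [J]; ring
  have hJint : Integrable fun w : ℝ => 2 * C * δ ^ (-μ) * J μ (δ * w) :=
    ((integrable_J μ).comp_mul_left' hδ0.ne').const_mul _
  have hcontF : Continuous (𝓕 (hY N Y η)) := by
    have : (𝓕 (hY N Y η)) = fun w => 𝓕 (hY N Y η) w := rfl
    rw [this]
    simp_rw [fourier_hY hN hY0 hY8]
    have hFd : Differentiable ℂ (F N) := differentiable_F (by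
      have : (1 : ℝ) ≤ N := by exact_mod_cast hN
      linarith)
    have := hFd.continuous
    fun_prop
  have hFint : Integrable (𝓕 (hY N Y η)) :=
    Integrable.mono' hJint hcontF.aestronglyMeasurable (Eventually.of_forall hbound)
  have hinv := hint.fourierInv_fourier_eq hFint (v := u) hcont.continuousAt
  rw [← hinv, Real.fourierInv_eq']
  have hJ2 : ∫ w : ℝ, 2 * C * δ ^ (-μ) * J μ (δ * w) = 2 * C * δ ^ (-(μ + 1)) * ∫ v, J μ v := by
    rw [integral_const_mul, Measure.integral_comp_mul_left, abs_of_pos (by positivity), smul_eq_mul]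
    have : δ ^ (-(μ + 1)) = δ ^ (-μ) * δ⁻¹ := by
      rw [neg_add, Real.rpow_add hδ0, Real.rpow_neg_one]
    rw [this]; ring
  rw [← hJ2]
  refine norm_integral_le_of_norm_le hJint (Eventually.of_forall fun w => ?_)
  rw [norm_smul, norm_exp_ofReal_mul_I]
  · rw [one_mul]; exact hbound w

end Pool.Agent.Helper242.RK
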