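import Pool.Agent.Helper242.RK.Int8

set_option autoImplicit false

/-!
# The cusp and the contradiction for `N ≥ 3`
-/

namespace Pool.Agent.Helper242.RK

open Complex Filter Topology MeasureTheory

/-- the real values of the theta type functions -/
noncomputable def Pr (k : ℕ) (e : ℝ) : ℝ :=
  ∑' n : ℕ, ((n : ℝ) + 1) ^ (2 * k) * Real.exp (-((n : ℝ) + 1) ^ 2 * (Real.pi * e))

lemma summable_Pr (k : ℕ) {e : ℝ} (he : 0 < e) :
    Summable fun n : ℕ => ((n : ℝ) + 1) ^ (2 * k) * Real.exp (-((n : ℝ) + 1) ^ 2 * (Real.pi * e)) := by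
  have hs : 0 < ((Real.pi * e : ℝ) : ℂ).re := by rw [ofReal_re]; positivity
  have h := (summable_term k hs).norm
  refine h.congr fun n => ?_
  rw [norm_term, ofReal_re]

lemma P_ofReal (k : ℕ) (e : ℝ) : P k ((Real.pi * e : ℝ) : ℂ) = ((Pr k e : ℝ) : ℂ) := by
  rw [P, Pr, ofReal_tsum]
  refine tsum_congr fun n => ?_
  push_cast
  rfl

lemma P_shift (k : ℕ) (e : ℝ) : P k ((Real.pi : ℂ) * (e + 2 * I)) = ((Pr k e : ℝ) : ℂ) := by
  rw [← P_ofReal, P, P]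
  refine tsum_congr fun n => ?_
  congr 1
  have h1 : -((n : ℂ) + 1) ^ 2 * (Real.pi * (e + 2 * I)) =
      -((n : ℂ) + 1) ^ 2 * ((Real.pi * e : ℝ) : ℂ) + ((-((n : ℤ) + 1) ^ 2 : ℤ) : ℂ) * (2 * Real.pi * I) := by
    push_cast; ring
  rw [h1, exp_add, exp_int_mul_two_pi_mul_I, mul_one]

lemma Pr_nonneg (k : ℕ) (e : ℝ) : 0 ≤ Pr k e :=
  tsum_nonneg fun n => by positivity

lemma Pr_le {e : ℝ} (he : 0 < e) : Pr 1 e ≤ Pr 2 e := by
  refine Summable.tsum_le_tsum (fun n => ?_) (summable_Pr 1 he) (summable_Pr 2 he)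
  have hn : (1 : ℝ) ≤ (n : ℝ) + 1 := by linarith [Nat.cast_nonneg (α := ℝ) n]
  gcongr
  norm_num

lemma sum_fourth (M : ℕ) : (M : ℝ) ^ 5 / 5 ≤ ∑ n ∈ Finset.range M, ((n : ℝ) + 1) ^ 4 := by
  induction M with
  | zero => simp
  | succ M ih =>
    rw [Finset.sum_range_succ]
    have hM : (0 : ℝ) ≤ M := Nat.cast_nonneg M
    push_cast
    have : ((M : ℝ) + 1) ^ 5 / 5 ≤ (M : ℝ) ^ 5 / 5 + ((M : ℝ) + 1) ^ 4 := by
      have h1 := pow_nonneg hM 3
      have h2 := pow_nonneg hM 2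
      nlinarith
    linarith

lemma Pr_lower {M : ℕ} (hM : 1 ≤ M) :
    Real.exp (-Real.pi) * ((M : ℝ) ^ 5 / 5) ≤ Pr 2 (1 / (M : ℝ) ^ 2) := by
  have hM' : (1 : ℝ) ≤ M := by exact_mod_cast hM
  have hs := summable_Pr 2 (e := 1 / (M : ℝ) ^ 2) (by positivity)
  have h1 := hs.sum_le_tsum (Finset.range M) (fun n _ => by positivity)
  refine le_trans ?_ h1
  calc Real.exp (-Real.pi) * ((M : ℝ) ^ 5 / 5)
      ≤ Real.exp (-Real.pi) * ∑ n ∈ Finset.range M, ((n : ℝ) + 1) ^ 4 := by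
        gcongr; exact sum_fourth M
    _ = ∑ n ∈ Finset.range M, ((n : ℝ) + 1) ^ (2 * 2) * Real.exp (-Real.pi) := by
        rw [Finset.mul_sum]; refine Finset.sum_congr rfl fun n _ => ?_; ring
    _ ≤ _ := by
        refine Finset.sum_le_sum fun n hn => ?_
        have hn' : (n : ℝ) + 1 ≤ M := by exact_mod_cast Finset.mem_range.1 hn
        have hn0 : (0 : ℝ) ≤ (n : ℝ) + 1 := by positivity
        refine mul_le_mul_of_nonneg_left (Real.exp_le_exp.2 ?_) (by positivity)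
        have h2 : ((n : ℝ) + 1) ^ 2 / (M : ℝ) ^ 2 ≤ 1 := by
          rw [div_le_one (by positivity)]
          gcongr
        have h3 : -((n : ℝ) + 1) ^ 2 * (Real.pi * (1 / (M : ℝ) ^ 2)) =
            -(Real.pi * (((n : ℝ) + 1) ^ 2 / (M : ℝ) ^ 2)) := by ring
        rw [h3]
        have := Real.pi_pos
        nlinarith

lemma norm_g_cusp {e : ℝ} (he : 0 < e) : Pr 2 e ≤ ‖g ((Real.pi : ℂ) * (e + 2 * I))‖ := by
  set s : ℂ := (Real.pi : ℂ) * (e + 2 * I) with hs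
  have hpi := Real.pi_gt_three
  have him : s.im = 2 * Real.pi := by
    rw [hs, im_ofReal_mul]; simp; ring
  have hn : 6 ≤ ‖s‖ := by
    have := abs_im_le_norm s
    rw [him, abs_of_pos (by positivity)] at this
    linarith
  have h1 : ‖2 * s ^ 2 * P 2 s‖ = 2 * ‖s‖ ^ 2 * Pr 2 e := by
    rw [hs, P_shift, ← hs, norm_mul, norm_mul, norm_pow, norm_real,
      Real.norm_of_nonneg (Pr_nonneg 2 e)]
    simp
  have h2 : ‖3 * s * P 1 s‖ = 3 * ‖s‖ * Pr 1 e := by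
    rw [hs, P_shift, ← hs, norm_mul, norm_mul, norm_real,
      Real.norm_of_nonneg (Pr_nonneg 1 e)]
    simp
  have h3 := norm_sub_norm_le (2 * s ^ 2 * P 2 s) (3 * s * P 1 s)
  rw [h1, h2] at h3
  have h4 := Pr_le he
  have h5 := Pr_nonneg 1 e
  have h6 := Pr_nonneg 2 e
  have h7 : Pr 2 e ≤ 2 * ‖s‖ ^ 2 * Pr 2 e - 3 * ‖s‖ * Pr 1 e := by
    have h8 : 3 * ‖s‖ * Pr 1 e ≤ 3 * ‖s‖ * Pr 2 e := by gcongr
    have h9 : (2 * ‖s‖ ^ 2 - 3 * ‖s‖ - 1) * Pr 2 e ≥ 0 := by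
      refine mul_nonneg ?_ h6
      nlinarith
    linarith
  exact h7.trans h3

lemma cusp_point {M : ℕ} (hM : 1 ≤ M) : ∃ Y u : ℝ, 0 ≤ Y ∧ Y < Real.pi / 8 ∧
    1 / (12 * (M : ℝ) ^ 2) ≤ Real.pi / 8 - Y ∧ u ≤ 1 ∧
    Real.exp (-Real.pi) * ((M : ℝ) ^ 5 / 5) ≤ ‖PhiC ((u : ℂ) + Y * I)‖ := by
  have hM' : (1 : ℝ) ≤ M := by exact_mod_cast hM
  set e : ℝ := 1 / (M : ℝ) ^ 2 with he
  have he0 : 0 < e := by positivity
  have he1 : e ≤ 1 := by
    rw [he, div_le_one (by positivity)]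
    nlinarith
  set w : ℂ := (e : ℂ) + 2 * I with hw
  have hre : w.re = e := by simp [hw]
  have him : w.im = 2 := by simp [hw]
  have hw0 : w ≠ 0 := by
    intro h; rw [h] at him; simp at him
  have hnw1 : 1 ≤ ‖w‖ := by
    have := abs_im_le_norm w
    rw [him] at this
    norm_num at this
    linarith
  have hnw3 : ‖w‖ ≤ 3 := by
    have h1 : ‖w‖ ≤ ‖(e : ℂ)‖ + ‖2 * I‖ := norm_add_le _ _
    have h2 : ‖2 * I‖ = 2 := by simp
    rw [h2, norm_real, Real.norm_of_nonneg he0.le] at h1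
    linarith
  set t : ℂ := log w / 4 with ht
  have htre : t.re = Real.log ‖w‖ / 4 := by
    rw [ht, show (4 : ℂ) = ((4 : ℝ) : ℂ) by norm_num, div_ofReal_re, log_re]
  have htim : t.im = arg w / 4 := by
    rw [ht, show (4 : ℂ) = ((4 : ℝ) : ℂ) by norm_num, div_ofReal_im, log_im]
  have harg0 : 0 ≤ arg w := arg_nonneg_iff.2 (by rw [him]; norm_num)
  have harg1 : arg w < Real.pi / 2 := by
    have : |arg w| < Real.pi / 2 := abs_arg_lt_pi_div_two_iff.2 (Or.inl (by rw [hre]; exact he0))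
    rwa [abs_of_nonneg harg0] at this
  have htt : (t.re : ℂ) + t.im * I = t := re_add_im t
  refine ⟨t.im, t.re, by rw [htim]; positivity, by rw [htim]; linarith, ?_, ?_, ?_⟩
  · have h1 : Real.sin (4 * (Real.pi / 8 - t.im)) = e / ‖w‖ := by
      have : 4 * (Real.pi / 8 - t.im) = Real.pi / 2 - arg w := by rw [htim]; ring
      rw [this, Real.sin_pi_div_two_sub, cos_arg hw0, hre]
    have h2 : Real.sin (4 * (Real.pi / 8 - t.im)) ≤ 4 * (Real.pi / 8 - t.im) :=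
      Real.sin_le (by rw [htim]; linarith)
    rw [h1] at h2
    have h3 : e / 3 ≤ e / ‖w‖ := by gcongr
    have h4 : 1 / (12 * (M : ℝ) ^ 2) = e / 12 := by rw [he]; field_simp
    rw [h4]
    linarith
  · rw [htre]
    have : Real.log ‖w‖ ≤ ‖w‖ - 1 := Real.log_le_sub_one_of_pos (by linarith)
    linarith
  · rw [htt, PhiC, norm_mul, norm_exp]
    have h1 : cexp (4 * t) = w := by
      rw [ht, mul_div_cancel₀ _ (by norm_num : (4 : ℂ) ≠ 0), exp_log hw0]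
    rw [h1]
    have h2 : 1 ≤ Real.exp t.re := by
      refine Real.one_le_exp ?_
      rw [htre]
      have := Real.log_nonneg hnw1
      positivity
    calc Real.exp (-Real.pi) * ((M : ℝ) ^ 5 / 5) ≤ Pr 2 e := Pr_lower hM
      _ ≤ ‖g ((Real.pi : ℂ) * w)‖ := norm_g_cusp he0
      _ ≤ _ := le_mul_of_one_le_left (norm_nonneg _) h2

/-- for every integer `N ≥ 3` the function `F N` has a non-real zero. -/
theorem exists_nonreal_zero_nat {N : ℕ} (hN : 3 ≤ N) : ∃ z : ℂ, z.im ≠ 0 ∧ F N z = 0 := by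
  by_contra hcon
  push Not at hcon
  have hreal : ∀ z : ℂ, F N z = 0 → z.im = 0 := by
    intro z hz
    by_contra h
    exact hcon z h hz
  have hN1 : 1 ≤ N := by omega
  have hN' : (3 : ℝ) ≤ N := by exact_mod_cast hN
  obtain ⟨C, hC, hF⟩ := F_line_bound hN1 hreal (η := 1 / 4) (ε := 1 / 16) (by norm_num) (by norm_num)
    (by norm_num)
  set μ : ℝ := (9 * N + 1 / 4) / 4 - 1 / 2 + 1 / 16 with hμ
  have hμ0 : 0 ≤ μ := by rw [hμ]; linarith
  set Q : ℝ := ∫ v, J μ v with hQ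
  have hQ0 : 0 ≤ Q := integral_nonneg fun v => J_nonneg μ v
  set c : ℝ := (Real.exp (-Real.pi) / 5) ^ N * Real.exp (-(1 / 4)) with hc
  have hcpos : 0 < c := by positivity
  set K : ℝ := 2 * C * 12 ^ (μ + 1) * Q with hK
  have hK0 : 0 ≤ K := by positivity
  have key : ∀ M : ℕ, 1 ≤ M → c * (M : ℝ) ^ ((N : ℝ) / 2 - 5 / 4) ≤ K := by
    intro M hM
    have hM' : (1 : ℝ) ≤ M := by exact_mod_cast hM
    have hMpos : (0 : ℝ) < M := by linarith
    obtain ⟨Y, u, hY0, hY8, hδ, hu, hP⟩ := cusp_point hM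
    have h1 := hY_le hN1 hμ0 hC hF hY0 hY8 u
    have h2 : ‖hY N Y (1 / 4) u‖ = ‖PhiC ((u : ℂ) + Y * I)‖ ^ N * Real.exp (-(1 / 4 * u)) := by
      rw [hY, norm_mul, norm_pow, norm_real, Real.norm_of_nonneg (Real.exp_pos _).le]
    rw [h2] at h1
    have h3 : (Real.exp (-Real.pi) * ((M : ℝ) ^ 5 / 5)) ^ N * Real.exp (-(1 / 4)) ≤
        ‖PhiC ((u : ℂ) + Y * I)‖ ^ N * Real.exp (-(1 / 4 * u)) := by
      gcongr
      linarith
    have h4 : (Real.exp (-Real.pi) * ((M : ℝ) ^ 5 / 5)) ^ N * Real.exp (-(1 / 4)) =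
        c * (M : ℝ) ^ (5 * (N : ℝ)) := by
      have : (M : ℝ) ^ (5 * (N : ℝ)) = ((M : ℝ) ^ 5) ^ N := by
        rw [← pow_mul, ← Real.rpow_natCast]
        push_cast
        rfl
      rw [this, hc]
      rw [show Real.exp (-Real.pi) * ((M : ℝ) ^ 5 / 5) = (Real.exp (-Real.pi) / 5) * (M : ℝ) ^ 5 by ring,
        mul_pow]
      ring
    have h5 : (Real.pi / 8 - Y) ^ (-(μ + 1)) ≤ 12 ^ (μ + 1) * (M : ℝ) ^ (9 * (N : ℝ) / 2 + 5 / 4) := by
      have h6 : (Real.pi / 8 - Y) ^ (-(μ + 1)) ≤ (1 / (12 * (M : ℝ) ^ 2)) ^ (-(μ + 1)) :=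
        Real.rpow_le_rpow_of_nonpos (by positivity) hδ (by linarith)
      refine h6.trans (le_of_eq ?_)
      rw [Real.rpow_neg (by positivity), ← Real.inv_rpow (by positivity), one_div, inv_inv,
        Real.mul_rpow (by norm_num) (by positivity)]
      congr 1
      rw [← Real.rpow_natCast, ← Real.rpow_mul hMpos.le]
      congr 1
      rw [hμ]; push_cast; ring
    have h6 : c * (M : ℝ) ^ (5 * (N : ℝ)) ≤ K * (M : ℝ) ^ (9 * (N : ℝ) / 2 + 5 / 4) := by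
      calc c * (M : ℝ) ^ (5 * (N : ℝ)) ≤ 2 * C * (Real.pi / 8 - Y) ^ (-(μ + 1)) * Q := by
            rw [← h4]; exact h3.trans h1
        _ ≤ 2 * C * (12 ^ (μ + 1) * (M : ℝ) ^ (9 * (N : ℝ) / 2 + 5 / 4)) * Q := by gcongr
        _ = _ := by rw [hK]; ring
    have h7 : (M : ℝ) ^ (5 * (N : ℝ)) =
        (M : ℝ) ^ ((N : ℝ) / 2 - 5 / 4) * (M : ℝ) ^ (9 * (N : ℝ) / 2 + 5 / 4) := by
      rw [← Real.rpow_add hMpos]; congr 1; ring
    rw [h7, ← mul_assoc] at h6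
    exact le_of_mul_le_mul_right h6 (by positivity)
  have ht : Tendsto (fun M : ℕ => c * (M : ℝ) ^ ((N : ℝ) / 2 - 5 / 4)) atTop atTop :=
    ((tendsto_rpow_atTop (by linarith)).comp tendsto_natCast_atTop_atTop).const_mul_atTop hcpos
  obtain ⟨M, hM1, hM2⟩ := ((ht.eventually_gt_atTop K).and (eventually_ge_atTop 1)).exists
  exact absurd (key M hM2) (not_le.2 hM1)

end Pool.Agent.Helper242.RK
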