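import Mathlib

set_option autoImplicit false

/-!
# Holomorphic logarithms on convex open sets
-/

namespace Pool.Agent.Helper242.RK

open Complex Filter Topology

lemma exists_log {U : Set ℂ} (hU : Convex ℝ U) (hUo : IsOpen U) (hne : U.Nonempty) {f : ℂ → ℂ}
    (hf : DifferentiableOn ℂ f U) (h0 : ∀ z ∈ U, f z ≠ 0) :
    ∃ L : ℂ → ℂ, DifferentiableOn ℂ L U ∧ ∀ z ∈ U, cexp (L z) = f z := by
  have hsc : IsSimplyConnected U := by
    have : ContractibleSpace U := hU.contractibleSpace hne
    unfold IsSimplyConnected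
    infer_instance
  obtain ⟨L, hLc, hL⟩ := exists_continuousOn_eqOn_exp_comp hsc hUo hf.continuousOn
    (by rintro ⟨z, hz, hz0⟩; exact h0 z hz hz0)
  refine ⟨L, ?_, fun z hz => hL hz⟩
  intro z hz
  have hLz : ContinuousAt L z := hLc.continuousAt (hUo.mem_nhds hz)
  -- near `z`, `L w = L z + log (f w / f z)`
  have h1 : ∀ᶠ w in 𝓝 z, L w = L z + log (f w / f z) := by
    have h2 : ∀ᶠ w in 𝓝 z, ‖L w - L z‖ < Real.pi := by
      have := Metric.tendsto_nhds.1 hLz Real.pi Real.pi_pos
      filter_upwards [this] with w hw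
      rwa [dist_eq_norm] at hw
    filter_upwards [h2, hUo.mem_nhds hz] with w hw hwU
    have h3 : f w / f z = cexp (L w - L z) := by
      rw [exp_sub, ← hL hwU, ← hL hz]; rfl
    rw [h3, log_exp]
    · ring
    · have := (abs_lt.1 ((abs_im_le_norm (L w - L z)).trans_lt hw)).1
      exact this
    · exact (abs_lt.1 ((abs_im_le_norm (L w - L z)).trans_lt hw)).2.le
  have h4 : DifferentiableAt ℂ (fun w => L z + log (f w / f z)) z := by
    have h5 : DifferentiableAt ℂ f z := (hf z hz).differentiableAt (hUo.mem_nhds hz)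
    have h6 : DifferentiableAt ℂ (fun w => log (f w / f z)) z := by
      refine DifferentiableAt.clog (h5.div_const _) ?_
      rw [div_self (h0 z hz)]
      exact one_mem_slitPlane
    exact (differentiableAt_const _).add h6
  exact (h4.congr_of_eventuallyEq h1).differentiableWithinAt

/-- the strip version, normalised to be real on the real axis -/
lemma exists_log_real {U : Set ℂ} (hU : Convex ℝ U) (hUo : IsOpen U) (hR : ∀ t : ℝ, (t : ℂ) ∈ U)
    {f : ℂ → ℂ} (hf : DifferentiableOn ℂ f U) (h0 : ∀ z ∈ U, f z ≠ 0) (r : ℝ → ℝ)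
    (hr : ∀ t : ℝ, f t = ((r t : ℝ) : ℂ)) (hpos : ∀ t, 0 < r t) :
    ∃ L : ℂ → ℂ, DifferentiableOn ℂ L U ∧ (∀ z ∈ U, cexp (L z) = f z) ∧
      ∀ t : ℝ, L t = ((Real.log (r t) : ℝ) : ℂ) := by
  obtain ⟨L, hLd, hL⟩ := exists_log hU hUo ⟨0, by simpa using hR 0⟩ hf h0
  have hint : ∀ t : ℝ, ∃ n : ℤ, L t - ((Real.log (r t) : ℝ) : ℂ) = n * (2 * Real.pi * I) := by
    intro t
    rw [← exp_eq_one_iff, exp_sub, hL t (hR t), hr t, ← ofReal_exp, Real.exp_log (hpos t)]
    exact div_self (by exact_mod_cast (hpos t).ne')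
  choose n hn using hint
  have hrc : Continuous r := by
    have h1 : Continuous fun t : ℝ => (f t).re := by
      refine continuous_re.comp ?_
      rw [continuous_iff_continuousAt]
      intro t
      exact (((hf t (hR t)).differentiableAt (hUo.mem_nhds (hR t))).continuousAt).comp
        continuous_ofReal.continuousAt
    refine h1.congr fun t => ?_
    rw [hr t, ofReal_re]
  have hLc : Continuous fun t : ℝ => L t := by
    rw [continuous_iff_continuousAt]
    intro t
    exact ContinuousAt.comp (f := fun t : ℝ => (t : ℂ))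
      (((hLd t (hR t)).differentiableAt (hUo.mem_nhds (hR t))).continuousAt)
      continuous_ofReal.continuousAt
  have hnc : Continuous fun t : ℝ => ((n t : ℤ) : ℝ) := by
    have h1 : ∀ t : ℝ, ((n t : ℤ) : ℝ) = (L t).im / (2 * Real.pi) := by
      intro t
      have h2 := congrArg Complex.im (hn t)
      rw [sub_im, ofReal_im, sub_zero] at h2
      have h3 : ((n t : ℂ) * (2 * Real.pi * I)).im = (n t : ℝ) * (2 * Real.pi) := by
        have : ((n t : ℂ) * (2 * Real.pi * I)) = (((n t : ℝ) * (2 * Real.pi) : ℝ) : ℂ) * I := by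
          push_cast; ring
        rw [this, im_ofReal_mul, I_im, mul_one]
      rw [h3] at h2
      rw [h2]
      field_simp
    rw [show (fun t : ℝ => ((n t : ℤ) : ℝ)) = fun t : ℝ => (L t).im / (2 * Real.pi) from funext h1]
    exact (continuous_im.comp hLc).div_const _
  have hnc' : Continuous n := Int.isClosedEmbedding_coe_real.isEmbedding.continuous_iff.2 hnc
  have hconst : ∀ t, n t = n 0 := fun t => PreconnectedSpace.constant inferInstance hnc'
  refine ⟨fun z => L z - n 0 * (2 * Real.pi * I), hLd.sub_const _, fun z hz => ?_, fun t => ?_⟩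
  · rw [exp_sub, exp_int_mul_two_pi_mul_I, div_one, hL z hz]
  · have := hn t
    rw [hconst t] at this
    simp only
    rw [← this]; ring

end Pool.Agent.Helper242.RK
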