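import Pool.Agent.Helper242.RK.Zero4
import Pool.Agent.Helper242.RK.Log

set_option autoImplicit false

/-!
# The branch of the power of the kernel in the right half strip
-/

namespace Pool.Agent.Helper242.RK

open Complex Filter Topology

/-- Data: the lowest zero and a logarithm of the remaining factor. -/
structure KD where
  y0 : ℝ
  hy0 : 0 < y0
  hy01 : y0 < y1
  L : ℂ → ℂ
  hLd : DifferentiableOn ℂ L (U y1)
  hL : ∀ t ∈ U y1, PhiC t = (t ^ 2 + y0 ^ 2) * cexp (L t)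
  hLR : ∀ t : ℝ, L t = ((Real.log (Phi t / (t ^ 2 + y0 ^ 2)) : ℝ) : ℂ)

lemma ofReal_mem_U {Y : ℝ} (hY : 0 < Y) (t : ℝ) : (t : ℂ) ∈ U Y := by
  simpa [U] using hY

lemma exists_KD : Nonempty KD := by
  obtain ⟨y0, hy0, hy01, hz⟩ := exists_y0
  obtain ⟨Ψ, hΨd, hΨ0, hΨ⟩ := exists_factor hy0 hy01 hz
  have hpos : ∀ t : ℝ, 0 < t ^ 2 + y0 ^ 2 := fun t => by positivity
  obtain ⟨L, hLd, hL, hLR⟩ := exists_log_real (convex_U y1) (isOpen_U y1)
    (fun t => ofReal_mem_U y1_pos t) hΨd hΨ0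
    (fun t => Phi t / (t ^ 2 + y0 ^ 2)) (fun t => by
      have h1 := hΨ t (ofReal_mem_U y1_pos t)
      rw [PhiC_ofReal] at h1
      have h2 : ((t : ℂ) ^ 2 + (y0 : ℂ) ^ 2) ≠ 0 := by
        have := (hpos t).ne'
        exact_mod_cast this
      push_cast
      rw [h1]
      field_simp) (fun t => div_pos (Phi_pos t) (hpos t))
  exact ⟨⟨y0, hy0, hy01, L, hLd, fun t ht => by rw [hL t ht, hΨ t ht], hLR⟩⟩

namespace KD

variable (d : KD)

lemma L_symm {t : ℂ} (ht : t ∈ U y1) : (starRingEnd ℂ) (d.L ((starRingEnd ℂ) (-t))) = d.L t := by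
  have hmem : ∀ t ∈ U y1, (starRingEnd ℂ) (-t) ∈ U y1 := by
    intro t ht
    simpa [U] using ht
  have h1 : DifferentiableOn ℂ (fun t => (starRingEnd ℂ) (d.L ((starRingEnd ℂ) (-t)))) (U y1) := by
    intro t ht
    have h2 : DifferentiableAt ℂ d.L ((starRingEnd ℂ) (-t)) :=
      (d.hLd _ (hmem t ht)).differentiableAt ((isOpen_U y1).mem_nhds (hmem t ht))
    have h3 := h2.conj_conj
    rw [conj_conj] at h3
    have h4 : DifferentiableAt ℂ (fun t : ℂ => -t) t := differentiableAt_id.neg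
    have h5 := DifferentiableAt.comp t h3 h4
    exact h5.differentiableWithinAt
  have h2 := (h1.analyticOnNhd (isOpen_U y1)).eqOn_of_preconnected_of_frequently_eq
    (d.hLd.analyticOnNhd (isOpen_U y1)) (convex_U y1).isPreconnected
    (z₀ := 0) (by simpa using ofReal_mem_U y1_pos 0) ?_
  · exact h2 ht
  · -- real points accumulate at 0
    have h3 : ∃ᶠ x : ℝ in 𝓝[≠] (0 : ℝ), True := by
      rw [frequently_true_iff_neBot]; infer_instance
    have h4 : Tendsto (fun x : ℝ => (x : ℂ)) (𝓝[≠] (0 : ℝ)) (𝓝[≠] (0 : ℂ)) := by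
      refine tendsto_nhdsWithin_of_tendsto_nhds_of_eventually_within _ ?_ ?_
      · have : Tendsto (fun x : ℝ => (x : ℂ)) (𝓝 0) (𝓝 ((0 : ℝ) : ℂ)) :=
          continuous_ofReal.continuousAt
        rw [ofReal_zero] at this
        exact this.mono_left nhdsWithin_le_nhds
      · filter_upwards [self_mem_nhdsWithin] with x hx
        simpa using hx
    refine h4.frequently (h3.mono fun x _ => ?_)
    have e1 : (starRingEnd ℂ) (-(x : ℂ)) = ((-x : ℝ) : ℂ) := by simp
    rw [e1, d.hLR, d.hLR, conj_ofReal, Phi_even]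
    simp

lemma L_I_real {y : ℝ} (hy : |y| < y1) : (d.L ((y : ℂ) * I)).im = 0 := by
  have hmem : (y : ℂ) * I ∈ U y1 := by simpa [U] using hy
  have h := d.L_symm hmem
  have e : (starRingEnd ℂ) (-((y : ℂ) * I)) = (y : ℂ) * I := by simp
  rw [e] at h
  exact conj_eq_iff_im.1 h

/-- The branch of `Φ^α` on the right half of the strip. -/
noncomputable def KR (α : ℝ) (t : ℂ) : ℂ :=
  cexp (α * d.L t) * (cexp (I * Real.pi * α / 2) * (t - d.y0 * I) ^ (α : ℂ)) *
    (d.y0 - I * t) ^ (α : ℂ)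

lemma norm_KR {α : ℝ} {t : ℂ} (ht : t ∈ U y1) : ‖d.KR α t‖ = ‖PhiC t‖ ^ α := by
  rw [KR, norm_mul, norm_mul, norm_mul, norm_cpow_real, norm_cpow_real, norm_exp, norm_exp,
    d.hL t ht, norm_mul, norm_exp]
  have h1 : (↑α * d.L t).re = (d.L t).re * α := by rw [re_ofReal_mul]; ring
  have h2 : (I * Real.pi * α / 2 : ℂ).re = 0 := by
    have : (I * Real.pi * α / 2 : ℂ) = ((Real.pi * α / 2 : ℝ) : ℂ) * I := by push_cast; ring
    rw [this, re_ofReal_mul]; simp
  have h3 : ‖t ^ 2 + (d.y0 : ℂ) ^ 2‖ = ‖t - d.y0 * I‖ * ‖(d.y0 : ℂ) - I * t‖ := by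
    have e : t ^ 2 + (d.y0 : ℂ) ^ 2 = I * ((t - d.y0 * I) * (d.y0 - I * t)) := by
      linear_combination (t ^ 2 + (d.y0 : ℂ) ^ 2 - (d.y0 : ℂ) * t * I) * I_mul_I
    rw [e, norm_mul, norm_I, one_mul, norm_mul]
  rw [h1, h2, h3, Real.exp_zero, one_mul, Real.mul_rpow (by positivity) (by positivity),
    Real.mul_rpow (by positivity) (by positivity), Real.exp_mul]
  ring

lemma continuousAt_KR {α : ℝ} (hα : 0 < α) {t : ℂ} (ht : t ∈ U y1) (hre : 0 ≤ t.re)
    (him : 0 ≤ t.im) : ContinuousAt (d.KR α) t := by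
  have h1 : ContinuousAt d.L t :=
    ((d.hLd t ht).differentiableAt ((isOpen_U y1).mem_nhds ht)).continuousAt
  have h2 : ContinuousAt (fun t : ℂ => (t - d.y0 * I) ^ (α : ℂ)) t := by
    refine ContinuousAt.comp (f := fun t : ℂ => t - d.y0 * I) (g := fun w : ℂ => w ^ (α : ℂ)) ?_
      (by fun_prop)
    refine continuousAt_cpow_const_of_re_pos (Or.inl ?_) (by simpa using hα)
    simpa using hre
  have h3 : ContinuousAt (fun t : ℂ => ((d.y0 : ℂ) - I * t) ^ (α : ℂ)) t := by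
    refine ContinuousAt.comp (f := fun t : ℂ => (d.y0 : ℂ) - I * t)
      (g := fun w : ℂ => w ^ (α : ℂ)) ?_ (by fun_prop)
    refine continuousAt_cpow_const_of_re_pos (Or.inl ?_) (by simpa using hα)
    simp only [sub_re, ofReal_re, mul_re, I_re, zero_mul, I_im, one_mul, zero_sub, sub_neg_eq_add]
    linarith [d.hy0]
  unfold KR
  have h0 : ContinuousAt (fun t : ℂ => cexp (α * d.L t)) t := by fun_prop
  exact (h0.mul (continuousAt_const.mul h2)).mul h3

lemma differentiableAt_KR {α : ℝ} {t : ℂ} (ht : t ∈ U y1) (hre : 0 < t.re)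
    (him : 0 ≤ t.im) : DifferentiableAt ℂ (d.KR α) t := by
  have h1 : DifferentiableAt ℂ d.L t :=
    (d.hLd t ht).differentiableAt ((isOpen_U y1).mem_nhds ht)
  have h2 : DifferentiableAt ℂ (fun t : ℂ => (t - d.y0 * I) ^ (α : ℂ)) t := by
    refine DifferentiableAt.cpow_const (by fun_prop) ?_
    left
    simpa using hre
  have h3 : DifferentiableAt ℂ (fun t : ℂ => ((d.y0 : ℂ) - I * t) ^ (α : ℂ)) t := by
    refine DifferentiableAt.cpow_const (by fun_prop) ?_
    left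
    simp only [sub_re, ofReal_re, mul_re, I_re, zero_mul, I_im, one_mul, zero_sub, sub_neg_eq_add]
    linarith [d.hy0]
  unfold KR
  have h0 : DifferentiableAt ℂ (fun t : ℂ => cexp (α * d.L t)) t := by fun_prop
  exact (h0.mul ((differentiableAt_const _).mul h2)).mul h3

end KD

end Pool.Agent.Helper242.RK
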