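import Pool.Agent.Helper242.RK.Shift2

set_option autoImplicit false

/-!
# Lower bound for `F α (x + i)`
-/

namespace Pool.Agent.Helper242.RK

open Complex Filter Topology MeasureTheory

namespace KD

variable (d : KD)

lemma top_bound {α : ℝ} (hα : 0 < α) {Y : ℝ} (hY0 : 0 ≤ Y) (hY : Y < y1) :
    ∃ C : ℝ, 0 < C ∧ ∀ z : ℂ, |z.im| ≤ 1 →
      ‖∫ u in Set.Ioi (0 : ℝ), d.f α z (u + Y * I)‖ ≤ C * Real.exp (-(Y * z.re)) := by
  obtain ⟨C, hC, hb⟩ := PhiC_rpow_bound hα hY0 (y1_lt' hY) 2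
  refine ⟨C, hC, fun z hz => ?_⟩
  have hb2 : ∀ u ∈ Set.Ioi (0 : ℝ), ‖d.f α z (u + Y * I)‖ ≤
      (C * Real.exp (-(Y * z.re))) * Real.exp (-u) := by
    intro u hu
    have hu' : (0 : ℝ) < u := hu
    have h1 := hb ((u : ℂ) + Y * I) (by simp [abs_of_nonneg hY0])
    rw [← d.norm_KR (mem_U_of hY (by simpa using hY0) (by simp))] at h1
    have h2 : ((u : ℂ) + Y * I).re = u := by simp
    rw [h2, abs_of_pos hu'] at h1
    have h3 : ‖cexp (I * z * ((u : ℂ) + Y * I))‖ ≤ Real.exp (-(Y * z.re) + u) := by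
      rw [norm_exp]
      refine Real.exp_le_exp.2 ?_
      have e : (I * z * ((u : ℂ) + Y * I)).re = -(Y * z.re) - z.im * u := by
        simp; ring
      rw [e]
      have := (abs_le.1 hz).1
      nlinarith
    calc ‖d.f α z (u + Y * I)‖ = ‖d.KR α ((u : ℂ) + Y * I)‖ * ‖cexp (I * z * ((u : ℂ) + Y * I))‖ := by
          rw [f, norm_mul]
      _ ≤ (C * Real.exp (-2 * u)) * Real.exp (-(Y * z.re) + u) := by gcongr
      _ = (C * Real.exp (-(Y * z.re))) * Real.exp (-u) := by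
          rw [mul_assoc, mul_assoc, ← Real.exp_add, ← Real.exp_add]
          congr 2; ring
  calc ‖∫ u in Set.Ioi (0 : ℝ), d.f α z (u + Y * I)‖
      ≤ ∫ u in Set.Ioi (0 : ℝ), (C * Real.exp (-(Y * z.re))) * Real.exp (-u) := by
        refine norm_integral_le_of_norm_le ((integrableOn_exp_neg_Ioi 0).const_mul _) ?_
        exact (ae_restrict_iff' measurableSet_Ioi).2 (Eventually.of_forall hb2)
    _ = C * Real.exp (-(Y * z.re)) := by
        rw [integral_const_mul, integral_exp_neg_Ioi_zero, mul_one]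

/-- size of the jump -/
noncomputable def k (α y : ℝ) : ℝ := |(d.KR α ((y : ℂ) * I)).im|

lemma KR_I_eq {α y : ℝ} (hα : 0 < α) (hs : Real.sin (Real.pi * α) ≠ 0) (hy : 0 ≤ y)
    (hy1 : y < y1) :
    (d.KR α ((y : ℂ) * I)).im = (SignType.sign (Real.sin (Real.pi * α)) : ℝ) * d.k α y := by
  unfold k
  rcases lt_trichotomy y d.y0 with h | h | h
  · rw [d.KR_I_lt hy h]; simp
  · have : d.KR α ((y : ℂ) * I) = 0 := by
      rw [KR, h, sub_self, zero_cpow (by exact_mod_cast hα.ne')]; simp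
    rw [this]; simp
  · rw [d.KR_I_gt h hy1, abs_mul]
    have hG : 0 ≤ d.G α y * (y - d.y0) ^ α := by
      have : 0 ≤ y - d.y0 := by linarith
      have h2 : 0 ≤ d.y0 + y := by linarith [d.hy0]
      unfold G
      positivity
    rw [abs_of_nonneg hG]
    rcases lt_or_gt_of_ne hs with h1 | h1
    · rw [sign_neg h1, abs_of_neg h1]; simp
    · rw [sign_pos h1, abs_of_pos h1]; simp

lemma k_nonneg (α y : ℝ) : 0 ≤ d.k α y := abs_nonneg _

lemma k_pos {α y : ℝ} (hs : Real.sin (Real.pi * α) ≠ 0) (hy0 : d.y0 < y)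
    (hy1 : y < y1) : 0 < d.k α y := by
  unfold k
  rw [d.KR_I_gt hy0 hy1]
  have h1 : 0 < y - d.y0 := by linarith
  have h2 : 0 < d.y0 + y := by linarith [d.hy0]
  have : 0 < d.G α y * (y - d.y0) ^ α := by
    unfold G; positivity
  exact abs_pos.2 (mul_ne_zero hs this.ne')

lemma continuousOn_KR_I {α : ℝ} (hα : 0 < α) {Y : ℝ} (hY : Y < y1) :
    ContinuousOn (fun y : ℝ => d.KR α ((y : ℂ) * I)) (Set.Icc 0 Y) := by
  intro y hy
  have h1 : ContinuousAt (d.KR α) ((y : ℂ) * I) :=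
    d.continuousAt_KR hα (mem_U_of hY (by simpa using hy.1) (by simpa using hy.2)) (by simp)
      (by simpa using hy.1)
  exact (ContinuousAt.comp (f := fun y : ℝ => (y : ℂ) * I) h1 (by fun_prop)).continuousWithinAt

lemma continuousOn_k {α : ℝ} (hα : 0 < α) {Y : ℝ} (hY : Y < y1) :
    ContinuousOn (d.k α) (Set.Icc 0 Y) := by
  unfold k
  exact (continuous_im.comp_continuousOn (d.continuousOn_KR_I hα hY)).abs

/-- the jump integral -/
lemma jump_eq {α : ℝ} (hα : 0 < α) {Y : ℝ} (hY0 : 0 ≤ Y) (hY : Y < y1) (z : ℂ) :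
    I * (∫ y : ℝ in (0 : ℝ)..Y, d.f α z (y * I)) +
      (starRingEnd ℂ) (I * (∫ y : ℝ in (0 : ℝ)..Y, d.f α ((starRingEnd ℂ) z) (y * I)))
      = -2 * ∫ y : ℝ in (0 : ℝ)..Y, (((d.KR α ((y : ℂ) * I)).im : ℝ) : ℂ) * cexp (-(z * y)) := by
  have hcont : ∀ w : ℂ, ContinuousOn (fun y : ℝ => d.f α w (y * I)) (Set.uIcc 0 Y) := by
    intro w
    rw [Set.uIcc_of_le hY0]
    unfold f
    exact (d.continuousOn_KR_I hα hY).mul (by fun_prop)
  have i1 : IntervalIntegrable (fun y : ℝ => I * d.f α z (y * I)) volume 0 Y :=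
    ((hcont z).const_mul I).intervalIntegrable
  have i2 : IntervalIntegrable (fun y : ℝ => (starRingEnd ℂ) (I * d.f α ((starRingEnd ℂ) z) (y * I)))
      volume 0 Y := by
    have h1 := (hcont ((starRingEnd ℂ) z)).const_mul I
    have h2 : ContinuousOn (fun y : ℝ => (starRingEnd ℂ) (I * d.f α ((starRingEnd ℂ) z) (y * I)))
        (Set.uIcc 0 Y) := continuous_conj.comp_continuousOn h1
    exact h2.intervalIntegrable
  rw [← intervalIntegral.integral_const_mul, ← intervalIntegral.integral_const_mul,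
    ← intervalIntegral.intervalIntegral_conj, ← intervalIntegral.integral_add i1 i2,
    ← intervalIntegral.integral_const_mul]
  refine intervalIntegral.integral_congr fun y _ => ?_
  simp only [f]
  have e1 : I * z * ((y : ℂ) * I) = -(z * y) := by linear_combination (z * y) * I_mul_I
  have e2 : (starRingEnd ℂ) (I * (starRingEnd ℂ) z * ((y : ℂ) * I)) = -(z * y) := by
    simp only [map_mul, conj_I, conj_conj, conj_ofReal]
    linear_combination (z * y) * I_mul_I
  rw [map_mul, map_mul, ← exp_conj, e1, e2, conj_I]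
  have e3 : I * (d.KR α ((y : ℂ) * I) * cexp (-(z * y))) +
      -I * ((starRingEnd ℂ) (d.KR α ((y : ℂ) * I)) * cexp (-(z * y))) =
      I * (d.KR α ((y : ℂ) * I) - (starRingEnd ℂ) (d.KR α ((y : ℂ) * I))) * cexp (-(z * y)) := by
    ring
  rw [e3, sub_conj]
  push_cast
  linear_combination (2 * (((d.KR α ((y : ℂ) * I)).im : ℝ) : ℂ) * cexp (-(z * y))) * I_mul_I

/-- Lower bound for the jump integral. -/
lemma jump_lower {α : ℝ} (hα : 0 < α) (hs : Real.sin (Real.pi * α) ≠ 0) {Y y' : ℝ} (hY : Y < y1)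
    (h0' : d.y0 < y') (hy' : y' ≤ Y) :
    ∃ c : ℝ, 0 < c ∧ ∀ x : ℝ, 0 ≤ x → c * Real.exp (-(y' * x)) ≤
      ‖∫ y : ℝ in (0 : ℝ)..Y, (((d.KR α ((y : ℂ) * I)).im : ℝ) : ℂ) * cexp (-((x + I) * y))‖ := by
  have hy0 := d.hy0
  have hY0 : 0 ≤ Y := by linarith
  have hk := d.continuousOn_k hα hY
  have hint : IntervalIntegrable (d.k α) volume 0 y' := by
    refine ContinuousOn.intervalIntegrable ?_
    rw [Set.uIcc_of_le (by linarith)]
    exact hk.mono (Set.Icc_subset_Icc_right hy')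
  have hint1 : IntervalIntegrable (d.k α) volume 0 d.y0 := by
    refine ContinuousOn.intervalIntegrable ?_
    rw [Set.uIcc_of_le (by linarith)]
    exact hk.mono (Set.Icc_subset_Icc_right (by linarith))
  have hint2 : IntervalIntegrable (d.k α) volume d.y0 y' := by
    refine ContinuousOn.intervalIntegrable ?_
    rw [Set.uIcc_of_le (by linarith)]
    exact hk.mono (Set.Icc_subset_Icc (by linarith) hy')
  have hc : 0 < ∫ y in (0 : ℝ)..y', d.k α y := by
    rw [← intervalIntegral.integral_add_adjacent_intervals hint1 hint2]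
    have h1 : 0 ≤ ∫ y in (0 : ℝ)..d.y0, d.k α y :=
      intervalIntegral.integral_nonneg hy0.le fun y _ => d.k_nonneg α y
    have h2 : 0 < ∫ y in d.y0..y', d.k α y :=
      intervalIntegral.intervalIntegral_pos_of_pos_on hint2
        (fun y hy => d.k_pos hs hy.1 (by linarith [hy.2])) h0'
    linarith
  refine ⟨(∫ y in (0 : ℝ)..y', d.k α y) / 2, by positivity, fun x hx => ?_⟩
  set J := ∫ y : ℝ in (0 : ℝ)..Y, (((d.KR α ((y : ℂ) * I)).im : ℝ) : ℂ) * cexp (-((x + I) * y))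
    with hJ
  set ε : ℝ := (SignType.sign (Real.sin (Real.pi * α)) : ℝ) with hε
  have hε1 : |ε| = 1 := by
    rcases lt_or_gt_of_ne hs with h1 | h1
    · rw [hε, sign_neg h1]; simp
    · rw [hε, sign_pos h1]; simp
  -- multiply by a unimodular constant
  have hJ2 : (J * cexp (d.y0 * I)).re = ε * ∫ y : ℝ in (0 : ℝ)..Y,
      d.k α y * (Real.exp (-(x * y)) * Real.cos (y - d.y0)) := by
    rw [hJ, ← intervalIntegral.integral_mul_const, ← intervalIntegral.integral_const_mul]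
    have hcont : ContinuousOn (fun y : ℝ => (((d.KR α ((y : ℂ) * I)).im : ℝ) : ℂ) *
        cexp (-((x + I) * y)) * cexp (d.y0 * I)) (Set.uIcc 0 Y) := by
      rw [Set.uIcc_of_le hY0]
      have h1 : ContinuousOn (fun y : ℝ => (((d.KR α ((y : ℂ) * I)).im : ℝ) : ℂ)) (Set.Icc 0 Y) :=
        (continuous_ofReal.comp continuous_im).comp_continuousOn (d.continuousOn_KR_I hα hY)
      exact (h1.mul (by fun_prop)).mul (by fun_prop)
    have h2 := (reCLM.intervalIntegral_comp_comm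
      (hcont.intervalIntegrable : IntervalIntegrable _ volume 0 Y))
    simp only [reCLM_apply] at h2
    rw [← h2]
    refine intervalIntegral.integral_congr fun y hy => ?_
    rw [Set.uIcc_of_le hY0] at hy
    rw [mul_assoc, ← exp_add, re_ofReal_mul, d.KR_I_eq hα hs hy.1 (by linarith [hy.2]), ← hε]
    have e1 : -((x + I) * y) + d.y0 * I = ((-(x * y) : ℝ) : ℂ) + ((d.y0 - y : ℝ) : ℂ) * I := by
      push_cast; ring
    rw [e1, exp_add, ← ofReal_exp, re_ofReal_mul, exp_ofReal_mul_I_re,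
      show y - d.y0 = -(d.y0 - y) by ring, Real.cos_neg]
    ring
  have hnorm : |∫ y : ℝ in (0 : ℝ)..Y, d.k α y * (Real.exp (-(x * y)) * Real.cos (y - d.y0))|
      ≤ ‖J‖ := by
    have h1 : |(J * cexp (d.y0 * I)).re| ≤ ‖J * cexp (d.y0 * I)‖ := abs_re_le_norm _
    rw [norm_mul, norm_exp_ofReal_mul_I, mul_one, hJ2, abs_mul, hε1, one_mul] at h1
    exact h1
  refine le_trans ?_ hnorm
  refine le_trans ?_ (le_abs_self _)
  have hcos : ∀ y ∈ Set.Icc (0 : ℝ) Y, 1 / 2 ≤ Real.cos (y - d.y0) := by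
    intro y hy
    have h1 := Real.one_sub_sq_div_two_le_cos (x := y - d.y0)
    have h2 : |y - d.y0| ≤ 1 := by
      have := y1_lt
      have := Real.pi_lt_d2
      rw [abs_le]; constructor <;> norm_num at * <;> linarith [hy.1, hy.2, d.hy01]
    have h3 : (y - d.y0) ^ 2 ≤ 1 := by
      rw [← sq_abs]; nlinarith [abs_nonneg (y - d.y0)]
    linarith
  have hcontI : ContinuousOn (fun y => d.k α y * (Real.exp (-(x * y)) * Real.cos (y - d.y0)))
      (Set.Icc 0 Y) := hk.mul (by fun_prop)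
  have hsplit : ∫ y : ℝ in (0 : ℝ)..Y, d.k α y * (Real.exp (-(x * y)) * Real.cos (y - d.y0)) =
      (∫ y : ℝ in (0 : ℝ)..y', d.k α y * (Real.exp (-(x * y)) * Real.cos (y - d.y0))) +
      ∫ y : ℝ in y'..Y, d.k α y * (Real.exp (-(x * y)) * Real.cos (y - d.y0)) := by
    rw [intervalIntegral.integral_add_adjacent_intervals]
    · refine ContinuousOn.intervalIntegrable ?_
      rw [Set.uIcc_of_le (by linarith)]
      exact hcontI.mono (Set.Icc_subset_Icc_right hy')
    · refine ContinuousOn.intervalIntegrable ?_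
      rw [Set.uIcc_of_le (by linarith)]
      exact hcontI.mono (Set.Icc_subset_Icc_left (by linarith))
  rw [hsplit]
  have hpart2 : 0 ≤ ∫ y : ℝ in y'..Y, d.k α y * (Real.exp (-(x * y)) * Real.cos (y - d.y0)) := by
    refine intervalIntegral.integral_nonneg hy' fun y hy => ?_
    have := hcos y ⟨by linarith [hy.1], hy.2⟩
    exact mul_nonneg (d.k_nonneg α y) (mul_nonneg (Real.exp_pos _).le (by linarith))
  have hpart1 : (∫ y in (0 : ℝ)..y', d.k α y) / 2 * Real.exp (-(y' * x)) ≤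
      ∫ y : ℝ in (0 : ℝ)..y', d.k α y * (Real.exp (-(x * y)) * Real.cos (y - d.y0)) := by
    have e : (∫ y in (0 : ℝ)..y', d.k α y) / 2 * Real.exp (-(y' * x)) =
        ∫ y in (0 : ℝ)..y', d.k α y * (Real.exp (-(y' * x)) * (1 / 2)) := by
      rw [intervalIntegral.integral_mul_const]; ring
    rw [e]
    refine intervalIntegral.integral_mono_on (by linarith) ?_ ?_ fun y hy => ?_
    · exact hint.mul_const _
    · refine ContinuousOn.intervalIntegrable ?_
      rw [Set.uIcc_of_le (by linarith)]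
      exact hcontI.mono (Set.Icc_subset_Icc_right hy')
    · have h1 := hcos y ⟨hy.1, by linarith [hy.2]⟩
      have h2 : Real.exp (-(y' * x)) ≤ Real.exp (-(x * y)) := by
        refine Real.exp_le_exp.2 ?_
        nlinarith [hy.2]
      refine mul_le_mul_of_nonneg_left ?_ (d.k_nonneg α y)
      exact mul_le_mul h2 h1 (by norm_num) (Real.exp_pos _).le
  linarith

end KD

/-- The lower bound for `F` on the line `Im z = 1`. -/
theorem F_lower {α : ℝ} (hα : 0 < α) (hs : Real.sin (Real.pi * α) ≠ 0) :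
    ∃ y' : ℝ, 0 < y' ∧ y' < Real.pi / 8 ∧ ∃ c : ℝ, 0 < c ∧ ∃ X0 : ℝ, 0 < X0 ∧ ∀ x : ℝ, X0 ≤ x →
      c * Real.exp (-(y' * x)) ≤ ‖F α (x + I)‖ := by
  obtain ⟨d⟩ := exists_KD
  have hy0 := d.hy0
  have hy01 := d.hy01
  set Y := (d.y0 + y1) / 2 with hYdef
  set y' := (d.y0 + Y) / 2 with hy'def
  have hY : Y < y1 := by rw [hYdef]; linarith
  have hy0Y : d.y0 < Y := by rw [hYdef]; linarith
  have h0' : d.y0 < y' := by rw [hy'def]; linarith
  have hy'Y : y' < Y := by rw [hy'def]; linarith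
  have hY0 : 0 ≤ Y := by linarith
  obtain ⟨c, hc, hlow⟩ := d.jump_lower hα hs hY h0' hy'Y.le
  obtain ⟨C, hC, htop⟩ := d.top_bound hα hY0 hY
  refine ⟨y', by linarith, by linarith [y1_lt], c / 2, by positivity, ?_⟩
  -- choose `X0`
  have hlim : Tendsto (fun x : ℝ => C * Real.exp (-((Y - y') * x))) atTop (𝓝 0) := by
    have h1 : Tendsto (fun x : ℝ => (Y - y') * x) atTop atTop :=
      tendsto_id.const_mul_atTop (by linarith)
    have h2 := (Real.tendsto_exp_neg_atTop_nhds_zero.comp h1).const_mul C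
    simpa [Function.comp_def] using h2
  have hev : ∀ᶠ x : ℝ in atTop, C * Real.exp (-((Y - y') * x)) < c / 2 :=
    hlim.eventually_lt_const (by positivity)
  obtain ⟨X0, hX0⟩ := eventually_atTop.1 hev
  refine ⟨max X0 1, by positivity, fun x hx => ?_⟩
  have hx0 : 0 ≤ x := by linarith [le_max_right X0 1]
  have hxX : X0 ≤ x := (le_max_left X0 1).trans hx
  have e1 := d.two_F_eq hα (x + I)
  rw [d.shift hα hY0 hY, d.shift hα hY0 hY, map_add] at e1
  have e2 := d.jump_eq hα hY0 hY (x + I)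
  have e3 : 2 * F α (x + I) = ((∫ u in Set.Ioi (0 : ℝ), d.f α (x + I) (u + Y * I)) +
      (starRingEnd ℂ) (∫ u in Set.Ioi (0 : ℝ), d.f α ((starRingEnd ℂ) (x + I)) (u + Y * I))) +
      (-2 * ∫ y : ℝ in (0 : ℝ)..Y, (((d.KR α ((y : ℂ) * I)).im : ℝ) : ℂ) *
        cexp (-((x + I) * y))) := by
    rw [← e2, e1]; ring
  have n1 := htop (x + I) (by simp)
  have n2 := htop ((starRingEnd ℂ) (x + I)) (by simp)
  have r1 : ((x : ℂ) + I).re = x := by simp
  have r2 : ((starRingEnd ℂ) ((x : ℂ) + I)).re = x := by simp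
  rw [r1] at n1
  rw [r2] at n2
  have n3 := hlow x hx0
  have n4 : ‖-2 * ∫ y : ℝ in (0 : ℝ)..Y, (((d.KR α ((y : ℂ) * I)).im : ℝ) : ℂ) *
        cexp (-((x + I) * y))‖ = 2 * ‖∫ y : ℝ in (0 : ℝ)..Y,
          (((d.KR α ((y : ℂ) * I)).im : ℝ) : ℂ) * cexp (-((x + I) * y))‖ := by
    rw [norm_mul]; simp
  have n5 : ‖(∫ u in Set.Ioi (0 : ℝ), d.f α (x + I) (u + Y * I)) +
      (starRingEnd ℂ) (∫ u in Set.Ioi (0 : ℝ), d.f α ((starRingEnd ℂ) (x + I)) (u + Y * I))‖
      ≤ 2 * (C * Real.exp (-(Y * x))) := by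
    refine (norm_add_le _ _).trans ?_
    rw [norm_conj]
    linarith
  have n6 : 2 * ‖F α (x + I)‖ = ‖2 * F α (x + I)‖ := by rw [norm_mul]; simp
  have n7 : ∀ A B : ℂ, ‖B‖ - ‖A‖ ≤ ‖A + B‖ := fun A B => by
    rw [add_comm A B]; exact norm_sub_le_norm_add _ _
  have n7 := n7 ((∫ u in Set.Ioi (0 : ℝ), d.f α (x + I) (u + Y * I)) +
      (starRingEnd ℂ) (∫ u in Set.Ioi (0 : ℝ), d.f α ((starRingEnd ℂ) (x + I)) (u + Y * I)))
      (-2 * ∫ y : ℝ in (0 : ℝ)..Y,
    (((d.KR α ((y : ℂ) * I)).im : ℝ) : ℂ) * cexp (-((x + I) * y)))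
  rw [← e3, ← n6, n4] at n7
  have n8 : C * Real.exp (-(Y * x)) ≤ c / 2 * Real.exp (-(y' * x)) := by
    have h1 := (hX0 x hxX).le
    have h2 : Real.exp (-(Y * x)) = Real.exp (-((Y - y') * x)) * Real.exp (-(y' * x)) := by
      rw [← Real.exp_add]; congr 1; ring
    rw [h2, ← mul_assoc]
    gcongr
  linarith

end Pool.Agent.Helper242.RK
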