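import Pool.Agent.Helper242.RK.Carleman

set_option autoImplicit false

/-!
# The main theorem for non-integer exponents
-/

namespace Pool.Agent.Helper242.RK

open Complex Filter Topology MeasureTheory

theorem exists_nonreal_zero {α : ℝ} (hα : 0 < α) (hs : Real.sin (Real.pi * α) ≠ 0) :
    ∃ z : ℂ, z.im ≠ 0 ∧ F α z = 0 := by
  by_contra hcon
  push Not at hcon
  have hF : ∀ z : ℂ, z.im ≠ 0 → F α z ≠ 0 := hcon
  obtain ⟨y', hy0, hy', C5, hC5, hline⟩ := line_lower hα hs hF
  obtain ⟨C3, hC3, harc⟩ := arc_lower hα hF
  have hdiff := differentiable_F hα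
  have hfd : Differentiable ℂ (fun z : ℂ => F α (z + I)) := by fun_prop
  have hne : ∀ z : ℂ, -1 < z.im → F α (z + I) ≠ 0 := by
    intro z hz
    refine hF _ ?_
    have : (z + I).im = z.im + 1 := by simp
    rw [this]; linarith
  obtain ⟨C0, hC0⟩ := carleman hfd.differentiableOn hne
  have hp := Real.pi_pos
  -- inequality for every `R`
  have hineq : ∀ R : ℝ, 1 ≤ R →
      (Real.pi / 4 - 2 * y') * Real.log R ≤ C0 + 2 * C5 + 2 * C3 * Real.pi := by
    intro R hR
    have hR0 : 0 < R := by linarith
    have hlR : 0 ≤ Real.log R := Real.log_nonneg hR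
    have h := hC0 R hR
    -- first integral
    have hcont1 : Continuous fun x : ℝ => (Real.log ‖F α ((Real.exp x : ℝ) + I)‖ +
        Real.log ‖F α (-(Real.exp x : ℝ) + I)‖) * (Real.exp (-x) - Real.exp x / R ^ 2) := by
      have c1 : Continuous fun x : ℝ => Real.log ‖F α ((Real.exp x : ℝ) + I)‖ := by
        refine Continuous.log ?_ fun x => norm_ne_zero_iff.2 (hne _ (by rw [ofReal_im]; norm_num))
        have := hdiff.continuous
        fun_prop
      have c2 : Continuous fun x : ℝ => Real.log ‖F α (-(Real.exp x : ℝ) + I)‖ := by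
        refine Continuous.log ?_ fun x => norm_ne_zero_iff.2
          (hne _ (by rw [neg_im, ofReal_im]; norm_num))
        have := hdiff.continuous
        fun_prop
      exact (c1.add c2).mul (by fun_prop)
    have hI1 : -2 * C5 - 2 * y' * Real.log R ≤
        ∫ x in (0 : ℝ)..Real.log R, (Real.log ‖F α ((Real.exp x : ℝ) + I)‖ +
          Real.log ‖F α (-(Real.exp x : ℝ) + I)‖) * (Real.exp (-x) - Real.exp x / R ^ 2) := by
      have hlow : ∀ x ∈ Set.Icc (0 : ℝ) (Real.log R), -2 * C5 * Real.exp (-x) - 2 * y' ≤
          (Real.log ‖F α ((Real.exp x : ℝ) + I)‖ +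
          Real.log ‖F α (-(Real.exp x : ℝ) + I)‖) * (Real.exp (-x) - Real.exp x / R ^ 2) := by
        intro x hx
        have h1 := hline (Real.exp x)
        have h2 := hline (-Real.exp x)
        rw [abs_neg] at h2
        rw [abs_of_pos (Real.exp_pos x)] at h1 h2
        rw [ofReal_neg] at h2
        have hex : Real.exp x ≤ R := by
          calc Real.exp x ≤ Real.exp (Real.log R) := Real.exp_le_exp.2 hx.2
            _ = R := Real.exp_log hR0
        have hexp := Real.exp_pos x
        have hinv : Real.exp (-x) * Real.exp x = 1 := by rw [← Real.exp_add]; simp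
        have hw0 : 0 ≤ Real.exp (-x) - Real.exp x / R ^ 2 := by
          have : Real.exp x / R ^ 2 ≤ Real.exp (-x) := by
            rw [div_le_iff₀ (by positivity)]
            have h3 : Real.exp x * Real.exp x ≤ R ^ 2 := by nlinarith
            have h4 : Real.exp (-x) * (Real.exp x * Real.exp x) = Real.exp x := by
              rw [← mul_assoc, hinv, one_mul]
            have h5 := mul_le_mul_of_nonneg_left h3 (Real.exp_pos (-x)).le
            rw [h4] at h5
            exact h5
          linarith
        have hw1 : Real.exp (-x) - Real.exp x / R ^ 2 ≤ Real.exp (-x) := by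
          have : 0 ≤ Real.exp x / R ^ 2 := by positivity
          linarith
        have h3 : -(2 * (C5 + y' * Real.exp x)) ≤ Real.log ‖F α ((Real.exp x : ℝ) + I)‖ +
          Real.log ‖F α (-(Real.exp x : ℝ) + I)‖ := by linarith
        calc -2 * C5 * Real.exp (-x) - 2 * y'
            = -(2 * (C5 + y' * Real.exp x)) * Real.exp (-x) := by
              linear_combination (2 * y') * hinv
          _ ≤ -(2 * (C5 + y' * Real.exp x)) * (Real.exp (-x) - Real.exp x / R ^ 2) := by
              have h4 : 0 ≤ 2 * (C5 + y' * Real.exp x) := by positivity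
              nlinarith
          _ ≤ _ := mul_le_mul_of_nonneg_right h3 hw0
      have h1 := intervalIntegral.integral_mono_on (μ := volume) hlR
        (Continuous.intervalIntegrable (by fun_prop) _ _) (hcont1.intervalIntegrable _ _) hlow
      refine le_trans ?_ h1
      have h2 : ∫ x in (0 : ℝ)..Real.log R, (-2 * C5 * Real.exp (-x) - 2 * y') =
          -2 * C5 * (1 - 1 / R) - 2 * y' * Real.log R := by
        rw [intervalIntegral.integral_sub (Continuous.intervalIntegrable (by fun_prop) _ _)
          (Continuous.intervalIntegrable (by fun_prop) _ _), intervalIntegral.integral_const_mul,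
          intervalIntegral.integral_const]
        have h3 : ∫ x in (0 : ℝ)..Real.log R, Real.exp (-x) = 1 - 1 / R := by
          rw [intervalIntegral.integral_comp_neg (fun x => Real.exp x), integral_exp]
          rw [neg_zero, Real.exp_zero, Real.exp_neg, Real.exp_log hR0, one_div]
        rw [h3, smul_eq_mul]; ring
      rw [h2]
      have h4 : 0 ≤ 1 / R := by positivity
      nlinarith
    -- second integral
    have hcont2 : ContinuousOn (fun y : ℝ => 2 / R * (Real.log ‖F α (R * cexp (y * I) + I)‖ *
        Real.sin y)) (Set.Icc 0 Real.pi) := by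
      have c1 : ContinuousOn (fun y : ℝ => Real.log ‖F α (R * cexp (y * I) + I)‖)
          (Set.Icc 0 Real.pi) := by
        refine ContinuousOn.log ?_ fun y hy => norm_ne_zero_iff.2 (hne _ ?_)
        · have := hdiff.continuous
          fun_prop
        · rw [im_ofReal_mul, exp_ofReal_mul_I_im]
          have := mul_nonneg hR0.le (Real.sin_nonneg_of_nonneg_of_le_pi hy.1 hy.2)
          linarith
      exact continuousOn_const.mul (c1.mul (by fun_prop))
    have hI2 : Real.pi / 4 * Real.log R - 2 * C3 * Real.pi ≤
        ∫ y in (0 : ℝ)..Real.pi, 2 / R * (Real.log ‖F α (R * cexp (y * I) + I)‖ * Real.sin y) := by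
      have hlow : ∀ y ∈ Set.Icc (0 : ℝ) Real.pi, Real.log R / 2 * Real.sin y ^ 2 - 2 * C3 ≤
          2 / R * (Real.log ‖F α (R * cexp (y * I) + I)‖ * Real.sin y) := by
        intro y hy
        have hsin := Real.sin_nonneg_of_nonneg_of_le_pi hy.1 hy.2
        rcases hsin.eq_or_lt with h0 | h0
        · rw [← h0]; simp; linarith
        · have him : ((R : ℂ) * cexp (y * I)).im = R * Real.sin y := by
            rw [im_ofReal_mul, exp_ofReal_mul_I_im]
          have hn : ‖(R : ℂ) * cexp (y * I)‖ = R := by
            rw [norm_mul, norm_exp_ofReal_mul_I, mul_one, norm_real, Real.norm_of_nonneg hR0.le]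
          have h1 := harc R hR ((R : ℂ) * cexp (y * I)) hn (by rw [him]; positivity)
          have h2 := Real.log_le_log (Real.exp_pos _) h1
          rw [Real.log_exp, him] at h2
          have h3 : R * Real.sin y / 4 * Real.log R - C3 * R / Real.sin y ≤
              Real.log ‖F α (R * cexp (y * I) + I)‖ := by
            refine le_trans (le_of_eq ?_) h2
            field_simp
          calc Real.log R / 2 * Real.sin y ^ 2 - 2 * C3
              = 2 / R * ((R * Real.sin y / 4 * Real.log R - C3 * R / Real.sin y) *
                Real.sin y) := by field_simp; ring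
            _ ≤ _ := by gcongr
      have h1 := intervalIntegral.integral_mono_on (μ := volume) hp.le
        (Continuous.intervalIntegrable (by fun_prop) _ _)
        (ContinuousOn.intervalIntegrable (by rwa [Set.uIcc_of_le hp.le])) hlow
      refine le_trans (le_of_eq ?_) h1
      rw [intervalIntegral.integral_sub (Continuous.intervalIntegrable (by fun_prop) _ _)
          (Continuous.intervalIntegrable (by fun_prop) _ _), intervalIntegral.integral_const_mul,
          intervalIntegral.integral_const, integral_sin_sq]
      simp
      ring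
    linarith
  -- let `R → ∞`
  set δ := Real.pi / 4 - 2 * y' with hδ
  have hδ0 : 0 < δ := by rw [hδ]; linarith
  set T := (|C0 + 2 * C5 + 2 * C3 * Real.pi| + 1) / δ with hT
  have hT0 : 0 ≤ T := by positivity
  have h1 := hineq (Real.exp T) (Real.one_le_exp hT0)
  rw [Real.log_exp, hT, mul_div_cancel₀ _ hδ0.ne'] at h1
  have h2 := le_abs_self (C0 + 2 * C5 + 2 * C3 * Real.pi)
  linarith

end Pool.Agent.Helper242.RK
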