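import Mathlib

set_option autoImplicit false

/-!
# Fixed point ball arithmetic with soundness proofs
-/

namespace Pool.Agent.Helper242.RK

open Complex

/-- a real ball: midpoint and radius in units of `10 ^ (-20)` -/
structure RB where
  m : ℤ
  r : ℤ
deriving DecidableEq

/-- a complex ball -/
structure CB where
  x : RB
  y : RB
deriving DecidableEq

def RB.add (a b : RB) : RB := ⟨a.m + b.m, a.r + b.r⟩
def RB.sub (a b : RB) : RB := ⟨a.m - b.m, a.r + b.r⟩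
def RB.neg (a : RB) : RB := ⟨-a.m, a.r⟩
def iabs (a : ℤ) : ℤ := (a.natAbs : ℤ)
def RB.mul (a b : RB) : RB :=
  ⟨a.m * b.m / 100000000000000000000,
    (iabs a.m * b.r + iabs b.m * a.r + a.r * b.r) / 100000000000000000000 + 2⟩
def RB.divn (a : RB) (n : ℤ) : RB := ⟨a.m / n, a.r / n + 2⟩
def RB.muln (a : RB) (n : ℤ) : RB := ⟨a.m * n, a.r * n⟩

def CB.add (a b : CB) : CB := ⟨a.x.add b.x, a.y.add b.y⟩
def CB.sub (a b : CB) : CB := ⟨a.x.sub b.x, a.y.sub b.y⟩
def CB.neg (a : CB) : CB := ⟨a.x.neg, a.y.neg⟩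
def CB.conj (a : CB) : CB := ⟨a.x, a.y.neg⟩
def CB.mul (a b : CB) : CB :=
  ⟨(a.x.mul b.x).sub (a.y.mul b.y), (a.x.mul b.y).add (a.y.mul b.x)⟩
def CB.divn (a : CB) (n : ℤ) : CB := ⟨a.x.divn n, a.y.divn n⟩
def CB.muln (a : CB) (n : ℤ) : CB := ⟨a.x.muln n, a.y.muln n⟩

def CB.one : CB := ⟨⟨100000000000000000000, 0⟩, ⟨0, 0⟩⟩
def CB.zero : CB := ⟨⟨0, 0⟩, ⟨0, 0⟩⟩

/-- membership -/
def RB.Mem (a : RB) (x : ℝ) : Prop := |x * 100000000000000000000 - a.m| ≤ a.r

def CB.Mem (a : CB) (z : ℂ) : Prop := a.x.Mem z.re ∧ a.y.Mem z.im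

lemma ediv_bounds (a : ℤ) {n : ℤ} (hn : 0 < n) :
    ((a / n : ℤ) : ℝ) ≤ (a : ℝ) / n ∧ (a : ℝ) / n < ((a / n : ℤ) : ℝ) + 1 := by
  have hn' : (0 : ℝ) < n := by exact_mod_cast hn
  constructor
  · rw [le_div_iff₀ hn']
    exact_mod_cast Int.ediv_mul_le a hn.ne'
  · rw [div_lt_iff₀ hn']
    exact_mod_cast Int.lt_ediv_add_one_mul_self a hn

lemma RB.r_nonneg {a : RB} {x : ℝ} (h : a.Mem x) : (0 : ℝ) ≤ a.r := (abs_nonneg _).trans h

lemma RB.mem_add {a b : RB} {x y : ℝ} (ha : a.Mem x) (hb : b.Mem y) : (a.add b).Mem (x + y) := by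
  unfold RB.Mem RB.add at *
  push_cast
  rw [abs_le] at *
  constructor <;> linarith [ha.1, ha.2, hb.1, hb.2]

lemma RB.mem_sub {a b : RB} {x y : ℝ} (ha : a.Mem x) (hb : b.Mem y) : (a.sub b).Mem (x - y) := by
  unfold RB.Mem RB.sub at *
  push_cast
  rw [abs_le] at *
  constructor <;> linarith [ha.1, ha.2, hb.1, hb.2]

lemma RB.mem_neg {a : RB} {x : ℝ} (ha : a.Mem x) : a.neg.Mem (-x) := by
  unfold RB.Mem RB.neg at *
  push_cast
  rw [abs_le] at *
  constructor <;> linarith [ha.1, ha.2]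

lemma iabs_cast (a : ℤ) : ((iabs a : ℤ) : ℝ) = |(a : ℝ)| := by
  unfold iabs
  rw [Int.natCast_natAbs]
  push_cast
  rfl

lemma RB.mem_mul {a b : RB} {x y : ℝ} (ha : a.Mem x) (hb : b.Mem y) : (a.mul b).Mem (x * y) := by
  have hra := RB.r_nonneg ha
  have hrb := RB.r_nonneg hb
  unfold RB.Mem RB.mul at *
  set D : ℝ := 100000000000000000000 with hD
  have hDpos : 0 < D := by rw [hD]; norm_num
  set e1 := x * D - a.m with he1
  set e2 := y * D - b.m with he2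
  have hd1 := ediv_bounds (a.m * b.m) (n := 100000000000000000000) (by norm_num)
  have hd2 := ediv_bounds (iabs a.m * b.r + iabs b.m * a.r + a.r * b.r)
    (n := 100000000000000000000) (by norm_num)
  have hDc : ((100000000000000000000 : ℤ) : ℝ) = D := by rw [hD]; norm_num
  rw [hDc] at hd1 hd2
  push_cast at hd1 hd2 ⊢
  rw [iabs_cast, iabs_cast] at hd2
  have hxy : x * y * D = (a.m * b.m) / D + (a.m * e2 + b.m * e1 + e1 * e2) / D := by
    rw [he1, he2]; field_simp; ring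
  have h3 : |a.m * e2 + b.m * e1 + e1 * e2| ≤ |(a.m : ℝ)| * b.r + |(b.m : ℝ)| * a.r + a.r * b.r := by
    calc |a.m * e2 + b.m * e1 + e1 * e2| ≤ |a.m * e2| + |b.m * e1| + |e1 * e2| := abs_add_three _ _ _
      _ = |(a.m : ℝ)| * |e2| + |(b.m : ℝ)| * |e1| + |e1| * |e2| := by
          rw [abs_mul, abs_mul, abs_mul]
      _ ≤ _ := by gcongr
  have h4 : |(a.m * e2 + b.m * e1 + e1 * e2) / D| ≤
      (|(a.m : ℝ)| * b.r + |(b.m : ℝ)| * a.r + a.r * b.r) / D := by
    rw [abs_div, abs_of_pos hDpos]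
    gcongr
  have h5 := abs_le.1 h4
  rw [abs_le]
  constructor <;> linarith [hd1.1, hd1.2, hd2.1, hd2.2, h5.1, h5.2, hxy]

lemma RB.mem_divn {a : RB} {x : ℝ} {n : ℤ} (hn : 0 < n) (ha : a.Mem x) :
    (a.divn n).Mem (x / n) := by
  unfold RB.Mem RB.divn at *
  have hn' : (0 : ℝ) < n := by exact_mod_cast hn
  have hd1 := ediv_bounds a.m hn
  have hd2 := ediv_bounds a.r hn
  push_cast
  have h1 : x / n * 100000000000000000000 = a.m / n + (x * 100000000000000000000 - a.m) / n := by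
    field_simp; ring
  have h2 : |(x * 100000000000000000000 - a.m) / n| ≤ a.r / n := by
    rw [abs_div, abs_of_pos hn']
    gcongr
  have h3 := abs_le.1 h2
  rw [abs_le]
  constructor <;> linarith [hd1.1, hd1.2, hd2.1, hd2.2, h3.1, h3.2, h1]

lemma RB.mem_muln {a : RB} {x : ℝ} {n : ℤ} (hn : 0 ≤ n) (ha : a.Mem x) :
    (a.muln n).Mem (x * n) := by
  unfold RB.Mem RB.muln at *
  have hn' : (0 : ℝ) ≤ n := by exact_mod_cast hn
  push_cast
  have h1 : x * n * 100000000000000000000 - a.m * n = (x * 100000000000000000000 - a.m) * n := by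
    ring
  rw [h1, abs_mul, abs_of_nonneg hn']
  gcongr

lemma RB.mem_rat (p : ℤ) {q : ℤ} (hq : 0 < q) :
    RB.Mem ⟨p * 100000000000000000000 / q, 1⟩ ((p : ℝ) / q) := by
  unfold RB.Mem
  have hd := ediv_bounds (p * 100000000000000000000) hq
  push_cast at hd ⊢
  have h1 : (p : ℝ) / q * 100000000000000000000 = p * 100000000000000000000 / q := by ring
  rw [h1, abs_le]
  constructor <;> linarith [hd.1, hd.2]

lemma CB.mem_add {a b : CB} {x y : ℂ} (ha : a.Mem x) (hb : b.Mem y) : (a.add b).Mem (x + y) :=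
  ⟨by rw [add_re]; exact RB.mem_add ha.1 hb.1, by rw [add_im]; exact RB.mem_add ha.2 hb.2⟩

lemma CB.mem_sub {a b : CB} {x y : ℂ} (ha : a.Mem x) (hb : b.Mem y) : (a.sub b).Mem (x - y) :=
  ⟨by rw [sub_re]; exact RB.mem_sub ha.1 hb.1, by rw [sub_im]; exact RB.mem_sub ha.2 hb.2⟩

lemma CB.mem_neg {a : CB} {x : ℂ} (ha : a.Mem x) : a.neg.Mem (-x) :=
  ⟨by rw [neg_re]; exact RB.mem_neg ha.1, by rw [neg_im]; exact RB.mem_neg ha.2⟩

lemma CB.mem_conj {a : CB} {x : ℂ} (ha : a.Mem x) : a.conj.Mem ((starRingEnd ℂ) x) :=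
  ⟨by rw [conj_re]; exact ha.1, by rw [conj_im]; exact RB.mem_neg ha.2⟩

lemma CB.mem_mul {a b : CB} {x y : ℂ} (ha : a.Mem x) (hb : b.Mem y) : (a.mul b).Mem (x * y) :=
  ⟨by rw [mul_re]; exact RB.mem_sub (RB.mem_mul ha.1 hb.1) (RB.mem_mul ha.2 hb.2),
   by rw [mul_im]; exact RB.mem_add (RB.mem_mul ha.1 hb.2) (RB.mem_mul ha.2 hb.1)⟩

lemma CB.mem_divn {a : CB} {x : ℂ} {n : ℤ} (hn : 0 < n) (ha : a.Mem x) :
    (a.divn n).Mem (x / n) := by
  have e : (n : ℂ) = ((n : ℝ) : ℂ) := by push_cast; rfl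
  rw [e]
  exact ⟨by rw [div_ofReal_re]; exact RB.mem_divn hn ha.1,
    by rw [div_ofReal_im]; exact RB.mem_divn hn ha.2⟩

lemma CB.mem_muln {a : CB} {x : ℂ} {n : ℤ} (hn : 0 ≤ n) (ha : a.Mem x) :
    (a.muln n).Mem (x * n) := by
  have e : (n : ℂ) = ((n : ℝ) : ℂ) := by push_cast; rfl
  rw [e]
  exact ⟨by rw [re_mul_ofReal]; exact RB.mem_muln hn ha.1,
    by rw [im_mul_ofReal]; exact RB.mem_muln hn ha.2⟩

lemma CB.mem_one : CB.one.Mem 1 := by
  unfold CB.one CB.Mem RB.Mem; simp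

lemma CB.mem_zero : CB.zero.Mem 0 := by
  unfold CB.zero CB.Mem RB.Mem; simp

/-- Taylor sum, `n` steps; state `(term, sum)` at index `i` -/
def taylor (z : CB) : ℕ → CB → CB → ℤ → CB
  | 0, _, s, _ => s
  | n + 1, t, s, i => taylor z n ((t.mul z).divn (i + 1)) (s.add t) (i + 1)

lemma mem_taylor {z : CB} {w : ℂ} (hz : z.Mem w) (n : ℕ) : ∀ (t s : CB) (i : ℕ),
    t.Mem (w ^ i / i.factorial) → s.Mem (∑ m ∈ Finset.range i, w ^ m / m.factorial) →
    (taylor z n t s i).Mem (∑ m ∈ Finset.range (i + n), w ^ m / m.factorial) := by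
  induction n with
  | zero => intro t s i _ hs; exact hs
  | succ n ih =>
    intro t s i ht hs
    have h1 : ((t.mul z).divn ((i : ℤ) + 1)).Mem (w ^ (i + 1) / (i + 1).factorial) := by
      have := CB.mem_divn (n := (i : ℤ) + 1) (by positivity) (CB.mem_mul ht hz)
      have e : w ^ (i + 1) / ((i + 1).factorial : ℂ) = w ^ i / (i.factorial : ℂ) * w / (((i : ℤ) + 1 : ℤ) : ℂ) := by
        rw [Nat.factorial_succ]
        push_cast
        have h1 : (i.factorial : ℂ) ≠ 0 := by exact_mod_cast i.factorial_ne_zero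
        have h2 : (i : ℂ) + 1 ≠ 0 := by exact_mod_cast Nat.succ_ne_zero i
        field_simp
        rw [pow_succ]
      rw [e]
      exact this
    have h2 : (s.add t).Mem (∑ m ∈ Finset.range (i + 1), w ^ m / m.factorial) := by
      rw [Finset.sum_range_succ]
      exact CB.mem_add hs ht
    have h3 := ih _ _ (i + 1) (by exact_mod_cast h1) h2
    have e2 : i + (n + 1) = i + 1 + n := by ring
    rw [e2]
    have e3 : taylor z (n + 1) t s i = taylor z n ((t.mul z).divn ((i : ℤ) + 1)) (s.add t) ((i : ℤ) + 1) := rfl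
    rw [e3]
    exact_mod_cast h3

def sqn : ℕ → CB → CB
  | 0, z => z
  | n + 1, z => sqn n (z.mul z)

lemma mem_sqn (n : ℕ) : ∀ (z : CB) (w : ℂ), z.Mem w → (sqn n z).Mem (w ^ (2 ^ n)) := by
  induction n with
  | zero => intro z w h; simpa [sqn] using h
  | succ n ih =>
    intro z w h
    have h1 := ih (z.mul z) (w * w) (CB.mem_mul h h)
    have e : w ^ 2 ^ (n + 1) = (w * w) ^ 2 ^ n := by
      rw [← sq, ← pow_mul, pow_succ, mul_comm]
    rw [e]
    exact h1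

def expB (z : CB) (j : ℕ) : CB :=
  let s := taylor (z.divn (2 ^ j)) 14 CB.one CB.zero 0
  sqn j ⟨⟨s.x.m, s.x.r + 10⟩, ⟨s.y.m, s.y.r + 10⟩⟩

lemma mem_expB {z : CB} {w : ℂ} {j : ℕ} (hz : z.Mem w) (hw : ‖w‖ ≤ 2 ^ j / 4) :
    (expB z j).Mem (cexp w) := by
  set v : ℂ := w / ((2 ^ j : ℤ) : ℂ) with hv
  have h1 : (z.divn (2 ^ j)).Mem v := CB.mem_divn (by positivity) hz
  have hnv : ‖v‖ ≤ 1 / 4 := by
    rw [hv, norm_div]
    have : ‖((2 ^ j : ℤ) : ℂ)‖ = 2 ^ j := by simp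
    rw [this, div_le_iff₀ (by positivity)]
    linarith
  have h2 := mem_taylor h1 14 CB.one CB.zero 0 (by simpa using CB.mem_one)
    (by simpa using CB.mem_zero)
  rw [zero_add, Nat.cast_zero] at h2
  have h3 := Complex.exp_bound (x := v) (by linarith) (n := 14) (by norm_num)
  have h4 : ‖cexp v - ∑ m ∈ Finset.range 14, v ^ m / m.factorial‖ ≤ 10 / 100000000000000000000 := by
    refine h3.trans ?_
    calc ‖v‖ ^ 14 * (((14 : ℕ).succ : ℝ) * (((14 : ℕ).factorial : ℝ) * ((14 : ℕ) : ℝ))⁻¹)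
        ≤ (1 / 4) ^ 14 * (((14 : ℕ).succ : ℝ) * (((14 : ℕ).factorial : ℝ) * ((14 : ℕ) : ℝ))⁻¹) := by
          gcongr
      _ ≤ 10 / 100000000000000000000 := by norm_num [Nat.factorial]
  set S := ∑ m ∈ Finset.range 14, v ^ m / m.factorial with hS
  set s := taylor (z.divn (2 ^ j)) 14 CB.one CB.zero 0 with hs
  have h5 : CB.Mem ⟨⟨s.x.m, s.x.r + 10⟩, ⟨s.y.m, s.y.r + 10⟩⟩ (cexp v) := by
    have hre : |(cexp v).re - S.re| ≤ 10 / 100000000000000000000 := by
      rw [← sub_re]; exact (abs_re_le_norm _).trans h4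
    have him : |(cexp v).im - S.im| ≤ 10 / 100000000000000000000 := by
      rw [← sub_im]; exact (abs_im_le_norm _).trans h4
    obtain ⟨ha, hb⟩ := h2
    unfold RB.Mem at ha hb
    rw [abs_le] at hre him ha hb
    constructor
    · unfold RB.Mem
      push_cast
      rw [abs_le]
      constructor <;> linarith [hre.1, hre.2, ha.1, ha.2]
    · unfold RB.Mem
      push_cast
      rw [abs_le]
      constructor <;> linarith [him.1, him.2, hb.1, hb.2]
  have h6 := mem_sqn j _ _ h5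
  have h7 : cexp v ^ 2 ^ j = cexp w := by
    rw [← exp_nat_mul]
    congr 1
    rw [hv]
    push_cast
    field_simp
  rw [h7] at h6
  exact h6

end Pool.Agent.Helper242.RK
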