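import Pool.Agent.Helper242.RK.Num1

set_option autoImplicit false

/-!
# The finite sum and its ball evaluation
-/

namespace Pool.Agent.Helper242.RK

open Complex

def piB : RB := ⟨314159265358979323846, 1⟩
def ratB (p q : ℤ) : RB := ⟨p * 100000000000000000000 / q, 1⟩

/-- `e^(k/32)` -/
def e4B (k : ℕ) : CB := expB ⟨ratB k 32, ⟨0, 0⟩⟩ 4
/-- `e^(k/64)` -/
def e2B (k : ℕ) : CB := expB ⟨ratB k 64, ⟨0, 0⟩⟩ 3

def sB (e4 : CB) : CB := CB.mul ⟨(piB.muln 8).divn 17, (piB.muln 15).divn 17⟩ e4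

/-- `g` truncated at five terms -/
def gB (s : CB) : CB :=
  let q := expB s.neg 8
  let q2 := q.mul q
  let q4 := q2.mul q2
  let q5 := q4.mul q
  let q7 := q5.mul q2
  let q9 := q5.mul q4
  let q16 := q9.mul q7
  let q25 := q16.mul q9
  let s2 := s.mul s
  ((s2.muln 2).sub (s.muln 3)).mul q |>.add
    (((s2.muln 32).sub (s.muln 12)).mul q4) |>.add
    (((s2.muln 162).sub (s.muln 27)).mul q9) |>.add
    (((s2.muln 512).sub (s.muln 48)).mul q16) |>.add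
    (((s2.muln 1250).sub (s.muln 75)).mul q25)

def nodeV (k : ℕ) : CB :=
  let g := gB (sB (e4B k))
  (CB.mul ⟨⟨500000000000000000000, 0⟩, ⟨300000000000000000000, 0⟩⟩ (e2B k)).mul (g.mul g)

/-- term `k`; `zx, zy` are the numerators over `10^7` of the real and imaginary part of `z` -/
def termB (zx zy : ℤ) (k : ℕ) : CB :=
  let V := nodeV k
  let e1 := expB ⟨ratB (-zy * k) 1280000000, ratB (zx * k) 1280000000⟩ 9
  let e2 := expB ⟨ratB (zy * k) 1280000000, ratB (-zx * k) 1280000000⟩ 9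
  (V.mul e1).add (V.conj.mul e2)

def sumB (zx zy : ℤ) : ℕ → CB
  | 0 => nodeV 0
  | k + 1 => (sumB zx zy k).add (termB zx zy (k + 1))

/-! ### the exact counterparts -/

/-- truncated `g` -/
noncomputable def gT (s : ℂ) : ℂ :=
  (2 * s ^ 2 - 3 * s) * cexp (-s) + (32 * s ^ 2 - 12 * s) * cexp (-s) ^ 4 +
    (162 * s ^ 2 - 27 * s) * cexp (-s) ^ 9 + (512 * s ^ 2 - 48 * s) * cexp (-s) ^ 16 +
    (1250 * s ^ 2 - 75 * s) * cexp (-s) ^ 25

noncomputable def sT (k : ℕ) : ℂ := ((8 * Real.pi / 17 : ℝ) + (15 * Real.pi / 17 : ℝ) * I) * cexp ((k / 32 : ℝ))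

noncomputable def VT (k : ℕ) : ℂ := (5 + 3 * I) * cexp ((k / 64 : ℝ)) * (gT (sT k) * gT (sT k))

noncomputable def termT (z : ℂ) (k : ℕ) : ℂ :=
  VT k * cexp (I * z * (k / 128 : ℝ)) + (starRingEnd ℂ) (VT k) * cexp (-(I * z * (k / 128 : ℝ)))

noncomputable def sumT (z : ℂ) : ℕ → ℂ
  | 0 => VT 0
  | k + 1 => sumT z k + termT z (k + 1)

lemma mem_piB : piB.Mem Real.pi := by
  unfold RB.Mem piB
  have h1 := Real.pi_gt_d20
  have h2 := Real.pi_lt_d20
  rw [abs_le]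
  push_cast
  constructor <;> linarith

lemma mem_ratB (p : ℤ) {q : ℤ} (hq : 0 < q) : (ratB p q).Mem ((p : ℝ) / q) := RB.mem_rat p hq

lemma RB.mem_zero : RB.Mem ⟨0, 0⟩ 0 := by unfold RB.Mem; simp

lemma mem_real {a : RB} {x : ℝ} (h : a.Mem x) : CB.Mem ⟨a, ⟨0, 0⟩⟩ (x : ℂ) :=
  ⟨by rw [ofReal_re]; exact h, by rw [ofReal_im]; exact RB.mem_zero⟩

lemma mem_e4B {k : ℕ} (hk : k ≤ 96) : (e4B k).Mem (cexp ((k / 32 : ℝ))) := by
  have hk' : (k : ℝ) ≤ 96 := by exact_mod_cast hk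
  refine mem_expB (mem_real ?_) ?_
  · have h := mem_ratB (k : ℤ) (q := 32) (by norm_num)
    have e : (((k : ℤ) : ℝ) / ((32 : ℤ) : ℝ)) = (k : ℝ) / 32 := by push_cast; rfl
    rw [e] at h
    exact h
  · rw [norm_real, Real.norm_of_nonneg (by positivity)]
    norm_num
    linarith

lemma mem_e2B {k : ℕ} (hk : k ≤ 96) : (e2B k).Mem (cexp ((k / 64 : ℝ))) := by
  have hk' : (k : ℝ) ≤ 96 := by exact_mod_cast hk
  refine mem_expB (mem_real ?_) ?_
  · have h := mem_ratB (k : ℤ) (q := 64) (by norm_num)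
    have e : (((k : ℤ) : ℝ) / ((64 : ℤ) : ℝ)) = (k : ℝ) / 64 := by push_cast; rfl
    rw [e] at h
    exact h
  · rw [norm_real, Real.norm_of_nonneg (by positivity)]
    norm_num
    linarith

lemma mem_sB {k : ℕ} (hk : k ≤ 96) : (sB (e4B k)).Mem (sT k) := by
  refine CB.mem_mul ⟨?_, ?_⟩ (mem_e4B hk)
  · have h := RB.mem_divn (n := 17) (by norm_num) (RB.mem_muln (n := 8) (by norm_num) mem_piB)
    have e : (((8 * Real.pi / 17 : ℝ) : ℂ) + ((15 * Real.pi / 17 : ℝ) : ℂ) * I).re =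
        Real.pi * ((8 : ℤ) : ℝ) / ((17 : ℤ) : ℝ) := by
      simp only [add_re, ofReal_re, re_ofReal_mul, I_re, mul_zero, add_zero]
      push_cast; ring
    rw [e]; exact h
  · have h := RB.mem_divn (n := 17) (by norm_num) (RB.mem_muln (n := 15) (by norm_num) mem_piB)
    have e : (((8 * Real.pi / 17 : ℝ) : ℂ) + ((15 * Real.pi / 17 : ℝ) : ℂ) * I).im =
        Real.pi * ((15 : ℤ) : ℝ) / ((17 : ℤ) : ℝ) := by
      simp only [add_im, ofReal_im, im_ofReal_mul, I_im, mul_one, zero_add]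
      push_cast; ring
    rw [e]; exact h

lemma norm_sT (k : ℕ) : ‖sT k‖ = Real.pi * Real.exp (k / 32) := by
  have h1 : (((8 * Real.pi / 17 : ℝ) : ℂ) + ((15 * Real.pi / 17 : ℝ) : ℂ) * I) =
      (Real.pi : ℂ) * (8 / 17 + 15 / 17 * I) := by push_cast; ring
  have h2 : ‖(8 / 17 + 15 / 17 * I : ℂ)‖ = 1 := by
    have h3 : (8 / 17 + 15 / 17 * I : ℂ) = ((8 / 17 : ℝ) : ℂ) + ((15 / 17 : ℝ) : ℂ) * I := by
      push_cast; ring
    rw [h3, norm_add_mul_I]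
    norm_num
  rw [sT, norm_mul, h1, norm_mul, h2, norm_real, Real.norm_of_nonneg Real.pi_pos.le, norm_exp,
    ofReal_re, mul_one]

lemma norm_sT_le {k : ℕ} (hk : k ≤ 96) : ‖sT k‖ ≤ 64 := by
  have hk' : (k : ℝ) ≤ 96 := by exact_mod_cast hk
  rw [norm_sT]
  have h1 : Real.exp (k / 32) ≤ Real.exp 1 ^ 3 := by
    rw [← Real.exp_nat_mul]
    refine Real.exp_le_exp.2 ?_
    push_cast; linarith
  have h2 : Real.exp 1 ^ 3 ≤ 2.7182818286 ^ 3 :=
    pow_le_pow_left₀ (Real.exp_pos _).le Real.exp_one_lt_d9.le 3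
  have h3 : Real.pi ≤ 3.1416 := Real.pi_lt_d4.le
  calc Real.pi * Real.exp (k / 32) ≤ 3.1416 * 2.7182818286 ^ 3 := by
        gcongr; exact h1.trans h2
    _ ≤ 64 := by norm_num

lemma mem_gB {s : CB} {w : ℂ} (hs : s.Mem w) (hw : ‖w‖ ≤ 64) : (gB s).Mem (gT w) := by
  have hq := mem_expB (CB.mem_neg hs) (j := 8) (by rw [norm_neg]; norm_num; linarith)
  have hq2 := CB.mem_mul hq hq
  have hq4 := CB.mem_mul hq2 hq2
  have hq5 := CB.mem_mul hq4 hq
  have hq7 := CB.mem_mul hq5 hq2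
  have hq9 := CB.mem_mul hq5 hq4
  have hq16 := CB.mem_mul hq9 hq7
  have hq25 := CB.mem_mul hq16 hq9
  have hs2 := CB.mem_mul hs hs
  have t1 := CB.mem_mul (CB.mem_sub (CB.mem_muln (n := 2) (by norm_num) hs2)
    (CB.mem_muln (n := 3) (by norm_num) hs)) hq
  have t2 := CB.mem_mul (CB.mem_sub (CB.mem_muln (n := 32) (by norm_num) hs2)
    (CB.mem_muln (n := 12) (by norm_num) hs)) hq4
  have t3 := CB.mem_mul (CB.mem_sub (CB.mem_muln (n := 162) (by norm_num) hs2)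
    (CB.mem_muln (n := 27) (by norm_num) hs)) hq9
  have t4 := CB.mem_mul (CB.mem_sub (CB.mem_muln (n := 512) (by norm_num) hs2)
    (CB.mem_muln (n := 48) (by norm_num) hs)) hq16
  have t5 := CB.mem_mul (CB.mem_sub (CB.mem_muln (n := 1250) (by norm_num) hs2)
    (CB.mem_muln (n := 75) (by norm_num) hs)) hq25
  have h := CB.mem_add (CB.mem_add (CB.mem_add (CB.mem_add t1 t2) t3) t4) t5
  have e : gT w = (w * w * ((2 : ℤ) : ℂ) - w * ((3 : ℤ) : ℂ)) * cexp (-w) +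
      (w * w * ((32 : ℤ) : ℂ) - w * ((12 : ℤ) : ℂ)) * (cexp (-w) * cexp (-w) * (cexp (-w) * cexp (-w))) +
      (w * w * ((162 : ℤ) : ℂ) - w * ((27 : ℤ) : ℂ)) *
        (cexp (-w) * cexp (-w) * (cexp (-w) * cexp (-w)) * cexp (-w) *
          (cexp (-w) * cexp (-w) * (cexp (-w) * cexp (-w)))) +
      (w * w * ((512 : ℤ) : ℂ) - w * ((48 : ℤ) : ℂ)) *
        (cexp (-w) * cexp (-w) * (cexp (-w) * cexp (-w)) * cexp (-w) *
          (cexp (-w) * cexp (-w) * (cexp (-w) * cexp (-w))) *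
          (cexp (-w) * cexp (-w) * (cexp (-w) * cexp (-w)) * cexp (-w) * (cexp (-w) * cexp (-w)))) +
      (w * w * ((1250 : ℤ) : ℂ) - w * ((75 : ℤ) : ℂ)) *
        (cexp (-w) * cexp (-w) * (cexp (-w) * cexp (-w)) * cexp (-w) *
          (cexp (-w) * cexp (-w) * (cexp (-w) * cexp (-w))) *
          (cexp (-w) * cexp (-w) * (cexp (-w) * cexp (-w)) * cexp (-w) * (cexp (-w) * cexp (-w))) *
          (cexp (-w) * cexp (-w) * (cexp (-w) * cexp (-w)) * cexp (-w) *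
          (cexp (-w) * cexp (-w) * (cexp (-w) * cexp (-w))))) := by
    rw [gT]; push_cast; ring
  rw [e]
  exact h

lemma mem_nodeV {k : ℕ} (hk : k ≤ 96) : (nodeV k).Mem (VT k) := by
  have hg := mem_gB (mem_sB hk) (norm_sT_le hk)
  refine CB.mem_mul (CB.mem_mul ⟨?_, ?_⟩ (mem_e2B hk)) (CB.mem_mul hg hg)
  · unfold RB.Mem; simp; norm_num
  · unfold RB.Mem; simp; norm_num

/-- the complex number with coordinates `zx / 10^7`, `zy / 10^7` -/
noncomputable def zc (zx zy : ℤ) : ℂ := ((zx / 10000000 : ℝ) : ℂ) + ((zy / 10000000 : ℝ) : ℂ) * I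

lemma mem_termB {zx zy : ℤ} (hz : ‖zc zx zy‖ ≤ 170) {k : ℕ} (hk : k ≤ 96) :
    (termB zx zy k).Mem (termT (zc zx zy) k) := by
  have hk' : (k : ℝ) ≤ 96 := by exact_mod_cast hk
  have hn : ‖I * zc zx zy * ((k / 128 : ℝ) : ℂ)‖ ≤ 2 ^ 9 / 4 := by
    rw [norm_mul, norm_mul, norm_I, one_mul, norm_real, Real.norm_of_nonneg (by positivity)]
    calc ‖zc zx zy‖ * (k / 128) ≤ 170 * (96 / 128) := by gcongr
      _ ≤ 2 ^ 9 / 4 := by norm_num
  have e : I * zc zx zy * ((k / 128 : ℝ) : ℂ) =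
      (((((-zy * k : ℤ) : ℝ) / ((1280000000 : ℤ) : ℝ)) : ℝ) : ℂ) +
        (((((zx * k : ℤ) : ℝ) / ((1280000000 : ℤ) : ℝ)) : ℝ) : ℂ) * I := by
    rw [zc]
    push_cast
    ring_nf
    rw [I_sq]
    ring
  have e2 : -(I * zc zx zy * ((k / 128 : ℝ) : ℂ)) =
      (((((zy * k : ℤ) : ℝ) / ((1280000000 : ℤ) : ℝ)) : ℝ) : ℂ) +
        (((((-zx * k : ℤ) : ℝ) / ((1280000000 : ℤ) : ℝ)) : ℝ) : ℂ) * I := by
    rw [e]
    push_cast
    ring
  have h1 : (expB ⟨ratB (-zy * k) 1280000000, ratB (zx * k) 1280000000⟩ 9).Mem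
      (cexp (I * zc zx zy * ((k / 128 : ℝ) : ℂ))) := by
    refine mem_expB ?_ hn
    rw [e]
    exact ⟨by simp only [add_re, ofReal_re, re_ofReal_mul, I_re, mul_zero, add_zero]; exact mem_ratB _ (by norm_num),
      by simp only [add_im, ofReal_im, im_ofReal_mul, I_im, mul_one, zero_add]; exact mem_ratB _ (by norm_num)⟩
  have h2 : (expB ⟨ratB (zy * k) 1280000000, ratB (-zx * k) 1280000000⟩ 9).Mem
      (cexp (-(I * zc zx zy * ((k / 128 : ℝ) : ℂ)))) := by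
    refine mem_expB ?_ (by rw [norm_neg]; exact hn)
    rw [e2]
    exact ⟨by simp only [add_re, ofReal_re, re_ofReal_mul, I_re, mul_zero, add_zero]; exact mem_ratB _ (by norm_num),
      by simp only [add_im, ofReal_im, im_ofReal_mul, I_im, mul_one, zero_add]; exact mem_ratB _ (by norm_num)⟩
  exact CB.mem_add (CB.mem_mul (mem_nodeV hk) h1) (CB.mem_mul (CB.mem_conj (mem_nodeV hk)) h2)

lemma mem_sumB {zx zy : ℤ} (hz : ‖zc zx zy‖ ≤ 170) (K : ℕ) (hK : K ≤ 96) :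
    (sumB zx zy K).Mem (sumT (zc zx zy) K) := by
  induction K with
  | zero => exact mem_nodeV hK
  | succ K ih => exact CB.mem_add (ih (by omega)) (mem_termB hz hK)

end Pool.Agent.Helper242.RK
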