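import Pool.Agent.Helper242.RK.Num2

set_option autoImplicit false

/-!
# The numerical evaluation at the approximate zero
-/

namespace Pool.Agent.Helper242.RK

open Complex

set_option maxRecDepth 100000

theorem num0 : sumB 1538900685 7936877 96 =
    ⟨⟨-539332637698, 11853171382⟩, ⟨-394566394675, 11853179342⟩⟩ := by decide +kernel

lemma norm_zc0 : ‖zc 1538900685 7936877‖ ≤ 170 := by
  have h1 : ‖zc 1538900685 7936877‖ ≤ ‖(((1538900685 : ℤ) / 10000000 : ℝ) : ℂ)‖ +
      ‖((((7936877 : ℤ) / 10000000 : ℝ)) : ℂ) * I‖ := norm_add_le _ _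
  refine h1.trans ?_
  rw [norm_mul, norm_I, mul_one, norm_real, norm_real, Real.norm_of_nonneg (by norm_num),
    Real.norm_of_nonneg (by norm_num)]
  norm_num

lemma T0_small : ‖sumT (zc 1538900685 7936877) 96‖ ≤ 1 / 10 ^ 8 := by
  have h := mem_sumB norm_zc0 96 le_rfl
  rw [num0] at h
  obtain ⟨h1, h2⟩ := h
  unfold RB.Mem at h1 h2
  rw [abs_le] at h1 h2
  push_cast at h1 h2
  have h3 : |(sumT (zc 1538900685 7936877) 96).re| ≤ 56 / 10 ^ 10 := by
    rw [abs_le]; constructor <;> linarith [h1.1, h1.2]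
  have h4 : |(sumT (zc 1538900685 7936877) 96).im| ≤ 41 / 10 ^ 10 := by
    rw [abs_le]; constructor <;> linarith [h2.1, h2.2]
  refine (norm_le_abs_re_add_abs_im _).trans ?_
  norm_num at h3 h4 ⊢
  linarith

end Pool.Agent.Helper242.RK
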