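import Pool.Agent.Helper242.RK.Num2

set_option autoImplicit false

/-!
# The numerical evaluation at a neighbouring point
-/

namespace Pool.Agent.Helper242.RK

open Complex

set_option maxRecDepth 100000

theorem num1 : sumB 1538900785 7936877 96 =
    ⟨⟨-10186295274678, 11853172612⟩, ⟨-192483579025990, 11853180034⟩⟩ := by decide +kernel

lemma norm_zc1 : ‖zc 1538900785 7936877‖ ≤ 170 := by
  have h1 : ‖zc 1538900785 7936877‖ ≤ ‖(((1538900785 : ℤ) / 10000000 : ℝ) : ℂ)‖ +
      ‖((((7936877 : ℤ) / 10000000 : ℝ)) : ℂ) * I‖ := norm_add_le _ _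
  refine h1.trans ?_
  rw [norm_mul, norm_I, mul_one, norm_real, norm_real, Real.norm_of_nonneg (by norm_num),
    Real.norm_of_nonneg (by norm_num)]
  norm_num

lemma T1_large : 192 / 10 ^ 8 ≤ ‖sumT (zc 1538900785 7936877) 96‖ := by
  have h := mem_sumB norm_zc1 96 le_rfl
  rw [num1] at h
  obtain ⟨h1, h2⟩ := h
  unfold RB.Mem at h2
  rw [abs_le] at h2
  push_cast at h2
  have h4 : 192 / 10 ^ 8 ≤ |(sumT (zc 1538900785 7936877) 96).im| := by
    rw [le_abs]; right; linarith [h2.1, h2.2]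
  exact h4.trans (abs_im_le_norm _)

end Pool.Agent.Helper242.RK
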