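import Pool.Agent.Helper242.RK.Int3

set_option autoImplicit false

/-!
# The exponent one and the Riemann hypothesis
-/

namespace Pool.Agent.Helper242.RK

open Complex Filter Topology MeasureTheory

lemma mellin_H_one (k : ℕ) (hk : k ≤ 2) {s : ℂ} (hs : 0 < s.re)
    (hp : 1 < 2 * s.re / ((1 : ℕ) : ℝ) - 4) :
    mellin (Hf (fun _ : Fin 1 => k)) s =
      (Real.pi : ℂ) ^ (-s) * Gamma s * riemannZeta (2 * s - 2 * k) := by
  have h := hasSum_mellin_H (N := 1) le_rfl (fun _ : Fin 1 => k) (fun _ => hk) hs hp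
  have hk' : (k : ℝ) ≤ 2 := by exact_mod_cast hk
  have hre : 1 < (2 * s - 2 * (k : ℂ)).re := by
    have : (2 * s - 2 * (k : ℂ)).re = 2 * s.re - 2 * k := by simp
    rw [this]
    norm_num at hp
    linarith
  rw [zeta_eq_tsum_one_div_nat_add_one_cpow hre, ← tsum_mul_left, ← h.tsum_eq,
    ← (Equiv.funUnique (Fin 1) ℕ).symm.tsum_eq]
  refine tsum_congr fun n => ?_
  have hn : (0 : ℝ) < (n : ℝ) + 1 := by positivity
  have hnc : ((n : ℂ) + 1) ≠ 0 := by exact_mod_cast hn.ne'
  have e1 : a (fun _ : Fin 1 => k) ((Equiv.funUnique (Fin 1) ℕ).symm n) = ((n : ℝ) + 1) ^ (2 * k) := by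
    simp [a, Equiv.funUnique]
  have e2 : q ((Equiv.funUnique (Fin 1) ℕ).symm n) = ((n : ℝ) + 1) ^ 2 := by
    simp [q, Equiv.funUnique]
  rw [e1, e2, mul_div_assoc]
  congr 1
  have e3 : ((((n : ℝ) + 1) ^ 2 : ℝ) : ℂ) ^ s = ((n : ℂ) + 1) ^ (2 * s) := by
    have : ((((n : ℝ) + 1) ^ 2 : ℝ) : ℂ) = (((n : ℝ) + 1 : ℝ) : ℂ) ^ (2 : ℂ) := by
      push_cast
      rw [show (2 : ℂ) = ((2 : ℕ) : ℂ) by norm_num, cpow_natCast]
    rw [this, ← cpow_mul]
    · push_cast; rfl
    · have : (2 : ℂ) = ((2 : ℝ) : ℂ) := by norm_num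
      rw [this, ← ofReal_log hn.le, ← ofReal_mul, ofReal_im]
      linarith [Real.pi_pos]
    · have : (2 : ℂ) = ((2 : ℝ) : ℂ) := by norm_num
      rw [this, ← ofReal_log hn.le, ← ofReal_mul, ofReal_im]
      exact Real.pi_pos.le
  rw [e3, cpow_sub _ _ hnc]
  have e4 : ((n : ℂ) + 1) ^ (2 * (k : ℂ)) = ((n : ℂ) + 1) ^ (2 * k) := by
    rw [show (2 : ℂ) * (k : ℂ) = ((2 * k : ℕ) : ℂ) by push_cast; rfl, cpow_natCast]
  rw [e4]
  push_cast
  rw [one_div_div]

/-- for large imaginary part -/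
lemma F_one_large {z : ℂ} (hz : 11 < z.im) :
    8 * F ((1 : ℕ) : ℝ) z = ((1 - I * z) / 4) * (2 * ((1 - I * z) / 4) - 1) *
      completedRiemannZeta (2 * ((1 - I * z) / 4)) := by
  set s : ℂ := (1 - I * z) / 4 with hs
  have hsre : s.re = (1 + z.im) / 4 := by simp [hs]
  have h3 : 3 < s.re := by rw [hsre]; linarith
  have h8 := eight_F (N := 1) le_rfl z
  have hs' : (((1 : ℕ) : ℂ) - I * z) / 4 = s := by rw [hs]; push_cast; rfl
  rw [hs', mellin_gam (N := 1) le_rfl (by norm_num; exact h3)] at h8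
  rw [h8]
  simp only [Finset.sum_range_succ, Finset.sum_range_zero, zero_add]
  have km0 : km 1 0 = fun _ : Fin 1 => 1 := by funext i; simp [km]
  have km1 : km 1 1 = fun _ : Fin 1 => 2 := by funext i; simp [km]
  have m0 := mellin_H_one 1 (by norm_num) (s := s + (((1 : ℕ) : ℂ) + ((0 : ℕ) : ℂ)))
    (by simp; linarith) (by simp; linarith)
  have m1 := mellin_H_one 2 (by norm_num) (s := s + (((1 : ℕ) : ℂ) + ((1 : ℕ) : ℂ)))
    (by simp; linarith) (by simp; linarith)
  rw [km0, km1, m0, m1]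
  have hs0 : s ≠ 0 := by
    intro h; rw [h] at h3; norm_num at h3
  have hs1 : s + 1 ≠ 0 := by
    intro h
    have := congrArg Complex.re h
    simp at this
    linarith
  have hG1 : Gamma (s + 1) = s * Gamma s := Gamma_add_one s hs0
  have hG2 : Gamma (s + 2) = (s + 1) * (s * Gamma s) := by
    rw [← hG1, ← Gamma_add_one _ hs1]; congr 1; ring
  have hpi : (Real.pi : ℂ) ≠ 0 := by exact_mod_cast Real.pi_ne_zero
  have hp1 : (Real.pi : ℂ) ^ (-(s + 1)) = (Real.pi : ℂ) ^ (-s) / Real.pi := by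
    rw [neg_add, ← sub_eq_add_neg, cpow_sub _ _ hpi, cpow_one]
  have hp2 : (Real.pi : ℂ) ^ (-(s + 2)) = (Real.pi : ℂ) ^ (-s) / (Real.pi : ℂ) ^ 2 := by
    rw [neg_add, ← sub_eq_add_neg, cpow_sub _ _ hpi]
    congr 1
    rw [show (2 : ℂ) = ((2 : ℕ) : ℂ) by norm_num, cpow_natCast]
  have hs20 : (2 : ℂ) * s ≠ 0 := mul_ne_zero two_ne_zero hs0
  have hΛ : completedRiemannZeta (2 * s) = (Real.pi : ℂ) ^ (-s) * Gamma s * riemannZeta (2 * s) := by
    rw [riemannZeta_def_of_ne_zero hs20]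
    have hg : Gammaℝ (2 * s) ≠ 0 := Gammaℝ_ne_zero_of_re_pos (by simp; linarith)
    have hg2 : Gammaℝ (2 * s) = (Real.pi : ℂ) ^ (-s) * Gamma s := by
      rw [Gammaℝ_def]
      congr 2
      · ring
      · ring
    rw [← hg2]
    field_simp
  rw [hΛ]
  have z1 : 2 * (s + (((1 : ℕ) : ℂ) + ((0 : ℕ) : ℂ))) - 2 * ((1 : ℕ) : ℂ) = 2 * s := by push_cast; ring
  have z2 : 2 * (s + (((1 : ℕ) : ℂ) + ((1 : ℕ) : ℂ))) - 2 * ((2 : ℕ) : ℂ) = 2 * s := by push_cast; ring
  have w1 : s + (((1 : ℕ) : ℂ) + ((0 : ℕ) : ℂ)) = s + 1 := by push_cast; ring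
  have w2 : s + (((1 : ℕ) : ℂ) + ((1 : ℕ) : ℂ)) = s + 2 := by push_cast; ring
  rw [z1, z2, w1, w2, hG1, hG2, hp1, hp2]
  have c0 : cf 1 0 = -(3 * Real.pi) := by simp [cf]
  have c1 : cf 1 1 = 2 * (Real.pi : ℂ) ^ 2 := by simp [cf]
  rw [c0, c1]
  field_simp
  ring

/-- the entire form of the identity -/
lemma F_one (z : ℂ) :
    16 * F ((1 : ℕ) : ℝ) z = ((1 - I * z) / 2) * ((1 - I * z) / 2 - 1) *
      completedRiemannZeta₀ ((1 - I * z) / 2) + 1 := by
  have hF : Differentiable ℂ (F ((1 : ℕ) : ℝ)) := differentiable_F (by norm_num)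
  have hΛ := differentiable_completedZeta₀
  set f : ℂ → ℂ := fun z => 16 * F ((1 : ℕ) : ℝ) z with hf
  set k : ℂ → ℂ := fun z => ((1 - I * z) / 2) * ((1 - I * z) / 2 - 1) *
      completedRiemannZeta₀ ((1 - I * z) / 2) + 1 with hk
  have hfd : Differentiable ℂ f := by simp only [hf]; fun_prop
  have hkd : Differentiable ℂ k := by
    have h1 : Differentiable ℂ fun z : ℂ => (1 - I * z) / 2 := by fun_prop
    have h2 : Differentiable ℂ fun z : ℂ => completedRiemannZeta₀ ((1 - I * z) / 2) := hΛ.comp h1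
    simp only [hk]
    fun_prop
  have hev : f =ᶠ[𝓝 (12 * I)] k := by
    have : {z : ℂ | 11 < z.im} ∈ 𝓝 (12 * I : ℂ) :=
      (isOpen_lt continuous_const continuous_im).mem_nhds (by simp; norm_num)
    filter_upwards [this] with z hz
    have hz' : 11 < z.im := hz
    have h := F_one_large hz'
    set w : ℂ := (1 - I * z) / 2 with hw
    have hwre : w.re = (1 + z.im) / 2 := by simp [hw]
    have hw0 : w ≠ 0 := by
      intro h0; rw [h0] at hwre; simp at hwre; linarith
    have hw1 : 1 - w ≠ 0 := by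
      intro h0
      have := congrArg Complex.re h0
      simp only [sub_re, one_re, zero_re] at this
      linarith
    have e1 : 2 * ((1 - I * z) / 4) = w := by rw [hw]; ring
    rw [e1, completedRiemannZeta_eq] at h
    simp only [hf, hk]
    have e2 : (1 - I * z) / 4 = w / 2 := by rw [hw]; ring
    rw [e2] at h
    have e3 : w / 2 * (w - 1) * (completedRiemannZeta₀ w - 1 / w - 1 / (1 - w)) =
        (w * (w - 1) * completedRiemannZeta₀ w + 1) / 2 := by
      field_simp
      ring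
    rw [e3] at h
    linear_combination 2 * h
  have heq : f = k := by
    have h1 : AnalyticOnNhd ℂ f Set.univ := hfd.differentiableOn.analyticOnNhd isOpen_univ
    have h2 : AnalyticOnNhd ℂ k Set.univ := hkd.differentiableOn.analyticOnNhd isOpen_univ
    exact h1.eq_of_eventuallyEq h2 hev
  exact congrFun heq z

/-- the function with exponent one has a non-real zero iff the Riemann hypothesis fails -/
theorem exists_nonreal_zero_one_iff :
    (∃ z : ℂ, z.im ≠ 0 ∧ F ((1 : ℕ) : ℝ) z = 0) ↔ ¬ RiemannHypothesis := by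
  constructor
  · rintro ⟨z, hz, h0⟩ hRH
    set w : ℂ := (1 - I * z) / 2 with hw
    have hwre : w.re = (1 + z.im) / 2 := by simp [hw]
    have h1 := F_one z
    rw [h0, ← hw, mul_zero] at h1
    have hw0 : w ≠ 0 := by
      intro h; rw [h] at h1; norm_num at h1
    have hw1 : w ≠ 1 := by
      intro h; rw [h] at h1; norm_num at h1
    have hw1' : 1 - w ≠ 0 := sub_ne_zero.2 hw1.symm
    have hΛ : completedRiemannZeta w = 0 := by
      rw [completedRiemannZeta_eq]
      have hw2 : w - 1 ≠ 0 := sub_ne_zero.2 hw1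
      have e : w * (w - 1) * (completedRiemannZeta₀ w - 1 / w - 1 / (1 - w)) =
          w * (w - 1) * completedRiemannZeta₀ w + 1 := by
        field_simp
        ring
      rw [← e] at h1
      rcases mul_eq_zero.1 h1.symm with h | h
      · exact absurd h (mul_ne_zero hw0 hw2)
      · exact h
    have hζ : riemannZeta w = 0 := by
      rw [riemannZeta_def_of_ne_zero hw0, hΛ, zero_div]
    have htriv : ¬∃ n : ℕ, w = -2 * (n + 1) := by
      rintro ⟨n, hn⟩
      have h2 : completedRiemannZeta (1 - w) = 0 := by rw [completedRiemannZeta_one_sub, hΛ]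
      have hre : (1 - w).re = 2 * n + 3 := by
        rw [hn]; simp; ring
      have h3 : riemannZeta (1 - w) = 0 := by
        rw [riemannZeta_def_of_ne_zero hw1', h2, zero_div]
      exact riemannZeta_ne_zero_of_one_lt_re (by rw [hre]; linarith [Nat.cast_nonneg (α := ℝ) n]) h3
    have h5 := hRH w hζ htriv hw1
    rw [hwre] at h5
    exact hz (by linarith)
  · intro hRH
    unfold RiemannHypothesis at hRH
    push Not at hRH
    obtain ⟨w, hζ, htriv, hw1, hre⟩ := hRH
    have hw0 : w ≠ 0 := by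
      intro h; rw [h, riemannZeta_zero] at hζ; norm_num at hζ
    have hΛ : completedRiemannZeta w = 0 := by
      rw [riemannZeta_def_of_ne_zero hw0, div_eq_zero_iff] at hζ
      rcases hζ with h | h
      · exact h
      · rw [Gammaℝ_eq_zero_iff] at h
        obtain ⟨n, hn⟩ := h
        rcases n with _ | n
        · simp at hn; exact absurd hn hw0
        · exact absurd (by rw [hn]; push_cast; ring) (htriv n)
    set z : ℂ := I * (2 * w - 1) with hz
    have hzw : (1 - I * z) / 2 = w := by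
      rw [hz]; linear_combination (-(2 * w - 1) / 2) * I_sq
    refine ⟨z, ?_, ?_⟩
    · have : z.im = 2 * w.re - 1 := by simp [hz]
      rw [this]
      intro h
      exact hre (by linarith)
    · have h1 := F_one z
      rw [hzw] at h1
      have hw1' : 1 - w ≠ 0 := sub_ne_zero.2 (Ne.symm hw1)
      have e : w * (w - 1) * (completedRiemannZeta₀ w - 1 / w - 1 / (1 - w)) =
          w * (w - 1) * completedRiemannZeta₀ w + 1 := by
        field_simp
        ring
      rw [← e, ← completedRiemannZeta_eq, hΛ, mul_zero] at h1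
      simpa using h1

end Pool.Agent.Helper242.RK
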