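import Pool.Agent.Helper242.RK.Kfun

set_option autoImplicit false

/-!
# Values on the axes and the contour shift
-/

namespace Pool.Agent.Helper242.RK

open Complex Filter Topology MeasureTheory

/-- decay of the kernel power -/
lemma PhiC_rpow_bound {α : ℝ} (hα : 0 < α) {Y : ℝ} (hY0 : 0 ≤ Y) (hY : Y < Real.pi / 8) (M : ℝ) :
    ∃ C : ℝ, 0 < C ∧ ∀ t : ℂ, |t.im| ≤ Y → ‖PhiC t‖ ^ α ≤ C * Real.exp (-M * |t.re|) := by
  obtain ⟨A, hA, hb⟩ := PhiC_bound hY0 hY
  have hcos : 0 < Real.cos (4 * Y) := Real.cos_pos_of_mem_Ioo ⟨by linarith [Real.pi_pos], by linarith⟩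
  set κ := Real.pi * Real.cos (4 * Y) with hκ
  have hκ0 : 0 < κ := by positivity
  set b := 9 * α + M with hbdef
  refine ⟨A ^ α * Real.exp (b ^ 2 / (16 * (α * κ))), by positivity, fun t ht => ?_⟩
  have h1 := hb t ht
  calc ‖PhiC t‖ ^ α ≤ (A * Real.exp (9 * |t.re| - κ * Real.exp (4 * |t.re|))) ^ α := by
        gcongr
    _ = A ^ α * Real.exp ((9 * |t.re| - κ * Real.exp (4 * |t.re|)) * α) := by
        rw [Real.mul_rpow hA.le (Real.exp_pos _).le, ← Real.exp_mul]
    _ ≤ A ^ α * Real.exp (b ^ 2 / (16 * (α * κ)) + -M * |t.re|) := by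
        refine mul_le_mul_of_nonneg_left (Real.exp_le_exp.2 ?_) (by positivity)
        set u := |t.re| with hu
        have hu0 : 0 ≤ u := abs_nonneg _
        have e1 : 4 * u ^ 2 ≤ Real.exp (4 * u) := by
          have h2 := Real.add_one_le_exp (2 * u)
          have h3 : Real.exp (4 * u) = Real.exp (2 * u) ^ 2 := by
            rw [← Real.exp_nat_mul]; congr 1; push_cast; ring
          rw [h3]
          nlinarith
        have e2 : α * κ * (4 * u ^ 2) ≤ α * κ * Real.exp (4 * u) := by gcongr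
        have e3 : b * u - α * κ * (4 * u ^ 2) ≤ b ^ 2 / (16 * (α * κ)) := by
          rw [le_div_iff₀ (by positivity)]
          nlinarith [sq_nonneg (b - 8 * (α * κ) * u)]
        have e4 : b * u = 9 * α * u + M * u := by rw [hbdef]; ring
        linarith
    _ = A ^ α * Real.exp (b ^ 2 / (16 * (α * κ))) * Real.exp (-M * |t.re|) := by
        rw [Real.exp_add]; ring

namespace KD

variable (d : KD)

lemma KR_ofReal {α : ℝ} {x : ℝ} (hx : 0 ≤ x) : d.KR α x = ((Phi x ^ α : ℝ) : ℂ) := by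
  have hy0 := d.hy0
  set w : ℂ := (x : ℂ) - d.y0 * I with hw
  set v : ℂ := (d.y0 : ℂ) - I * x with hv
  have hwre : w.re = x := by rw [hw]; simp
  have hwim : w.im = -d.y0 := by rw [hw]; simp
  have hvre : v.re = d.y0 := by rw [hv]; simp
  have hvim : v.im = -x := by rw [hv]; simp
  have hw0 : w ≠ 0 := by
    intro h; have := congrArg Complex.im h; rw [hwim] at this; simp at this; linarith
  have hv0 : v ≠ 0 := by
    intro h; have := congrArg Complex.re h; rw [hvre] at this; simp at this; linarith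
  have hIw : I * w = (starRingEnd ℂ) v := by
    rw [hw, hv]
    simp only [map_sub, conj_ofReal, map_mul, conj_I]
    linear_combination (-(d.y0 : ℂ)) * I_mul_I
  have harg : |arg w| ≤ Real.pi / 2 := abs_arg_le_pi_div_two_iff.2 (by rw [hwre]; exact hx)
  have hlog : log (I * w) = Real.pi / 2 * I + log w := by
    rw [← log_I]
    refine (log_mul_eq_add_log_iff I_ne_zero hw0).2 ?_
    rw [arg_I]
    have hb := abs_le.1 harg
    have hp := Real.pi_pos
    constructor <;> linarith [hb.1, hb.2]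
  have hargv : arg v ≠ Real.pi := by
    have : |arg v| ≤ Real.pi / 2 := abs_arg_le_pi_div_two_iff.2 (by rw [hvre]; exact hy0.le)
    have hb := abs_le.1 this
    have hp := Real.pi_pos
    intro h; linarith [hb.2]
  have hsum : log (I * w) + log v = ((Real.log (x ^ 2 + d.y0 ^ 2) : ℝ) : ℂ) := by
    rw [hIw, log_conj v hargv]
    have h1 : (starRingEnd ℂ) (log v) + log v = ((2 * (log v).re : ℝ) : ℂ) := by
      rw [add_comm, add_conj]
    rw [h1, log_re]
    congr 1
    have h2 := sq_norm_eq v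
    rw [hvre, hvim] at h2
    have h3 : x ^ 2 + d.y0 ^ 2 = ‖v‖ ^ 2 := by rw [h2]; ring
    rw [h3, Real.log_pow]
    norm_num
  have hsum2 : Real.pi / 2 * I + log w + log v = ((Real.log (x ^ 2 + d.y0 ^ 2) : ℝ) : ℂ) := by
    rw [← hlog]; exact hsum
  rw [KR, ← hw, ← hv, cpow_def_of_ne_zero hw0, cpow_def_of_ne_zero hv0, ← exp_add, ← exp_add,
    ← exp_add, d.hLR]
  have hpos : 0 < x ^ 2 + d.y0 ^ 2 := by positivity
  have e : (α : ℂ) * ((Real.log (Phi x / (x ^ 2 + d.y0 ^ 2)) : ℝ) : ℂ) +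
      (I * Real.pi * α / 2 + log w * α) + log v * α = ((Real.log (Phi x) * α : ℝ) : ℂ) := by
    rw [Real.log_div (Phi_pos x).ne' hpos.ne']
    push_cast
    linear_combination (α : ℂ) * hsum2
  rw [e, ← ofReal_exp, Real.rpow_def_of_pos (Phi_pos x)]

/-- regular factor on the imaginary axis -/
noncomputable def G (α y : ℝ) : ℝ := Real.exp (α * (d.L ((y : ℂ) * I)).re) * (d.y0 + y) ^ α

lemma KR_I_aux {α y : ℝ} (hy : 0 ≤ y) (hy1 : y < y1) :
    cexp (α * d.L ((y : ℂ) * I)) * ((d.y0 : ℂ) - I * ((y : ℂ) * I)) ^ (α : ℂ)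
      = ((d.G α y : ℝ) : ℂ) := by
  have h1 : d.L ((y : ℂ) * I) = (((d.L ((y : ℂ) * I)).re : ℝ) : ℂ) := by
    apply Complex.ext
    · simp
    · rw [ofReal_im]; exact d.L_I_real (by rw [abs_of_nonneg hy]; exact hy1)
  have h2 : (d.y0 : ℂ) - I * ((y : ℂ) * I) = ((d.y0 + y : ℝ) : ℂ) := by
    push_cast
    linear_combination (-(y : ℂ)) * I_mul_I
  rw [h1, h2, ← ofReal_cpow (by linarith [d.hy0])]
  unfold G
  push_cast
  simp

lemma KR_I_lt {α y : ℝ} (hy : 0 ≤ y) (hy0 : y < d.y0) :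
    (d.KR α ((y : ℂ) * I)).im = 0 := by
  have hy1 : y < y1 := hy0.trans d.hy01
  have h1 : (y : ℂ) * I - d.y0 * I = ((d.y0 - y : ℝ) : ℂ) * (-I) := by push_cast; ring
  have h2 : cexp (I * Real.pi * α / 2) * ((y : ℂ) * I - d.y0 * I) ^ (α : ℂ)
      = (((d.y0 - y) ^ α : ℝ) : ℂ) := by
    have hpos : 0 < d.y0 - y := by linarith
    rw [h1, cpow_def_of_ne_zero (mul_ne_zero (by exact_mod_cast hpos.ne') (by simp)),
      log_ofReal_mul hpos (by simp), log_neg_I, ← exp_add, Real.rpow_def_of_pos hpos, ofReal_exp]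
    congr 1
    push_cast
    ring
  rw [KR, h2, mul_right_comm, d.KR_I_aux hy hy1, ← ofReal_mul, ofReal_im]

lemma KR_I_gt {α y : ℝ} (hy0 : d.y0 < y) (hy1 : y < y1) :
    (d.KR α ((y : ℂ) * I)).im = Real.sin (Real.pi * α) * (d.G α y * (y - d.y0) ^ α) := by
  have hy : 0 ≤ y := by linarith [d.hy0]
  have h1 : (y : ℂ) * I - d.y0 * I = ((y - d.y0 : ℝ) : ℂ) * I := by push_cast; ring
  have h2 : cexp (I * Real.pi * α / 2) * ((y : ℂ) * I - d.y0 * I) ^ (α : ℂ)
      = cexp ((Real.pi * α : ℝ) * I) * (((y - d.y0) ^ α : ℝ) : ℂ) := by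
    have hpos : 0 < y - d.y0 := by linarith
    rw [h1, cpow_def_of_ne_zero (mul_ne_zero (by exact_mod_cast hpos.ne') I_ne_zero),
      log_ofReal_mul hpos I_ne_zero, log_I, ← exp_add, Real.rpow_def_of_pos hpos, ofReal_exp,
      ← exp_add]
    congr 1
    push_cast
    ring
  rw [KR, h2, mul_right_comm, d.KR_I_aux hy hy1]
  have h3 : ((d.G α y : ℝ) : ℂ) * (cexp ((Real.pi * α : ℝ) * I) * (((y - d.y0) ^ α : ℝ) : ℂ))
      = ((d.G α y * (y - d.y0) ^ α : ℝ) : ℂ) * cexp ((Real.pi * α : ℝ) * I) := by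
    push_cast; ring
  rw [h3, im_ofReal_mul, exp_ofReal_mul_I_im]
  ring

end KD

end Pool.Agent.Helper242.RK
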