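import Pool.Agent.Helper242.RK.Shift

set_option autoImplicit false

/-!
# The contour shift
-/

namespace Pool.Agent.Helper242.RK

open Complex Filter Topology MeasureTheory

/-- The cosine transform of the power of the kernel. -/
noncomputable def F (α : ℝ) (z : ℂ) : ℂ :=
  ∫ t in Set.Ioi (0 : ℝ), ((Phi t ^ α : ℝ) : ℂ) * Complex.cos (z * t)

namespace KD

variable (d : KD)

/-- integrand -/
noncomputable def f (α : ℝ) (z t : ℂ) : ℂ := d.KR α t * cexp (I * z * t)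

lemma y1_lt' {Y : ℝ} (hY : Y < y1) : Y < Real.pi / 8 := hY.trans y1_lt

lemma mem_U_of {Y : ℝ} (hY : Y < y1) {t : ℂ} (h0 : 0 ≤ t.im) (h1 : t.im ≤ Y) : t ∈ U y1 := by
  simp only [U, Set.mem_ofPred_eq, abs_of_nonneg h0]
  exact h1.trans_lt hY

lemma norm_f_bound {α : ℝ} (hα : 0 < α) {Y : ℝ} (hY0 : 0 ≤ Y) (hY : Y < y1) (z : ℂ) :
    ∃ C : ℝ, 0 < C ∧ ∀ t : ℂ, 0 ≤ t.re → 0 ≤ t.im → t.im ≤ Y →
      ‖d.f α z t‖ ≤ C * Real.exp (-t.re) := by
  obtain ⟨C, hC, hb⟩ := PhiC_rpow_bound hα hY0 (y1_lt' hY) (‖z‖ + 1)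
  refine ⟨C * Real.exp (‖z‖ * Y), by positivity, fun t hre him him1 => ?_⟩
  have h1 := hb t (by rw [abs_of_nonneg him]; exact him1)
  rw [← d.norm_KR (mem_U_of hY him him1), abs_of_nonneg hre] at h1
  have h2 : ‖cexp (I * z * t)‖ ≤ Real.exp (‖z‖ * (t.re + Y)) := by
    rw [norm_exp]
    refine Real.exp_le_exp.2 ?_
    calc (I * z * t).re ≤ ‖I * z * t‖ := re_le_norm _
      _ = ‖z‖ * ‖t‖ := by rw [norm_mul, norm_mul, norm_I, one_mul]
      _ ≤ ‖z‖ * (t.re + Y) := by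
        gcongr
        calc ‖t‖ ≤ |t.re| + |t.im| := norm_le_abs_re_add_abs_im t
          _ ≤ t.re + Y := by rw [abs_of_nonneg hre, abs_of_nonneg him]; gcongr
  calc ‖d.f α z t‖ = ‖d.KR α t‖ * ‖cexp (I * z * t)‖ := by rw [f, norm_mul]
    _ ≤ (C * Real.exp (-(‖z‖ + 1) * t.re)) * Real.exp (‖z‖ * (t.re + Y)) := by gcongr
    _ = C * Real.exp (‖z‖ * Y) * Real.exp (-t.re) := by
      rw [mul_assoc, mul_assoc, ← Real.exp_add, ← Real.exp_add]
      congr 2; ring

lemma continuousAt_f {α : ℝ} (hα : 0 < α) (z : ℂ) {t : ℂ} (ht : t ∈ U y1) (hre : 0 ≤ t.re)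
    (him : 0 ≤ t.im) : ContinuousAt (d.f α z) t := by
  unfold f
  exact (d.continuousAt_KR hα ht hre him).mul (by fun_prop)

lemma differentiableAt_f {α : ℝ} (z : ℂ) {t : ℂ} (ht : t ∈ U y1) (hre : 0 < t.re)
    (him : 0 ≤ t.im) : DifferentiableAt ℂ (d.f α z) t := by
  unfold f
  exact (d.differentiableAt_KR ht hre him).mul (by fun_prop)

lemma integrableOn_f {α : ℝ} (hα : 0 < α) {Y : ℝ} (hY0 : 0 ≤ Y) (hY : Y < y1) (z : ℂ) :
    IntegrableOn (fun x : ℝ => d.f α z (x + Y * I)) (Set.Ioi 0) := by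
  obtain ⟨C, hC, hb⟩ := d.norm_f_bound hα hY0 hY z
  have hcont : ContinuousOn (fun x : ℝ => d.f α z (x + Y * I)) (Set.Ioi 0) := by
    intro x hx
    have hx' : (0 : ℝ) < x := hx
    have h1 : ContinuousAt (d.f α z) ((x : ℂ) + Y * I) := by
      refine d.continuousAt_f hα z (mem_U_of hY (by simpa using hY0) (by simp)) ?_ ?_
      · simpa using hx'.le
      · simpa using hY0
    exact (ContinuousAt.comp (f := fun x : ℝ => (x : ℂ) + Y * I) h1
      (by fun_prop)).continuousWithinAt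
  refine Integrable.mono' ((integrableOn_exp_neg_Ioi 0).const_mul C)
    (hcont.aestronglyMeasurable measurableSet_Ioi) ?_
  refine (ae_restrict_iff' measurableSet_Ioi).2 (Eventually.of_forall fun x hx => ?_)
  have hx' : (0 : ℝ) < x := hx
  have := hb ((x : ℂ) + Y * I) (by simpa using hx'.le) (by simpa using hY0) (by simp)
  simpa using this

lemma rect {α : ℝ} (hα : 0 < α) {Y : ℝ} (hY0 : 0 ≤ Y) (hY : Y < y1) (z : ℂ) {R : ℝ} (hR : 0 ≤ R) :
    (∫ x : ℝ in (0 : ℝ)..R, d.f α z x) - (∫ x : ℝ in (0 : ℝ)..R, d.f α z (x + Y * I)) +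
      I * (∫ y : ℝ in (0 : ℝ)..Y, d.f α z (R + y * I)) -
      I * (∫ y : ℝ in (0 : ℝ)..Y, d.f α z (y * I)) = 0 := by
  have h := integral_boundary_rect_eq_zero_of_continuousOn_of_differentiableOn (d.f α z) 0
    (R + Y * I) ?_ ?_
  · simpa using h
  · intro t ht
    rw [mem_reProdIm] at ht
    simp only [zero_re, add_re, ofReal_re, mul_re, I_re, mul_zero, ofReal_im, I_im, mul_one,
      sub_self, add_zero, zero_im, add_im, mul_im, zero_add, Set.uIcc_of_le hR,
      Set.uIcc_of_le hY0] at ht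
    exact (d.continuousAt_f hα z (mem_U_of hY ht.2.1 ht.2.2) ht.1.1 ht.2.1).continuousWithinAt
  · intro t ht
    rw [mem_reProdIm] at ht
    simp only [zero_re, add_re, ofReal_re, mul_re, I_re, mul_zero, ofReal_im, I_im, mul_one,
      sub_self, add_zero, zero_im, add_im, mul_im, zero_add, min_eq_left hR, max_eq_right hR,
      min_eq_left hY0, max_eq_right hY0] at ht
    exact (d.differentiableAt_f z (mem_U_of hY ht.2.1.le ht.2.2.le) ht.1.1
      ht.2.1.le).differentiableWithinAt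

/-- contour shift in the right quadrant. -/
lemma shift {α : ℝ} (hα : 0 < α) {Y : ℝ} (hY0 : 0 ≤ Y) (hY : Y < y1) (z : ℂ) :
    ∫ x in Set.Ioi (0 : ℝ), d.f α z x = (∫ x in Set.Ioi (0 : ℝ), d.f α z (x + Y * I)) +
      I * (∫ y : ℝ in (0 : ℝ)..Y, d.f α z (y * I)) := by
  obtain ⟨C, hC, hb⟩ := d.norm_f_bound hα hY0 hY z
  have h1 : Tendsto (fun R : ℝ => ∫ x : ℝ in (0 : ℝ)..R, d.f α z x) atTop
      (𝓝 (∫ x in Set.Ioi (0 : ℝ), d.f α z x)) := by
    refine intervalIntegral_tendsto_integral_Ioi 0 ?_ tendsto_id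
    have := d.integrableOn_f hα le_rfl y1_pos z
    simpa using this
  have h2 : Tendsto (fun R : ℝ => ∫ x : ℝ in (0 : ℝ)..R, d.f α z (x + Y * I)) atTop
      (𝓝 (∫ x in Set.Ioi (0 : ℝ), d.f α z (x + Y * I))) :=
    intervalIntegral_tendsto_integral_Ioi 0 (d.integrableOn_f hα hY0 hY z) tendsto_id
  have h3 : Tendsto (fun R : ℝ => ∫ y : ℝ in (0 : ℝ)..Y, d.f α z (R + y * I)) atTop (𝓝 0) := by
    have hb3 : ∀ᶠ R : ℝ in atTop, ‖∫ y : ℝ in (0 : ℝ)..Y, d.f α z (R + y * I)‖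
        ≤ C * Real.exp (-R) * |Y - 0| := by
      filter_upwards [eventually_ge_atTop 0] with R hR
      refine intervalIntegral.norm_integral_le_of_norm_le_const fun y hy => ?_
      rw [Set.uIoc_of_le hY0] at hy
      have := hb ((R : ℂ) + y * I) (by simpa using hR) (by simpa using hy.1.le) (by simpa using hy.2)
      simpa using this
    refine squeeze_zero_norm' hb3 ?_
    have : Tendsto (fun R : ℝ => C * Real.exp (-R) * |Y - 0|) atTop (𝓝 (C * 0 * |Y - 0|)) :=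
      (Real.tendsto_exp_neg_atTop_nhds_zero.const_mul C).mul_const _
    simpa using this
  have h4 := ((h1.sub h2).add (h3.const_mul I)).sub_const
    (I * (∫ y : ℝ in (0 : ℝ)..Y, d.f α z (y * I)))
  have h5 : Tendsto (fun R : ℝ => (∫ x : ℝ in (0 : ℝ)..R, d.f α z x) -
      (∫ x : ℝ in (0 : ℝ)..R, d.f α z (x + Y * I)) +
      I * (∫ y : ℝ in (0 : ℝ)..Y, d.f α z (R + y * I)) -
      I * (∫ y : ℝ in (0 : ℝ)..Y, d.f α z (y * I))) atTop (𝓝 0) := by
    refine tendsto_const_nhds.congr' ?_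
    filter_upwards [eventually_ge_atTop 0] with R hR
    exact (d.rect hα hY0 hY z hR).symm
  have h6 := tendsto_nhds_unique h4 h5
  linear_combination h6

/-- `F` in terms of one-sided transforms. -/
lemma two_F_eq {α : ℝ} (hα : 0 < α) (z : ℂ) :
    2 * F α z = (∫ x in Set.Ioi (0 : ℝ), d.f α z x) +
      (starRingEnd ℂ) (∫ x in Set.Ioi (0 : ℝ), d.f α ((starRingEnd ℂ) z) x) := by
  have i1 : IntegrableOn (fun x : ℝ => d.f α z x) (Set.Ioi 0) := by
    simpa using d.integrableOn_f hα le_rfl y1_pos z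
  have i2 : IntegrableOn (fun x : ℝ => d.f α ((starRingEnd ℂ) z) x) (Set.Ioi 0) := by
    simpa using d.integrableOn_f hα le_rfl y1_pos ((starRingEnd ℂ) z)
  have i3 : IntegrableOn (fun x : ℝ => (starRingEnd ℂ) (d.f α ((starRingEnd ℂ) z) x))
      (Set.Ioi 0) := by
    have := (conjCLE : ℂ ≃L[ℝ] ℂ).toContinuousLinearMap.integrable_comp i2
    exact this
  rw [← integral_conj, ← integral_add i1 i3, F, ← integral_const_mul]
  refine setIntegral_congr_fun measurableSet_Ioi fun x hx => ?_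
  have hx' : (0 : ℝ) < x := hx
  simp only [f]
  rw [d.KR_ofReal hx'.le, map_mul, conj_ofReal, ← exp_conj, Complex.cos]
  have e : (starRingEnd ℂ) (I * (starRingEnd ℂ) z * x) = -(z * x) * I := by
    simp; ring
  rw [e, show I * z * x = z * x * I by ring]
  ring

end KD

end Pool.Agent.Helper242.RK
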