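import Mathlib

set_option autoImplicit false

/-!
# The Riemann kernel: complex extension, evenness, bounds
-/

namespace Pool.Agent.Helper242.RK

open Complex Filter Topology

/-- `P k s = ∑_{n ≥ 1} n^(2k) exp (-n² s)`. -/
noncomputable def P (k : ℕ) (s : ℂ) : ℂ :=
  ∑' n : ℕ, ((n : ℂ) + 1) ^ (2 * k) * cexp (-(((n : ℂ) + 1) ^ 2) * s)

lemma norm_term (k n : ℕ) (s : ℂ) :
    ‖((n : ℂ) + 1) ^ (2 * k) * cexp (-(((n : ℂ) + 1) ^ 2) * s)‖
      = ((n : ℝ) + 1) ^ (2 * k) * Real.exp (-(((n : ℝ) + 1) ^ 2) * s.re) := by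
  rw [norm_mul, norm_pow, norm_exp]
  have h1 : ‖((n : ℂ) + 1)‖ = (n : ℝ) + 1 := by
    rw [show ((n : ℂ) + 1) = (((n : ℝ) + 1 : ℝ) : ℂ) by push_cast; ring, norm_real,
      Real.norm_of_nonneg (by positivity)]
  rw [h1]
  congr 2
  rw [show (-(((n : ℂ) + 1) ^ 2)) = ((-(((n : ℝ) + 1) ^ 2) : ℝ) : ℂ) by push_cast; ring,
    re_ofReal_mul]

lemma summable_bound (k : ℕ) {c : ℝ} (hc : 0 < c) :
    Summable fun n : ℕ => ((n : ℝ) + 1) ^ (2 * k) * Real.exp (-(((n : ℝ) + 1) ^ 2) * c) := by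
  have h := (summable_nat_add_iff 1).2 (Real.summable_pow_mul_exp_neg_nat_mul (2 * k) hc)
  refine Summable.of_nonneg_of_le (fun n => by positivity) (fun n => ?_) h
  push_cast
  have h1 : (1 : ℝ) ≤ (n : ℝ) + 1 := by linarith [Nat.cast_nonneg (α := ℝ) n]
  have h2 : ((n : ℝ) + 1) * c ≤ ((n : ℝ) + 1) ^ 2 * c :=
    mul_le_mul_of_nonneg_right (by nlinarith) hc.le
  exact mul_le_mul_of_nonneg_left (Real.exp_le_exp.2 (by linarith)) (by positivity)

lemma norm_term_le (k n : ℕ) {s : ℂ} {c : ℝ} (hs : c ≤ s.re) :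
    ‖((n : ℂ) + 1) ^ (2 * k) * cexp (-(((n : ℂ) + 1) ^ 2) * s)‖
      ≤ ((n : ℝ) + 1) ^ (2 * k) * Real.exp (-(((n : ℝ) + 1) ^ 2) * c) := by
  rw [norm_term]
  gcongr ?_ * Real.exp ?_
  nlinarith [sq_nonneg ((n : ℝ) + 1)]

lemma summable_term (k : ℕ) {s : ℂ} (hs : 0 < s.re) :
    Summable fun n : ℕ => ((n : ℂ) + 1) ^ (2 * k) * cexp (-(((n : ℂ) + 1) ^ 2) * s) :=
  Summable.of_norm_bounded (summable_bound k hs) (fun n => norm_term_le k n le_rfl)

lemma hasDerivAt_P (k : ℕ) {s : ℂ} (hs : 0 < s.re) : HasDerivAt (P k) (-P (k + 1) s) s := by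
  set U : Set ℂ := {z | s.re / 2 < z.re} with hU
  have hUo : IsOpen U := isOpen_lt continuous_const continuous_re
  have hsU : s ∈ U := by simp only [hU, Set.mem_ofPred_eq]; linarith
  have hd : ∀ n : ℕ, ∀ z : ℂ, HasDerivAt
      (fun z : ℂ => ((n : ℂ) + 1) ^ (2 * k) * cexp (-(((n : ℂ) + 1) ^ 2) * z))
      (-(((n : ℂ) + 1) ^ (2 * (k + 1)) * cexp (-(((n : ℂ) + 1) ^ 2) * z))) z := by
    intro n z
    have h := (((hasDerivAt_id z).const_mul (-(((n : ℂ) + 1) ^ 2))).cexp).const_mul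
      (((n : ℂ) + 1) ^ (2 * k))
    refine h.congr_deriv ?_
    simp only [id]
    ring
  have hf : ∀ n : ℕ, DifferentiableOn ℂ
      (fun z : ℂ => ((n : ℂ) + 1) ^ (2 * k) * cexp (-(((n : ℂ) + 1) ^ 2) * z)) U :=
    fun n z _ => (hd n z).differentiableAt.differentiableWithinAt
  have hb := summable_bound k (half_pos hs)
  have hle : ∀ (n : ℕ) (w : ℂ), w ∈ U →
      ‖((n : ℂ) + 1) ^ (2 * k) * cexp (-(((n : ℂ) + 1) ^ 2) * w)‖
        ≤ ((n : ℝ) + 1) ^ (2 * k) * Real.exp (-(((n : ℝ) + 1) ^ 2) * (s.re / 2)) := by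
    intro n w hw
    simp only [hU, Set.mem_ofPred_eq] at hw
    exact norm_term_le k n hw.le
  have h1 := hasSum_deriv_of_summable_norm hb hf hUo hle hsU
  have h2 := differentiableOn_tsum_of_summable_norm hb hf hUo hle
  have h3 : DifferentiableAt ℂ (P k) s := (h2 s hsU).differentiableAt (hUo.mem_nhds hsU)
  have h4 : deriv (P k) s = -P (k + 1) s := by
    have := h1.tsum_eq
    rw [show deriv (P k) s = deriv (fun w : ℂ => ∑' n : ℕ, ((n : ℂ) + 1) ^ (2 * k) *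
      cexp (-(((n : ℂ) + 1) ^ 2) * w)) s from rfl, ← this, P, ← tsum_neg]
    exact tsum_congr fun n => (hd n s).deriv
  rw [← h4]
  exact h3.hasDerivAt

/-- `g s = 2 s² P₂ - 3 s P₁`. -/
noncomputable def g (s : ℂ) : ℂ := 2 * s ^ 2 * P 2 s - 3 * s * P 1 s

lemma differentiableAt_g {s : ℂ} (hs : 0 < s.re) : DifferentiableAt ℂ g s := by
  unfold g
  exact (((differentiableAt_const _).mul (differentiableAt_id.pow 2)).mul
    (hasDerivAt_P 2 hs).differentiableAt).sub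
    (((differentiableAt_const _).mul differentiableAt_id).mul (hasDerivAt_P 1 hs).differentiableAt)

/-- The complex extension of the Riemann kernel. -/
noncomputable def PhiC (t : ℂ) : ℂ := cexp t * g (Real.pi * cexp (4 * t))

/-- The strip `|Im t| < π/8`. -/
def S : Set ℂ := {t | |t.im| < Real.pi / 8}

lemma isOpen_S : IsOpen S := isOpen_lt (continuous_abs.comp continuous_im) continuous_const

lemma re_exp4 (t : ℂ) : ((Real.pi : ℂ) * cexp (4 * t)).re
    = Real.pi * Real.exp (4 * t.re) * Real.cos (4 * t.im) := by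
  rw [re_ofReal_mul, exp_re]
  have h1 : (4 * t).re = 4 * t.re := by simp
  have h2 : (4 * t).im = 4 * t.im := by simp
  rw [h1, h2]; ring

lemma re_pos_of_S {t : ℂ} (ht : t ∈ S) : 0 < ((Real.pi : ℂ) * cexp (4 * t)).re := by
  rw [re_exp4]
  simp only [S, Set.mem_ofPred_eq, abs_lt] at ht
  have : 0 < Real.cos (4 * t.im) := by
    apply Real.cos_pos_of_mem_Ioo
    constructor <;> linarith [ht.1, ht.2]
  positivity

/-- `H t = e^t θ(i e^{4t})`. -/
noncomputable def H (t : ℂ) : ℂ := cexp t * (1 + 2 * P 0 (Real.pi * cexp (4 * t)))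

lemma H_eq_theta {t : ℂ} (ht : t ∈ S) : H t = cexp t * jacobiTheta (I * cexp (4 * t)) := by
  have him : 0 < (I * cexp (4 * t)).im := by
    have h := re_pos_of_S ht
    rw [re_ofReal_mul] at h
    have h2 : 0 < (cexp (4 * t)).re := by
      by_contra hc
      push Not at hc
      nlinarith [Real.pi_pos]
    simpa using h2
  rw [H, jacobiTheta_eq_tsum_nat him, P]
  congr 2
  push_cast
  congr 1
  refine tsum_congr fun n => ?_
  simp only [pow_zero, one_mul]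
  congr 1
  have : I * I = -1 := I_mul_I
  linear_combination (-(Real.pi : ℂ) * ((n : ℂ) + 1) ^ 2 * cexp (4 * t)) * this

lemma neg_mem_S {t : ℂ} (ht : t ∈ S) : -t ∈ S := by
  simpa [S] using ht

lemma H_even {t : ℂ} (ht : t ∈ S) : H (-t) = H t := by
  rw [H_eq_theta ht, H_eq_theta (neg_mem_S ht), jacobiTheta_eq_jacobiTheta₂,
    jacobiTheta_eq_jacobiTheta₂, jacobiTheta₂_functional_equation 0 (I * cexp (4 * t))]
  have h1 : -I * (I * cexp (4 * t)) = cexp (4 * t) := by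
    have : I * I = -1 := I_mul_I
    linear_combination (-cexp (4 * t)) * this
  have h2 : (cexp (4 * t)) ^ (1 / 2 : ℂ) = cexp (2 * t) := by
    rw [cpow_def_of_ne_zero (exp_ne_zero _), log_exp]
    · congr 1; ring
    · simp only [S, Set.mem_ofPred_eq, abs_lt] at ht
      simp
      linarith [ht.1, Real.pi_pos]
    · simp only [S, Set.mem_ofPred_eq, abs_lt] at ht
      simp
      linarith [ht.2, Real.pi_pos]
  have h3 : -1 / (I * cexp (4 * t)) = I * cexp (4 * -t) := by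
    rw [show (4 * -t) = -(4 * t) by ring, exp_neg]
    field_simp
    rw [I_sq]
  have h4 : cexp t ≠ 0 := exp_ne_zero t
  rw [h1, h2, h3]
  simp only [zero_div, ne_eq, OfNat.ofNat_ne_zero, not_false_eq_true, zero_pow, mul_zero, exp_zero,
    mul_one]
  rw [show (-t) = t - 2 * t by ring, exp_sub]
  ring

lemma hasDerivAt_arg (t : ℂ) : HasDerivAt (fun t : ℂ => (Real.pi : ℂ) * cexp (4 * t))
    (4 * ((Real.pi : ℂ) * cexp (4 * t))) t := by
  have h := (((hasDerivAt_id t).const_mul (4 : ℂ)).cexp).const_mul (Real.pi : ℂ)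
  refine h.congr_deriv ?_
  simp only [id]
  ring

lemma hasDerivAt_P_comp (k : ℕ) {t : ℂ} (ht : t ∈ S) :
    HasDerivAt (fun t : ℂ => P k ((Real.pi : ℂ) * cexp (4 * t)))
      (-P (k + 1) ((Real.pi : ℂ) * cexp (4 * t)) * (4 * ((Real.pi : ℂ) * cexp (4 * t)))) t :=
  HasDerivAt.comp t (hasDerivAt_P k (re_pos_of_S ht)) (hasDerivAt_arg t)

/-- first derivative of `H` -/
noncomputable def H1 (t : ℂ) : ℂ :=
  cexp t * (1 + 2 * P 0 (Real.pi * cexp (4 * t))
    - 8 * (Real.pi * cexp (4 * t)) * P 1 (Real.pi * cexp (4 * t)))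

lemma hasDerivAt_H {t : ℂ} (ht : t ∈ S) : HasDerivAt H (H1 t) t := by
  have h := (hasDerivAt_exp t).mul (((hasDerivAt_P_comp 0 ht).const_mul 2).const_add 1)
  refine h.congr_deriv ?_
  unfold H1
  simp only [zero_add]
  ring

lemma hasDerivAt_H1 {t : ℂ} (ht : t ∈ S) : HasDerivAt H1 (H t + 16 * PhiC t) t := by
  have h := (hasDerivAt_exp t).mul
    ((((hasDerivAt_P_comp 0 ht).const_mul 2).const_add 1).sub
      (((hasDerivAt_arg t).const_mul 8).mul (hasDerivAt_P_comp 1 ht)))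
  refine (h.congr_deriv ?_)
  unfold H PhiC g
  simp only [zero_add, Nat.reduceAdd, Pi.sub_apply, Pi.mul_apply]
  ring

lemma H1_odd {t : ℂ} (ht : t ∈ S) : H1 (-t) = -H1 t := by
  have h1 : HasDerivAt (fun t => H (-t)) (-(H1 (-t))) t := by
    have := (hasDerivAt_H (neg_mem_S ht)).scomp t (hasDerivAt_neg t)
    simpa [Function.comp_def] using this
  have h2 : (fun t => H (-t)) =ᶠ[𝓝 t] H := by
    filter_upwards [isOpen_S.mem_nhds ht] with u hu using H_even hu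
  have h3 := (hasDerivAt_H ht).unique (h1.congr_of_eventuallyEq h2.symm)
  rw [h3]; ring

lemma PhiC_even {t : ℂ} (ht : t ∈ S) : PhiC (-t) = PhiC t := by
  have h1 : HasDerivAt (fun t => H1 (-t)) (-(H (-t) + 16 * PhiC (-t))) t := by
    have := (hasDerivAt_H1 (neg_mem_S ht)).scomp t (hasDerivAt_neg t)
    simpa [Function.comp_def] using this
  have h2 : (fun t => H1 (-t)) =ᶠ[𝓝 t] (fun t => -H1 t) := by
    filter_upwards [isOpen_S.mem_nhds ht] with u hu using H1_odd hu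
  have h3 := (hasDerivAt_H1 ht).neg.unique (h1.congr_of_eventuallyEq h2.symm)
  rw [H_even ht] at h3
  have h4 : H t + 16 * PhiC t = H t + 16 * PhiC (-t) := neg_injective h3
  have h5 : (16 : ℂ) * PhiC t = 16 * PhiC (-t) := by linear_combination h4
  exact (mul_left_cancel₀ (by norm_num) h5).symm

lemma differentiableAt_PhiC {t : ℂ} (ht : t ∈ S) : DifferentiableAt ℂ PhiC t := by
  have h : DifferentiableAt ℂ (fun t : ℂ => g ((Real.pi : ℂ) * cexp (4 * t))) t :=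
    DifferentiableAt.comp t (differentiableAt_g (re_pos_of_S ht)) (hasDerivAt_arg t).differentiableAt
  exact differentiableAt_exp.mul h

lemma differentiableOn_PhiC : DifferentiableOn ℂ PhiC S :=
  fun _ ht => (differentiableAt_PhiC ht).differentiableWithinAt

/-- the norm of `P k` decays like `exp (-Re s)`. -/
lemma norm_P_le (k : ℕ) {c : ℝ} (hc : 0 < c) :
    ∃ A : ℝ, 0 < A ∧ ∀ s : ℂ, c ≤ s.re → ‖P k s‖ ≤ A * Real.exp (-s.re) := by
  have hs := summable_bound k hc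
  set B := ∑' n : ℕ, ((n : ℝ) + 1) ^ (2 * k) * Real.exp (-(((n : ℝ) + 1) ^ 2) * c) with hB
  have hBpos : 0 < B := by
    refine hs.tsum_pos (fun n => by positivity) 0 (by positivity)
  refine ⟨B * Real.exp c, by positivity, fun s hcs => ?_⟩
  have hpos : 0 < s.re := hc.trans_le hcs
  have h1 : ∀ n : ℕ, ‖((n : ℂ) + 1) ^ (2 * k) * cexp (-(((n : ℂ) + 1) ^ 2) * s)‖
      ≤ (((n : ℝ) + 1) ^ (2 * k) * Real.exp (-(((n : ℝ) + 1) ^ 2) * c)) *
        (Real.exp c * Real.exp (-s.re)) := by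
    intro n
    rw [norm_term, mul_assoc, ← Real.exp_add, ← Real.exp_add]
    refine mul_le_mul_of_nonneg_left (Real.exp_le_exp.2 ?_) (by positivity)
    have h1 : (1 : ℝ) ≤ ((n : ℝ) + 1) ^ 2 := by
      have : (0 : ℝ) ≤ n := Nat.cast_nonneg n
      nlinarith
    nlinarith [mul_nonneg (sub_nonneg.2 h1) (sub_nonneg.2 hcs)]
  have h2 : Summable fun n : ℕ => (((n : ℝ) + 1) ^ (2 * k) *
      Real.exp (-(((n : ℝ) + 1) ^ 2) * c)) * (Real.exp c * Real.exp (-s.re)) := hs.mul_right _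
  calc ‖P k s‖ ≤ ∑' n : ℕ, (((n : ℝ) + 1) ^ (2 * k) *
      Real.exp (-(((n : ℝ) + 1) ^ 2) * c)) * (Real.exp c * Real.exp (-s.re)) :=
        tsum_of_norm_bounded h2.hasSum h1
    _ = B * Real.exp c * Real.exp (-s.re) := by rw [tsum_mul_right, hB]; ring

lemma norm_g_le {c : ℝ} (hc : 0 < c) :
    ∃ A : ℝ, 0 < A ∧ ∀ s : ℂ, c ≤ s.re → ‖g s‖ ≤ A * ‖s‖ ^ 2 * Real.exp (-s.re) := by
  obtain ⟨A2, hA2, h2⟩ := norm_P_le 2 hc
  obtain ⟨A1, hA1, h1⟩ := norm_P_le 1 hc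
  refine ⟨2 * A2 + 3 * A1 / c, by positivity, fun s hs => ?_⟩
  have hsn : c ≤ ‖s‖ := hs.trans (re_le_norm s)
  have e1 : ‖2 * s ^ 2 * P 2 s‖ ≤ 2 * ‖s‖ ^ 2 * (A2 * Real.exp (-s.re)) := by
    rw [norm_mul, norm_mul, norm_pow]
    simp only [norm_ofNat]
    gcongr
    exact h2 s hs
  have e2 : ‖3 * s * P 1 s‖ ≤ 3 * ‖s‖ * (A1 * Real.exp (-s.re)) := by
    rw [norm_mul, norm_mul]
    simp only [norm_ofNat]
    gcongr
    exact h1 s hs
  have e3 : ‖s‖ ≤ ‖s‖ ^ 2 / c := by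
    rw [le_div_iff₀ hc, sq]
    exact mul_le_mul_of_nonneg_left hsn (norm_nonneg s)
  calc ‖g s‖ ≤ ‖2 * s ^ 2 * P 2 s‖ + ‖3 * s * P 1 s‖ := norm_sub_le _ _
    _ ≤ 2 * ‖s‖ ^ 2 * (A2 * Real.exp (-s.re)) + 3 * ‖s‖ * (A1 * Real.exp (-s.re)) := add_le_add e1 e2
    _ ≤ 2 * ‖s‖ ^ 2 * (A2 * Real.exp (-s.re)) + 3 * (‖s‖ ^ 2 / c) * (A1 * Real.exp (-s.re)) := by
        gcongr
    _ = (2 * A2 + 3 * A1 / c) * ‖s‖ ^ 2 * Real.exp (-s.re) := by ring

lemma mem_S_of_le {Y : ℝ} (hY : Y < Real.pi / 8) {t : ℂ} (ht : |t.im| ≤ Y) : t ∈ S :=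
  lt_of_le_of_lt ht hY

/-- Bound of the kernel in closed substrips. -/
lemma PhiC_bound {Y : ℝ} (hY0 : 0 ≤ Y) (hY : Y < Real.pi / 8) :
    ∃ A : ℝ, 0 < A ∧ ∀ t : ℂ, |t.im| ≤ Y →
      ‖PhiC t‖ ≤ A * Real.exp (9 * |t.re| - Real.pi * Real.cos (4 * Y) * Real.exp (4 * |t.re|)) := by
  have hcos : 0 < Real.cos (4 * Y) := Real.cos_pos_of_mem_Ioo ⟨by linarith [Real.pi_pos], by linarith⟩
  have hκ : 0 < Real.pi * Real.cos (4 * Y) := by positivity
  obtain ⟨A, hA, h⟩ := norm_g_le hκ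
  have key : ∀ t : ℂ, |t.im| ≤ Y → 0 ≤ t.re →
      ‖PhiC t‖ ≤ A * Real.pi ^ 2 *
        Real.exp (9 * |t.re| - Real.pi * Real.cos (4 * Y) * Real.exp (4 * |t.re|)) := by
    intro t ht ht0
    have h1 : Real.pi * Real.cos (4 * Y) * Real.exp (4 * t.re)
        ≤ ((Real.pi : ℂ) * cexp (4 * t)).re := by
      rw [re_exp4]
      have : Real.cos (4 * Y) ≤ Real.cos (4 * t.im) := by
        rw [← Real.cos_abs (4 * t.im)]
        apply Real.cos_le_cos_of_nonneg_of_le_pi (abs_nonneg _)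
        · linarith [Real.pi_pos]
        · rw [abs_mul]; simp; linarith
      have h2 : 0 < Real.pi * Real.exp (4 * t.re) := by positivity
      nlinarith
    have h2 : Real.pi * Real.cos (4 * Y) ≤ ((Real.pi : ℂ) * cexp (4 * t)).re := by
      refine le_trans ?_ h1
      have : 1 ≤ Real.exp (4 * t.re) := Real.one_le_exp (by linarith)
      nlinarith
    have h3 : ‖(Real.pi : ℂ) * cexp (4 * t)‖ = Real.pi * Real.exp (4 * t.re) := by
      rw [norm_mul, norm_real, Real.norm_of_nonneg Real.pi_pos.le, norm_exp]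
      simp
    have h4 := h _ h2
    rw [PhiC, norm_mul, norm_exp, abs_of_nonneg ht0]
    calc Real.exp t.re * ‖g ((Real.pi : ℂ) * cexp (4 * t))‖
        ≤ Real.exp t.re * (A * ‖(Real.pi : ℂ) * cexp (4 * t)‖ ^ 2 *
          Real.exp (-((Real.pi : ℂ) * cexp (4 * t)).re)) := by gcongr
      _ ≤ Real.exp t.re * (A * (Real.pi * Real.exp (4 * t.re)) ^ 2 *
          Real.exp (-(Real.pi * Real.cos (4 * Y) * Real.exp (4 * t.re)))) := by
          rw [h3]; gcongr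
      _ = A * Real.pi ^ 2 * (Real.exp t.re * (Real.exp (4 * t.re)) ^ 2 *
          Real.exp (-(Real.pi * Real.cos (4 * Y) * Real.exp (4 * t.re)))) := by ring
      _ = A * Real.pi ^ 2 *
          Real.exp (9 * t.re - Real.pi * Real.cos (4 * Y) * Real.exp (4 * t.re)) := by
          rw [← Real.exp_nat_mul, ← Real.exp_add, ← Real.exp_add]
          congr 2
          push_cast
          ring
  refine ⟨A * Real.pi ^ 2, by positivity, fun t ht => ?_⟩
  rcases le_total 0 t.re with h0 | h0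
  · exact key t ht h0
  · have h1 := key (-t) (by simpa using ht) (by simpa using h0)
    rw [PhiC_even (mem_S_of_le hY ht)] at h1
    simpa using h1

lemma g_eq_tsum {s : ℂ} (hs : 0 < s.re) :
    g s = ∑' n : ℕ, (2 * s ^ 2 * ((n : ℂ) + 1) ^ 4 - 3 * s * ((n : ℂ) + 1) ^ 2) *
      cexp (-(((n : ℂ) + 1) ^ 2) * s) := by
  unfold g P
  rw [← tsum_mul_left, ← tsum_mul_left, ← Summable.tsum_sub]
  · refine tsum_congr fun n => ?_
    norm_num
    ring
  · exact (summable_term 2 hs).mul_left _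
  · exact (summable_term 1 hs).mul_left _

lemma summable_g {s : ℂ} (hs : 0 < s.re) :
    Summable fun n : ℕ => (2 * s ^ 2 * ((n : ℂ) + 1) ^ 4 - 3 * s * ((n : ℂ) + 1) ^ 2) *
      cexp (-(((n : ℂ) + 1) ^ 2) * s) := by
  have := ((summable_term 2 hs).mul_left (2 * s ^ 2)).sub ((summable_term 1 hs).mul_left (3 * s))
  refine this.congr fun n => ?_
  norm_num
  ring

/-- The Riemann kernel. -/
noncomputable def Phi (t : ℝ) : ℝ :=
  ∑' n : ℕ, (2 * ((n : ℝ) + 1) ^ 4 * Real.pi ^ 2 * Real.exp (9 * t)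
    - 3 * ((n : ℝ) + 1) ^ 2 * Real.pi * Real.exp (5 * t)) *
      Real.exp (-(((n : ℝ) + 1) ^ 2 * Real.pi * Real.exp (4 * t)))

lemma term_cast (t : ℝ) (n : ℕ) :
    cexp (t : ℂ) * ((2 * ((Real.pi : ℂ) * cexp (4 * t)) ^ 2 * ((n : ℂ) + 1) ^ 4
      - 3 * ((Real.pi : ℂ) * cexp (4 * t)) * ((n : ℂ) + 1) ^ 2) *
      cexp (-(((n : ℂ) + 1) ^ 2) * ((Real.pi : ℂ) * cexp (4 * t)))) =
    (((2 * ((n : ℝ) + 1) ^ 4 * Real.pi ^ 2 * Real.exp (9 * t)
    - 3 * ((n : ℝ) + 1) ^ 2 * Real.pi * Real.exp (5 * t)) *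
      Real.exp (-(((n : ℝ) + 1) ^ 2 * Real.pi * Real.exp (4 * t))) : ℝ) : ℂ) := by
  push_cast
  have h9 : cexp (9 * t) = cexp t * cexp (4 * t) * cexp (4 * t) := by
    rw [← exp_add, ← exp_add]; congr 1; ring
  have h5 : cexp (5 * t) = cexp t * cexp (4 * t) := by
    rw [← exp_add]; congr 1; ring
  rw [h9, h5]
  rw [show -(((n : ℂ) + 1) ^ 2) * ((Real.pi : ℂ) * cexp (4 * t))
    = -(((n : ℂ) + 1) ^ 2 * Real.pi * cexp (4 * t)) by ring]
  ring

lemma ofReal_mem_S (t : ℝ) : (t : ℂ) ∈ S := by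
  simp only [S, Set.mem_ofPred_eq, ofReal_im, abs_zero]
  positivity

lemma PhiC_ofReal (t : ℝ) : PhiC (t : ℂ) = ((Phi t : ℝ) : ℂ) := by
  have hs := re_pos_of_S (ofReal_mem_S t)
  rw [PhiC, g_eq_tsum hs, ← tsum_mul_left, Phi, ofReal_tsum]
  exact tsum_congr fun n => term_cast t n

lemma summable_Phi (t : ℝ) : Summable fun n : ℕ =>
    (2 * ((n : ℝ) + 1) ^ 4 * Real.pi ^ 2 * Real.exp (9 * t)
    - 3 * ((n : ℝ) + 1) ^ 2 * Real.pi * Real.exp (5 * t)) *
      Real.exp (-(((n : ℝ) + 1) ^ 2 * Real.pi * Real.exp (4 * t))) := by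
  have hs := (summable_g (re_pos_of_S (ofReal_mem_S t))).mul_left (cexp (t : ℂ))
  have := hs.congr (fun n => term_cast t n)
  exact_mod_cast this

lemma Phi_even (t : ℝ) : Phi (-t) = Phi t := by
  have h := PhiC_even (ofReal_mem_S t)
  rw [← ofReal_neg, PhiC_ofReal, PhiC_ofReal] at h
  exact_mod_cast h

lemma Phi_term_nonneg {t : ℝ} (ht : 0 ≤ t) (n : ℕ) :
    0 ≤ (2 * ((n : ℝ) + 1) ^ 4 * Real.pi ^ 2 * Real.exp (9 * t)
    - 3 * ((n : ℝ) + 1) ^ 2 * Real.pi * Real.exp (5 * t)) *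
      Real.exp (-(((n : ℝ) + 1) ^ 2 * Real.pi * Real.exp (4 * t))) := by
  have h9 : Real.exp (9 * t) = Real.exp (5 * t) * Real.exp (4 * t) := by
    rw [← Real.exp_add]; congr 1; ring
  have h1 : 1 ≤ Real.exp (4 * t) := Real.one_le_exp (by linarith)
  have h2 : (1 : ℝ) ≤ ((n : ℝ) + 1) ^ 2 := by
    have : (0 : ℝ) ≤ n := Nat.cast_nonneg n
    nlinarith
  have h3 := Real.pi_gt_three
  have h4 : (3 : ℝ) ≤ ((n : ℝ) + 1) ^ 2 * Real.pi * Real.exp (4 * t) := by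
    have : (1 : ℝ) * 3 * 1 ≤ ((n : ℝ) + 1) ^ 2 * Real.pi * Real.exp (4 * t) := by gcongr
    linarith
  have h5 : 2 * ((n : ℝ) + 1) ^ 4 * Real.pi ^ 2 * Real.exp (9 * t)
    - 3 * ((n : ℝ) + 1) ^ 2 * Real.pi * Real.exp (5 * t)
    = ((n : ℝ) + 1) ^ 2 * Real.pi * Real.exp (5 * t) *
      (2 * (((n : ℝ) + 1) ^ 2 * Real.pi * Real.exp (4 * t)) - 3) := by
    rw [h9]; ring
  rw [h5]
  have h6 : 0 ≤ 2 * (((n : ℝ) + 1) ^ 2 * Real.pi * Real.exp (4 * t)) - 3 := by linarith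
  positivity

lemma Phi_lower {t : ℝ} (ht : 0 ≤ t) : Real.exp (-(Real.pi * Real.exp (4 * t))) ≤ Phi t := by
  have h := (summable_Phi t).sum_le_tsum (Finset.range 1) (fun n _ => Phi_term_nonneg ht n)
  simp only [Finset.range_one, Finset.sum_singleton, Nat.cast_zero, zero_add, one_pow,
    mul_one, one_mul] at h
  refine le_trans ?_ h
  have h9 : Real.exp (9 * t) = Real.exp (5 * t) * Real.exp (4 * t) := by
    rw [← Real.exp_add]; congr 1; ring
  have h1 : 1 ≤ Real.exp (4 * t) := Real.one_le_exp (by linarith)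
  have h5 : 1 ≤ Real.exp (5 * t) := Real.one_le_exp (by linarith)
  have h3 := Real.pi_gt_three
  have h6 : 1 ≤ 2 * Real.pi ^ 2 * Real.exp (9 * t) - 3 * Real.pi * Real.exp (5 * t) := by
    rw [h9]
    have e1 : 2 * Real.pi ^ 2 * (Real.exp (5 * t) * Real.exp (4 * t)) -
      3 * Real.pi * Real.exp (5 * t) = Real.pi * Real.exp (5 * t) *
        (2 * Real.pi * Real.exp (4 * t) - 3) := by ring
    rw [e1]
    have e2 : 1 ≤ 2 * Real.pi * Real.exp (4 * t) - 3 := by nlinarith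
    have e3 : 1 ≤ Real.pi * Real.exp (5 * t) := by nlinarith
    nlinarith
  have h7 := Real.exp_pos (-(Real.pi * Real.exp (4 * t)))
  nlinarith

lemma Phi_pos (t : ℝ) : 0 < Phi t := by
  rcases le_total 0 t with h | h
  · exact (Real.exp_pos _).trans_le (Phi_lower h)
  · rw [← Phi_even]
    exact (Real.exp_pos _).trans_le (Phi_lower (by linarith))

lemma continuous_Phi : Continuous Phi := by
  have h : Continuous fun t : ℝ => (PhiC (t : ℂ)).re := by
    refine continuous_re.comp ?_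
    rw [continuous_iff_continuousAt]
    intro t
    exact (differentiableAt_PhiC (ofReal_mem_S t)).continuousAt.comp continuous_ofReal.continuousAt
  refine h.congr fun t => ?_
  rw [PhiC_ofReal, ofReal_re]

lemma conj_P (k : ℕ) (s : ℂ) : P k ((starRingEnd ℂ) s) = (starRingEnd ℂ) (P k s) := by
  unfold P
  rw [conj_tsum]
  refine tsum_congr fun n => ?_
  simp [← exp_conj]

lemma conj_PhiC (t : ℂ) : PhiC ((starRingEnd ℂ) t) = (starRingEnd ℂ) (PhiC t) := by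
  have h : (Real.pi : ℂ) * cexp (4 * (starRingEnd ℂ) t)
      = (starRingEnd ℂ) ((Real.pi : ℂ) * cexp (4 * t)) := by
    simp [← exp_conj, map_ofNat]
  simp only [PhiC, g, h, conj_P]
  simp [← exp_conj, map_ofNat]

end Pool.Agent.Helper242.RK
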