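import Pool.Agent.Helper242.RK.Int9
import Pool.Agent.Helper242.RK.Num2

set_option autoImplicit false

/-!
# Explicit majorants for the kernel
-/

namespace Pool.Agent.Helper242.RK

open Complex Filter Topology MeasureTheory

lemma term_le4 {k n a : ℕ} (hk : k ≤ 2) (ha : a * n ≤ n ^ 2 + 2 * n) {s : ℂ} (hs : 0 < s.re) :
    ‖((n : ℂ) + 1) ^ (2 * k) * cexp (-(((n : ℂ) + 1) ^ 2) * s)‖ ≤
      Real.exp (-s.re) * (16 * Real.exp (-(a * s.re))) ^ n := by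
  rw [norm_term]
  have hn : (1 : ℝ) ≤ (n : ℝ) + 1 := by linarith [Nat.cast_nonneg (α := ℝ) n]
  have h2n : ((n : ℝ) + 1) ≤ 2 ^ n := by
    have : n + 1 ≤ 2 ^ n := Nat.lt_two_pow_self
    exact_mod_cast this
  have h1 : ((n : ℝ) + 1) ^ (2 * k) ≤ 16 ^ n := by
    calc ((n : ℝ) + 1) ^ (2 * k) ≤ ((n : ℝ) + 1) ^ 4 := pow_le_pow_right₀ hn (by omega)
      _ ≤ (2 ^ n) ^ 4 := by gcongr
      _ = 16 ^ n := by rw [← pow_mul, mul_comm, pow_mul]; norm_num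
  have h2 : Real.exp (-((n : ℝ) + 1) ^ 2 * s.re) ≤
      Real.exp (-s.re) * Real.exp (-(a * s.re)) ^ n := by
    rw [← Real.exp_nat_mul, ← Real.exp_add]
    refine Real.exp_le_exp.2 ?_
    have h3 : (a : ℝ) * n ≤ (n : ℝ) ^ 2 + 2 * n := by exact_mod_cast ha
    nlinarith
  calc ((n : ℝ) + 1) ^ (2 * k) * Real.exp (-((n : ℝ) + 1) ^ 2 * s.re)
      ≤ 16 ^ n * (Real.exp (-s.re) * Real.exp (-(a * s.re)) ^ n) := by gcongr
    _ = _ := by rw [mul_pow]; ring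

lemma norm_P_le3 {k : ℕ} (hk : k ≤ 2) {s : ℂ} (hs : 0 < s.re) {ρ : ℝ}
    (hρ : 16 * Real.exp (-(3 * s.re)) ≤ ρ) (hρ1 : ρ < 1) :
    ‖P k s‖ ≤ Real.exp (-s.re) * (1 - ρ)⁻¹ := by
  have hρ0 : 0 ≤ ρ := le_trans (by positivity) hρ
  have hg := (hasSum_geometric_of_lt_one hρ0 hρ1).mul_left (Real.exp (-s.re))
  refine tsum_of_norm_bounded hg fun n => ?_
  refine (term_le4 (a := 3) hk ?_ hs).trans ?_
  · rcases n with _ | n
    · simp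
    · nlinarith
  · gcongr
    push_cast
    exact hρ

lemma norm_P_tail {k : ℕ} (hk : k ≤ 2) {s : ℂ} (hs : 0 < s.re) {ρ : ℝ}
    (hρ : 16 * Real.exp (-(7 * s.re)) ≤ ρ) (hρ1 : ρ < 1) :
    ‖P k s - ∑ n ∈ Finset.range 5, ((n : ℂ) + 1) ^ (2 * k) * cexp (-(((n : ℂ) + 1) ^ 2) * s)‖ ≤
      Real.exp (-s.re) * (ρ ^ 5 * (1 - ρ)⁻¹) := by
  have hρ0 : 0 ≤ ρ := le_trans (by positivity) hρ
  have hsum := (summable_term k hs).sum_add_tsum_nat_add 5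
  rw [P, ← hsum, add_sub_cancel_left]
  have hg := ((hasSum_geometric_of_lt_one hρ0 hρ1).mul_left (ρ ^ 5)).mul_left (Real.exp (-s.re))
  refine tsum_of_norm_bounded hg fun n => ?_
  refine (term_le4 (a := 7) (n := n + 5) hk (by nlinarith) hs).trans ?_
  rw [pow_add, mul_comm (ρ ^ 5)]
  have : (16 * Real.exp (-(((7 : ℕ) : ℝ) * s.re))) ≤ ρ := by push_cast; exact hρ
  gcongr

lemma norm_g_le3 {s : ℂ} (hs : 0 < s.re) {ρ : ℝ}
    (hρ : 16 * Real.exp (-(3 * s.re)) ≤ ρ) (hρ1 : ρ < 1) :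
    ‖g s‖ ≤ (2 * ‖s‖ ^ 2 + 3 * ‖s‖) * (Real.exp (-s.re) * (1 - ρ)⁻¹) := by
  have h2 := norm_P_le3 (k := 2) le_rfl hs hρ hρ1
  have h1 := norm_P_le3 (k := 1) (by norm_num) hs hρ hρ1
  calc ‖g s‖ ≤ ‖2 * s ^ 2 * P 2 s‖ + ‖3 * s * P 1 s‖ := norm_sub_le _ _
    _ = 2 * ‖s‖ ^ 2 * ‖P 2 s‖ + 3 * ‖s‖ * ‖P 1 s‖ := by
        simp only [norm_mul, norm_pow, norm_ofNat]
    _ ≤ 2 * ‖s‖ ^ 2 * (Real.exp (-s.re) * (1 - ρ)⁻¹) +
        3 * ‖s‖ * (Real.exp (-s.re) * (1 - ρ)⁻¹) := by gcongr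
    _ = _ := by ring

lemma gT_eq (s : ℂ) : gT s =
    2 * s ^ 2 * (∑ n ∈ Finset.range 5, ((n : ℂ) + 1) ^ (2 * 2) * cexp (-(((n : ℂ) + 1) ^ 2) * s)) -
    3 * s * (∑ n ∈ Finset.range 5, ((n : ℂ) + 1) ^ (2 * 1) * cexp (-(((n : ℂ) + 1) ^ 2) * s)) := by
  have h : ∀ m : ℕ, cexp (-((m : ℂ)) * s) = cexp (-s) ^ m := by
    intro m; rw [← exp_nat_mul]; congr 1; ring
  simp only [Finset.sum_range_succ, Finset.sum_range_zero]
  have e1 := h 1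
  have e4 := h 4
  have e9 := h 9
  have e16 := h 16
  have e25 := h 25
  push_cast at e1 e4 e9 e16 e25 ⊢
  rw [show -((0 : ℂ) + 1) ^ 2 = -1 by ring, show -((1 : ℂ) + 1) ^ 2 = -4 by ring,
    show -((2 : ℂ) + 1) ^ 2 = -9 by ring, show -((3 : ℂ) + 1) ^ 2 = -16 by ring,
    show -((4 : ℂ) + 1) ^ 2 = -25 by ring, e1, e4, e9, e16, e25, gT]
  ring

lemma norm_g_sub_gT {s : ℂ} (hs : 0 < s.re) {ρ : ℝ}
    (hρ : 16 * Real.exp (-(7 * s.re)) ≤ ρ) (hρ1 : ρ < 1) :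
    ‖g s - gT s‖ ≤ (2 * ‖s‖ ^ 2 + 3 * ‖s‖) * (Real.exp (-s.re) * (ρ ^ 5 * (1 - ρ)⁻¹)) := by
  have h2 := norm_P_tail (k := 2) le_rfl hs hρ hρ1
  have h1 := norm_P_tail (k := 1) (by norm_num) hs hρ hρ1
  set S2 := ∑ n ∈ Finset.range 5, ((n : ℂ) + 1) ^ (2 * 2) * cexp (-(((n : ℂ) + 1) ^ 2) * s) with hS2
  set S1 := ∑ n ∈ Finset.range 5, ((n : ℂ) + 1) ^ (2 * 1) * cexp (-(((n : ℂ) + 1) ^ 2) * s) with hS1
  have e : g s - gT s = 2 * s ^ 2 * (P 2 s - S2) - 3 * s * (P 1 s - S1) := by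
    rw [gT_eq, g]; ring
  rw [e]
  calc ‖2 * s ^ 2 * (P 2 s - S2) - 3 * s * (P 1 s - S1)‖
      ≤ ‖2 * s ^ 2 * (P 2 s - S2)‖ + ‖3 * s * (P 1 s - S1)‖ := norm_sub_le _ _
    _ = 2 * ‖s‖ ^ 2 * ‖P 2 s - S2‖ + 3 * ‖s‖ * ‖P 1 s - S1‖ := by
        simp only [norm_mul, norm_pow, norm_ofNat]
    _ ≤ 2 * ‖s‖ ^ 2 * (Real.exp (-s.re) * (ρ ^ 5 * (1 - ρ)⁻¹)) +
        3 * ‖s‖ * (Real.exp (-s.re) * (ρ ^ 5 * (1 - ρ)⁻¹)) := by gcongr
    _ = _ := by ring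

/-- the constant in the majorant -/
lemma PhiC_majorant {Y c ρ : ℝ} (hY : |Y| < Real.pi / 8) (hc : Real.cos (4 * Y) = c) (hc0 : 0 < c)
    (hρ : 16 * Real.exp (-(3 * (Real.pi * c))) ≤ ρ) (hρ1 : ρ < 1) (u : ℝ) :
    ‖PhiC ((u : ℂ) + Y * I)‖ ≤ 146 / 5 * (1 - ρ)⁻¹ *
      Real.exp (9 * |u| - Real.pi * c * Real.exp (4 * |u|)) := by
  have hpi := Real.pi_pos
  have hρ0 : 0 ≤ ρ := le_trans (by positivity) hρ
  have key : ∀ (Y u : ℝ), Real.cos (4 * Y) = c → 0 ≤ u →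
      ‖PhiC ((u : ℂ) + Y * I)‖ ≤ 146 / 5 * (1 - ρ)⁻¹ *
      Real.exp (9 * u - Real.pi * c * Real.exp (4 * u)) := by
    intro Y u hc hu
    set t : ℂ := (u : ℂ) + Y * I with ht
    have htre : t.re = u := by simp [ht]
    have htim : t.im = Y := by simp [ht]
    set s : ℂ := (Real.pi : ℂ) * cexp (4 * t) with hs
    have hns : ‖s‖ = Real.pi * Real.exp (4 * u) := by
      rw [hs, norm_mul, norm_real, Real.norm_of_nonneg hpi.le, norm_exp]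
      simp [htre]
    have hsre : s.re = Real.pi * c * Real.exp (4 * u) := by
      rw [hs, re_exp4, htre, htim, hc]; ring
    have hs0 : 0 < s.re := by rw [hsre]; positivity
    have hE : 1 ≤ Real.exp (4 * u) := Real.one_le_exp (by linarith)
    have hρ' : 16 * Real.exp (-(3 * s.re)) ≤ ρ := by
      refine le_trans ?_ hρ
      have : Real.exp (-(3 * s.re)) ≤ Real.exp (-(3 * (Real.pi * c))) := by
        refine Real.exp_le_exp.2 ?_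
        rw [hsre]
        have : Real.pi * c ≤ Real.pi * c * Real.exp (4 * u) :=
          le_mul_of_one_le_right (by positivity) hE
        linarith
      linarith
    have h1 := norm_g_le3 hs0 hρ' hρ1
    rw [PhiC, norm_mul, norm_exp, ← hs, htre]
    have h2 : 2 * ‖s‖ ^ 2 + 3 * ‖s‖ ≤ 146 / 5 * Real.exp (4 * u) ^ 2 := by
      rw [hns]
      have hp1 : Real.pi < 3.1416 := Real.pi_lt_d4
      have h3 : Real.exp (4 * u) ≤ Real.exp (4 * u) ^ 2 := by nlinarith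
      have h4 : Real.pi ^ 2 ≤ 9.8697 := by nlinarith
      calc 2 * (Real.pi * Real.exp (4 * u)) ^ 2 + 3 * (Real.pi * Real.exp (4 * u))
          = 2 * Real.pi ^ 2 * Real.exp (4 * u) ^ 2 + 3 * Real.pi * Real.exp (4 * u) := by ring
        _ ≤ 2 * 9.8697 * Real.exp (4 * u) ^ 2 + 3 * 3.1416 * Real.exp (4 * u) ^ 2 := by gcongr
        _ ≤ 146 / 5 * Real.exp (4 * u) ^ 2 := by
            have := sq_nonneg (Real.exp (4 * u))
            nlinarith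
    have hinv : 0 < (1 - ρ)⁻¹ := inv_pos.2 (by linarith)
    calc Real.exp u * ‖g s‖
        ≤ Real.exp u * ((2 * ‖s‖ ^ 2 + 3 * ‖s‖) * (Real.exp (-s.re) * (1 - ρ)⁻¹)) := by gcongr
      _ ≤ Real.exp u * (146 / 5 * Real.exp (4 * u) ^ 2 * (Real.exp (-s.re) * (1 - ρ)⁻¹)) := by
          gcongr
      _ = 146 / 5 * (1 - ρ)⁻¹ * (Real.exp u * Real.exp (4 * u) ^ 2 * Real.exp (-s.re)) := by ring
      _ = _ := by
          rw [← Real.exp_nat_mul, ← Real.exp_add, ← Real.exp_add, hsre]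
          congr 2
          push_cast
          ring
  rcases le_total 0 u with h0 | h0
  · rw [abs_of_nonneg h0]
    exact key Y u hc h0
  · rw [abs_of_nonpos h0]
    have hS : (u : ℂ) + Y * I ∈ S := by
      simp only [S, Set.mem_ofPred_eq]
      simpa using hY
    have h1 := key (-Y) (-u) (by rw [mul_neg, Real.cos_neg]; exact hc) (by linarith)
    have h2 : ((-u : ℝ) : ℂ) + ((-Y : ℝ) : ℂ) * I = -((u : ℂ) + Y * I) := by
      push_cast; ring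
    rw [h2, PhiC_even hS] at h1
    exact h1

end Pool.Agent.Helper242.RK
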