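import Pool.Agent.Helper242.RK.Two1

set_option autoImplicit false

/-!
# The shifted transform for the square of the kernel
-/

namespace Pool.Agent.Helper242.RK

open Complex Filter Topology MeasureTheory

/-- square of the kernel on a horizontal line -/
noncomputable def W (Y u : ℝ) : ℂ := PhiC ((u : ℂ) + Y * I) ^ 2

/-- its Fourier transform -/
noncomputable def GG (Y : ℝ) (z : ℂ) : ℂ := ∫ u : ℝ, W Y u * cexp (I * z * u)

lemma fN_W (Y u : ℝ) (z : ℂ) :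
    W Y u * cexp (I * z * u) = cexp (z * Y) * fN 2 z ((u : ℂ) + Y * I) := by
  rw [W, fN]
  have : cexp (I * z * ((u : ℂ) + Y * I)) = cexp (I * z * u) * cexp (-(z * Y)) := by
    rw [← exp_add]; congr 1; linear_combination (z * Y) * I_sq
  rw [this]
  have h2 : cexp (z * Y) * cexp (-(z * Y)) = 1 := by
    rw [← exp_add]; simp
  linear_combination (-(PhiC ((u : ℂ) + Y * I) ^ 2 * cexp (I * z * u))) * h2

lemma GG_eq {Y : ℝ} (hY0 : 0 ≤ Y) (hY : Y < Real.pi / 8) (z : ℂ) :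
    GG Y z = cexp (z * Y) * (2 * F ((2 : ℕ) : ℝ) z) := by
  rw [two_F_line (by norm_num), line_shift (by norm_num) z hY0 hY, GG, ← integral_const_mul]
  exact integral_congr_ae (Eventually.of_forall fun u => fN_W Y u z)

lemma continuous_W {Y : ℝ} (hY : |Y| < Real.pi / 8) : Continuous (W Y) := by
  have h := continuous_fN_line 2 0 hY
  have h2 : W Y = fun u : ℝ => fN 2 0 ((u : ℂ) + Y * I) := by
    funext u; simp [W, fN]
  rw [h2]
  exact h

lemma W_bound {Y c ρ γ : ℝ} (hY : |Y| < Real.pi / 8) (hc : Real.cos (4 * Y) = c) (hc0 : 0 < c)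
    (hρ : 16 * Real.exp (-(3 * (Real.pi * c))) ≤ ρ) (hρ1 : ρ < 1)
    (hγ : 19 + γ ≤ 2 * (Real.pi * c) * (4 * 2.718)) (u : ℝ) :
    ‖W Y u‖ * Real.exp |u| ≤ (146 / 5 * (1 - ρ)⁻¹) ^ 2 * Real.exp (-γ * |u|) := by
  have h1 := PhiC_majorant hY hc hc0 hρ hρ1 u
  rw [W, norm_pow]
  have hinv : 0 < (1 - ρ)⁻¹ := inv_pos.2 (by linarith)
  have h2 : ‖PhiC ((u : ℂ) + Y * I)‖ ^ 2 ≤ (146 / 5 * (1 - ρ)⁻¹ *
      Real.exp (9 * |u| - Real.pi * c * Real.exp (4 * |u|))) ^ 2 := by gcongr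
  have hu := abs_nonneg u
  have h3 : 4 * 2.718 * |u| ≤ Real.exp (4 * |u|) := by
    have h4 : Real.exp (4 * |u|) = Real.exp 1 * Real.exp (4 * |u| - 1) := by
      rw [← Real.exp_add]; congr 1; ring
    have h5 := Real.add_one_le_exp (4 * |u| - 1)
    have h6 := Real.exp_one_gt_d9
    rw [h4]
    calc 4 * 2.718 * |u| = 2.718 * (4 * |u|) := by ring
      _ ≤ Real.exp 1 * Real.exp (4 * |u| - 1) := by
          apply mul_le_mul <;> first | linarith | positivity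
  have hpc : 0 < Real.pi * c := by have := Real.pi_pos; positivity
  calc ‖PhiC ((u : ℂ) + Y * I)‖ ^ 2 * Real.exp |u|
      ≤ (146 / 5 * (1 - ρ)⁻¹ * Real.exp (9 * |u| - Real.pi * c * Real.exp (4 * |u|))) ^ 2 *
        Real.exp |u| := by gcongr
    _ = (146 / 5 * (1 - ρ)⁻¹) ^ 2 * Real.exp (2 * (9 * |u| - Real.pi * c * Real.exp (4 * |u|)) + |u|) := by
        rw [mul_pow, ← Real.exp_nat_mul, mul_assoc, ← Real.exp_add]
        push_cast; rfl
    _ ≤ (146 / 5 * (1 - ρ)⁻¹) ^ 2 * Real.exp (-γ * |u|) := by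
        refine mul_le_mul_of_nonneg_left (Real.exp_le_exp.2 ?_) (by positivity)
        have h7 : 2 * (Real.pi * c) * (4 * 2.718 * |u|) ≤ 2 * (Real.pi * c) * Real.exp (4 * |u|) := by
          gcongr
        have h8 : (19 + γ) * |u| ≤ 2 * (Real.pi * c) * (4 * 2.718) * |u| := by gcongr
        nlinarith

noncomputable def Y1 : ℝ := Real.arcsin (15 / 17) / 4
noncomputable def Y2 : ℝ := Real.arcsin (35 / 37) / 4

lemma cos_Y1 : Real.cos (4 * Y1) = 8 / 17 := by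
  have : 4 * Y1 = Real.arcsin (15 / 17) := by unfold Y1; ring
  rw [this, Real.cos_arcsin]
  have : (1 : ℝ) - (15 / 17) ^ 2 = (8 / 17) ^ 2 := by norm_num
  rw [this, Real.sqrt_sq (by norm_num)]

lemma sin_Y1 : Real.sin (4 * Y1) = 15 / 17 := by
  have : 4 * Y1 = Real.arcsin (15 / 17) := by unfold Y1; ring
  rw [this, Real.sin_arcsin (by norm_num) (by norm_num)]

lemma cos_Y2 : Real.cos (4 * Y2) = 12 / 37 := by
  have : 4 * Y2 = Real.arcsin (35 / 37) := by unfold Y2; ring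
  rw [this, Real.cos_arcsin]
  have : (1 : ℝ) - (35 / 37) ^ 2 = (12 / 37) ^ 2 := by norm_num
  rw [this, Real.sqrt_sq (by norm_num)]

lemma sin_Y2 : Real.sin (4 * Y2) = 35 / 37 := by
  have : 4 * Y2 = Real.arcsin (35 / 37) := by unfold Y2; ring
  rw [this, Real.sin_arcsin (by norm_num) (by norm_num)]

lemma Y1_nonneg : 0 ≤ Y1 := by
  have := Real.arcsin_nonneg.2 (by norm_num : (0 : ℝ) ≤ 15 / 17)
  unfold Y1; linarith

lemma Y1_lt_Y2 : Y1 < Y2 := by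
  have := Real.arcsin_lt_arcsin (x := 15 / 17) (y := 35 / 37) (by norm_num) (by norm_num) (by norm_num)
  unfold Y1 Y2; linarith

lemma Y2_lt : Y2 < Real.pi / 8 := by
  have := Real.arcsin_lt_pi_div_two.2 (by norm_num : (35 / 37 : ℝ) < 1)
  unfold Y2; linarith

lemma Y2_nonneg : 0 ≤ Y2 := Y1_nonneg.trans Y1_lt_Y2.le

lemma Y1_lt : Y1 < Real.pi / 8 := Y1_lt_Y2.trans Y2_lt

lemma Y_diff : 25 / 629 ≤ Y2 - Y1 := by
  have h := Real.sin_le (x := 4 * Y2 - 4 * Y1) (by linarith [Y1_lt_Y2])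
  rw [Real.sin_sub, cos_Y1, cos_Y2, sin_Y1, sin_Y2] at h
  norm_num at h
  linarith

lemma Y2_ge : 35 / 148 ≤ Y2 := by
  have h := Real.sin_le (x := 4 * Y2) (by linarith [Y2_nonneg])
  rw [sin_Y2] at h
  linarith

lemma rho1 : 16 * Real.exp (-(3 * (Real.pi * (8 / 17)))) ≤ 1 / 5 := by
  have hpi := Real.pi_gt_d4
  have h1 : Real.exp (-(3 * (Real.pi * (8 / 17)))) ≤ Real.exp (-(4.4)) :=
    Real.exp_le_exp.2 (by linarith)
  have h2 : (80 : ℝ) ≤ Real.exp 4.4 := by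
    have e : Real.exp 4.4 = Real.exp 1 ^ 4 * Real.exp 0.4 := by
      rw [← Real.exp_nat_mul, ← Real.exp_add]; norm_num
    have h3 := Real.quadratic_le_exp_of_nonneg (x := 0.4) (by norm_num)
    have h4 : (2.7182818283 : ℝ) ^ 4 ≤ Real.exp 1 ^ 4 :=
      pow_le_pow_left₀ (by norm_num) Real.exp_one_gt_d9.le 4
    rw [e]
    calc (80 : ℝ) ≤ 2.7182818283 ^ 4 * (1 + 0.4 + 0.4 ^ 2 / 2) := by norm_num
      _ ≤ _ := by gcongr
  have h5 : Real.exp (-(4.4)) ≤ 1 / 80 := by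
    rw [Real.exp_neg, ← one_div]
    exact one_div_le_one_div_of_le (by norm_num) h2
  linarith

lemma rho2 : 16 * Real.exp (-(3 * (Real.pi * (12 / 37)))) ≤ 77 / 100 := by
  have hpi := Real.pi_gt_d4
  have h1 : Real.exp (-(3 * (Real.pi * (12 / 37)))) ≤ Real.exp (-(3.05)) :=
    Real.exp_le_exp.2 (by linarith)
  have h2 : (1600 / 77 : ℝ) ≤ Real.exp 3.05 := by
    have e : Real.exp 3.05 = Real.exp 1 ^ 3 * Real.exp 0.05 := by
      rw [← Real.exp_nat_mul, ← Real.exp_add]; norm_num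
    have h3 := Real.add_one_le_exp (0.05 : ℝ)
    have h4 : (2.7182818283 : ℝ) ^ 3 ≤ Real.exp 1 ^ 3 :=
      pow_le_pow_left₀ (by norm_num) Real.exp_one_gt_d9.le 3
    rw [e]
    calc (1600 / 77 : ℝ) ≤ 2.7182818283 ^ 3 * (0.05 + 1) := by norm_num
      _ ≤ _ := by gcongr
  have h5 : Real.exp (-(3.05)) ≤ 77 / 1600 := by
    rw [Real.exp_neg]
    calc (Real.exp 3.05)⁻¹ ≤ (1600 / 77 : ℝ)⁻¹ := by gcongr
      _ = 77 / 1600 := by norm_num
  linarith

lemma W1_bound (u : ℝ) : ‖W Y1 u‖ * Real.exp |u| ≤ 1333 * Real.exp (-13 * |u|) := by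
  have hpi := Real.pi_gt_d4
  have h := W_bound (Y := Y1) (c := 8 / 17) (ρ := 1 / 5) (γ := 13)
    (by rw [abs_of_nonneg Y1_nonneg]; exact Y1_lt) cos_Y1 (by norm_num) rho1 (by norm_num)
    (by norm_num at hpi ⊢; linarith) u
  refine h.trans ?_
  gcongr
  norm_num

lemma W2_bound (u : ℝ) : ‖W Y2 u‖ * Real.exp |u| ≤ 16120 * Real.exp (-3 * |u|) := by
  have hpi := Real.pi_gt_d4
  have h := W_bound (Y := Y2) (c := 12 / 37) (ρ := 77 / 100) (γ := 3)
    (by rw [abs_of_nonneg Y2_nonneg]; exact Y2_lt) cos_Y2 (by norm_num) rho2 (by norm_num)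
    (by norm_num at hpi ⊢; linarith) u
  refine h.trans ?_
  gcongr
  norm_num

lemma integrable_exp_abs {a : ℝ} (ha : 1 ≤ a) : Integrable fun u : ℝ => Real.exp (-a * |u|) := by
  refine Integrable.mono' integrable_exp_neg_abs (by fun_prop) (Eventually.of_forall fun u => ?_)
  rw [Real.norm_of_nonneg (Real.exp_pos _).le]
  refine Real.exp_le_exp.2 ?_
  nlinarith [abs_nonneg u]

lemma integral_exp_abs {a : ℝ} (ha : 0 < a) : ∫ u : ℝ, Real.exp (-a * |u|) = 2 / a := by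
  have h := integral_comp_abs (f := fun x : ℝ => Real.exp (-a * x))
  rw [h, integral_exp_mul_Ioi (by linarith : -a < 0)]
  simp
  field_simp

lemma norm_cexp_line_le {z : ℂ} (hz : |z.im| ≤ 1) (u : ℝ) : ‖cexp (I * z * u)‖ ≤ Real.exp |u| := by
  rw [norm_exp]
  refine Real.exp_le_exp.2 ?_
  have : (I * z * u).re = -(z.im * u) := by simp
  rw [this]
  calc -(z.im * u) ≤ |z.im| * |u| := by rw [← abs_mul]; exact neg_le_abs _
    _ ≤ 1 * |u| := by gcongr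
    _ = |u| := one_mul _

lemma GG2_bound {z : ℂ} (hz : |z.im| ≤ 1) : ‖GG Y2 z‖ ≤ 10747 := by
  have h : ‖GG Y2 z‖ ≤ ∫ u : ℝ, 16120 * Real.exp (-3 * |u|) := by
    refine norm_integral_le_of_norm_le ((integrable_exp_abs (by norm_num)).const_mul _)
      (Eventually.of_forall fun u => ?_)
    rw [norm_mul]
    calc ‖W Y2 u‖ * ‖cexp (I * z * u)‖ ≤ ‖W Y2 u‖ * Real.exp |u| := by
          gcongr; exact norm_cexp_line_le hz u
      _ ≤ _ := W2_bound u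
  refine h.trans ?_
  rw [integral_const_mul, integral_exp_abs (by norm_num)]
  norm_num

lemma norm_GG (Y : ℝ) {z : ℂ} (hY0 : 0 ≤ Y) (hY : Y < Real.pi / 8) :
    ‖GG Y z‖ = Real.exp (z.re * Y) * ‖2 * F ((2 : ℕ) : ℝ) z‖ := by
  rw [GG_eq hY0 hY, norm_mul, norm_exp]
  simp

lemma GG1_pos {z : ℂ} (hz : |z.im| ≤ 1) : ‖GG Y1 z‖ ≤ 10747 * Real.exp (-(z.re * (Y2 - Y1))) := by
  have h1 := norm_GG Y1 (z := z) Y1_nonneg Y1_lt
  have h2 := norm_GG Y2 (z := z) Y2_nonneg Y2_lt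
  have h3 : ‖GG Y1 z‖ = Real.exp (-(z.re * (Y2 - Y1))) * ‖GG Y2 z‖ := by
    rw [h1, h2, ← mul_assoc, ← Real.exp_add]
    congr 2; ring
  rw [h3, mul_comm]
  have := GG2_bound hz
  gcongr

lemma GG1_neg {z : ℂ} (hz : |z.im| ≤ 1) (hx : z.re ≤ 0) :
    ‖GG Y1 z‖ ≤ 10747 * Real.exp (z.re * Y2) := by
  have h1 := norm_GG Y1 (z := z) Y1_nonneg Y1_lt
  set z' : ℂ := -(starRingEnd ℂ) z with hz'
  have hre : z'.re = -z.re := by simp [hz']
  have him : z'.im = z.im := by simp [hz']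
  have h2 := norm_GG Y2 (z := z') Y2_nonneg Y2_lt
  have h3 : ‖2 * F ((2 : ℕ) : ℝ) z'‖ = ‖2 * F ((2 : ℕ) : ℝ) z‖ := by
    rw [norm_mul, norm_mul, hz', F_neg, F_conj, RCLike.norm_conj]
  have h4 := GG2_bound (z := z') (by rw [him]; exact hz)
  rw [h2, h3, hre] at h4
  have h5 : Real.exp (z.re * Y1) ≤ 1 := by
    rw [← Real.exp_zero]
    exact Real.exp_le_exp.2 (mul_nonpos_of_nonpos_of_nonneg hx Y1_nonneg)
  have h6 : ‖2 * F ((2 : ℕ) : ℝ) z‖ ≤ 10747 * Real.exp (z.re * Y2) := by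
    have h7 : Real.exp (z.re * Y2) * Real.exp (-z.re * Y2) = 1 := by
      rw [← Real.exp_add]; simp
    calc ‖2 * F ((2 : ℕ) : ℝ) z‖ = Real.exp (z.re * Y2) * (Real.exp (-z.re * Y2) *
          ‖2 * F ((2 : ℕ) : ℝ) z‖) := by rw [← mul_assoc, h7, one_mul]
      _ ≤ Real.exp (z.re * Y2) * 10747 := by gcongr
      _ = _ := mul_comm _ _
  rw [h1]
  calc Real.exp (z.re * Y1) * ‖2 * F ((2 : ℕ) : ℝ) z‖ ≤ 1 * (10747 * Real.exp (z.re * Y2)) := by
        gcongr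
    _ = _ := one_mul _

end Pool.Agent.Helper242.RK
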