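import Pool.Agent.Helper242.RK.Two2

set_option autoImplicit false

/-!
# Poisson summation
-/

namespace Pool.Agent.Helper242.RK

open Complex Filter Topology MeasureTheory FourierTransform

lemma tsum_int_split {f : ℤ → ℂ} (h1 : Summable fun n : ℕ => f ((n : ℤ) + 1))
    (h2 : Summable fun n : ℕ => f (-((n : ℤ) + 1))) :
    Summable f ∧ ∑' n : ℤ, f n = f 0 + ∑' n : ℕ, (f ((n : ℤ) + 1) + f (-((n : ℤ) + 1))) := by
  have h3 : Summable fun n : ℕ => f (n : ℤ) := by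
    rw [← summable_nat_add_iff 1]
    refine h1.congr fun n => ?_
    push_cast; rfl
  refine ⟨Summable.of_nat_of_neg_add_one h3 h2, ?_⟩
  rw [tsum_of_nat_of_neg_add_one h3 h2, h3.tsum_eq_zero_add, Summable.tsum_add h1 h2]
  push_cast
  ring

/-- the function to which Poisson summation is applied -/
noncomputable def fP (z : ℂ) (v : ℝ) : ℂ := W Y1 (v / 128) * cexp (I * z * ((v / 128 : ℝ) : ℂ))

lemma hY1abs : |Y1| < Real.pi / 8 := by rw [abs_of_nonneg Y1_nonneg]; exact Y1_lt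

lemma continuous_fP (z : ℂ) : Continuous (fP z) := by
  have h := continuous_W hY1abs
  unfold fP
  refine (h.comp (by fun_prop)).mul (by fun_prop)

lemma norm_fP {z : ℂ} (hz : |z.im| ≤ 1) (v : ℝ) : ‖fP z v‖ ≤ ‖W Y1 (v / 128)‖ * Real.exp |v / 128| := by
  rw [fP, norm_mul]
  gcongr
  exact norm_cexp_line_le hz _

lemma norm_fP_le {z : ℂ} (hz : |z.im| ≤ 1) (v : ℝ) : ‖fP z v‖ ≤ 1333 * Real.exp (-13 * |v / 128|) :=
  (norm_fP hz v).trans (W1_bound _)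

lemma fP_isBigO {z : ℂ} (hz : |z.im| ≤ 1) : fP z =O[cocompact ℝ] (fun x : ℝ => |x| ^ (-(2 : ℝ))) := by
  refine Asymptotics.IsBigO.of_bound (1333 * 2 * (128 / 13) ^ 2) ?_
  have h0 : ∀ᶠ v : ℝ in cocompact ℝ, v ≠ 0 := by
    have := (isCompact_singleton (x := (0 : ℝ))).compl_mem_cocompact
    filter_upwards [this] with v hv
    exact hv
  filter_upwards [h0] with v hv
  have hv0 : 0 < |v| := abs_pos.2 hv
  refine (norm_fP_le hz v).trans ?_
  have h1 : |v / 128| = |v| / 128 := by rw [abs_div]; norm_num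
  have h2 := exp_neg_le_pow (u := 13 * (|v| / 128)) (by positivity) 2
  rw [h1, Real.norm_of_nonneg (by positivity), Real.rpow_neg hv0.le]
  have h3 : Real.exp (-13 * (|v| / 128)) = Real.exp (-(13 * (|v| / 128))) := by ring_nf
  rw [h3]
  calc 1333 * Real.exp (-(13 * (|v| / 128)))
      ≤ 1333 * (((2 : ℕ).factorial : ℝ) / (13 * (|v| / 128)) ^ 2) := by gcongr
    _ = 1333 * 2 * (128 / 13) ^ 2 * (|v| ^ (2 : ℝ))⁻¹ := by
        rw [show (2 : ℝ) = ((2 : ℕ) : ℝ) by norm_num, Real.rpow_natCast]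
        simp only [Nat.factorial]
        field_simp

lemma fourier_fP (z : ℂ) (w : ℝ) :
    𝓕 (fP z) w = 128 * GG Y1 (z - ((256 * Real.pi * w : ℝ) : ℂ)) := by
  rw [Real.fourier_real_eq_integral_exp_smul]
  have h1 : ∀ v : ℝ, cexp ((-2 * Real.pi * v * w : ℝ) * I) • fP z v =
      (fun u : ℝ => W Y1 u * cexp (I * (z - ((256 * Real.pi * w : ℝ) : ℂ)) * u)) (v * 128⁻¹) := by
    intro v
    simp only [fP, smul_eq_mul]
    rw [mul_left_comm, ← exp_add]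
    have e1 : v / 128 = v * 128⁻¹ := by ring
    rw [e1]
    congr 2
    push_cast
    ring
  simp_rw [h1]
  rw [Measure.integral_comp_mul_right (fun u : ℝ => W Y1 u *
    cexp (I * (z - ((256 * Real.pi * w : ℝ) : ℂ)) * u)), GG]
  simp

lemma exp_neg_37 : Real.exp (-37) ≤ 1 / 10 ^ 16 := by
  have h1 : (10 : ℝ) ^ 16 ≤ Real.exp 37 := by
    have e : Real.exp 37 = Real.exp 1 ^ 37 := by
      rw [← Real.exp_nat_mul]; norm_num
    rw [e]
    calc (10 : ℝ) ^ 16 ≤ 2.718 ^ 37 := by norm_num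
      _ ≤ Real.exp 1 ^ 37 := by
          have := Real.exp_one_gt_d9
          gcongr
          linarith
  rw [Real.exp_neg, ← one_div]
  exact one_div_le_one_div_of_le (by norm_num) h1

lemma exp_decay {x : ℝ} (m : ℕ) (hx : x ≤ -37 - m) : Real.exp x ≤ 1 / 10 ^ 16 * (1 / 2) ^ m := by
  have h1 : Real.exp x ≤ Real.exp (-37) * Real.exp (-1) ^ m := by
    rw [← Real.exp_nat_mul, ← Real.exp_add]
    exact Real.exp_le_exp.2 (by linarith)
  have h2 : Real.exp (-1) ≤ 1 / 2 := by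
    have h3 := Real.add_one_le_exp (1 : ℝ)
    rw [Real.exp_neg, ← one_div]
    exact one_div_le_one_div_of_le (by norm_num) (by linarith)
  have h4 := exp_neg_37
  calc Real.exp x ≤ Real.exp (-37) * Real.exp (-1) ^ m := h1
    _ ≤ _ := by gcongr

lemma pi256 : (803.84 : ℝ) ≤ 256 * Real.pi := by
  have := Real.pi_gt_d2
  norm_num at this ⊢
  linarith

lemma shift_pos {z : ℂ} (hz : |z.im| ≤ 1) (hx : 150 ≤ z.re) (m : ℕ) :
    ‖GG Y1 (z + ((256 * Real.pi * (m + 1) : ℝ) : ℂ))‖ ≤ 10747 * (1 / 10 ^ 16 * (1 / 2) ^ m) := by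
  have him : (z + ((256 * Real.pi * (m + 1) : ℝ) : ℂ)).im = z.im := by
    rw [add_im, ofReal_im, add_zero]
  have hre : (z + ((256 * Real.pi * (m + 1) : ℝ) : ℂ)).re = z.re + 256 * Real.pi * (m + 1) := by
    rw [add_re, ofReal_re]
  have h := GG1_pos (z := z + ((256 * Real.pi * (m + 1) : ℝ) : ℂ)) (by rw [him]; exact hz)
  refine h.trans ?_
  have h2 : -((z + ((256 * Real.pi * (m + 1) : ℝ) : ℂ)).re * (Y2 - Y1)) ≤ -37 - m := by
    rw [hre]
    have hpi := pi256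
    have hm : (0 : ℝ) ≤ m := Nat.cast_nonneg m
    have h3 : 953 + 803 * (m : ℝ) ≤ z.re + 256 * Real.pi * (m + 1) := by
      have h804 : (803.84 : ℝ) * ((m : ℝ) + 1) ≤ 256 * Real.pi * (m + 1) := by gcongr
      norm_num at h804 ⊢
      linarith
    have h4 := Y_diff
    have h5 : (953 + 803 * (m : ℝ)) * (25 / 629) ≤
        (z.re + 256 * Real.pi * (m + 1)) * (Y2 - Y1) := by
      gcongr
    linarith
  have h3 := exp_decay m h2
  gcongr

lemma shift_neg {z : ℂ} (hz : |z.im| ≤ 1) (hx : z.re ≤ 160) (m : ℕ) :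
    ‖GG Y1 (z - ((256 * Real.pi * (m + 1) : ℝ) : ℂ))‖ ≤ 10747 * (1 / 10 ^ 16 * (1 / 2) ^ m) := by
  have him : (z - ((256 * Real.pi * (m + 1) : ℝ) : ℂ)).im = z.im := by
    rw [sub_im, ofReal_im, sub_zero]
  have hre : (z - ((256 * Real.pi * (m + 1) : ℝ) : ℂ)).re = z.re - 256 * Real.pi * (m + 1) := by
    rw [sub_re, ofReal_re]
  have hpi := pi256
  have hm : (0 : ℝ) ≤ m := Nat.cast_nonneg m
  have h3 : z.re - 256 * Real.pi * (m + 1) ≤ -(640 + 803 * (m : ℝ)) := by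
    have h804 : (803.84 : ℝ) * ((m : ℝ) + 1) ≤ 256 * Real.pi * (m + 1) := by gcongr
    norm_num at h804 ⊢
    linarith
  have h := GG1_neg (z := z - ((256 * Real.pi * (m + 1) : ℝ) : ℂ)) (by rw [him]; exact hz)
    (by rw [hre]; linarith)
  refine h.trans ?_
  have h2 : (z - ((256 * Real.pi * (m + 1) : ℝ) : ℂ)).re * Y2 ≤ -37 - m := by
    rw [hre]
    have h4 := Y2_ge
    have h5 : (640 + 803 * (m : ℝ)) * (35 / 148) ≤ (640 + 803 * (m : ℝ)) * Y2 := by gcongr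
    have h6 : (z.re - 256 * Real.pi * (m + 1)) * Y2 ≤ -(640 + 803 * (m : ℝ)) * Y2 :=
      mul_le_mul_of_nonneg_right h3 Y2_nonneg
    linarith
  have h3 := exp_decay m h2
  gcongr

lemma hasSum_half : HasSum (fun m : ℕ => (1 / 2 : ℝ) ^ m) 2 := by
  have := hasSum_geometric_of_lt_one (r := (1 / 2 : ℝ)) (by norm_num) (by norm_num)
  norm_num at this
  convert this using 1

lemma fourier_pos {z : ℂ} (hz : |z.im| ≤ 1) (hx : z.re ≤ 160) (m : ℕ) :
    ‖𝓕 (fP z) (((m : ℤ) + 1 : ℤ) : ℝ)‖ ≤ 128 * 10747 / 10 ^ 16 * (1 / 2) ^ m := by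
  rw [fourier_fP, norm_mul]
  have e : ((256 * Real.pi * (((m : ℤ) + 1 : ℤ) : ℝ) : ℝ)) = (256 * Real.pi * (m + 1) : ℝ) := by
    push_cast; ring
  rw [e]
  have h := shift_neg hz hx m
  have h8 : ‖(128 : ℂ)‖ = 128 := by simp
  rw [h8]
  calc 128 * ‖GG Y1 (z - ((256 * Real.pi * (m + 1) : ℝ) : ℂ))‖
      ≤ 128 * (10747 * (1 / 10 ^ 16 * (1 / 2) ^ m)) := by gcongr
    _ = _ := by ring

lemma fourier_neg {z : ℂ} (hz : |z.im| ≤ 1) (hx : 150 ≤ z.re) (m : ℕ) :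
    ‖𝓕 (fP z) ((-((m : ℤ) + 1) : ℤ) : ℝ)‖ ≤ 128 * 10747 / 10 ^ 16 * (1 / 2) ^ m := by
  rw [fourier_fP, norm_mul]
  have e : z - ((256 * Real.pi * ((-((m : ℤ) + 1) : ℤ) : ℝ) : ℝ) : ℂ) =
      z + ((256 * Real.pi * (m + 1) : ℝ) : ℂ) := by
    push_cast; ring
  rw [e]
  have h := shift_pos hz hx m
  have h8 : ‖(128 : ℂ)‖ = 128 := by simp
  rw [h8]
  calc 128 * ‖GG Y1 (z + ((256 * Real.pi * (m + 1) : ℝ) : ℂ))‖
      ≤ 128 * (10747 * (1 / 10 ^ 16 * (1 / 2) ^ m)) := by gcongr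
    _ = _ := by ring

lemma norm_fP_int {z : ℂ} (hz : |z.im| ≤ 1) (m : ℕ) (s : ℝ) (hs : |s| = (m : ℝ) + 1) :
    ‖fP z s‖ ≤ 1333 * (Real.exp (-13 / 128)) ^ m := by
  refine (norm_fP_le hz s).trans ?_
  rw [← Real.exp_nat_mul]
  refine mul_le_mul_of_nonneg_left (Real.exp_le_exp.2 ?_) (by norm_num)
  rw [abs_div, hs]
  norm_num
  linarith

lemma poisson {z : ℂ} (hz : |z.im| ≤ 1) (hx1 : 150 ≤ z.re) (hx2 : z.re ≤ 160) :
    ‖(fP z 0 + ∑' n : ℕ, (fP z ((n : ℝ) + 1) + fP z (-((n : ℝ) + 1)))) - 128 * GG Y1 z‖ ≤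
      6 / 10 ^ 10 := by
  have hr1 : Real.exp (-13 / 128) < 1 := by rw [Real.exp_lt_one_iff]; norm_num
  have hg := (summable_geometric_of_lt_one (Real.exp_pos _).le hr1).mul_left 1333
  have a1 : Summable fun n : ℕ => fP z (((n : ℤ) + 1 : ℤ) : ℝ) := by
    refine Summable.of_norm_bounded hg fun n => norm_fP_int hz n _ ?_
    push_cast
    exact abs_of_pos (by positivity)
  have a2 : Summable fun n : ℕ => fP z ((-((n : ℤ) + 1) : ℤ) : ℝ) := by
    refine Summable.of_norm_bounded hg fun n => norm_fP_int hz n _ ?_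
    push_cast
    rw [abs_of_neg (by linarith [Nat.cast_nonneg (α := ℝ) n])]
    ring
  have hh := hasSum_half.summable.mul_left (128 * 10747 / 10 ^ 16 : ℝ)
  have b1 : Summable fun n : ℕ => 𝓕 (fP z) (((n : ℤ) + 1 : ℤ) : ℝ) :=
    Summable.of_norm_bounded hh fun n => fourier_pos hz hx2 n
  have b2 : Summable fun n : ℕ => 𝓕 (fP z) ((-((n : ℤ) + 1) : ℤ) : ℝ) :=
    Summable.of_norm_bounded hh fun n => fourier_neg hz hx1 n
  obtain ⟨_, hS1⟩ := tsum_int_split (f := fun n : ℤ => fP z (n : ℝ)) a1 a2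
  obtain ⟨hsum2, hS2⟩ := tsum_int_split (f := fun n : ℤ => 𝓕 (fP z) (n : ℝ)) b1 b2
  have hP := Real.tsum_eq_tsum_fourier_of_rpow_decay_of_summable (continuous_fP z) (b := 2)
    (by norm_num) (fP_isBigO hz) hsum2 0
  simp only [zero_add, QuotientAddGroup.mk_zero, fourier_eval_zero, mul_one] at hP
  have h0 : 𝓕 (fP z) ((0 : ℤ) : ℝ) = 128 * GG Y1 z := by
    rw [fourier_fP]; simp
  have hL : fP z 0 + ∑' n : ℕ, (fP z ((n : ℝ) + 1) + fP z (-((n : ℝ) + 1))) =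
      ∑' n : ℤ, fP z (n : ℝ) := by
    rw [hS1]
    push_cast
    rfl
  rw [hL, hP, hS2, h0, add_sub_cancel_left]
  have hfin := hasSum_half.mul_left (2 * (128 * 10747 / 10 ^ 16) : ℝ)
  have : ‖∑' n : ℕ, (𝓕 (fP z) (((n : ℤ) + 1 : ℤ) : ℝ) + 𝓕 (fP z) ((-((n : ℤ) + 1) : ℤ) : ℝ))‖ ≤
      2 * (128 * 10747 / 10 ^ 16) * 2 := by
    refine tsum_of_norm_bounded hfin fun n => ?_
    refine (norm_add_le _ _).trans ?_
    have c1 := fourier_pos hz hx2 n
    have c2 := fourier_neg hz hx1 n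
    linarith
  refine this.trans ?_
  norm_num

end Pool.Agent.Helper242.RK
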