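import Pool.Agent.Helper242.RK.Two3

set_option autoImplicit false

/-!
# Comparison of the transform with the finite sum
-/

namespace Pool.Agent.Helper242.RK

open Complex Filter Topology MeasureTheory FourierTransform

lemma W_neg {Y : ℝ} (hY : |Y| < Real.pi / 8) (u : ℝ) : W Y (-u) = (starRingEnd ℂ) (W Y u) := by
  have hS : (u : ℂ) - Y * I ∈ S := by
    simp only [S, Set.mem_ofPred_eq]
    simpa using hY
  have h1 : ((-u : ℝ) : ℂ) + Y * I = -((u : ℂ) - Y * I) := by push_cast; ring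
  have h2 : (starRingEnd ℂ) ((u : ℂ) + Y * I) = (u : ℂ) - Y * I := by
    simp; ring
  rw [W, W, h1, PhiC_even hS, ← h2, conj_PhiC, map_pow]

lemma sqrt34_sq : ((Real.sqrt 34 : ℝ) : ℂ) ^ 2 = 34 := by
  rw [← ofReal_pow, Real.sq_sqrt (by norm_num)]; norm_num

lemma sqrt34_exp : ((Real.sqrt 34 : ℝ) : ℂ) * cexp (2 * Y1 * I) = 5 + 3 * I := by
  have h34 : 0 < Real.sqrt 34 := Real.sqrt_pos.2 (by norm_num)
  have hsq : Real.sqrt 34 ^ 2 = 34 := Real.sq_sqrt (by norm_num)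
  have hc : 0 < Real.cos (2 * Y1) := by
    refine Real.cos_pos_of_mem_Ioo ⟨?_, ?_⟩
    · have := Y1_nonneg; have := Real.pi_pos; linarith
    · have := Y1_lt; have := Real.pi_pos; linarith
  have h1 : Real.cos (4 * Y1) = 2 * Real.cos (2 * Y1) ^ 2 - 1 := by
    rw [← Real.cos_two_mul]; congr 1; ring
  have h2 : Real.sin (4 * Y1) = 2 * Real.sin (2 * Y1) * Real.cos (2 * Y1) := by
    rw [← Real.sin_two_mul]; congr 1; ring
  rw [cos_Y1] at h1
  rw [sin_Y1] at h2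
  have h3 : Real.sqrt 34 * Real.cos (2 * Y1) = 5 := by
    have : (Real.sqrt 34 * Real.cos (2 * Y1)) ^ 2 = 5 ^ 2 := by
      rw [mul_pow, hsq]; linarith
    exact (pow_left_inj₀ (by positivity) (by norm_num) (by norm_num)).1 this
  have h4 : Real.sqrt 34 * Real.sin (2 * Y1) = 3 := by
    have : (Real.sqrt 34 * Real.sin (2 * Y1)) * (Real.sqrt 34 * Real.cos (2 * Y1)) = 15 := by
      calc _ = Real.sqrt 34 ^ 2 * (2 * Real.sin (2 * Y1) * Real.cos (2 * Y1)) / 2 := by ring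
        _ = 15 := by rw [hsq, ← h2]; norm_num
    rw [h3] at this
    linarith
  have h5 : cexp (2 * Y1 * I) = ((Real.cos (2 * Y1) : ℝ) : ℂ) + ((Real.sin (2 * Y1) : ℝ) : ℂ) * I := by
    rw [show (2 : ℂ) * Y1 * I = ((2 * Y1 : ℝ) : ℂ) * I by push_cast; ring, exp_mul_I]
    push_cast; rfl
  rw [h5, mul_add, ← mul_assoc, ← ofReal_mul, ← ofReal_mul, h3, h4]
  push_cast; rfl

/-- exact coefficients -/
noncomputable def VI (k : ℕ) : ℂ := (5 + 3 * I) * cexp ((k / 64 : ℝ)) * (g (sT k) * g (sT k))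

lemma sqrt34_W (k : ℕ) : ((Real.sqrt 34 : ℝ) : ℂ) * W Y1 ((k : ℝ) / 128) = VI k := by
  set t : ℂ := (((k : ℝ) / 128 : ℝ) : ℂ) + Y1 * I with ht
  have h1 : (Real.pi : ℂ) * cexp (4 * t) = sT k := by
    have e1 : (4 : ℂ) * t = ((k / 32 : ℝ) : ℂ) + ((4 * Y1 : ℝ) : ℂ) * I := by
      rw [ht]; push_cast; ring
    rw [e1, exp_add, exp_mul_I, ← ofReal_cos, ← ofReal_sin, cos_Y1, sin_Y1, sT]
    push_cast
    ring
  have h2 : W Y1 ((k : ℝ) / 128) = cexp (2 * t) * (g (sT k) * g (sT k)) := by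
    rw [W, ← ht, PhiC, h1, mul_pow, ← exp_nat_mul]
    push_cast
    ring
  have h3 : cexp (2 * t) = cexp ((k / 64 : ℝ)) * cexp (2 * Y1 * I) := by
    rw [← exp_add]; congr 1; rw [ht]; push_cast; ring
  rw [h2, h3, VI, ← sqrt34_exp]
  ring

/-- exact terms -/
noncomputable def termI (z : ℂ) (k : ℕ) : ℂ :=
  VI k * cexp (I * z * (k / 128 : ℝ)) + (starRingEnd ℂ) (VI k) * cexp (-(I * z * (k / 128 : ℝ)))

lemma fP_pair (z : ℂ) (k : ℕ) :
    ((Real.sqrt 34 : ℝ) : ℂ) * (fP z (k : ℝ) + fP z (-(k : ℝ))) = termI z k := by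
  have h1 : -(k : ℝ) / 128 = -((k : ℝ) / 128) := by ring
  rw [fP, fP, h1, W_neg hY1abs, termI, ← sqrt34_W, map_mul, conj_ofReal]
  have h2 : cexp (I * z * ((-((k : ℝ) / 128) : ℝ) : ℂ)) = cexp (-(I * z * ((k / 128 : ℝ) : ℂ))) := by
    congr 1; push_cast; ring
  rw [h2]
  ring

lemma fP_zero (z : ℂ) : ((Real.sqrt 34 : ℝ) : ℂ) * fP z 0 = VI 0 := by
  have h := sqrt34_W 0
  rw [fP, ← h]
  simp

lemma sumT_eq (z : ℂ) (K : ℕ) : sumT z K = VT 0 + ∑ k ∈ Finset.range K, termT z (k + 1) := by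
  induction K with
  | zero => simp [sumT]
  | succ K ih => rw [sumT, ih, Finset.sum_range_succ]; ring

lemma sT_re (k : ℕ) : (sT k).re = 8 * Real.pi / 17 * Real.exp (k / 32) := by
  rw [sT, ← ofReal_exp, re_mul_ofReal]
  simp

lemma norm_sT_eq (k : ℕ) : ‖sT k‖ = 17 / 8 * (sT k).re := by
  rw [norm_sT, sT_re]; ring

lemma sT_re_ge (k : ℕ) : 1.478 ≤ (sT k).re := by
  rw [sT_re]
  have h1 : 1 ≤ Real.exp ((k : ℝ) / 32) := Real.one_le_exp (by positivity)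
  have h2 := Real.pi_gt_d4
  have h3 : (1.478 : ℝ) ≤ 8 * Real.pi / 17 := by norm_num at h2 ⊢; linarith
  calc (1.478 : ℝ) ≤ 8 * Real.pi / 17 := h3
    _ ≤ 8 * Real.pi / 17 * Real.exp (k / 32) := le_mul_of_one_le_right (by positivity) h1

lemma poly_exp {y : ℝ} (hy : 0 ≤ y) :
    (2 * (17 / 8 * y) ^ 2 + 3 * (17 / 8 * y)) * Real.exp (-y) ≤ 25 := by
  have h1 := Real.quadratic_le_exp_of_nonneg hy
  have h2 : (2 * (17 / 8 * y) ^ 2 + 3 * (17 / 8 * y)) ≤ 25 * Real.exp y := by nlinarith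
  calc (2 * (17 / 8 * y) ^ 2 + 3 * (17 / 8 * y)) * Real.exp (-y)
      ≤ 25 * Real.exp y * Real.exp (-y) := by gcongr
    _ = 25 := by rw [mul_assoc, ← Real.exp_add]; simp

lemma g_sT (k : ℕ) : ‖g (sT k)‖ ≤ 32 := by
  have hre := sT_re_ge k
  have hpos : 0 < (sT k).re := by linarith
  have hρ : 16 * Real.exp (-(3 * (sT k).re)) ≤ 1 / 5 := by
    refine le_trans ?_ rho1
    have : Real.exp (-(3 * (sT k).re)) ≤ Real.exp (-(3 * (Real.pi * (8 / 17)))) := by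
      refine Real.exp_le_exp.2 ?_
      rw [sT_re]
      have h1 : 1 ≤ Real.exp ((k : ℝ) / 32) := Real.one_le_exp (by positivity)
      have := Real.pi_pos
      nlinarith
    linarith
  have h := norm_g_le3 hpos hρ (by norm_num)
  rw [norm_sT_eq] at h
  have h2 := poly_exp hpos.le
  calc ‖g (sT k)‖ ≤ (2 * (17 / 8 * (sT k).re) ^ 2 + 3 * (17 / 8 * (sT k).re)) *
        (Real.exp (-(sT k).re) * (1 - 1 / 5)⁻¹) := h
    _ = (2 * (17 / 8 * (sT k).re) ^ 2 + 3 * (17 / 8 * (sT k).re)) * Real.exp (-(sT k).re) *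
        (5 / 4) := by norm_num; ring
    _ ≤ 25 * (5 / 4) := by gcongr
    _ ≤ 32 := by norm_num

lemma g_sub_gT_sT (k : ℕ) : ‖g (sT k) - gT (sT k)‖ ≤ 26 / 10 ^ 15 := by
  have hre := sT_re_ge k
  have hpos : 0 < (sT k).re := by linarith
  have hρ : 16 * Real.exp (-(7 * (sT k).re)) ≤ 1 / 1000 := by
    have h1 : Real.exp (-(7 * (sT k).re)) ≤ Real.exp (-10) := Real.exp_le_exp.2 (by linarith)
    have h2 : (16000 : ℝ) ≤ Real.exp 10 := by
      have e : Real.exp 10 = Real.exp 1 ^ 10 := by rw [← Real.exp_nat_mul]; norm_num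
      rw [e]
      calc (16000 : ℝ) ≤ 2.718 ^ 10 := by norm_num
        _ ≤ Real.exp 1 ^ 10 := by
            have := Real.exp_one_gt_d9
            gcongr
            linarith
    have h3 : Real.exp (-10) ≤ 1 / 16000 := by
      rw [Real.exp_neg, ← one_div]
      exact one_div_le_one_div_of_le (by norm_num) h2
    linarith
  have h := norm_g_sub_gT hpos hρ (by norm_num)
  rw [norm_sT_eq] at h
  have h2 := poly_exp hpos.le
  calc ‖g (sT k) - gT (sT k)‖ ≤ (2 * (17 / 8 * (sT k).re) ^ 2 + 3 * (17 / 8 * (sT k).re)) *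
        (Real.exp (-(sT k).re) * ((1 / 1000) ^ 5 * (1 - 1 / 1000)⁻¹)) := h
    _ = (2 * (17 / 8 * (sT k).re) ^ 2 + 3 * (17 / 8 * (sT k).re)) * Real.exp (-(sT k).re) *
        ((1 / 1000) ^ 5 * (1 - 1 / 1000)⁻¹) := by ring
    _ ≤ 25 * ((1 / 1000) ^ 5 * (1 - 1 / 1000)⁻¹) := by gcongr
    _ ≤ 26 / 10 ^ 15 := by norm_num

lemma VI_sub_VT {k : ℕ} (hk : k ≤ 96) : ‖VI k - VT k‖ ≤ 76 / 10 ^ 12 := by
  have hk' : (k : ℝ) ≤ 96 := by exact_mod_cast hk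
  have h1 : VI k - VT k = (5 + 3 * I) * cexp ((k / 64 : ℝ)) *
      ((g (sT k) - gT (sT k)) * (g (sT k) + gT (sT k))) := by
    rw [VI, VT]; ring
  have h2 : ‖(5 + 3 * I : ℂ)‖ ≤ 6 := by
    have e : (5 + 3 * I : ℂ) = ((5 : ℝ) : ℂ) + ((3 : ℝ) : ℂ) * I := by push_cast; ring
    rw [e, norm_add_mul_I]
    rw [show (6 : ℝ) = Real.sqrt (6 ^ 2) by rw [Real.sqrt_sq (by norm_num)]]
    exact Real.sqrt_le_sqrt (by norm_num)
  have h3 : ‖cexp ((k / 64 : ℝ))‖ ≤ 7.4 := by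
    rw [norm_exp, ofReal_re]
    have : Real.exp ((k : ℝ) / 64) ≤ Real.exp 1 ^ 2 := by
      rw [← Real.exp_nat_mul]
      refine Real.exp_le_exp.2 ?_
      push_cast; linarith
    have h4 : Real.exp 1 ^ 2 ≤ 2.7182818286 ^ 2 :=
      pow_le_pow_left₀ (Real.exp_pos _).le Real.exp_one_lt_d9.le 2
    refine this.trans (h4.trans (by norm_num))
  have h4 := g_sub_gT_sT k
  have h5 := g_sT k
  have h6 : ‖g (sT k) + gT (sT k)‖ ≤ 65 := by
    have e : g (sT k) + gT (sT k) = g (sT k) + g (sT k) - (g (sT k) - gT (sT k)) := by ring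
    rw [e]
    refine (norm_sub_le _ _).trans ?_
    have := norm_add_le (g (sT k)) (g (sT k))
    norm_num at h4
    linarith
  rw [h1, norm_mul, norm_mul, norm_mul]
  calc ‖(5 + 3 * I : ℂ)‖ * ‖cexp ((k / 64 : ℝ))‖ *
        (‖g (sT k) - gT (sT k)‖ * ‖g (sT k) + gT (sT k)‖)
      ≤ 6 * 7.4 * (26 / 10 ^ 15 * 65) := by gcongr
    _ ≤ 76 / 10 ^ 12 := by norm_num

lemma termI_sub_termT {z : ℂ} (hz : |z.im| ≤ 1) {k : ℕ} (hk : k ≤ 96) :
    ‖termI z k - termT z k‖ ≤ 42 / 10 ^ 11 := by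
  have hk' : (k : ℝ) ≤ 96 := by exact_mod_cast hk
  have h1 : termI z k - termT z k = (VI k - VT k) * cexp (I * z * (k / 128 : ℝ)) +
      (starRingEnd ℂ) (VI k - VT k) * cexp (-(I * z * (k / 128 : ℝ))) := by
    rw [termI, termT, map_sub]; ring
  have h2 := VI_sub_VT hk
  have hexp : Real.exp |(k : ℝ) / 128| ≤ 2.72 := by
    have : Real.exp |(k : ℝ) / 128| ≤ Real.exp 1 := by
      refine Real.exp_le_exp.2 ?_
      rw [abs_of_nonneg (by positivity)]; linarith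
    have := Real.exp_one_lt_d9
    norm_num at this ⊢
    linarith
  have h3 : ‖cexp (I * z * (k / 128 : ℝ))‖ ≤ 2.72 := (norm_cexp_line_le hz _).trans hexp
  have h4 : ‖cexp (-(I * z * (k / 128 : ℝ)))‖ ≤ 2.72 := by
    have e : -(I * z * ((k / 128 : ℝ) : ℂ)) = I * z * ((-(k / 128) : ℝ) : ℂ) := by push_cast; ring
    rw [e]
    refine (norm_cexp_line_le hz _).trans ?_
    rw [abs_neg]; exact hexp
  rw [h1]
  refine (norm_add_le _ _).trans ?_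
  rw [norm_mul, norm_mul, RCLike.norm_conj]
  calc ‖VI k - VT k‖ * ‖cexp (I * z * (k / 128 : ℝ))‖ +
        ‖VI k - VT k‖ * ‖cexp (-(I * z * (k / 128 : ℝ)))‖
      ≤ 76 / 10 ^ 12 * 2.72 + 76 / 10 ^ 12 * 2.72 := by gcongr
    _ ≤ 42 / 10 ^ 11 := by norm_num

lemma W1_far (j : ℕ) {u : ℝ} (hu : |u| = (97 + (j : ℝ)) / 128) :
    ‖W Y1 u‖ * Real.exp |u| ≤ 1333 * (1 / 10 ^ 16 * (1 / 2) ^ j) := by
  have hj : (0 : ℝ) ≤ j := Nat.cast_nonneg j
  have h1 := PhiC_majorant hY1abs cos_Y1 (by norm_num) rho1 (by norm_num) u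
  rw [W, norm_pow]
  have h2 : ‖PhiC ((u : ℂ) + Y1 * I)‖ ^ 2 ≤ (146 / 5 * (1 - 1 / 5)⁻¹ *
      Real.exp (9 * |u| - Real.pi * (8 / 17) * Real.exp (4 * |u|))) ^ 2 := by gcongr
  have h3 : 20 * (4 * |u| - 2) ≤ Real.exp (4 * |u|) := by
    have e : Real.exp (4 * |u|) = Real.exp 1 ^ 3 * Real.exp (4 * |u| - 3) := by
      rw [← Real.exp_nat_mul, ← Real.exp_add]; congr 1; push_cast; ring
    have h4 := Real.add_one_le_exp (4 * |u| - 3)
    have h5 : (20 : ℝ) ≤ Real.exp 1 ^ 3 := by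
      calc (20 : ℝ) ≤ 2.7182818283 ^ 3 := by norm_num
        _ ≤ _ := pow_le_pow_left₀ (by norm_num) Real.exp_one_gt_d9.le 3
    rw [e]
    have h6 : 0 ≤ 4 * |u| - 2 := by rw [hu]; linarith
    calc 20 * (4 * |u| - 2) ≤ Real.exp 1 ^ 3 * (4 * |u| - 3 + 1) := by
          have : 4 * |u| - 3 + 1 = 4 * |u| - 2 := by ring
          rw [this]; gcongr
      _ ≤ _ := by gcongr
  have hexp : 2 * (9 * |u| - Real.pi * (8 / 17) * Real.exp (4 * |u|)) + |u| ≤ -37 - j := by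
    have hpi := Real.pi_gt_d4
    have h6 : 0 ≤ 4 * |u| - 2 := by rw [hu]; linarith
    have h7 : (1.478 : ℝ) ≤ Real.pi * (8 / 17) := by norm_num at hpi ⊢; linarith
    have h8 : 1.478 * (20 * (4 * |u| - 2)) ≤ Real.pi * (8 / 17) * Real.exp (4 * |u|) := by
      gcongr
    rw [hu] at h8 ⊢
    norm_num at h8 ⊢
    linarith
  have h9 := exp_decay j hexp
  calc ‖PhiC ((u : ℂ) + Y1 * I)‖ ^ 2 * Real.exp |u|
      ≤ (146 / 5 * (1 - 1 / 5)⁻¹ *
        Real.exp (9 * |u| - Real.pi * (8 / 17) * Real.exp (4 * |u|))) ^ 2 * Real.exp |u| := by gcongr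
    _ = (146 / 5 * (1 - 1 / 5)⁻¹) ^ 2 *
        Real.exp (2 * (9 * |u| - Real.pi * (8 / 17) * Real.exp (4 * |u|)) + |u|) := by
        rw [mul_pow, ← Real.exp_nat_mul, mul_assoc, ← Real.exp_add]
        push_cast; rfl
    _ ≤ 1333 * (1 / 10 ^ 16 * (1 / 2) ^ j) := by
        refine mul_le_mul (by norm_num) h9 (Real.exp_pos _).le (by norm_num)

lemma termI_far {z : ℂ} (hz : |z.im| ≤ 1) (j : ℕ) :
    ‖termI z (j + 96 + 1)‖ ≤ 6 * (2 * 1333 / 10 ^ 16) * (1 / 2) ^ j := by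
  rw [← fP_pair, norm_mul, norm_real, Real.norm_of_nonneg (Real.sqrt_nonneg _)]
  have h34 : Real.sqrt 34 ≤ 6 := by
    rw [show (6 : ℝ) = Real.sqrt (6 ^ 2) by rw [Real.sqrt_sq (by norm_num)]]
    exact Real.sqrt_le_sqrt (by norm_num)
  have hj : (0 : ℝ) ≤ j := Nat.cast_nonneg j
  have e1 : |((j + 96 + 1 : ℕ) : ℝ) / 128| = (97 + (j : ℝ)) / 128 := by
    rw [abs_of_nonneg (by positivity)]; push_cast; ring
  have e2 : |-((j + 96 + 1 : ℕ) : ℝ) / 128| = (97 + (j : ℝ)) / 128 := by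
    rw [neg_div, abs_neg, e1]
  have h1 := (norm_fP hz ((j + 96 + 1 : ℕ) : ℝ)).trans (W1_far j e1)
  have h2 := (norm_fP hz (-((j + 96 + 1 : ℕ) : ℝ))).trans (W1_far j e2)
  calc Real.sqrt 34 * ‖fP z ((j + 96 + 1 : ℕ) : ℝ) + fP z (-((j + 96 + 1 : ℕ) : ℝ))‖
      ≤ 6 * (1333 * (1 / 10 ^ 16 * (1 / 2) ^ j) + 1333 * (1 / 10 ^ 16 * (1 / 2) ^ j)) := by
        gcongr
        exact (norm_add_le _ _).trans (add_le_add h1 h2)
    _ = _ := by ring

/-- the normalised transform -/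
noncomputable def Gm (z : ℂ) : ℂ := ((Real.sqrt 34 : ℝ) : ℂ) * (128 * GG Y1 z)

lemma Gm_approx {z : ℂ} (hz : |z.im| ≤ 1) (hx1 : 150 ≤ z.re) (hx2 : z.re ≤ 160) :
    ‖Gm z - sumT z 96‖ ≤ 5 / 10 ^ 8 := by
  have hP := poisson hz hx1 hx2
  set Sp := ∑' n : ℕ, (fP z ((n : ℝ) + 1) + fP z (-((n : ℝ) + 1))) with hSp
  have hterm : ∀ n : ℕ, ((Real.sqrt 34 : ℝ) : ℂ) * (fP z ((n : ℝ) + 1) + fP z (-((n : ℝ) + 1))) =
      termI z (n + 1) := by
    intro n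
    rw [← fP_pair]; push_cast; rfl
  have hsumm : Summable fun n : ℕ => termI z (n + 1) := by
    rw [← summable_nat_add_iff 96]
    exact Summable.of_norm_bounded (hasSum_half.summable.mul_left (6 * (2 * 1333 / 10 ^ 16) : ℝ))
      fun j => termI_far hz j
  have h1 : ((Real.sqrt 34 : ℝ) : ℂ) * (fP z 0 + Sp) = VI 0 + ∑' n : ℕ, termI z (n + 1) := by
    rw [mul_add, fP_zero, hSp, ← tsum_mul_left]
    congr 1
    exact tsum_congr hterm
  have h2 : ∑' n : ℕ, termI z (n + 1) = ∑ n ∈ Finset.range 96, termI z (n + 1) +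
      ∑' j : ℕ, termI z (j + 96 + 1) := (hsumm.sum_add_tsum_nat_add 96).symm
  have h3 : Gm z - sumT z 96 = -(((Real.sqrt 34 : ℝ) : ℂ) * ((fP z 0 + Sp) - 128 * GG Y1 z)) +
      (VI 0 - VT 0) + ∑ n ∈ Finset.range 96, (termI z (n + 1) - termT z (n + 1)) +
      ∑' j : ℕ, termI z (j + 96 + 1) := by
    rw [mul_sub, h1, h2, sumT_eq, Gm, Finset.sum_sub_distrib]
    ring
  have h34 : Real.sqrt 34 ≤ 6 := by
    rw [show (6 : ℝ) = Real.sqrt (6 ^ 2) by rw [Real.sqrt_sq (by norm_num)]]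
    exact Real.sqrt_le_sqrt (by norm_num)
  have b1 : ‖-(((Real.sqrt 34 : ℝ) : ℂ) * ((fP z 0 + Sp) - 128 * GG Y1 z))‖ ≤ 6 * (6 / 10 ^ 10) := by
    rw [norm_neg, norm_mul, norm_real, Real.norm_of_nonneg (Real.sqrt_nonneg _)]
    gcongr
  have b2 := VI_sub_VT (k := 0) (by norm_num)
  have b3 : ‖∑ n ∈ Finset.range 96, (termI z (n + 1) - termT z (n + 1))‖ ≤ 96 * (42 / 10 ^ 11) := by
    refine (norm_sum_le _ _).trans ?_
    calc ∑ n ∈ Finset.range 96, ‖termI z (n + 1) - termT z (n + 1)‖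
        ≤ ∑ _n ∈ Finset.range 96, (42 / 10 ^ 11 : ℝ) := by
          refine Finset.sum_le_sum fun n hn => termI_sub_termT hz ?_
          have := Finset.mem_range.1 hn
          omega
      _ = 96 * (42 / 10 ^ 11) := by simp
  have b4 : ‖∑' j : ℕ, termI z (j + 96 + 1)‖ ≤ 6 * (2 * 1333 / 10 ^ 16) * 2 :=
    tsum_of_norm_bounded (hasSum_half.mul_left (6 * (2 * 1333 / 10 ^ 16) : ℝ))
      fun j => termI_far hz j
  rw [h3]
  refine (norm_add_le _ _).trans ?_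
  have c1 := norm_add₃_le (a := -(((Real.sqrt 34 : ℝ) : ℂ) * ((fP z 0 + Sp) - 128 * GG Y1 z)))
    (b := VI 0 - VT 0) (c := ∑ n ∈ Finset.range 96, (termI z (n + 1) - termT z (n + 1)))
  norm_num at b1 b2 b3 b4 c1 ⊢
  linarith

end Pool.Agent.Helper242.RK
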