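import Pool.Agent.Helper242.RK.Two4
import Pool.Agent.Helper242.RK.Num3
import Pool.Agent.Helper242.RK.Num4

set_option autoImplicit false

/-!
# A non-real zero for the exponent two
-/

namespace Pool.Agent.Helper242.RK

open Complex Filter Topology MeasureTheory

lemma norm_exp_sub_one_sub (w : ℂ) : ‖cexp w - 1 - w‖ ≤ ‖w‖ ^ 2 * Real.exp ‖w‖ := by
  have h := norm_exp_sub_sum_le_norm_mul_exp w 2
  have e : cexp w - ∑ m ∈ Finset.range 2, w ^ m / (m.factorial : ℂ) = cexp w - 1 - w := by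
    simp [Finset.sum_range_succ]; ring
  rwa [e] at h

lemma integral_sq_exp : ∫ u : ℝ, u ^ 2 * Real.exp (-13 * |u|) = 4 / 2197 := by
  have h := integral_comp_abs (f := fun x : ℝ => x ^ 2 * Real.exp (-13 * x))
  have e : (fun x : ℝ => |x| ^ 2 * Real.exp (-13 * |x|)) = fun u : ℝ => u ^ 2 * Real.exp (-13 * |u|) := by
    funext u; rw [sq_abs]
  rw [e] at h
  rw [h]
  have h2 := Real.integral_rpow_mul_exp_neg_mul_Ioi (a := 3) (r := 13) (by norm_num) (by norm_num)
  have h3 : ∫ x in Set.Ioi (0 : ℝ), x ^ 2 * Real.exp (-13 * x) =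
      ∫ t in Set.Ioi (0 : ℝ), t ^ ((3 : ℝ) - 1) * Real.exp (-(13 * t)) := by
    refine setIntegral_congr_fun measurableSet_Ioi fun x hx => ?_
    have e1 : (3 : ℝ) - 1 = ((2 : ℕ) : ℝ) := by norm_num
    rw [e1, Real.rpow_natCast, neg_mul]
  rw [h3, h2]
  have hG : Real.Gamma 3 = 2 := by
    have h5 := Real.Gamma_nat_eq_factorial 2
    have e5 : ((2 : ℕ) : ℝ) + 1 = 3 := by norm_num
    rw [e5] at h5
    rw [h5]
    rfl
  rw [hG, show (3 : ℝ) = ((3 : ℕ) : ℝ) by norm_num, Real.rpow_natCast]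
  norm_num

lemma integrable_sq_exp : Integrable fun u : ℝ => u ^ 2 * Real.exp (-13 * |u|) := by
  refine Integrable.mono' ((integrable_exp_abs (a := 12) (by norm_num)).const_mul 2)
    (by fun_prop) (Eventually.of_forall fun u => ?_)
  rw [Real.norm_of_nonneg (by positivity)]
  have h1 := Real.quadratic_le_exp_of_nonneg (abs_nonneg u)
  have h2 : u ^ 2 ≤ 2 * Real.exp |u| := by
    rw [← sq_abs u]
    have := abs_nonneg u
    linarith
  calc u ^ 2 * Real.exp (-13 * |u|) ≤ 2 * Real.exp |u| * Real.exp (-13 * |u|) := by gcongr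
    _ = 2 * Real.exp (-12 * |u|) := by
        rw [mul_assoc, ← Real.exp_add]; congr 2; ring

lemma integrable_W1 {z : ℂ} (hz : |z.im| ≤ 1) : Integrable fun u : ℝ => W Y1 u * cexp (I * z * u) := by
  refine Integrable.mono' ((integrable_exp_abs (a := 13) (by norm_num)).const_mul 1333)
    ((continuous_W hY1abs).mul (by fun_prop)).aestronglyMeasurable (Eventually.of_forall fun u => ?_)
  rw [norm_mul]
  calc ‖W Y1 u‖ * ‖cexp (I * z * u)‖ ≤ ‖W Y1 u‖ * Real.exp |u| := by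
        gcongr; exact norm_cexp_line_le hz u
    _ ≤ _ := W1_bound u

lemma interp {z0 ζ : ℂ} {r : ℝ} (hr : 0 ≤ r) (hz : |z0.im| + r ≤ 1) (hζ : ‖ζ‖ = 1) :
    ‖GG Y1 (z0 + ζ * r) - GG Y1 z0 - ζ * (GG Y1 (z0 + r) - GG Y1 z0)‖ ≤
      2 * r ^ 2 * (1333 * (4 / 2197)) := by
  have h0 : |z0.im| ≤ 1 := by linarith
  have h1 : |(z0 + r).im| ≤ 1 := by simpa using h0
  have h2 : |(z0 + ζ * r).im| ≤ 1 := by
    rw [add_im, im_mul_ofReal]
    have h3 : |ζ.im| ≤ 1 := (abs_im_le_norm ζ).trans hζ.le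
    calc |z0.im + ζ.im * r| ≤ |z0.im| + |ζ.im * r| := abs_add_le _ _
      _ = |z0.im| + |ζ.im| * r := by rw [abs_mul, abs_of_nonneg hr]
      _ ≤ |z0.im| + 1 * r := by gcongr
      _ ≤ 1 := by linarith
  have e : GG Y1 (z0 + ζ * r) - GG Y1 z0 - ζ * (GG Y1 (z0 + r) - GG Y1 z0) =
      ∫ u : ℝ, W Y1 u * cexp (I * z0 * u) * ((cexp (I * ζ * r * u) - 1 - I * ζ * r * u) -
        ζ * (cexp (I * r * u) - 1 - I * r * u)) := by
    unfold GG
    rw [← integral_sub (integrable_W1 h1) (integrable_W1 h0), ← integral_const_mul,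
      ← integral_sub (integrable_W1 h2) (integrable_W1 h0), ← integral_sub]
    · refine integral_congr_ae (Eventually.of_forall fun u => ?_)
      have e1 : cexp (I * (z0 + ζ * r) * u) = cexp (I * z0 * u) * cexp (I * ζ * r * u) := by
        rw [← exp_add]; congr 1; ring
      have e2 : cexp (I * (z0 + r) * u) = cexp (I * z0 * u) * cexp (I * r * u) := by
        rw [← exp_add]; congr 1; ring
      simp only [e1, e2]
      ring
    · exact (integrable_W1 h2).sub (integrable_W1 h0)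
    · exact ((integrable_W1 h1).sub (integrable_W1 h0)).const_mul ζ
  rw [e]
  have hb : ‖∫ u : ℝ, W Y1 u * cexp (I * z0 * u) * ((cexp (I * ζ * r * u) - 1 - I * ζ * r * u) -
        ζ * (cexp (I * r * u) - 1 - I * r * u))‖ ≤
      ∫ u : ℝ, 2 * r ^ 2 * 1333 * (u ^ 2 * Real.exp (-13 * |u|)) := by
    refine norm_integral_le_of_norm_le (integrable_sq_exp.const_mul _)
      (Eventually.of_forall fun u => ?_)
    have hn1 : ‖I * ζ * r * u‖ = r * |u| := by
      rw [norm_mul, norm_mul, norm_mul, norm_I, hζ, norm_real, norm_real,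
        Real.norm_of_nonneg hr, Real.norm_eq_abs]
      ring
    have hn2 : ‖I * r * u‖ = r * |u| := by
      rw [norm_mul, norm_mul, norm_I, norm_real, norm_real,
        Real.norm_of_nonneg hr, Real.norm_eq_abs]
      ring
    have c1 := norm_exp_sub_one_sub (I * ζ * r * u)
    have c2 := norm_exp_sub_one_sub (I * r * u)
    rw [hn1] at c1
    rw [hn2] at c2
    have c3 : ‖(cexp (I * ζ * r * u) - 1 - I * ζ * r * u) - ζ * (cexp (I * r * u) - 1 - I * r * u)‖
        ≤ 2 * ((r * |u|) ^ 2 * Real.exp (r * |u|)) := by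
      refine (norm_sub_le _ _).trans ?_
      rw [norm_mul, hζ, one_mul]
      linarith
    have c4 : ‖cexp (I * z0 * u)‖ ≤ Real.exp (|z0.im| * |u|) := by
      rw [norm_exp]
      refine Real.exp_le_exp.2 ?_
      have : (I * z0 * u).re = -(z0.im * u) := by simp
      rw [this, ← abs_mul]
      exact neg_le_abs _
    rw [norm_mul, norm_mul]
    calc ‖W Y1 u‖ * ‖cexp (I * z0 * u)‖ *
          ‖(cexp (I * ζ * r * u) - 1 - I * ζ * r * u) - ζ * (cexp (I * r * u) - 1 - I * r * u)‖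
        ≤ ‖W Y1 u‖ * Real.exp (|z0.im| * |u|) * (2 * ((r * |u|) ^ 2 * Real.exp (r * |u|))) := by
          gcongr
      _ = 2 * r ^ 2 * u ^ 2 * (‖W Y1 u‖ * (Real.exp (|z0.im| * |u|) * Real.exp (r * |u|))) := by
          rw [mul_pow, sq_abs]; ring
      _ ≤ 2 * r ^ 2 * u ^ 2 * (‖W Y1 u‖ * Real.exp |u|) := by
          rw [← Real.exp_add, ← add_mul]
          have : (|z0.im| + r) * |u| ≤ |u| := by
            calc (|z0.im| + r) * |u| ≤ 1 * |u| := by gcongr
              _ = |u| := one_mul _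
          gcongr
      _ ≤ 2 * r ^ 2 * u ^ 2 * (1333 * Real.exp (-13 * |u|)) :=
          mul_le_mul_of_nonneg_left (W1_bound u) (by positivity)
      _ = _ := by ring
  refine hb.trans (le_of_eq ?_)
  rw [integral_const_mul, integral_sq_exp]
  ring

lemma differentiable_Gm : Differentiable ℂ Gm := by
  have h : GG Y1 = fun z => cexp (z * Y1) * (2 * F ((2 : ℕ) : ℝ) z) :=
    funext fun z => GG_eq Y1_nonneg Y1_lt z
  have hF : Differentiable ℂ (F ((2 : ℕ) : ℝ)) := differentiable_F (by norm_num)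
  unfold Gm
  rw [h]
  fun_prop

/-- the function with exponent two has a non-real zero -/
theorem exists_nonreal_zero_two : ∃ z : ℂ, z.im ≠ 0 ∧ F ((2 : ℕ) : ℝ) z = 0 := by
  set z0 : ℂ := zc 1538900685 7936877 with hz0
  set z1 : ℂ := zc 1538900785 7936877 with hz1
  set r : ℝ := 1 / 10 ^ 5 with hr
  have hr0 : 0 < r := by rw [hr]; norm_num
  have hz0re : z0.re = 1538900685 / 10000000 := by
    rw [hz0, zc, add_re, ofReal_re, re_ofReal_mul, I_re]; norm_num
  have hz0im : z0.im = 7936877 / 10000000 := by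
    rw [hz0, zc, add_im, ofReal_im, im_ofReal_mul, I_im]; norm_num
  have hz1re : z1.re = 1538900785 / 10000000 := by
    rw [hz1, zc, add_re, ofReal_re, re_ofReal_mul, I_re]; norm_num
  have hz1im : z1.im = 7936877 / 10000000 := by
    rw [hz1, zc, add_im, ofReal_im, im_ofReal_mul, I_im]; norm_num
  have hz10 : z1 = z0 + r := by
    apply Complex.ext
    · rw [add_re, ofReal_re, hz0re, hz1re, hr]; norm_num
    · rw [add_im, ofReal_im, hz0im, hz1im]; norm_num
  have a0 := Gm_approx (z := z0) (by rw [hz0im]; norm_num [abs_le]) (by rw [hz0re]; norm_num)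
    (by rw [hz0re]; norm_num)
  have a1 := Gm_approx (z := z1) (by rw [hz1im]; norm_num [abs_le]) (by rw [hz1re]; norm_num)
    (by rw [hz1re]; norm_num)
  have t0 := T0_small
  have t1 := T1_large
  rw [← hz0] at t0
  rw [← hz1] at t1
  have g0 : ‖Gm z0‖ ≤ 6 / 10 ^ 8 := by
    have h : ‖Gm z0‖ ≤ ‖Gm z0 - sumT z0 96‖ + ‖sumT z0 96‖ := by
      have := norm_add_le (Gm z0 - sumT z0 96) (sumT z0 96)
      rwa [sub_add_cancel] at this
    norm_num at a0 t0 h ⊢
    linarith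
  have g1 : 187 / 10 ^ 8 ≤ ‖Gm z1‖ := by
    have h : ‖sumT z1 96‖ ≤ ‖Gm z1 - sumT z1 96‖ + ‖Gm z1‖ := by
      have := norm_sub_le (Gm z1) (Gm z1 - sumT z1 96)
      rw [sub_sub_cancel] at this
      linarith
    norm_num at a1 t1 h ⊢
    linarith
  -- lower bound on the circle
  have hcirc : ∀ z ∈ Metric.sphere z0 r, 1 / 10 ^ 6 ≤ ‖Gm z‖ := by
    intro z hz
    rw [mem_sphere_iff_norm] at hz
    set ζ : ℂ := (z - z0) / r with hζ
    have hrc : (r : ℂ) ≠ 0 := by exact_mod_cast hr0.ne'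
    have hζn : ‖ζ‖ = 1 := by
      rw [hζ, norm_div, hz, norm_real, Real.norm_of_nonneg hr0.le]
      exact div_self hr0.ne'
    have hzz : z = z0 + ζ * r := by rw [hζ]; field_simp; ring
    have hi := interp (z0 := z0) (ζ := ζ) hr0.le
      (by rw [hz0im, hr]; norm_num [abs_of_pos]) hζn
    rw [← hzz, ← hz10] at hi
    have h34 : Real.sqrt 34 ≤ 6 := by
      rw [show (6 : ℝ) = Real.sqrt (6 ^ 2) by rw [Real.sqrt_sq (by norm_num)]]
      exact Real.sqrt_le_sqrt (by norm_num)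
    have hi2 : ‖Gm z - Gm z0 - ζ * (Gm z1 - Gm z0)‖ ≤ 38 / 10 ^ 8 := by
      have e : Gm z - Gm z0 - ζ * (Gm z1 - Gm z0) = ((Real.sqrt 34 : ℝ) : ℂ) * (128 *
          (GG Y1 z - GG Y1 z0 - ζ * (GG Y1 z1 - GG Y1 z0))) := by
        unfold Gm; ring
      have h8 : ‖(128 : ℂ)‖ = 128 := by simp
      rw [e, norm_mul, norm_mul, norm_real, Real.norm_of_nonneg (Real.sqrt_nonneg _), h8]
      calc Real.sqrt 34 * (128 * ‖GG Y1 z - GG Y1 z0 - ζ * (GG Y1 z1 - GG Y1 z0)‖)
          ≤ 6 * (128 * (2 * r ^ 2 * (1333 * (4 / 2197)))) := by gcongr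
        _ ≤ 38 / 10 ^ 8 := by rw [hr]; norm_num
    have h1 : ‖Gm z1‖ - ‖Gm z0‖ ≤ ‖ζ * (Gm z1 - Gm z0)‖ := by
      rw [norm_mul, hζn, one_mul]; exact norm_sub_norm_le _ _
    have h2 : ‖ζ * (Gm z1 - Gm z0)‖ ≤ ‖Gm z - Gm z0 - ζ * (Gm z1 - Gm z0)‖ + ‖Gm z‖ + ‖Gm z0‖ := by
      have e : ζ * (Gm z1 - Gm z0) = -(Gm z - Gm z0 - ζ * (Gm z1 - Gm z0)) + Gm z + -Gm z0 := by
        ring
      calc ‖ζ * (Gm z1 - Gm z0)‖ = ‖-(Gm z - Gm z0 - ζ * (Gm z1 - Gm z0)) + Gm z + -Gm z0‖ := by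
            rw [← e]
        _ ≤ ‖-(Gm z - Gm z0 - ζ * (Gm z1 - Gm z0))‖ + ‖Gm z‖ + ‖-Gm z0‖ := norm_add₃_le
        _ = _ := by rw [norm_neg, norm_neg]
    norm_num at g0 g1 hi2 h1 h2 ⊢
    linarith
  have hex : ∃ z ∈ Metric.closedBall z0 r, Gm z = 0 := by
    by_contra hcon
    push Not at hcon
    have hd : DiffContOnCl ℂ (fun z => (Gm z)⁻¹) (Metric.ball z0 r) := by
      refine DifferentiableOn.diffContOnCl fun z hz => ?_
      have hz' : z ∈ Metric.closedBall z0 r := Metric.closure_ball_subset_closedBall hz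
      exact ((differentiable_Gm z).inv (hcon z hz')).differentiableWithinAt
    have hmax := norm_le_of_forall_mem_frontier_norm_le (C := 10 ^ 6) Metric.isBounded_ball hd
      (fun z hz => by
        have hz' : z ∈ Metric.sphere z0 r := by
          rwa [frontier_ball z0 hr0.ne'] at hz
        have h1 := hcirc z hz'
        rw [norm_inv]
        calc ‖Gm z‖⁻¹ ≤ (1 / 10 ^ 6)⁻¹ := by gcongr
          _ = 10 ^ 6 := by norm_num)
      (subset_closure (Metric.mem_ball_self hr0))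
    have h0 : Gm z0 ≠ 0 := hcon z0 (Metric.mem_closedBall_self hr0.le)
    have hpos : 0 < ‖Gm z0‖ := norm_pos_iff.2 h0
    rw [norm_inv, inv_le_comm₀ hpos (by norm_num)] at hmax
    norm_num at hmax g0
    linarith
  obtain ⟨z, hz, hGz⟩ := hex
  refine ⟨z, ?_, ?_⟩
  · rw [mem_closedBall_iff_norm] at hz
    have h1 := (abs_im_le_norm (z - z0)).trans hz
    rw [sub_im, hz0im, abs_le] at h1
    intro h
    rw [h, hr] at h1
    norm_num at h1
  · rw [Gm, GG_eq Y1_nonneg Y1_lt] at hGz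
    have h34 : ((Real.sqrt 34 : ℝ) : ℂ) ≠ 0 := by
      have : Real.sqrt 34 ≠ 0 := (Real.sqrt_pos.2 (by norm_num)).ne'
      exact_mod_cast this
    rcases mul_eq_zero.1 hGz with h | h
    · exact absurd h h34
    rcases mul_eq_zero.1 h with h | h
    · norm_num at h
    rcases mul_eq_zero.1 h with h | h
    · exact absurd h (exp_ne_zero _)
    rcases mul_eq_zero.1 h with h | h
    · norm_num at h
    exact h

end Pool.Agent.Helper242.RK
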