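import Pool.Agent.Helper242.RK.Theta

set_option autoImplicit false

/-!
# The lowest zero of the Riemann kernel in the strip
-/

namespace Pool.Agent.Helper242.RK

open Complex Filter Topology

lemma exp_neg_nat_le (n : ℕ) : Real.exp (-(n : ℝ)) ≤ (1 / 2 : ℝ) ^ n := by
  have h1 : Real.exp (-(n : ℝ)) = (Real.exp (-1)) ^ n := by
    rw [← Real.exp_nat_mul]; congr 1; ring
  rw [h1]
  refine pow_le_pow_left₀ (Real.exp_pos _).le ?_ n
  rw [Real.exp_neg, one_div]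
  exact inv_anti₀ (by norm_num) (by have := Real.add_one_le_exp (1 : ℝ); linarith)

/-- tail of `P` after three terms -/
lemma P_tail (k : ℕ) (hk : k ≤ 3) {s : ℂ} (hs : 4 / 5 ≤ s.re) :
    ‖P k s - (cexp (-s) + 4 ^ k * cexp (-4 * s) + 9 ^ k * cexp (-9 * s))‖
      ≤ 2 * 16 ^ k * Real.exp (-16 * s.re) := by
  have hs' : 0 < s.re := by linarith
  have hsum := summable_term k hs'
  have h := hsum.sum_add_tsum_nat_add 3
  have h2 : P k s - (cexp (-s) + 4 ^ k * cexp (-4 * s) + 9 ^ k * cexp (-9 * s)) =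
      ∑' n : ℕ, (((n + 3 : ℕ) : ℂ) + 1) ^ (2 * k) * cexp (-((((n + 3 : ℕ) : ℂ) + 1) ^ 2) * s) := by
    rw [P, ← h]
    simp only [Finset.sum_range_succ, Finset.range_zero, Finset.sum_empty, zero_add,
      Nat.cast_zero, one_pow, one_mul, Nat.cast_one, Nat.cast_ofNat]
    have e1 : ((1 : ℂ) + 1) ^ (2 * k) = 4 ^ k := by rw [pow_mul]; norm_num
    have e2 : ((2 : ℂ) + 1) ^ (2 * k) = 9 ^ k := by rw [pow_mul]; norm_num
    rw [e1, e2]
    norm_num
  rw [h2]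
  have hg := (hasSum_geometric_two).mul_left (16 ^ k * Real.exp (-16 * s.re))
  have hb : ∀ n : ℕ, ‖(((n + 3 : ℕ) : ℂ) + 1) ^ (2 * k) *
      cexp (-((((n + 3 : ℕ) : ℂ) + 1) ^ 2) * s)‖
      ≤ 16 ^ k * Real.exp (-16 * s.re) * (1 / 2) ^ n := by
    intro n
    rw [norm_term]
    push_cast
    have hn : (0 : ℝ) ≤ n := Nat.cast_nonneg n
    have hk' : (k : ℝ) ≤ 3 := by exact_mod_cast hk
    have e1 : ((n : ℝ) + 3 + 1) ^ (2 * k) ≤ 16 ^ k * Real.exp (k * ((n : ℝ) / 2)) := by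
      rw [pow_mul, Real.exp_nat_mul, ← mul_pow]
      refine pow_le_pow_left₀ (by positivity) ?_ k
      have h1 := Real.add_one_le_exp ((n : ℝ) / 4)
      have h2 : Real.exp ((n : ℝ) / 2) = Real.exp ((n : ℝ) / 4) ^ 2 := by
        rw [← Real.exp_nat_mul]; congr 1; push_cast; ring
      rw [h2]
      have h3 : ((n : ℝ) + 3 + 1) ^ 2 = 16 * ((n : ℝ) / 4 + 1) ^ 2 := by ring
      rw [h3]
      gcongr
    calc ((n : ℝ) + 3 + 1) ^ (2 * k) * Real.exp (-((n : ℝ) + 3 + 1) ^ 2 * s.re)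
        ≤ (16 ^ k * Real.exp (k * ((n : ℝ) / 2))) * Real.exp (-((n : ℝ) + 3 + 1) ^ 2 * s.re) := by
          gcongr
      _ = 16 ^ k * Real.exp (k * ((n : ℝ) / 2) + -((n : ℝ) + 3 + 1) ^ 2 * s.re) := by
          rw [Real.exp_add]; ring
      _ ≤ 16 ^ k * Real.exp (-16 * s.re + -(n : ℝ)) := by
          refine mul_le_mul_of_nonneg_left (Real.exp_le_exp.2 ?_) (by positivity)
          nlinarith [mul_nonneg hn (sub_nonneg.2 hs), mul_nonneg hn (sub_nonneg.2 hk'),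
            mul_nonneg (mul_nonneg hn hn) hs'.le]
      _ = 16 ^ k * Real.exp (-16 * s.re) * Real.exp (-(n : ℝ)) := by rw [Real.exp_add]; ring
      _ ≤ 16 ^ k * Real.exp (-16 * s.re) * (1 / 2) ^ n := by
          gcongr
          exact exp_neg_nat_le n
  calc _ ≤ 16 ^ k * Real.exp (-16 * s.re) * 2 := tsum_of_norm_bounded hg hb
    _ = 2 * 16 ^ k * Real.exp (-16 * s.re) := by ring

/-- normalised `g` -/
noncomputable def hh (s : ℂ) : ℂ := cexp s * (2 * s * P 2 s - 3 * P 1 s)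

/-- derivative of `hh` -/
noncomputable def hh' (s : ℂ) : ℂ :=
  cexp s * (2 * s * P 2 s - 3 * P 1 s + 5 * P 2 s - 2 * s * P 3 s)

lemma g_eq_hh (s : ℂ) : g s = s * cexp (-s) * hh s := by
  have : cexp (-s) * cexp s = 1 := by rw [← exp_add]; simp
  unfold g hh
  linear_combination (-(s * (2 * s * P 2 s - 3 * P 1 s))) * this

lemma hasDerivAt_hh {s : ℂ} (hs : 0 < s.re) : HasDerivAt hh (hh' s) s := by
  have h := (hasDerivAt_exp s).mul
    ((((hasDerivAt_id s).const_mul 2).mul (hasDerivAt_P 2 hs)).sub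
      ((hasDerivAt_P 1 hs).const_mul 3))
  refine h.congr_deriv ?_
  unfold hh'
  simp only [Pi.sub_apply, Pi.mul_apply, id, Nat.reduceAdd]
  ring

lemma exp_mul_tail (k : ℕ) (hk : k ≤ 3) {s : ℂ} (hs : 4 / 5 ≤ s.re) :
    ‖cexp s * (P k s - (cexp (-s) + 4 ^ k * cexp (-4 * s) + 9 ^ k * cexp (-9 * s)))‖
      ≤ 2 * 16 ^ k * Real.exp (-15 * s.re) := by
  rw [norm_mul, norm_exp]
  calc Real.exp s.re * _ ≤ Real.exp s.re * (2 * 16 ^ k * Real.exp (-16 * s.re)) := by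
        gcongr; exact P_tail k hk hs
    _ = 2 * 16 ^ k * Real.exp (-15 * s.re) := by
        rw [show -15 * s.re = s.re + -16 * s.re by ring, Real.exp_add]; ring

lemma exp_mul_main (k : ℕ) (s : ℂ) :
    cexp s * (cexp (-s) + 4 ^ k * cexp (-4 * s) + 9 ^ k * cexp (-9 * s)) =
      1 + 4 ^ k * cexp (-3 * s) + 9 ^ k * cexp (-8 * s) := by
  have e1 : cexp s * cexp (-s) = 1 := by rw [← exp_add]; simp
  have e2 : cexp s * cexp (-4 * s) = cexp (-3 * s) := by rw [← exp_add]; congr 1; ring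
  have e3 : cexp s * cexp (-9 * s) = cexp (-8 * s) := by rw [← exp_add]; congr 1; ring
  linear_combination e1 + 4 ^ k * e2 + 9 ^ k * e3

lemma hh_approx {s : ℂ} (hs : 4 / 5 ≤ s.re) :
    ‖hh s - ((2 * s - 3) + (32 * s - 12) * cexp (-3 * s) + (162 * s - 27) * cexp (-8 * s))‖
      ≤ (1024 * ‖s‖ + 96) * Real.exp (-15 * s.re) := by
  have h2 := exp_mul_tail 2 (by norm_num) hs
  have h1 := exp_mul_tail 1 (by norm_num) hs
  have m2 := exp_mul_main 2 s
  have m1 := exp_mul_main 1 s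
  have e : hh s - ((2 * s - 3) + (32 * s - 12) * cexp (-3 * s) + (162 * s - 27) * cexp (-8 * s))
      = (2 * s) * (cexp s * (P 2 s - (cexp (-s) + 4 ^ 2 * cexp (-4 * s) + 9 ^ 2 * cexp (-9 * s))))
      - 3 * (cexp s * (P 1 s - (cexp (-s) + 4 ^ 1 * cexp (-4 * s) + 9 ^ 1 * cexp (-9 * s)))) := by
    unfold hh
    linear_combination (2 * s) * m2 - 3 * m1
  rw [e]
  refine (norm_sub_le _ _).trans ?_
  rw [norm_mul, norm_mul (3 : ℂ), norm_mul (2 : ℂ)]
  simp only [norm_ofNat]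
  calc _ ≤ 2 * ‖s‖ * (2 * 16 ^ 2 * Real.exp (-15 * s.re)) + 3 * (2 * 16 ^ 1 * Real.exp (-15 * s.re)) := by
        gcongr
    _ = (1024 * ‖s‖ + 96) * Real.exp (-15 * s.re) := by ring

lemma hh'_approx {s : ℂ} (hs : 4 / 5 ≤ s.re) :
    ‖hh' s - (2 + (68 - 96 * s) * cexp (-3 * s) + (378 - 1296 * s) * cexp (-8 * s))‖
      ≤ (17408 * ‖s‖ + 2656) * Real.exp (-15 * s.re) := by
  have h3 := exp_mul_tail 3 (by norm_num) hs
  have h2 := exp_mul_tail 2 (by norm_num) hs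
  have h1 := exp_mul_tail 1 (by norm_num) hs
  have m3 := exp_mul_main 3 s
  have m2 := exp_mul_main 2 s
  have m1 := exp_mul_main 1 s
  set R3 := cexp s * (P 3 s - (cexp (-s) + 4 ^ 3 * cexp (-4 * s) + 9 ^ 3 * cexp (-9 * s))) with hR3
  set R2 := cexp s * (P 2 s - (cexp (-s) + 4 ^ 2 * cexp (-4 * s) + 9 ^ 2 * cexp (-9 * s))) with hR2
  set R1 := cexp s * (P 1 s - (cexp (-s) + 4 ^ 1 * cexp (-4 * s) + 9 ^ 1 * cexp (-9 * s))) with hR1
  have e : hh' s - (2 + (68 - 96 * s) * cexp (-3 * s) + (378 - 1296 * s) * cexp (-8 * s))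
      = (2 * s + 5) * R2 - 3 * R1 - (2 * s) * R3 := by
    rw [hR1, hR2, hR3]
    unfold hh'
    linear_combination (2 * s + 5) * m2 - 3 * m1 - (2 * s) * m3
  rw [e]
  have n1 : ‖(2 * s + 5) * R2‖ ≤ (2 * ‖s‖ + 5) * (2 * 16 ^ 2 * Real.exp (-15 * s.re)) := by
    rw [norm_mul]
    gcongr
    calc ‖2 * s + 5‖ ≤ ‖2 * s‖ + ‖(5 : ℂ)‖ := norm_add_le _ _
      _ = 2 * ‖s‖ + 5 := by rw [norm_mul]; simp
  have n2 : ‖3 * R1‖ ≤ 3 * (2 * 16 ^ 1 * Real.exp (-15 * s.re)) := by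
    rw [norm_mul]; simp only [norm_ofNat]; gcongr
  have n3 : ‖(2 * s) * R3‖ ≤ (2 * ‖s‖) * (2 * 16 ^ 3 * Real.exp (-15 * s.re)) := by
    rw [norm_mul, norm_mul]; simp only [norm_ofNat]; gcongr
  calc _ ≤ ‖(2 * s + 5) * R2‖ + ‖3 * R1‖ + ‖(2 * s) * R3‖ :=
        (norm_sub_le _ _).trans (by gcongr; exact norm_sub_le _ _)
    _ ≤ _ := add_le_add (add_le_add n1 n2) n3
    _ = (17408 * ‖s‖ + 2656) * Real.exp (-15 * s.re) := by ring

lemma exp_285 : (17.2 : ℝ) ≤ Real.exp 2.85 := by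
  have h := Real.sum_le_exp_of_nonneg (x := 2.85) (by norm_num) 12
  refine le_trans ?_ h
  norm_num [Finset.sum_range_succ, Nat.factorial]

lemma exp_1 : (2.71 : ℝ) ≤ Real.exp 1 := by
  have := Real.exp_one_gt_d9
  linarith

lemma exp_neg_le_of {x b : ℝ} (hb : 0 < b) (h : b ≤ Real.exp x) : Real.exp (-x) ≤ 1 / b := by
  rw [Real.exp_neg, one_div]
  exact inv_anti₀ hb h

lemma exp_76 : (1900 : ℝ) ≤ Real.exp 7.6 := by
  have h := Real.sum_le_exp_of_nonneg (x := 1.9) (by norm_num) 9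
  have h1 : (6.67 : ℝ) ≤ Real.exp 1.9 := by
    refine le_trans ?_ h
    norm_num [Finset.sum_range_succ, Nat.factorial]
  have h2 : Real.exp 7.6 = Real.exp 1.9 ^ 4 := by
    rw [← Real.exp_nat_mul]; norm_num
  rw [h2]
  calc (1900 : ℝ) ≤ 6.67 ^ 4 := by norm_num
    _ ≤ _ := by gcongr

lemma sq_norm_eq (z : ℂ) : ‖z‖ ^ 2 = z.re ^ 2 + z.im ^ 2 := by
  rw [Complex.sq_norm, normSq_apply]; ring

lemma lin_norm_sq (a b : ℝ) (s : ℂ) : ‖(a : ℂ) * s - b‖ ^ 2 = (a * s.re - b) ^ 2 + (a * s.im) ^ 2 := by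
  rw [sq_norm_eq]
  simp

/-- the first term dominates. -/
lemma hh_ne_zero_of_dom {s : ℂ} (hs : 4 / 5 ≤ s.re) {p q r u v w : ℝ}
    (hA : 0 < ‖2 * s - 3‖)
    (h1 : ‖32 * s - 12‖ ≤ p * ‖2 * s - 3‖) (h2 : ‖162 * s - 27‖ ≤ q * ‖2 * s - 3‖)
    (h3 : 1024 * ‖s‖ + 96 ≤ r * ‖2 * s - 3‖)
    (hu : Real.exp (-3 * s.re) ≤ u) (hv : Real.exp (-8 * s.re) ≤ v) (hw : Real.exp (-15 * s.re) ≤ w)
    (hp : 0 ≤ p) (hq : 0 ≤ q) (hr : 0 ≤ r)
    (htot : p * u + q * v + r * w < 1) : hh s ≠ 0 := by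
  intro h0
  have h := hh_approx hs
  rw [h0, zero_sub, norm_neg] at h
  have n1 : ‖(32 * s - 12) * cexp (-3 * s)‖ ≤ p * ‖2 * s - 3‖ * u := by
    rw [norm_mul, norm_exp]
    have : (-3 * s).re = -3 * s.re := by simp
    rw [this]
    gcongr
  have n2 : ‖(162 * s - 27) * cexp (-8 * s)‖ ≤ q * ‖2 * s - 3‖ * v := by
    rw [norm_mul, norm_exp]
    have : (-8 * s).re = -8 * s.re := by simp
    rw [this]
    gcongr
  have n3 : (1024 * ‖s‖ + 96) * Real.exp (-15 * s.re) ≤ r * ‖2 * s - 3‖ * w := by gcongr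
  have n4 : ‖2 * s - 3‖ ≤ ‖(2 * s - 3) + (32 * s - 12) * cexp (-3 * s) + (162 * s - 27) * cexp (-8 * s)‖
      + ‖(32 * s - 12) * cexp (-3 * s)‖ + ‖(162 * s - 27) * cexp (-8 * s)‖ := by
    have e : (2 * s - 3) = ((2 * s - 3) + (32 * s - 12) * cexp (-3 * s) +
      (162 * s - 27) * cexp (-8 * s)) - (32 * s - 12) * cexp (-3 * s) -
        (162 * s - 27) * cexp (-8 * s) := by ring
    calc ‖2 * s - 3‖ = ‖((2 * s - 3) + (32 * s - 12) * cexp (-3 * s) +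
      (162 * s - 27) * cexp (-8 * s)) - (32 * s - 12) * cexp (-3 * s) -
        (162 * s - 27) * cexp (-8 * s)‖ := by rw [← e]
      _ ≤ _ := (norm_sub_le _ _).trans (by gcongr; exact norm_sub_le _ _)
  nlinarith

/-- No zeros in `|s| ≥ π`, `Re s ≥ 0.95`. -/
lemma hh_ne_zero {s : ℂ} (hs : 0.95 ≤ s.re) (hn : Real.pi ≤ ‖s‖) : hh s ≠ 0 := by
  have hpi := Real.pi_gt_d2
  have hpi2 : (9.859 : ℝ) ≤ Real.pi ^ 2 := by nlinarith
  have hN : (9.859 : ℝ) ≤ ‖s‖ ^ 2 := hpi2.trans (by gcongr)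
  have hN' := sq_norm_eq s
  have eA := lin_norm_sq 2 3 s
  have e32 := lin_norm_sq 32 12 s
  have e162 := lin_norm_sq 162 27 s
  norm_num at eA e32 e162
  have hA0 : 0 ≤ ‖2 * s - 3‖ := norm_nonneg _
  have hA1 : 2 * ‖s‖ - 3 ≤ ‖2 * s - 3‖ := by
    have := norm_sub_norm_le (2 * s) 3
    rw [norm_mul] at this
    simpa using this
  have h45 : 4 / 5 ≤ s.re := by norm_num at hs ⊢; linarith
  rcases le_total s.re 1 with hx1 | hx1
  · -- case a
    have hA2 : (36.4 : ℝ) ≤ ‖2 * s - 3‖ ^ 2 := by nlinarith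
    have hA3 : (6 : ℝ) ≤ ‖2 * s - 3‖ := by nlinarith
    have x1 : Real.exp (-2.85) ≤ 1 / 17.2 := exp_neg_le_of (by norm_num) exp_285
    refine hh_ne_zero_of_dom (p := 16.13) (q := 84) (r := 784) (u := 1 / 17.2) (v := 1 / 1900)
      (w := (1 / 17.2) ^ 5) h45 (by linarith) ?_ ?_ ?_ ?_ ?_ ?_ (by norm_num) (by norm_num)
      (by norm_num) (by norm_num)
    · refine abs_le_of_sq_le_sq' ?_ (by positivity) |>.2
      nlinarith
    · refine abs_le_of_sq_le_sq' ?_ (by positivity) |>.2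
      nlinarith
    · linarith
    · refine le_trans (Real.exp_le_exp.2 ?_) x1
      linarith
    · refine le_trans (Real.exp_le_exp.2 ?_) (exp_neg_le_of (by norm_num) exp_76)
      linarith
    · calc Real.exp (-15 * s.re) ≤ Real.exp (-2.85) ^ 5 := by
            rw [← Real.exp_nat_mul]
            refine Real.exp_le_exp.2 ?_
            norm_num
            linarith
        _ ≤ _ := by gcongr
  rcases le_total s.re 1.5 with hx2 | hx2
  · -- case b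
    have hA2 : (30.4 : ℝ) ≤ ‖2 * s - 3‖ ^ 2 := by nlinarith
    have hA3 : (5.5 : ℝ) ≤ ‖2 * s - 3‖ := by nlinarith
    have x1 : Real.exp (-1) ≤ 1 / 2.71 := exp_neg_le_of (by norm_num) exp_1
    have x2 : ∀ n : ℕ, Real.exp (-(n : ℝ) * s.re) ≤ (1 / 2.71) ^ n := by
      intro n
      calc Real.exp (-(n : ℝ) * s.re) ≤ Real.exp (-1) ^ n := by
            rw [← Real.exp_nat_mul]
            refine Real.exp_le_exp.2 ?_
            have : (0 : ℝ) ≤ n := Nat.cast_nonneg n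
            nlinarith
        _ ≤ _ := by gcongr
    have y3 := x2 3
    have y8 := x2 8
    have y15 := x2 15
    norm_num at y3 y8 y15
    refine hh_ne_zero_of_dom (p := 17.6) (q := 91) (r := 810) (u := (1 / 2.71) ^ 3)
      (v := (1 / 2.71) ^ 8)
      (w := (1 / 2.71) ^ 15) h45 (by linarith) ?_ ?_ ?_ ?_ ?_ ?_ (by norm_num) (by norm_num)
      (by norm_num) (by norm_num)
    · refine abs_le_of_sq_le_sq' ?_ (by positivity) |>.2
      nlinarith
    · refine abs_le_of_sq_le_sq' ?_ (by positivity) |>.2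
      nlinarith
    · linarith
    · refine le_trans ?_ (x2 3); norm_num
    · refine le_trans ?_ (x2 8); norm_num
    · refine le_trans ?_ (x2 15); norm_num
  · -- case c
    have hA3 : (3.28 : ℝ) ≤ ‖2 * s - 3‖ := by linarith
    have x1 : Real.exp (-1) ≤ 1 / 2.71 := exp_neg_le_of (by norm_num) exp_1
    have x2 : ∀ n : ℕ, Real.exp (-(n : ℝ) * s.re) ≤ (1 / 2.71) ^ n := by
      intro n
      calc Real.exp (-(n : ℝ) * s.re) ≤ Real.exp (-1) ^ n := by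
            rw [← Real.exp_nat_mul]
            refine Real.exp_le_exp.2 ?_
            have : (0 : ℝ) ≤ n := Nat.cast_nonneg n
            nlinarith
        _ ≤ _ := by gcongr
    have x3 : Real.exp (-3 * s.re) ≤ (1 / 2.71) ^ 4 := by
      calc Real.exp (-3 * s.re) ≤ Real.exp (-1) ^ 4 := by
            rw [← Real.exp_nat_mul]
            refine Real.exp_le_exp.2 ?_
            norm_num
            linarith
        _ ≤ _ := by gcongr
    have m1 : ‖32 * s - 12‖ ≤ 27 * ‖2 * s - 3‖ := by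
      calc ‖32 * s - 12‖ = ‖16 * (2 * s - 3) + 36‖ := by congr 1; ring
        _ ≤ ‖16 * (2 * s - 3)‖ + ‖(36 : ℂ)‖ := norm_add_le _ _
        _ = 16 * ‖2 * s - 3‖ + 36 := by rw [norm_mul]; simp
        _ ≤ 27 * ‖2 * s - 3‖ := by linarith
    have m2 : ‖162 * s - 27‖ ≤ 148 * ‖2 * s - 3‖ := by
      calc ‖162 * s - 27‖ = ‖81 * (2 * s - 3) + 216‖ := by congr 1; ring
        _ ≤ ‖81 * (2 * s - 3)‖ + ‖(216 : ℂ)‖ := norm_add_le _ _
        _ = 81 * ‖2 * s - 3‖ + 216 := by rw [norm_mul]; simp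
        _ ≤ 148 * ‖2 * s - 3‖ := by linarith
    refine hh_ne_zero_of_dom (p := 27) (q := 148) (r := 1010) (u := (1 / 2.71) ^ 4)
      (v := (1 / 2.71) ^ 8)
      (w := (1 / 2.71) ^ 15) h45 (by linarith) m1 m2 ?_ x3 ?_ ?_ (by norm_num) (by norm_num)
      (by norm_num) (by norm_num)
    · linarith
    · refine le_trans ?_ (x2 8); norm_num
    · refine le_trans ?_ (x2 15); norm_num

end Pool.Agent.Helper242.RK
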