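import Pool.Agent.Helper242.RK.Zero

set_option autoImplicit false

/-!
# Uniqueness of the lowest zero
-/

namespace Pool.Agent.Helper242.RK

open Complex Filter Topology

/-- The box `Q`. -/
def Q : Set ℂ := {s | 0.879 ≤ s.re ∧ s.re ≤ 0.95 ∧ 2.99 ≤ s.im ∧ s.im ≤ 3.26}

lemma Q_convex : Convex ℝ Q := by
  have h1 : Convex ℝ {s : ℂ | 0.879 ≤ s.re} := convex_halfSpace_re_ge _
  have h2 : Convex ℝ {s : ℂ | s.re ≤ 0.95} := convex_halfSpace_re_le _
  have h3 : Convex ℝ {s : ℂ | 2.99 ≤ s.im} := convex_halfSpace_im_ge _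
  have h4 : Convex ℝ {s : ℂ | s.im ≤ 3.26} := convex_halfSpace_im_le _
  exact h1.inter (h2.inter (h3.inter h4))

lemma exp_285_upper : Real.exp 2.85 ≤ 17.4 := by
  have h : Real.exp 0.95 ≤ 2.59 := by
    refine (Real.exp_bound' (x := 0.95) (by norm_num) (by norm_num) (n := 6) (by norm_num)).trans ?_
    norm_num [Finset.sum_range_succ, Nat.factorial]
  have h2 : Real.exp 2.85 = Real.exp 0.95 ^ 3 := by
    rw [← Real.exp_nat_mul]; norm_num
  rw [h2]
  calc Real.exp 0.95 ^ 3 ≤ 2.59 ^ 3 := by gcongr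
    _ ≤ 17.4 := by norm_num

lemma exp_0879 : (2.4 : ℝ) ≤ Real.exp 0.879 := by
  have h := Real.sum_le_exp_of_nonneg (x := 0.879) (by norm_num) 8
  refine le_trans ?_ h
  norm_num [Finset.sum_range_succ, Nat.factorial]

lemma im_hh'_pos {s : ℂ} (hs : s ∈ Q) : 0 < (hh' s).im := by
  obtain ⟨h1, h2, h3, h4⟩ := hs
  have h45 : 4 / 5 ≤ s.re := by norm_num at h1 ⊢; linarith
  have happ := hh'_approx h45
  set E := 2 + (68 - 96 * s) * cexp (-3 * s) + (378 - 1296 * s) * cexp (-8 * s) with hE
  have hns : ‖s‖ ≤ 4.3 := by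
    calc ‖s‖ ≤ |s.re| + |s.im| := norm_le_abs_re_add_abs_im s
      _ ≤ 4.3 := by rw [abs_of_pos (by linarith), abs_of_pos (by linarith)]; linarith
  -- exponential bounds
  have x1 : Real.exp (-0.879) ≤ 1 / 2.4 := exp_neg_le_of (by norm_num) exp_0879
  have x2 : ∀ n : ℕ, Real.exp (-(n : ℝ) * s.re) ≤ (1 / 2.4) ^ n := by
    intro n
    calc Real.exp (-(n : ℝ) * s.re) ≤ Real.exp (-0.879) ^ n := by
          rw [← Real.exp_nat_mul]
          refine Real.exp_le_exp.2 ?_
          have : (0 : ℝ) ≤ n := Nat.cast_nonneg n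
          nlinarith
      _ ≤ _ := by gcongr
  have y8 : Real.exp (-8 * s.re) ≤ 1 / 1100 := by
    have := x2 8
    norm_num at this ⊢
    linarith
  have y15 : Real.exp (-15 * s.re) ≤ 1 / 500000 := by
    have := x2 15
    norm_num at this ⊢
    linarith
  have y3 : 1 / 17.4 ≤ Real.exp (-3 * s.re) := by
    calc (1 / 17.4 : ℝ) ≤ Real.exp (-2.85) := by
          rw [Real.exp_neg, one_div]
          exact inv_anti₀ (Real.exp_pos _) exp_285_upper
      _ ≤ _ := Real.exp_le_exp.2 (by linarith)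
  -- trig bounds
  have hpi1 := Real.pi_gt_d2
  have hpi2 := Real.pi_lt_d2
  set d := 3 * s.im - 3 * Real.pi with hd
  have hd1 : |d| ≤ 0.481 := by rw [abs_le]; constructor <;> norm_num at * <;> linarith
  have hsin : Real.sin (3 * s.im) = -Real.sin d := by
    rw [show 3 * s.im = d + Real.pi + 2 * Real.pi by rw [hd]; ring, Real.sin_add_two_pi,
      Real.sin_add_pi]
  have hcos : Real.cos (3 * s.im) = -Real.cos d := by
    rw [show 3 * s.im = d + Real.pi + 2 * Real.pi by rw [hd]; ring, Real.cos_add_two_pi,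
      Real.cos_add_pi]
  have hc1 : (0.88 : ℝ) ≤ Real.cos d := by
    have := Real.one_sub_sq_div_two_le_cos (x := d)
    have h5 : d ^ 2 ≤ 0.481 ^ 2 := by rw [← sq_abs]; gcongr
    norm_num at this h5 ⊢
    linarith
  have hs1 : |Real.sin d| ≤ 0.481 := (Real.abs_sin_le_abs).trans hd1
  -- imaginary part of the main term
  have hmain : 10 ≤ ((68 - 96 * s) * cexp (-3 * s)).im := by
    have e1 : ((68 - 96 * s) * cexp (-3 * s)).im =
        Real.exp (-3 * s.re) * ((68 - 96 * s.re) * Real.sin d + 96 * s.im * Real.cos d) := by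
      rw [mul_im, exp_re, exp_im]
      have r1 : (-3 * s).re = -3 * s.re := by simp
      have r2 : (-3 * s).im = -(3 * s.im) := by simp
      have r3 : (68 - 96 * s).re = 68 - 96 * s.re := by simp
      have r4 : (68 - 96 * s).im = -(96 * s.im) := by simp
      rw [r1, r2, r3, r4, Real.cos_neg, Real.sin_neg, hsin, hcos]
      ring
    rw [e1]
    have e2 : (68 - 96 * s.re) * Real.sin d ≥ -(24 * 0.481) := by
      have : |(68 - 96 * s.re) * Real.sin d| ≤ 24 * 0.481 := by
        rw [abs_mul]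
        gcongr
        rw [abs_le]; constructor <;> norm_num at * <;> linarith
      exact (abs_le.1 this).1
    have e3 : 96 * 2.99 * 0.88 ≤ 96 * s.im * Real.cos d := by gcongr
    have e4 : 240 ≤ (68 - 96 * s.re) * Real.sin d + 96 * s.im * Real.cos d := by
      norm_num at *; linarith
    calc (10 : ℝ) ≤ 1 / 17.4 * 240 := by norm_num
      _ ≤ _ := by gcongr
  have hsec : |((378 - 1296 * s) * cexp (-8 * s)).im| ≤ 6 := by
    refine (abs_im_le_norm _).trans ?_
    rw [norm_mul, norm_exp]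
    have r1 : (-8 * s).re = -8 * s.re := by simp
    rw [r1]
    have : ‖378 - 1296 * s‖ ≤ 378 + 1296 * 4.3 := by
      calc ‖378 - 1296 * s‖ ≤ ‖(378 : ℂ)‖ + ‖1296 * s‖ := norm_sub_le _ _
        _ = 378 + 1296 * ‖s‖ := by rw [norm_mul]; simp
        _ ≤ _ := by gcongr
    calc ‖378 - 1296 * s‖ * Real.exp (-8 * s.re) ≤ (378 + 1296 * 4.3) * (1 / 1100) := by gcongr
      _ ≤ 6 := by norm_num
  have htail : |(hh' s - E).im| ≤ 1 := by
    refine (abs_im_le_norm _).trans (happ.trans ?_)
    calc (17408 * ‖s‖ + 2656) * Real.exp (-15 * s.re) ≤ (17408 * 4.3 + 2656) * (1 / 500000) := by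
          gcongr
      _ ≤ 1 := by norm_num
  have hEim : E.im = ((68 - 96 * s) * cexp (-3 * s)).im + ((378 - 1296 * s) * cexp (-8 * s)).im := by
    rw [hE, add_im, add_im]; simp
  rw [sub_im] at htail
  have := abs_le.1 htail
  have := abs_le.1 hsec
  linarith [this.1]

/-- `hh` has at most one zero in `Q` (more generally it is injective there). -/
lemma hh_injOn {s w : ℂ} (hs : s ∈ Q) (hw : w ∈ Q) (h : hh s = hh w) : s = w := by
  by_contra hne
  have hd : w - s ≠ 0 := sub_ne_zero.2 (Ne.symm hne)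
  have hmem : ∀ x ∈ Set.Icc (0 : ℝ) 1, s + x * (w - s) ∈ Q := by
    intro x hx
    have := Q_convex hs hw (a := 1 - x) (b := x) (by linarith [hx.2]) hx.1 (by ring)
    have e : (1 - x) • s + x • w = s + x * (w - s) := by
      simp only [real_smul]; push_cast; ring
    rwa [e] at this
  have hder : ∀ x ∈ Set.Icc (0 : ℝ) 1, HasDerivAt (fun x : ℝ => (hh (s + x * (w - s)) / (w - s)).im)
      ((hh' (s + x * (w - s))).im) x := by
    intro x hx
    have hpos : 0 < (s + x * (w - s)).re := by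
      have := (hmem x hx).1
      norm_num at this ⊢
      linarith
    have h1 : HasDerivAt (fun z : ℂ => s + z * (w - s)) (w - s) (x : ℂ) := by
      have := ((hasDerivAt_id (x : ℂ)).mul_const (w - s)).const_add s
      simpa using this
    have h2 : HasDerivAt (fun z : ℂ => hh (s + z * (w - s)) / (w - s))
        (hh' (s + x * (w - s))) (x : ℂ) := by
      have := (HasDerivAt.comp (x : ℂ) (hasDerivAt_hh hpos) h1).div_const (w - s)
      refine this.congr_deriv ?_
      field_simp
    have h3 := h2.comp_ofReal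
    have h4 := h3.hasFDerivAt
    have := (imCLM.hasFDerivAt.comp x h4).hasDerivAt
    simpa [Function.comp_def] using this
  obtain ⟨c, hc, hc2⟩ := exists_hasDerivAt_eq_slope
    (fun x : ℝ => (hh (s + x * (w - s)) / (w - s)).im) (fun x => (hh' (s + x * (w - s))).im)
    one_pos (fun x hx => (hder x hx).continuousAt.continuousWithinAt)
    (fun x hx => hder x ⟨hx.1.le, hx.2.le⟩)
  have hpos := im_hh'_pos (hmem c ⟨hc.1.le, hc.2.le⟩)
  simp only [ofReal_one, one_mul, ofReal_zero, zero_mul, add_zero, add_sub_cancel, h, sub_self,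
    sub_zero, div_one] at hc2
  linarith

end Pool.Agent.Helper242.RK
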