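import Pool.Agent.Helper242.RK.Zero2

set_option autoImplicit false

/-!
# Existence, uniqueness and simplicity of the lowest zero
-/

namespace Pool.Agent.Helper242.RK

open Complex Filter Topology

lemma g_approx {s : ℂ} (hs : 4 / 5 ≤ s.re) :
    ‖g s - ((2 * s ^ 2 - 3 * s) * cexp (-s) + (32 * s ^ 2 - 12 * s) * cexp (-4 * s)
      + (162 * s ^ 2 - 27 * s) * cexp (-9 * s))‖
      ≤ (1024 * ‖s‖ ^ 2 + 96 * ‖s‖) * Real.exp (-16 * s.re) := by
  have h2 := P_tail 2 (by norm_num) hs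
  have h1 := P_tail 1 (by norm_num) hs
  have e : g s - ((2 * s ^ 2 - 3 * s) * cexp (-s) + (32 * s ^ 2 - 12 * s) * cexp (-4 * s)
      + (162 * s ^ 2 - 27 * s) * cexp (-9 * s))
      = (2 * s ^ 2) * (P 2 s - (cexp (-s) + 4 ^ 2 * cexp (-4 * s) + 9 ^ 2 * cexp (-9 * s)))
      - (3 * s) * (P 1 s - (cexp (-s) + 4 ^ 1 * cexp (-4 * s) + 9 ^ 1 * cexp (-9 * s))) := by
    unfold g
    ring
  rw [e]
  refine (norm_sub_le _ _).trans ?_
  rw [norm_mul, norm_mul (3 * s), norm_mul (3 : ℂ), norm_mul (2 : ℂ), norm_pow]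
  simp only [norm_ofNat]
  calc _ ≤ 2 * ‖s‖ ^ 2 * (2 * 16 ^ 2 * Real.exp (-16 * s.re)) +
        3 * ‖s‖ * (2 * 16 ^ 1 * Real.exp (-16 * s.re)) := by
        gcongr
    _ = (1024 * ‖s‖ ^ 2 + 96 * ‖s‖) * Real.exp (-16 * s.re) := by ring

/-- the test point -/
noncomputable def s1 : ℂ := (Real.pi * (7 / 25) : ℝ) + (Real.pi * (24 / 25) : ℝ) * I

lemma s1_re : s1.re = Real.pi * (7 / 25) := by simp [s1]
lemma s1_im : s1.im = Real.pi * (24 / 25) := by simp [s1]

lemma norm_s1 : ‖s1‖ = Real.pi := by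
  have h := sq_norm_eq s1
  rw [s1_re, s1_im] at h
  have h2 : ‖s1‖ ^ 2 = Real.pi ^ 2 := by rw [h]; ring
  exact (pow_left_inj₀ (norm_nonneg _) Real.pi_pos.le two_ne_zero).1 h2

lemma E_upper : Real.exp (-(Real.pi * (7 / 25))) ≤ 0.415 := by
  have h := Real.sum_le_exp_of_nonneg (x := 0.87964) (by norm_num) 8
  have h1 : (1 / 0.415 : ℝ) ≤ Real.exp 0.87964 := by
    refine le_trans ?_ h
    norm_num [Finset.sum_range_succ, Nat.factorial]
  have h2 : Real.exp 0.87964 ≤ Real.exp (Real.pi * (7 / 25)) := by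
    refine Real.exp_le_exp.2 ?_
    have := Real.pi_gt_d6
    norm_num at this ⊢
    linarith
  rw [Real.exp_neg]
  calc (Real.exp (Real.pi * (7 / 25)))⁻¹ ≤ (1 / 0.415 : ℝ)⁻¹ :=
        inv_anti₀ (by norm_num) (h1.trans h2)
    _ = 0.415 := by norm_num

lemma E_lower : 0.4149 ≤ Real.exp (-(Real.pi * (7 / 25))) := by
  have h1 : Real.exp 0.87965 ≤ (1 / 0.4149 : ℝ) := by
    refine (Real.exp_bound' (x := 0.87965) (by norm_num) (by norm_num) (n := 8) (by norm_num)).trans ?_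
    norm_num [Finset.sum_range_succ, Nat.factorial]
  have h2 : Real.exp (Real.pi * (7 / 25)) ≤ Real.exp 0.87965 := by
    refine Real.exp_le_exp.2 ?_
    have := Real.pi_lt_d6
    norm_num at this ⊢
    linarith
  rw [Real.exp_neg]
  calc (0.4149 : ℝ) = (1 / 0.4149 : ℝ)⁻¹ := by norm_num
    _ ≤ (Real.exp (Real.pi * (7 / 25)))⁻¹ := inv_anti₀ (Real.exp_pos _) (h2.trans h1)

lemma re_g_s1 : (g s1).re < 0 := by
  have hpi1 := Real.pi_gt_d6
  have hpi2 := Real.pi_lt_d6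
  have h45 : 4 / 5 ≤ s1.re := by rw [s1_re]; norm_num at *; linarith
  have happ := g_approx h45
  rw [norm_s1, s1_re] at happ
  set M := (2 * s1 ^ 2 - 3 * s1) * cexp (-s1) + (32 * s1 ^ 2 - 12 * s1) * cexp (-4 * s1)
      + (162 * s1 ^ 2 - 27 * s1) * cexp (-9 * s1) with hM
  set E := Real.exp (-(Real.pi * (7 / 25))) with hE
  have hE1 : E ≤ 0.415 := E_upper
  have hE2 : 0.4149 ≤ E := E_lower
  have hE0 : 0 < E := Real.exp_pos _
  have en : ∀ n : ℕ, Real.exp (-(n : ℝ) * (Real.pi * (7 / 25))) = E ^ n := by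
    intro n
    rw [hE, ← Real.exp_nat_mul]; congr 1; ring
  have e16 : Real.exp (-16 * (Real.pi * (7 / 25))) = E ^ 16 := by
    rw [← en 16]; norm_num
  -- real part of the sums
  have q1r : (cexp (-s1)).re = -(E * Real.cos (Real.pi / 25)) := by
    rw [exp_re, neg_re, neg_im, s1_re, s1_im, Real.cos_neg,
      show Real.pi * (24 / 25) = Real.pi - Real.pi / 25 by ring, Real.cos_pi_sub]
    ring
  have q1i : (cexp (-s1)).im = -(E * Real.sin (Real.pi / 25)) := by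
    rw [exp_im, neg_re, neg_im, s1_re, s1_im, Real.sin_neg,
      show Real.pi * (24 / 25) = Real.pi - Real.pi / 25 by ring, Real.sin_pi_sub]
    ring
  have q4r : (cexp (-4 * s1)).re = E ^ 4 * Real.cos (4 * Real.pi / 25) := by
    have r1 : (-4 * s1).re = -4 * s1.re := by simp
    have r2 : (-4 * s1).im = -4 * s1.im := by simp
    rw [exp_re, r1, r2, s1_re, s1_im, ← en 4,
      show -4 * (Real.pi * (24 / 25)) = 4 * Real.pi / 25 - (2 : ℤ) * (2 * Real.pi) by
        push_cast; ring, Real.cos_sub_int_mul_two_pi]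
    norm_num
  have q4i : (cexp (-4 * s1)).im = E ^ 4 * Real.sin (4 * Real.pi / 25) := by
    have r1 : (-4 * s1).re = -4 * s1.re := by simp
    have r2 : (-4 * s1).im = -4 * s1.im := by simp
    rw [exp_im, r1, r2, s1_re, s1_im, ← en 4,
      show -4 * (Real.pi * (24 / 25)) = 4 * Real.pi / 25 - (2 : ℤ) * (2 * Real.pi) by
        push_cast; ring, Real.sin_sub_int_mul_two_pi]
    norm_num
  have q9r : (cexp (-9 * s1)).re = -(E ^ 9 * Real.cos (9 * Real.pi / 25)) := by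
    have r1 : (-9 * s1).re = -9 * s1.re := by simp
    have r2 : (-9 * s1).im = -9 * s1.im := by simp
    rw [exp_re, r1, r2, s1_re, s1_im, ← en 9,
      show -9 * (Real.pi * (24 / 25)) = (9 * Real.pi / 25 + Real.pi) - (5 : ℤ) * (2 * Real.pi) by
        push_cast; ring, Real.cos_sub_int_mul_two_pi, Real.cos_add_pi]
    norm_num
  have q9i : (cexp (-9 * s1)).im = -(E ^ 9 * Real.sin (9 * Real.pi / 25)) := by
    have r1 : (-9 * s1).re = -9 * s1.re := by simp
    have r2 : (-9 * s1).im = -9 * s1.im := by simp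
    rw [exp_im, r1, r2, s1_re, s1_im, ← en 9,
      show -9 * (Real.pi * (24 / 25)) = (9 * Real.pi / 25 + Real.pi) - (5 : ℤ) * (2 * Real.pi) by
        push_cast; ring, Real.sin_sub_int_mul_two_pi, Real.sin_add_pi]
    norm_num
  have hsq_re : (s1 ^ 2).re = -(527 / 625 * Real.pi ^ 2) := by
    rw [sq, mul_re, s1_re, s1_im]; ring
  have hsq_im : (s1 ^ 2).im = 336 / 625 * Real.pi ^ 2 := by
    rw [sq, mul_im, s1_re, s1_im]; ring
  have a1 : (2 * s1 ^ 2 - 3 * s1).re = -(1054 / 625 * Real.pi ^ 2 + 21 / 25 * Real.pi) := by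
    have : (2 * s1 ^ 2 - 3 * s1).re = 2 * (s1 ^ 2).re - 3 * s1.re := by
      simp [sub_re, mul_re]
    rw [this, hsq_re, s1_re]; ring
  have b1 : (2 * s1 ^ 2 - 3 * s1).im = 672 / 625 * Real.pi ^ 2 - 72 / 25 * Real.pi := by
    have : (2 * s1 ^ 2 - 3 * s1).im = 2 * (s1 ^ 2).im - 3 * s1.im := by
      simp [sub_im, mul_im]
    rw [this, hsq_im, s1_im]; ring
  have a2 : (32 * s1 ^ 2 - 12 * s1).re = -(16864 / 625 * Real.pi ^ 2 + 84 / 25 * Real.pi) := by
    have : (32 * s1 ^ 2 - 12 * s1).re = 32 * (s1 ^ 2).re - 12 * s1.re := by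
      simp [sub_re, mul_re]
    rw [this, hsq_re, s1_re]; ring
  have b2 : (32 * s1 ^ 2 - 12 * s1).im = 10752 / 625 * Real.pi ^ 2 - 288 / 25 * Real.pi := by
    have : (32 * s1 ^ 2 - 12 * s1).im = 32 * (s1 ^ 2).im - 12 * s1.im := by
      simp [sub_im, mul_im]
    rw [this, hsq_im, s1_im]; ring
  have a3 : (162 * s1 ^ 2 - 27 * s1).re = -(85374 / 625 * Real.pi ^ 2 + 189 / 25 * Real.pi) := by
    have : (162 * s1 ^ 2 - 27 * s1).re = 162 * (s1 ^ 2).re - 27 * s1.re := by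
      simp [sub_re, mul_re]
    rw [this, hsq_re, s1_re]; ring
  have b3 : (162 * s1 ^ 2 - 27 * s1).im = 54432 / 625 * Real.pi ^ 2 - 648 / 25 * Real.pi := by
    have : (162 * s1 ^ 2 - 27 * s1).im = 162 * (s1 ^ 2).im - 27 * s1.im := by
      simp [sub_im, mul_im]
    rw [this, hsq_im, s1_im]; ring
  have hMre : M.re = (E * ((1054 / 625 * Real.pi ^ 2 + 21 / 25 * Real.pi) * Real.cos (Real.pi / 25)
      + (672 / 625 * Real.pi ^ 2 - 72 / 25 * Real.pi) * Real.sin (Real.pi / 25)))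
      - E ^ 4 * ((16864 / 625 * Real.pi ^ 2 + 84 / 25 * Real.pi) * Real.cos (4 * Real.pi / 25)
        + (10752 / 625 * Real.pi ^ 2 - 288 / 25 * Real.pi) * Real.sin (4 * Real.pi / 25))
      + E ^ 9 * ((85374 / 625 * Real.pi ^ 2 + 189 / 25 * Real.pi) * Real.cos (9 * Real.pi / 25)
        + (54432 / 625 * Real.pi ^ 2 - 648 / 25 * Real.pi) * Real.sin (9 * Real.pi / 25)) := by
    rw [hM, add_re, add_re, mul_re, mul_re, mul_re, q1r, q1i, q4r, q4i, q9r, q9i,
      a1, a2, a3, b1, b2, b3]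
    ring
  have hp2 : Real.pi ^ 2 ≤ 9.8697 := by nlinarith
  have hp2' : 9.8695 ≤ Real.pi ^ 2 := by nlinarith
  -- trig bounds
  have hc1 : Real.cos (Real.pi / 25) ≤ 1 := Real.cos_le_one _
  have hs1 : Real.sin (Real.pi / 25) ≤ 0.1257 := by
    refine (Real.sin_le (by positivity)).trans ?_
    norm_num at *; linarith
  have hs1' : 0 ≤ Real.sin (Real.pi / 25) :=
    Real.sin_nonneg_of_nonneg_of_le_pi (by positivity) (by linarith [Real.pi_pos])
  have hx : 4 * Real.pi / 25 ≤ 0.50267 := by norm_num at *; linarith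
  have hx' : 0.5026 ≤ 4 * Real.pi / 25 := by norm_num at *; linarith
  have hc4 : 0.873 ≤ Real.cos (4 * Real.pi / 25) := by
    refine le_trans ?_ (Real.one_sub_sq_div_two_le_cos)
    have : (4 * Real.pi / 25) ^ 2 ≤ 0.50267 ^ 2 := by gcongr
    norm_num at this ⊢
    linarith
  have hs4 : 0.48 ≤ Real.sin (4 * Real.pi / 25) := by
    refine le_trans ?_ (Real.sin_gt_sub_cube (by positivity)).le
    have : (4 * Real.pi / 25) ^ 3 ≤ 0.50267 ^ 3 := by gcongr
    norm_num at this hx' ⊢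
    linarith
  have hc9 : Real.cos (9 * Real.pi / 25) ≤ 1 / 2 := by
    rw [← Real.cos_pi_div_three]
    apply Real.cos_le_cos_of_nonneg_of_le_pi <;> linarith [Real.pi_pos]
  have hs9 : Real.sin (9 * Real.pi / 25) ≤ 1 := Real.sin_le_one _
  -- bounds of the three parts
  have t1 : E * ((1054 / 625 * Real.pi ^ 2 + 21 / 25 * Real.pi) * Real.cos (Real.pi / 25)
      + (672 / 625 * Real.pi ^ 2 - 72 / 25 * Real.pi) * Real.sin (Real.pi / 25)) ≤ 8.1 := by
    have u1 : (1054 / 625 * Real.pi ^ 2 + 21 / 25 * Real.pi) * Real.cos (Real.pi / 25) ≤ 19.29 := by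
      have v1 : (1054 / 625 * Real.pi ^ 2 + 21 / 25 * Real.pi) ≤ 19.29 := by
        norm_num at *; linarith
      calc _ ≤ (1054 / 625 * Real.pi ^ 2 + 21 / 25 * Real.pi) * 1 := by gcongr
        _ ≤ _ := by linarith
    have u2 : (672 / 625 * Real.pi ^ 2 - 72 / 25 * Real.pi) * Real.sin (Real.pi / 25)
        ≤ 1.57 * 0.1257 := by
      have v1 : (672 / 625 * Real.pi ^ 2 - 72 / 25 * Real.pi) ≤ 1.57 := by
        norm_num at *; linarith
      gcongr
    calc E * ((1054 / 625 * Real.pi ^ 2 + 21 / 25 * Real.pi) * Real.cos (Real.pi / 25)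
      + (672 / 625 * Real.pi ^ 2 - 72 / 25 * Real.pi) * Real.sin (Real.pi / 25))
          ≤ E * (19.29 + 1.57 * 0.1257) := mul_le_mul_of_nonneg_left (add_le_add u1 u2) hE0.le
      _ ≤ 0.415 * (19.29 + 1.57 * 0.1257) := mul_le_mul_of_nonneg_right hE1 (by norm_num)
      _ ≤ 8.1 := by norm_num
  have t2 : 9 ≤ E ^ 4 * ((16864 / 625 * Real.pi ^ 2 + 84 / 25 * Real.pi) *
      Real.cos (4 * Real.pi / 25)
        + (10752 / 625 * Real.pi ^ 2 - 288 / 25 * Real.pi) * Real.sin (4 * Real.pi / 25)) := by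
    have v1 : 276.8 ≤ (16864 / 625 * Real.pi ^ 2 + 84 / 25 * Real.pi) := by
      norm_num at *; linarith
    have v2 : 133.5 ≤ (10752 / 625 * Real.pi ^ 2 - 288 / 25 * Real.pi) := by
      norm_num at *; linarith
    calc (9 : ℝ) ≤ 0.4149 ^ 4 * (276.8 * 0.873 + 133.5 * 0.48) := by norm_num
      _ ≤ _ := by gcongr
  have t3 : E ^ 9 * ((85374 / 625 * Real.pi ^ 2 + 189 / 25 * Real.pi) *
      Real.cos (9 * Real.pi / 25)
        + (54432 / 625 * Real.pi ^ 2 - 648 / 25 * Real.pi) * Real.sin (9 * Real.pi / 25)) ≤ 0.6 := by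
    have v1 : (85374 / 625 * Real.pi ^ 2 + 189 / 25 * Real.pi) ≤ 1372.1 := by
      norm_num at *; linarith
    have v2 : (54432 / 625 * Real.pi ^ 2 - 648 / 25 * Real.pi) ≤ 778.3 := by
      norm_num at *; linarith
    have v2' : 0 ≤ (54432 / 625 * Real.pi ^ 2 - 648 / 25 * Real.pi) := by
      norm_num at *; linarith
    have w1 : (85374 / 625 * Real.pi ^ 2 + 189 / 25 * Real.pi) * Real.cos (9 * Real.pi / 25)
        ≤ 1372.1 * (1 / 2) := by
      calc _ ≤ (85374 / 625 * Real.pi ^ 2 + 189 / 25 * Real.pi) * (1 / 2) := by gcongr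
        _ ≤ _ := by gcongr
    have w2 : (54432 / 625 * Real.pi ^ 2 - 648 / 25 * Real.pi) * Real.sin (9 * Real.pi / 25)
        ≤ 778.3 * 1 := by
      calc _ ≤ (54432 / 625 * Real.pi ^ 2 - 648 / 25 * Real.pi) * 1 := by gcongr
        _ ≤ _ := by gcongr
    calc _ ≤ E ^ 9 * (1372.1 * (1 / 2) + 778.3 * 1) := by gcongr
      _ ≤ 0.415 ^ 9 * (1372.1 * (1 / 2) + 778.3 * 1) := by gcongr
      _ ≤ 0.6 := by norm_num
  have t4 : (1024 * Real.pi ^ 2 + 96 * Real.pi) * Real.exp (-16 * (Real.pi * (7 / 25))) ≤ 0.01 := by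
    rw [e16]
    have w : E ^ 16 ≤ 0.415 ^ 16 := pow_le_pow_left₀ hE0.le hE1 16
    calc (1024 * Real.pi ^ 2 + 96 * Real.pi) * E ^ 16
        ≤ (1024 * 9.8697 + 96 * 3.141593) * 0.415 ^ 16 := by
          refine mul_le_mul ?_ w (by positivity) (by norm_num)
          norm_num at *; linarith
      _ ≤ 0.01 := by norm_num
  have t5 : |(g s1 - M).re| ≤ 0.01 := (abs_re_le_norm _).trans (happ.trans t4)
  rw [sub_re] at t5
  have := (abs_le.1 t5).2
  rw [hMre] at this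
  norm_num at *
  linarith

end Pool.Agent.Helper242.RK
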