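import Pool.Agent.Helper242.RK.Zero3

set_option autoImplicit false

/-!
# The zero `i y0` and the factorisation of the kernel
-/

namespace Pool.Agent.Helper242.RK

open Complex Filter Topology

/-- height of the strip we work in -/
noncomputable def y1 : ℝ := Real.arccos (7 / 25) / 4

lemma y1_pos : 0 < y1 := by
  have : 0 < Real.arccos (7 / 25) := Real.arccos_pos.2 (by norm_num)
  unfold y1; linarith

lemma y1_lt : y1 < Real.pi / 8 := by
  have : Real.arccos (7 / 25) < Real.pi / 2 := Real.arccos_lt_pi_div_two.2 (by norm_num)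
  unfold y1; linarith

lemma cos_4y1 : Real.cos (4 * y1) = 7 / 25 := by
  unfold y1
  rw [show 4 * (Real.arccos (7 / 25) / 4) = Real.arccos (7 / 25) by ring]
  exact Real.cos_arccos (by norm_num) (by norm_num)

lemma sin_4y1 : Real.sin (4 * y1) = 24 / 25 := by
  unfold y1
  rw [show 4 * (Real.arccos (7 / 25) / 4) = Real.arccos (7 / 25) by ring, Real.sin_arccos]
  rw [show (1 : ℝ) - (7 / 25) ^ 2 = (24 / 25) ^ 2 by norm_num]
  exact Real.sqrt_sq (by norm_num)

lemma arg_y1 : (Real.pi : ℂ) * cexp (4 * ((y1 : ℂ) * I)) = s1 := by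
  have h : (4 : ℂ) * ((y1 : ℂ) * I) = ((4 * y1 : ℝ) : ℂ) * I := by push_cast; ring
  rw [h, exp_mul_I, ← ofReal_cos, ← ofReal_sin, cos_4y1, sin_4y1, s1]
  push_cast
  ring

lemma mem_S_I {y : ℝ} (hy : |y| < Real.pi / 8) : (y : ℂ) * I ∈ S := by
  simp only [S, Set.mem_ofPred_eq]
  simpa using hy

lemma im_PhiC_I {y : ℝ} (hy : |y| < Real.pi / 8) : (PhiC ((y : ℂ) * I)).im = 0 := by
  have h1 := conj_PhiC ((y : ℂ) * I)
  have h2 : (starRingEnd ℂ) ((y : ℂ) * I) = -((y : ℂ) * I) := by simp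
  rw [h2, PhiC_even (mem_S_I hy)] at h1
  exact conj_eq_iff_im.1 h1.symm

lemma PhiC_y1_neg : (PhiC ((y1 : ℂ) * I)).re < 0 := by
  have h1 : (PhiC ((y1 : ℂ) * I)).im = 0 :=
    im_PhiC_I (by rw [abs_of_pos y1_pos]; exact y1_lt)
  set r := (PhiC ((y1 : ℂ) * I)).re with hr
  have h2 : PhiC ((y1 : ℂ) * I) = (r : ℂ) := by
    apply Complex.ext
    · simp [hr]
    · simp [h1]
  have h3 : g s1 = r * cexp (-((y1 : ℂ) * I)) := by
    have : PhiC ((y1 : ℂ) * I) = cexp ((y1 : ℂ) * I) * g s1 := by rw [PhiC, arg_y1]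
    rw [← h2, this, mul_right_comm, ← exp_add]
    simp
  have h4 := re_g_s1
  rw [h3] at h4
  have h5 : (cexp (-((y1 : ℂ) * I))).re = Real.cos y1 := by
    rw [exp_re]; simp
  rw [re_ofReal_mul, h5] at h4
  have hc : 0 < Real.cos y1 := Real.cos_pos_of_mem_Ioo
    ⟨by linarith [y1_pos, Real.pi_pos], by linarith [y1_lt, Real.pi_pos]⟩
  by_contra hcon
  push Not at hcon
  nlinarith [mul_nonneg hcon hc.le]

lemma exists_y0 : ∃ y0 : ℝ, 0 < y0 ∧ y0 < y1 ∧ PhiC ((y0 : ℂ) * I) = 0 := by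
  have hcont : ContinuousOn (fun y : ℝ => (PhiC ((y : ℂ) * I)).re) (Set.Icc 0 y1) := by
    intro y hy
    have hmem : (y : ℂ) * I ∈ S := mem_S_I (by rw [abs_of_nonneg hy.1]; exact hy.2.trans_lt y1_lt)
    have h1 : ContinuousAt PhiC ((y : ℂ) * I) := (differentiableAt_PhiC hmem).continuousAt
    have h2 : ContinuousAt (fun y : ℝ => (y : ℂ) * I) y := by fun_prop
    exact (continuous_re.continuousAt.comp
      (ContinuousAt.comp (f := fun y : ℝ => (y : ℂ) * I) h1 h2)).continuousWithinAt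
  have h0 : (0 : ℝ) < (PhiC (((0 : ℝ) : ℂ) * I)).re := by
    have := PhiC_ofReal 0
    simp only [ofReal_zero, zero_mul] at this ⊢
    rw [this, ofReal_re]
    exact Phi_pos 0
  have hmem : (0 : ℝ) ∈ Set.Icc ((fun y : ℝ => (PhiC ((y : ℂ) * I)).re) y1)
      ((fun y : ℝ => (PhiC ((y : ℂ) * I)).re) 0) := ⟨PhiC_y1_neg.le, h0.le⟩
  obtain ⟨c, hc, hc0⟩ := intermediate_value_Icc' y1_pos.le hcont hmem
  simp only at hc0
  refine ⟨c, lt_of_le_of_ne hc.1 ?_, lt_of_le_of_ne hc.2 ?_, ?_⟩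
  · rintro rfl
    rw [hc0] at h0; exact lt_irrefl _ h0
  · rintro rfl
    have := PhiC_y1_neg
    rw [hc0] at this; exact lt_irrefl _ this
  · have him := im_PhiC_I (y := c) (by rw [abs_of_nonneg hc.1]; exact hc.2.trans_lt y1_lt)
    apply Complex.ext
    · simpa using hc0
    · simpa using him

/-- zeros in the quadrant are mapped into `Q`. -/
lemma zero_mem_Q {t : ℂ} (hre : 0 ≤ t.re) (him : 0 ≤ t.im) (him1 : t.im ≤ y1) (h0 : PhiC t = 0) :
    (Real.pi : ℂ) * cexp (4 * t) ∈ Q ∧ hh ((Real.pi : ℂ) * cexp (4 * t)) = 0 := by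
  set s := (Real.pi : ℂ) * cexp (4 * t) with hs
  have hmem : t ∈ S := mem_S_of_le y1_lt (by rw [abs_of_nonneg him]; exact him1)
  have hspos : 0 < s.re := re_pos_of_S hmem
  have hs0 : s ≠ 0 := by
    intro h; rw [h] at hspos; simp at hspos
  have hhz : hh s = 0 := by
    rw [PhiC, ← hs, g_eq_hh] at h0
    rcases mul_eq_zero.1 h0 with h | h
    · exact absurd h (exp_ne_zero _)
    · rcases mul_eq_zero.1 h with h | h
      · rcases mul_eq_zero.1 h with h | h
        · exact absurd h hs0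
        · exact absurd h (exp_ne_zero _)
      · exact h
  refine ⟨?_, hhz⟩
  have hpi1 := Real.pi_gt_d6
  have hpi2 := Real.pi_lt_d6
  have hexp : 1 ≤ Real.exp (4 * t.re) := Real.one_le_exp (by linarith)
  have hnorm : ‖s‖ = Real.pi * Real.exp (4 * t.re) := by
    rw [hs, norm_mul, norm_real, Real.norm_of_nonneg Real.pi_pos.le, norm_exp]
    simp
  have hsre : s.re = Real.pi * Real.exp (4 * t.re) * Real.cos (4 * t.im) := by
    rw [hs, re_exp4]
  have hsim : s.im = Real.pi * Real.exp (4 * t.re) * Real.sin (4 * t.im) := by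
    rw [hs, im_ofReal_mul, exp_im]
    have h1 : (4 * t).re = 4 * t.re := by simp
    have h2 : (4 * t).im = 4 * t.im := by simp
    rw [h1, h2]; ring
  have hnpi : Real.pi ≤ ‖s‖ := by rw [hnorm]; nlinarith [Real.pi_pos]
  have h95 : s.re < 0.95 := by
    by_contra hcon
    push Not at hcon
    exact hh_ne_zero hcon hnpi hhz
  have hcos : 7 / 25 ≤ Real.cos (4 * t.im) := by
    rw [← cos_4y1]
    apply Real.cos_le_cos_of_nonneg_of_le_pi <;> linarith [y1_lt, Real.pi_pos]
  have hsin0 : 0 ≤ Real.sin (4 * t.im) :=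
    Real.sin_nonneg_of_nonneg_of_le_pi (by linarith) (by linarith [y1_lt, Real.pi_pos])
  have hsin : Real.sin (4 * t.im) ≤ 24 / 25 := by
    rw [← sin_4y1]
    apply Real.sin_le_sin_of_le_of_le_pi_div_two <;> linarith [y1_lt, Real.pi_pos]
  have hR : 0 < Real.pi * Real.exp (4 * t.re) := by positivity
  have hR1 : Real.pi ≤ Real.pi * Real.exp (4 * t.re) := by nlinarith [Real.pi_pos]
  have c1 : 0.879 ≤ s.re := by
    rw [hsre]
    calc (0.879 : ℝ) ≤ Real.pi * (7 / 25) := by norm_num at *; linarith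
      _ ≤ Real.pi * Real.exp (4 * t.re) * Real.cos (4 * t.im) := by gcongr
  have c2 : s.im ≤ 24 / 7 * s.re := by
    rw [hsim, hsre]
    have : Real.sin (4 * t.im) ≤ 24 / 7 * Real.cos (4 * t.im) := by linarith
    nlinarith
  have c3 : 0 ≤ s.im := by rw [hsim]; positivity
  have c4 : s.im ≤ 3.26 := by norm_num at *; linarith
  have c5 : 2.99 ≤ s.im := by
    have h := sq_norm_eq s
    have h2 : Real.pi ^ 2 ≤ ‖s‖ ^ 2 := by gcongr
    have h3 : s.re ^ 2 ≤ 0.95 ^ 2 := by gcongr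
    have h4 : (9.869 : ℝ) ≤ Real.pi ^ 2 := by nlinarith
    by_contra hcon
    push Not at hcon
    have h5 : s.im ^ 2 ≤ 2.99 ^ 2 := by gcongr
    norm_num at *
    linarith
  exact ⟨c1, h95.le, c5, c4⟩

lemma zero_unique_quadrant {y0 : ℝ} (hy0 : 0 < y0) (hy01 : y0 < y1) (hz : PhiC ((y0 : ℂ) * I) = 0)
    {t : ℂ} (hre : 0 ≤ t.re) (him : 0 ≤ t.im) (him1 : t.im ≤ y1) (h0 : PhiC t = 0) :
    t = (y0 : ℂ) * I := by
  obtain ⟨hQ1, hz1⟩ := zero_mem_Q hre him him1 h0
  obtain ⟨hQ2, hz2⟩ := zero_mem_Q (t := (y0 : ℂ) * I) (by simp) (by simpa using hy0.le)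
    (by simpa using hy01.le) hz
  have h := hh_injOn hQ1 hQ2 (hz1.trans hz2.symm)
  have h2 : cexp (4 * t) = cexp (4 * ((y0 : ℂ) * I)) :=
    mul_left_cancel₀ (by exact_mod_cast Real.pi_ne_zero) h
  have h3 : 4 * t = 4 * ((y0 : ℂ) * I) := by
    have hy := y1_lt
    have hp := Real.pi_pos
    apply exp_inj_of_neg_pi_lt_of_le_pi _ _ _ _ h2
    · simp; linarith
    · simp; linarith
    · simp; linarith
    · simp; linarith
  exact mul_left_cancel₀ (by norm_num) h3

lemma zero_unique {y0 : ℝ} (hy0 : 0 < y0) (hy01 : y0 < y1) (hz : PhiC ((y0 : ℂ) * I) = 0)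
    {t : ℂ} (him1 : |t.im| ≤ y1) (h0 : PhiC t = 0) :
    t = (y0 : ℂ) * I ∨ t = -((y0 : ℂ) * I) := by
  have hS : t ∈ S := mem_S_of_le y1_lt him1
  have hneg : PhiC (-t) = 0 := by rw [PhiC_even hS, h0]
  have hconj : PhiC ((starRingEnd ℂ) t) = 0 := by rw [conj_PhiC, h0, map_zero]
  have hconjneg : PhiC ((starRingEnd ℂ) (-t)) = 0 := by rw [conj_PhiC, hneg, map_zero]
  have hb := abs_le.1 him1
  rcases le_total 0 t.re with hre | hre
  · rcases le_total 0 t.im with him | him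
    · left; exact zero_unique_quadrant hy0 hy01 hz hre him hb.2 h0
    · right
      have := zero_unique_quadrant hy0 hy01 hz (t := (starRingEnd ℂ) t) (by simpa using hre)
        (by simpa using him) (by simp; linarith) hconj
      have h2 := congrArg (starRingEnd ℂ) this
      simpa using h2
  · rcases le_total 0 t.im with him | him
    · left
      have := zero_unique_quadrant hy0 hy01 hz (t := (starRingEnd ℂ) (-t)) (by simpa using hre)
        (by simpa using him) (by simpa using hb.2) hconjneg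
      have h2 := congrArg (starRingEnd ℂ) this
      simpa using h2
    · right
      have := zero_unique_quadrant hy0 hy01 hz (t := -t) (by simpa using hre)
        (by simpa using him) (by simp; linarith) hneg
      rw [← this]; simp

lemma deriv_ne_zero {y0 : ℝ} (hy0 : 0 < y0) (hy01 : y0 < y1) (hz : PhiC ((y0 : ℂ) * I) = 0) :
    deriv PhiC ((y0 : ℂ) * I) ≠ 0 := by
  obtain ⟨hQ, hz2⟩ := zero_mem_Q (t := (y0 : ℂ) * I) (by simp) (by simpa using hy0.le)
    (by simpa using hy01.le) hz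
  set t0 : ℂ := (y0 : ℂ) * I with ht0
  have hS : t0 ∈ S := mem_S_I (by rw [abs_of_pos hy0]; linarith [y1_lt])
  set s := (Real.pi : ℂ) * cexp (4 * t0) with hs
  have hspos : 0 < s.re := re_pos_of_S hS
  have hs0 : s ≠ 0 := by
    intro h; rw [h] at hspos; simp at hspos
  have h1 : HasDerivAt (fun t : ℂ => hh ((Real.pi : ℂ) * cexp (4 * t))) (hh' s * (4 * s)) t0 :=
    HasDerivAt.comp t0 (hasDerivAt_hh hspos) (hasDerivAt_arg t0)
  have h2 : PhiC = fun t : ℂ => (cexp t * ((Real.pi : ℂ) * cexp (4 * t)) *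
      cexp (-((Real.pi : ℂ) * cexp (4 * t)))) * hh ((Real.pi : ℂ) * cexp (4 * t)) := by
    funext t
    rw [PhiC, g_eq_hh]
    ring
  have h3 : DifferentiableAt ℂ (fun t : ℂ => (cexp t * ((Real.pi : ℂ) * cexp (4 * t)) *
      cexp (-((Real.pi : ℂ) * cexp (4 * t))))) t0 := by fun_prop
  have h4 := h3.hasDerivAt.mul h1
  rw [h2]
  have h5 := h4.deriv
  have h6 : (fun t : ℂ => (cexp t * ((Real.pi : ℂ) * cexp (4 * t)) *
      cexp (-((Real.pi : ℂ) * cexp (4 * t)))) * hh ((Real.pi : ℂ) * cexp (4 * t))) =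
      (fun t : ℂ => (cexp t * ((Real.pi : ℂ) * cexp (4 * t)) *
      cexp (-((Real.pi : ℂ) * cexp (4 * t))))) * (fun t : ℂ => hh ((Real.pi : ℂ) * cexp (4 * t))) :=
    rfl
  rw [h6, h5, ← hs, hz2, mul_zero, zero_add]
  refine mul_ne_zero (mul_ne_zero (mul_ne_zero (exp_ne_zero _) hs0) (exp_ne_zero _))
    (mul_ne_zero ?_ (mul_ne_zero (by norm_num) hs0))
  intro h
  have := im_hh'_pos hQ
  rw [h] at this
  simp at this

/-- open strip -/
def U (Y : ℝ) : Set ℂ := {t | |t.im| < Y}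

lemma isOpen_U (Y : ℝ) : IsOpen (U Y) := isOpen_lt (continuous_abs.comp continuous_im) continuous_const

lemma convex_U (Y : ℝ) : Convex ℝ (U Y) := by
  have h1 : Convex ℝ {s : ℂ | s.im < Y} := convex_halfSpace_im_lt _
  have h2 : Convex ℝ {s : ℂ | -Y < s.im} := convex_halfSpace_im_gt _
  have : U Y = {s : ℂ | -Y < s.im} ∩ {s : ℂ | s.im < Y} := by
    ext t; simp [U, abs_lt]
  rw [this]
  exact h2.inter h1

/-- Factorisation of the kernel. -/
lemma exists_factor {y0 : ℝ} (hy0 : 0 < y0) (hy01 : y0 < y1) (hz : PhiC ((y0 : ℂ) * I) = 0) :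
    ∃ Ψ : ℂ → ℂ, DifferentiableOn ℂ Ψ (U y1) ∧ (∀ t ∈ U y1, Ψ t ≠ 0) ∧
      ∀ t ∈ U y1, PhiC t = (t ^ 2 + y0 ^ 2) * Ψ t := by
  set a : ℂ := (y0 : ℂ) * I with ha
  have haU : a ∈ U y1 := by
    simp only [U, Set.mem_ofPred_eq, ha]; simp [abs_of_pos hy0, hy01]
  have haU' : -a ∈ U y1 := by
    simp only [U, Set.mem_ofPred_eq, ha]; simp [abs_of_pos hy0, hy01]
  have hUS : U y1 ⊆ S := fun t ht => mem_S_of_le y1_lt (le_of_lt ht)
  have ha0 : a ≠ 0 := by
    rw [ha]; simp [hy0.ne']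
  have hd : DifferentiableOn ℂ PhiC (U y1) := differentiableOn_PhiC.mono hUS
  set f1 := dslope PhiC a with hf1
  have hd1 : DifferentiableOn ℂ f1 (U y1) :=
    (differentiableOn_dslope ((isOpen_U y1).mem_nhds haU)).2 hd
  have e1 : ∀ t, PhiC t = (t - a) * f1 t := by
    intro t
    have := sub_smul_dslope PhiC a t
    rw [hz, sub_zero, smul_eq_mul] at this
    exact this.symm
  have hza : PhiC (-a) = 0 := by rw [PhiC_even (hUS haU), hz]
  have hf1a : f1 (-a) = 0 := by
    have := e1 (-a)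
    rw [hza] at this
    rcases mul_eq_zero.1 this.symm with h | h
    · exfalso; apply ha0
      have : (-2 : ℂ) * a = 0 := by linear_combination h
      simpa using this
    · exact h
  set f2 := dslope f1 (-a) with hf2
  have hd2 : DifferentiableOn ℂ f2 (U y1) :=
    (differentiableOn_dslope ((isOpen_U y1).mem_nhds haU')).2 hd1
  have e2 : ∀ t, f1 t = (t + a) * f2 t := by
    intro t
    have := sub_smul_dslope f1 (-a) t
    rw [hf1a, sub_zero, smul_eq_mul, sub_neg_eq_add] at this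
    exact this.symm
  have hsq : a ^ 2 = -(y0 : ℂ) ^ 2 := by
    rw [ha, mul_pow, I_sq]; ring
  have e3 : ∀ t, PhiC t = (t ^ 2 + y0 ^ 2) * f2 t := by
    intro t
    rw [e1 t, e2 t]
    linear_combination (-(f2 t)) * hsq
  refine ⟨f2, hd2, ?_, fun t _ => e3 t⟩
  intro t ht h0
  have h1 : PhiC t = 0 := by rw [e3 t, h0, mul_zero]
  have hderiv := deriv_ne_zero hy0 hy01 hz
  have hder : HasDerivAt PhiC (deriv PhiC a) a :=
    (differentiableAt_PhiC (hUS haU)).hasDerivAt
  rcases zero_unique hy0 hy01 hz (le_of_lt ht) h1 with h | h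
  · -- at a
    rw [← ha] at h
    have hf : f1 a = 0 := by rw [← h, e2, h0, mul_zero]
    rw [hf1, dslope_same] at hf
    exact hderiv hf
  · rw [← ha] at h
    -- at -a
    have h2 : HasDerivAt PhiC (-(deriv PhiC a)) (-a) := by
      have h3 : HasDerivAt (fun t => PhiC (-t)) (-(deriv PhiC a)) (-a) := by
        have h4 : HasDerivAt PhiC (deriv PhiC a) (-(-a)) := by rw [neg_neg]; exact hder
        have := h4.scomp (-a) (hasDerivAt_neg (-a))
        simpa [Function.comp_def] using this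
      refine h3.congr_of_eventuallyEq ?_
      filter_upwards [(isOpen_U y1).mem_nhds haU'] with u hu
      exact (PhiC_even (hUS hu)).symm
    have h3 : HasDerivAt PhiC ((-a - a) * deriv f1 (-a)) (-a) := by
      have h4 : HasDerivAt f1 (deriv f1 (-a)) (-a) :=
        ((hd1 (-a) haU').differentiableAt ((isOpen_U y1).mem_nhds haU')).hasDerivAt
      have h5 := ((hasDerivAt_id (-a)).sub_const a).mul h4
      have h6 : PhiC = (fun t => id t - a) * f1 := by
        funext t; exact e1 t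
      rw [h6]
      refine h5.congr_deriv ?_
      rw [hf1a]; simp
    have h4 := h2.unique h3
    have h5 : deriv f1 (-a) = 0 := by
      have : f2 (-a) = deriv f1 (-a) := by rw [hf2, dslope_same]
      rw [← this, ← h, h0]
    rw [h5, mul_zero] at h4
    exact hderiv (neg_eq_zero.1 h4)

end Pool.Agent.Helper242.RK
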